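import Mathlib

set_option autoImplicit false

/-! # Almost everywhere convergence of averages with small second moments, and Weyl sums over separated
sequences -/

namespace Pool.Agent.Q138.Met

open Filter Topology MeasureTheory Set Finset
open scoped ENNReal NNReal

/-- a series of nonnegative functions with summable integrals converges almost everywhere -/
theorem ae_summable {μ : Measure ℝ} (F : ℕ → ℝ → ℝ) (hF : ∀ k, AEMeasurable (F k) μ)
    (h0 : ∀ k t, 0 ≤ F k t) {g : ℕ → ℝ} (hg : Summable g)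
    (hFg : ∀ k, ∫⁻ t, ENNReal.ofReal (F k t) ∂μ ≤ ENNReal.ofReal (g k)) :
    ∀ᵐ t ∂μ, Summable (fun k => F k t) := by
  have h1 : ∫⁻ t, ∑' k, ENNReal.ofReal (F k t) ∂μ ≠ ∞ := by
    rw [lintegral_tsum fun k => (hF k).ennreal_ofReal]
    refine ne_top_of_le_ne_top hg.tsum_ofReal_ne_top (ENNReal.tsum_le_tsum hFg)
  have h2 := ae_lt_top' (AEMeasurable.tsum fun k => (hF k).ennreal_ofReal) h1
  filter_upwards [h2] with t ht
  have h3 := ENNReal.summable_toReal ht.ne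
  refine h3.congr fun k => ?_
  exact ENNReal.toReal_ofReal (h0 k t)

/-- averages of a nonnegative sequence with `∑ T k / (k + 1) < ∞` tend to zero -/
theorem avg_zero_of_summable {T : ℕ → ℝ} (h0 : ∀ k, 0 ≤ T k)
    (h : Summable fun k : ℕ => T k / ((k : ℝ) + 1)) :
    Tendsto (fun K : ℕ => (∑ k ∈ Finset.range K, T k) / K) atTop (𝓝 0) := by
  rw [Metric.tendsto_atTop]
  intro ε hε
  have hn : ∀ k : ℕ, 0 ≤ T k / ((k : ℝ) + 1) := fun k => div_nonneg (h0 k) (by positivity)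
  have htail := h.hasSum.tendsto_sum_nat
  have h1 : ∀ᶠ K in atTop, (∑' k : ℕ, T k / ((k : ℝ) + 1)) - ε / 2 <
      ∑ k ∈ Finset.range K, T k / ((k : ℝ) + 1) := htail.eventually_const_lt (by linarith)
  obtain ⟨K0, hK0⟩ := h1.exists
  set S0 := ∑ k ∈ Finset.range K0, T k with hS0
  have hS00 : 0 ≤ S0 := Finset.sum_nonneg fun k _ => h0 k
  obtain ⟨K1, hK1⟩ := exists_nat_gt (2 * S0 / ε)
  refine ⟨K0 + K1 + 1, fun K hK => ?_⟩
  have hKpos : (0 : ℝ) < K := by exact_mod_cast (by omega : 0 < K)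
  have hnn : 0 ≤ (∑ k ∈ Finset.range K, T k) / K :=
    div_nonneg (Finset.sum_nonneg fun k _ => h0 k) hKpos.le
  rw [Real.dist_eq, sub_zero, abs_of_nonneg hnn, div_lt_iff₀ hKpos]
  have hsplit : ∑ k ∈ Finset.range K, T k = S0 + ∑ k ∈ Finset.Ico K0 K, T k := by
    rw [hS0, Finset.sum_range_add_sum_Ico _ (by omega)]
  have hb : ∑ k ∈ Finset.Ico K0 K, T k ≤ K * ∑ k ∈ Finset.Ico K0 K, T k / ((k : ℝ) + 1) := by
    rw [Finset.mul_sum]
    refine Finset.sum_le_sum fun k hk => ?_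
    rw [Finset.mem_Ico] at hk
    have h2 : (k : ℝ) + 1 ≤ K := by exact_mod_cast hk.2
    have h3 : 0 < (k : ℝ) + 1 := by positivity
    calc T k = ((k : ℝ) + 1) * (T k / ((k : ℝ) + 1)) := by field_simp
      _ ≤ K * (T k / ((k : ℝ) + 1)) := mul_le_mul_of_nonneg_right h2 (hn k)
  have hc : ∑ k ∈ Finset.Ico K0 K, T k / ((k : ℝ) + 1) < ε / 2 := by
    have h4 : ∑ k ∈ Finset.range K, T k / ((k : ℝ) + 1) ≤ ∑' k : ℕ, T k / ((k : ℝ) + 1) :=
      h.sum_le_tsum _ fun k _ => hn k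
    have h5 := Finset.sum_range_add_sum_Ico (fun k : ℕ => T k / ((k : ℝ) + 1))
      (by omega : K0 ≤ K)
    linarith
  have hd : S0 < ε / 2 * K := by
    have h6 : (K1 : ℝ) ≤ K := by exact_mod_cast (by omega : K1 ≤ K)
    have h7 : 2 * S0 / ε < K := lt_of_lt_of_le hK1 h6
    rw [div_lt_iff₀ hε] at h7
    linarith
  have he : (K : ℝ) * ∑ k ∈ Finset.Ico K0 K, T k / ((k : ℝ) + 1) ≤ K * (ε / 2) :=
    mul_le_mul_of_nonneg_left hc.le hKpos.le
  rw [hsplit]
  linarith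

/-- averages along all integers from averages along the squares, for slowly growing terms -/
theorem avg_zero_of_squares {x : ℕ → ℝ} {C : ℝ} (hC : 0 ≤ C)
    (hB : ∀ k : ℕ, |x k| ≤ C * ((k : ℝ) + 1) ^ (1 / 10 : ℝ))
    (hsq : Tendsto (fun j : ℕ => (∑ k ∈ Finset.range (j ^ 2), x k) / ((j : ℝ) ^ 2)) atTop (𝓝 0)) :
    Tendsto (fun K : ℕ => (∑ k ∈ Finset.range K, x k) / K) atTop (𝓝 0) := by
  have hsqrt : Tendsto Nat.sqrt atTop atTop := by
    rw [tendsto_atTop]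
    intro b
    filter_upwards [eventually_ge_atTop (b * b)] with K hK
    exact Nat.le_sqrt.2 hK
  have h1 : Tendsto (fun K : ℕ => |(∑ k ∈ Finset.range (Nat.sqrt K ^ 2), x k) /
      ((Nat.sqrt K : ℝ) ^ 2)|) atTop (𝓝 0) := by
    have := (hsq.comp hsqrt).abs
    rwa [abs_zero] at this
  have h2 : Tendsto (fun K : ℕ => 4 * C * (K : ℝ) ^ (-(2 / 5) : ℝ)) atTop (𝓝 0) := by
    have := ((tendsto_rpow_neg_atTop (y := 2 / 5) (by norm_num)).comp
      tendsto_natCast_atTop_atTop).const_mul (4 * C)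
    rwa [mul_zero] at this
  have h3 := h1.add h2
  rw [add_zero] at h3
  refine squeeze_zero_norm' ?_ h3
  filter_upwards [eventually_ge_atTop 1] with K hK
  have hK0 : (0 : ℝ) < K := by exact_mod_cast hK
  have hK1 : (1 : ℝ) ≤ K := by exact_mod_cast hK
  set j := Nat.sqrt K with hj
  have hj1 : 1 ≤ j := Nat.le_sqrt.2 (by omega)
  have hjK : j ^ 2 ≤ K := by rw [hj, sq]; exact Nat.sqrt_le K
  have hKj : K < (j + 1) ^ 2 := by rw [hj, sq]; exact Nat.lt_succ_sqrt K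
  have hj0 : (0 : ℝ) < j := by exact_mod_cast hj1
  have hjK' : (j : ℝ) ^ 2 ≤ K := by exact_mod_cast hjK
  have hsplit : ∑ k ∈ Finset.range K, x k =
      ∑ k ∈ Finset.range (j ^ 2), x k + ∑ k ∈ Finset.Ico (j ^ 2) K, x k :=
    (Finset.sum_range_add_sum_Ico _ hjK).symm
  have hpow : ((K : ℝ) + 1) ^ (1 / 10 : ℝ) ≤ 2 * (K : ℝ) ^ (1 / 10 : ℝ) := by
    have h4 : (K : ℝ) + 1 ≤ 2 * K := by linarith
    have h5 : ((K : ℝ) + 1) ^ (1 / 10 : ℝ) ≤ (2 * K) ^ (1 / 10 : ℝ) :=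
      Real.rpow_le_rpow (by positivity) h4 (by norm_num)
    rw [Real.mul_rpow (by norm_num) hK0.le] at h5
    have h6 : (2 : ℝ) ^ (1 / 10 : ℝ) ≤ 2 := by
      calc (2 : ℝ) ^ (1 / 10 : ℝ) ≤ (2 : ℝ) ^ (1 : ℝ) :=
            Real.rpow_le_rpow_of_exponent_le (by norm_num) (by norm_num)
        _ = 2 := Real.rpow_one 2
    exact h5.trans (mul_le_mul_of_nonneg_right h6 (by positivity))
  have hrest : |∑ k ∈ Finset.Ico (j ^ 2) K, x k| ≤ 2 * j * (C * (2 * (K : ℝ) ^ (1 / 10 : ℝ))) := by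
    refine (Finset.abs_sum_le_sum_abs _ _).trans ?_
    have h7 : ∀ k ∈ Finset.Ico (j ^ 2) K, |x k| ≤ C * (2 * (K : ℝ) ^ (1 / 10 : ℝ)) := by
      intro k hk
      rw [Finset.mem_Ico] at hk
      refine (hB k).trans (mul_le_mul_of_nonneg_left ?_ hC)
      refine le_trans ?_ hpow
      refine Real.rpow_le_rpow (by positivity) ?_ (by norm_num)
      have : (k : ℝ) ≤ K := by exact_mod_cast hk.2.le
      linarith
    refine (Finset.sum_le_card_nsmul _ _ _ h7).trans ?_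
    rw [nsmul_eq_mul, Nat.card_Ico]
    apply mul_le_mul_of_nonneg_right _ (by positivity)
    have h8 : K - j ^ 2 ≤ 2 * j := by
      have : (j + 1) ^ 2 = j ^ 2 + 2 * j + 1 := by ring
      omega
    exact_mod_cast h8
  rw [Real.norm_eq_abs, hsplit, abs_div, abs_of_pos hK0]
  rw [div_le_iff₀ hK0]
  refine (abs_add_le _ _).trans ?_
  rw [add_mul]
  apply add_le_add
  · rw [abs_div, abs_of_pos (by positivity : (0 : ℝ) < (j : ℝ) ^ 2)]
    calc |∑ k ∈ Finset.range (j ^ 2), x k| =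
        |∑ k ∈ Finset.range (j ^ 2), x k| / (j : ℝ) ^ 2 * (j : ℝ) ^ 2 := by field_simp
      _ ≤ |∑ k ∈ Finset.range (j ^ 2), x k| / (j : ℝ) ^ 2 * K :=
        mul_le_mul_of_nonneg_left hjK' (by positivity)
  · refine hrest.trans ?_
    have hjs : (j : ℝ) ≤ (K : ℝ) ^ (1 / 2 : ℝ) := by
      rw [← Real.sqrt_eq_rpow]
      exact Real.le_sqrt_of_sq_le hjK'
    calc 2 * j * (C * (2 * (K : ℝ) ^ (1 / 10 : ℝ))) =
        4 * C * (j * (K : ℝ) ^ (1 / 10 : ℝ)) := by ring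
      _ ≤ 4 * C * ((K : ℝ) ^ (1 / 2 : ℝ) * (K : ℝ) ^ (1 / 10 : ℝ)) := by gcongr
      _ = 4 * C * (K : ℝ) ^ (-(2 / 5) : ℝ) * K := by
        have h9 : (K : ℝ) ^ (-(2 / 5) : ℝ) * K = (K : ℝ) ^ (3 / 5 : ℝ) := by
          nth_rewrite 2 [← Real.rpow_one (K : ℝ)]
          rw [← Real.rpow_add hK0]
          norm_num
        rw [← Real.rpow_add hK0, mul_assoc (4 * C), h9]
        norm_num

/-- averages of functions whose partial sums have second moment `O(K ^ (7/5))` tend to zero almost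
everywhere -/
theorem ae_avg_zero {μ : Measure ℝ} (X : ℕ → ℝ → ℝ) (hX : ∀ k, AEMeasurable (X k) μ)
    {C : ℝ} (hC : 0 ≤ C)
    (hB : ∀ k : ℕ, ∀ t, |X k t| ≤ C * ((k : ℝ) + 1) ^ (1 / 10 : ℝ))
    (hV : ∀ K : ℕ, ∫⁻ t, ENNReal.ofReal ((∑ k ∈ Finset.range K, X k t) ^ 2) ∂μ ≤
      ENNReal.ofReal (C * (K : ℝ) ^ (7 / 5 : ℝ))) :
    ∀ᵐ t ∂μ, Tendsto (fun K : ℕ => (∑ k ∈ Finset.range K, X k t) / K) atTop (𝓝 0) := by
  have hg : Summable fun j : ℕ => C * (j : ℝ) ^ (-(6 / 5) : ℝ) := by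
    apply Summable.mul_left
    rw [Real.summable_nat_rpow]
    norm_num
  have h1 := ae_summable (μ := μ)
    (fun j t => ((∑ k ∈ Finset.range (j ^ 2), X k t) / ((j : ℝ) ^ 2)) ^ 2) (fun j => ?_)
    (fun j t => sq_nonneg _) hg (fun j => ?_)
  · filter_upwards [h1] with t ht
    refine avg_zero_of_squares hC (fun k => hB k t) ?_
    have h2 := ht.tendsto_atTop_zero
    have h3 := (Real.continuous_sqrt.tendsto 0).comp h2
    rw [Real.sqrt_zero] at h3
    refine (tendsto_zero_iff_abs_tendsto_zero _).2 (h3.congr fun j => ?_)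
    simp only [Function.comp_apply]
    exact Real.sqrt_sq_eq_abs _
  · exact ((Finset.aemeasurable_fun_sum _ fun k _ => hX k).div_const _).pow_const 2
  · rcases Nat.eq_zero_or_pos j with rfl | hj
    · simp
    · have hj0 : (0 : ℝ) < j := by exact_mod_cast hj
      have h4 : ∀ t, ENNReal.ofReal (((∑ k ∈ Finset.range (j ^ 2), X k t) / ((j : ℝ) ^ 2)) ^ 2) =
          ENNReal.ofReal (((j : ℝ) ^ 4)⁻¹) *
            ENNReal.ofReal ((∑ k ∈ Finset.range (j ^ 2), X k t) ^ 2) := by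
        intro t
        rw [← ENNReal.ofReal_mul (by positivity)]
        congr 1
        rw [div_pow]
        field_simp
      simp only [h4]
      rw [lintegral_const_mul' _ _ ENNReal.ofReal_ne_top]
      refine (mul_le_mul_right (hV (j ^ 2)) _).trans ?_
      rw [← ENNReal.ofReal_mul (by positivity)]
      apply ENNReal.ofReal_le_ofReal
      apply le_of_eq
      have h5 : (((j ^ 2 : ℕ) : ℝ)) ^ (7 / 5 : ℝ) = (j : ℝ) ^ (14 / 5 : ℝ) := by
        push_cast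
        rw [← Real.rpow_natCast, ← Real.rpow_mul hj0.le]
        norm_num
      rw [h5]
      have h6 : ((j : ℝ) ^ 4)⁻¹ = (j : ℝ) ^ (-4 : ℝ) := by
        rw [Real.rpow_neg hj0.le]
        norm_cast
      rw [h6]
      calc (j : ℝ) ^ (-4 : ℝ) * (C * (j : ℝ) ^ (14 / 5 : ℝ)) =
          C * ((j : ℝ) ^ (-4 : ℝ) * (j : ℝ) ^ (14 / 5 : ℝ)) := by ring
        _ = C * (j : ℝ) ^ (-(6 / 5) : ℝ) := by
          rw [← Real.rpow_add hj0]
          norm_num

end Pool.Agent.Q138.Met
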