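import Pool.Agent.Q138.Met.Law

set_option autoImplicit false

/-! # Limit laws for almost all dilations of a separated sequence -/

namespace Pool.Agent.Q138.Met

open Filter Topology MeasureTheory Finset
open scoped ENNReal NNReal Real

/-- the group generated by the square roots of the natural numbers -/
noncomputable def Λ₀ : AddSubgroup ℝ :=
  (Finsupp.liftAddHom (fun m : ℕ => zmultiplesHom ℝ √(m : ℝ))).range

theorem sqrt_mem (m : ℕ) : √(m : ℝ) ∈ Λ₀ := by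
  refine ⟨Finsupp.single m 1, ?_⟩
  simp

theorem countable_Λ₀ : (Λ₀ : Set ℝ).Countable := by
  unfold Λ₀
  rw [AddMonoidHom.coe_range]
  exact Set.countable_range _

/-- the distance in mean square between the error term and its long models -/
theorem ae_e_tail {e : ℝ → ℝ} (he : Measurable e) {a : ℕ → ℝ} (φ : ℝ) {R : ℕ → ℝ} {lo hi : ℝ}
    (hms : ∃ C ω : ℝ, 0 < ω ∧ ∃ k0 : ℕ, ∀ k, k0 ≤ k →
      ∫⁻ t in Set.Icc lo hi, ENNReal.ofReal ((e (t * R k) -
        P a φ (Icc 1 (mk k ^ 2)) (t * R k)) ^ 2) ≤ ENNReal.ofReal (C * ((k : ℝ) + 1) ^ (-ω))) :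
    ∀ᵐ t ∂(volume.restrict (Set.Icc lo hi)),
      Tendsto (fun K : ℕ => (∑ k ∈ range K, (e (t * R k) -
        P a φ (Icc 1 (mk k ^ 2)) (t * R k)) ^ 2) / K) atTop (𝓝 0) := by
  obtain ⟨C, ω, hω, k0, h⟩ := hms
  have hmeas : ∀ k, Measurable fun t => (e (t * R k) - P a φ (Icc 1 (mk k ^ 2)) (t * R k)) ^ 2 := by
    intro k
    have h1 : Measurable fun t : ℝ => t * R k := measurable_id.mul_const _
    exact ((he.comp h1).sub ((P_cont a φ _).measurable.comp h1)).pow_const 2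
  have hg : Summable fun k : ℕ => C * (((k + k0 : ℕ) : ℝ) + 1) ^ (-(1 + ω)) := by
    apply Summable.mul_left
    have h1 : Summable fun n : ℕ => (n : ℝ) ^ (-(1 + ω)) := by
      rw [Real.summable_nat_rpow]
      linarith
    have h2 := (summable_nat_add_iff (f := fun n : ℕ => (n : ℝ) ^ (-(1 + ω))) (k0 + 1)).2 h1
    refine h2.congr fun k => ?_
    push_cast
    congr 1
    ring
  have h1 := ae_summable (μ := volume.restrict (Set.Icc lo hi))
    (fun k t => (e (t * R (k + k0)) - P a φ (Icc 1 (mk (k + k0) ^ 2)) (t * R (k + k0))) ^ 2 /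
      (((k + k0 : ℕ) : ℝ) + 1))
    (fun k => ((hmeas (k + k0)).div_const _).aemeasurable) (fun k t => by positivity) hg
    (fun k => ?_)
  · filter_upwards [h1] with t ht
    refine avg_zero_of_summable (fun k => sq_nonneg _) ?_
    exact (summable_nat_add_iff (f := fun k : ℕ =>
      (e (t * R k) - P a φ (Icc 1 (mk k ^ 2)) (t * R k)) ^ 2 / ((k : ℝ) + 1)) k0).1 ht
  · have hk0 : (0 : ℝ) < ((k + k0 : ℕ) : ℝ) + 1 := by positivity
    have h4 : ∀ t, ENNReal.ofReal ((e (t * R (k + k0)) -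
        P a φ (Icc 1 (mk (k + k0) ^ 2)) (t * R (k + k0))) ^ 2 / (((k + k0 : ℕ) : ℝ) + 1)) =
        ENNReal.ofReal ((((k + k0 : ℕ) : ℝ) + 1)⁻¹) * ENNReal.ofReal ((e (t * R (k + k0)) -
        P a φ (Icc 1 (mk (k + k0) ^ 2)) (t * R (k + k0))) ^ 2) := by
      intro t
      rw [← ENNReal.ofReal_mul (by positivity)]
      congr 1
      field_simp
    simp only [h4]
    rw [lintegral_const_mul' _ _ ENNReal.ofReal_ne_top]
    refine (mul_le_mul_right (h (k + k0) (by omega)) _).trans ?_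
    rw [← ENNReal.ofReal_mul (by positivity)]
    apply ENNReal.ofReal_le_ofReal
    apply le_of_eq
    rw [← Real.rpow_neg_one]
    calc (((k + k0 : ℕ) : ℝ) + 1) ^ (-1 : ℝ) * (C * (((k + k0 : ℕ) : ℝ) + 1) ^ (-ω)) =
        C * ((((k + k0 : ℕ) : ℝ) + 1) ^ (-1 : ℝ) * (((k + k0 : ℕ) : ℝ) + 1) ^ (-ω)) := by ring
      _ = _ := by
        rw [← Real.rpow_add hk0]
        congr 2
        ring

theorem P_split (a : ℕ → ℝ) (φ : ℝ) {M N : ℕ} (h : M ≤ N) (x : ℝ) :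
    P a φ (Icc 1 (N ^ 2)) x - P a φ (Icc 1 (M ^ 2)) x = P a φ (Ioc (M ^ 2) (N ^ 2)) x := by
  unfold P
  have h2 : M ^ 2 ≤ N ^ 2 := Nat.pow_le_pow_left h 2
  have h1 : Icc 1 (N ^ 2) = Icc 1 (M ^ 2) ∪ Ioc (M ^ 2) (N ^ 2) := by
    ext m
    simp only [mem_union, mem_Icc, mem_Ioc]
    omega
  rw [h1, Finset.sum_union]
  · ring
  · rw [Finset.disjoint_left]
    intro m hm1 hm2
    rw [mem_Icc] at hm1
    rw [mem_Ioc] at hm2
    omega

/-- approximation by the short models for almost all dilations -/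
theorem ae_apx {e : ℝ → ℝ} (he : Measurable e) {a : ℕ → ℝ} {A : ℝ} (hA : ∀ m, |a m| ≤ A)
    (φ : ℝ) {τ : ℕ → ℝ} (hτ : ∀ M N, M ≤ N → ∑ m ∈ Ioc (M ^ 2) (N ^ 2), a m ^ 2 ≤ τ M)
    (hτ0 : Tendsto τ atTop (𝓝 0))
    {R : ℕ → ℝ} {δ : ℝ} (hδ : 0 < δ) (hR0 : 0 < R 0) (hR : ∀ k, R k + δ ≤ R (k + 1))
    {lo hi : ℝ} (hab : lo ≤ hi)
    (hms : ∃ C ω : ℝ, 0 < ω ∧ ∃ k0 : ℕ, ∀ k, k0 ≤ k →
      ∫⁻ t in Set.Icc lo hi, ENNReal.ofReal ((e (t * R k) -
        P a φ (Icc 1 (mk k ^ 2)) (t * R k)) ^ 2) ≤ ENNReal.ofReal (C * ((k : ℝ) + 1) ^ (-ω))) :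
    ∀ᵐ t ∂(volume.restrict (Set.Icc lo hi)),
      Apx (fun M => P a φ (Icc 1 (M ^ 2))) (fun k => t * R k) (fun k => e (t * R k)) := by
  filter_upwards [ae_e_tail he φ hms, ae_all_iff.2 fun M => ae_tail hA φ hδ hR0 hR hab M]
    with t h1 h2
  have main : ∀ M : ℕ, ∀ η : ℝ, 0 < η → ∃ K0 : ℕ, ∀ K, K0 ≤ K →
      av (fun k => (e (t * R k) - P a φ (Icc 1 (M ^ 2)) (t * R k)) ^ 2) K ≤ τ M + η := by
    intro M η hη
    obtain ⟨k1, hk1⟩ := eventually_atTop.1 (mk_tendsto.eventually_ge_atTop M)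
    set T : ℕ → ℝ := fun k => (e (t * R k) - P a φ (Icc 1 (mk k ^ 2)) (t * R k)) ^ 2 with hT
    set D : ℕ → ℝ := fun k => (e (t * R k) - P a φ (Icc 1 (M ^ 2)) (t * R k)) ^ 2 with hD
    have hτM : 0 ≤ τ M := (Finset.sum_nonneg fun m _ => sq_nonneg (a m)).trans (hτ M M le_rfl)
    set Z : ℕ → ℝ := fun k => if k < k1 then |D k - 2 * T k - 2 * Xt a φ R M k t| else 0 with hZ
    have hle : ∀ k, D k ≤ 2 * T k + (2 * Xt a φ R M k t + (τ M + Z k)) := by
      intro k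
      by_cases hk : k < k1
      · simp only [hZ, if_pos hk]
        have := le_abs_self (D k - 2 * T k - 2 * Xt a φ R M k t)
        linarith
      · simp only [hZ, if_neg hk]
        have hmk := hk1 k (by omega)
        have e1 : e (t * R k) - P a φ (Icc 1 (M ^ 2)) (t * R k) =
            (e (t * R k) - P a φ (Icc 1 (mk k ^ 2)) (t * R k)) +
              P a φ (Ioc (M ^ 2) (mk k ^ 2)) (t * R k) := by
          rw [← P_split a φ hmk]
          ring
        have e2 : Xt a φ R M k t = P a φ (Ioc (M ^ 2) (mk k ^ 2)) (t * R k) ^ 2 -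
            1 / 2 * ∑ m ∈ Ioc (M ^ 2) (mk k ^ 2), a m ^ 2 := rfl
        have e3 := hτ M (mk k) hmk
        simp only [hD, hT]
        rw [e1, e2]
        nlinarith [sq_nonneg ((e (t * R k) - P a φ (Icc 1 (mk k ^ 2)) (t * R k)) -
              P a φ (Ioc (M ^ 2) (mk k ^ 2)) (t * R k))]
    have hZ0 : Tendsto (av Z) atTop (𝓝 0) := by
      have h3 : ∀ᶠ K : ℕ in atTop, (∑ k ∈ range k1, Z k) / (K : ℝ) = av Z K := by
        filter_upwards [eventually_ge_atTop k1] with K hK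
        unfold av
        congr 1
        apply Finset.sum_subset
        · exact Finset.range_subset_range.2 hK
        · intro k _ hk
          rw [mem_range] at hk
          simp only [hZ, if_neg hk]
      exact (tendsto_const_div_atTop_nhds_zero_nat _).congr' h3
    have h4 : Tendsto (fun K => 2 * av T K + (2 * av (fun k => Xt a φ R M k t) K + (τ M + av Z K)))
        atTop (𝓝 (2 * 0 + (2 * 0 + (τ M + 0)))) :=
      ((h1.const_mul 2)).add (((h2 M).const_mul 2).add (tendsto_const_nhds.add hZ0))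
    have h5 := h4.eventually_le_const (show 2 * 0 + (2 * 0 + (τ M + 0)) < τ M + η by linarith)
    obtain ⟨K0, hK0⟩ := eventually_atTop.1 h5
    refine ⟨K0, fun K hK => ?_⟩
    have h6 := av_mono hle K
    have h7 : av (fun k => 2 * T k + (2 * Xt a φ R M k t + (τ M + Z k))) K =
        2 * av T K + (2 * av (fun k => Xt a φ R M k t) K + (av (fun _ => τ M) K + av Z K)) := by
      rw [av_add, av_mul, av_add, av_mul, av_add]
    have h8 := av_const_le hτM K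
    have h9 : 2 * av T K + (2 * av (fun k => Xt a φ R M k t) K + (τ M + av Z K)) ≤ τ M + η :=
      hK0 K hK
    have h10 : av D K ≤ τ M + η := by linarith
    exact h10
  intro η hη
  obtain ⟨M0, hM0⟩ := eventually_atTop.1 (hτ0.eventually_le_const (half_pos hη))
  refine ⟨M0, fun M hM => ?_⟩
  obtain ⟨K0, hK0⟩ := main M (η / 2) (half_pos hη)
  refine ⟨K0, fun K hK => (hK0 K hK).trans ?_⟩
  have := hM0 M hM
  linarith

/-- equidistribution for all frequencies of a countable group, for almost all dilations -/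
theorem ae_equid {Λ : AddSubgroup ℝ} (hΛ : (Λ : Set ℝ).Countable)
    {R : ℕ → ℝ} {δ : ℝ} (hδ : 0 < δ) (hR0 : 0 < R 0) (hR : ∀ k, R k + δ ≤ R (k + 1))
    {lo hi : ℝ} (hab : lo ≤ hi) :
    ∀ᵐ t ∂(volume.restrict (Set.Icc lo hi)), Equid Λ (fun k => t * R k) := by
  haveI : Countable Λ := hΛ.to_subtype
  have h1 : ∀ θ : Λ, (θ : ℝ) ≠ 0 → ∀ᵐ t ∂(volume.restrict (Set.Icc lo hi)),
      Tendsto (fun K : ℕ => (∑ k ∈ range K, ex (θ : ℝ) (t * R k)) / (K : ℂ)) atTop (𝓝 0) := by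
    intro θ hθ
    filter_upwards [ae_cos hδ hR0 hR hab hθ 0, ae_cos hδ hR0 hR hab hθ (π / 2)] with t h2 h3
    have h4 : Tendsto (fun K : ℕ => (((∑ k ∈ range K,
        Real.cos (2 * π * (t * R k * (θ : ℝ)) - 0)) / K : ℝ) : ℂ) + (((∑ k ∈ range K,
        Real.cos (2 * π * (t * R k * (θ : ℝ)) - π / 2)) / K : ℝ) : ℂ) * Complex.I)
        atTop (𝓝 (((0 : ℝ) : ℂ) + ((0 : ℝ) : ℂ) * Complex.I)) :=
      ((Complex.continuous_ofReal.tendsto 0).comp h2).add
        (((Complex.continuous_ofReal.tendsto 0).comp h3).mul_const _)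
    simp only [Complex.ofReal_zero, zero_mul, add_zero] at h4
    refine h4.congr fun K => ?_
    push_cast
    rw [div_mul_eq_mul_div, ← add_div, Finset.sum_mul, ← Finset.sum_add_distrib]
    congr 1
    refine Finset.sum_congr rfl fun k _ => ?_
    unfold ex
    rw [Complex.exp_mul_I]
    have e1 : (2 * π * (t * R k * (θ : ℝ)) - 0 : ℂ) = ((2 * π * ((θ : ℝ) * (t * R k)) : ℝ) : ℂ) := by
      push_cast
      ring
    have e2 : (2 * π * (t * R k * (θ : ℝ)) - π / 2 : ℂ) =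
        ((2 * π * ((θ : ℝ) * (t * R k)) : ℝ) : ℂ) - π / 2 := by
      push_cast
      ring
    rw [e1, e2, Complex.cos_sub_pi_div_two]
  have h2 : ∀ θ : Λ, ∀ᵐ t ∂(volume.restrict (Set.Icc lo hi)), (θ : ℝ) ≠ 0 →
      Tendsto (fun K : ℕ => (∑ k ∈ range K, ex (θ : ℝ) (t * R k)) / (K : ℂ)) atTop (𝓝 0) := by
    intro θ
    by_cases hθ : (θ : ℝ) = 0
    · exact Eventually.of_forall fun t h => absurd hθ h
    · filter_upwards [h1 θ hθ] with t ht _ using ht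
  filter_upwards [ae_all_iff.2 h2] with t ht θ hθ h0
  exact ht ⟨θ, hθ⟩ h0

/-- from compact intervals to all positive dilations -/
theorem ae_pos {p : ℝ → Prop} (h : ∀ lo hi : ℝ, 0 < lo → lo ≤ hi →
    ∀ᵐ t ∂(volume.restrict (Set.Icc lo hi)), p t) : ∀ᵐ t : ℝ, 0 < t → p t := by
  have h1 : ∀ n : ℕ, ∀ᵐ t : ℝ, t ∈ Set.Icc (1 / ((n : ℝ) + 1)) ((n : ℝ) + 1) → p t := by
    intro n
    rw [← ae_restrict_iff' measurableSet_Icc]
    apply h
    · positivity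
    · rw [div_le_iff₀ (by positivity)]
      nlinarith [Nat.cast_nonneg (α := ℝ) n]
  filter_upwards [ae_all_iff.2 h1] with t ht h0
  obtain ⟨n, hn⟩ := exists_nat_ge (max t (1 / t))
  refine ht n ⟨?_, ?_⟩
  · rw [div_le_iff₀ (by positivity)]
    have h2 : 1 / t ≤ n := (le_max_right _ _).trans hn
    rw [div_le_iff₀ h0] at h2
    nlinarith
  · have h2 : t ≤ n := (le_max_left _ _).trans hn
    linarith

/-- **the limit law along almost every dilation of a separated sequence** -/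
theorem ae_law {e : ℝ → ℝ} (he : Measurable e) {a : ℕ → ℝ} {A : ℝ} (hA : ∀ m, |a m| ≤ A)
    (φ : ℝ) {τ : ℕ → ℝ} (hτ : ∀ M N, M ≤ N → ∑ m ∈ Ioc (M ^ 2) (N ^ 2), a m ^ 2 ≤ τ M)
    (hτ0 : Tendsto τ atTop (𝓝 0)) {y e' : ℕ → ℝ} (hy : Equid Λ₀ y)
    (hye : Apx (fun M => P a φ (Icc 1 (M ^ 2))) y e')
    {R : ℕ → ℝ} {δ : ℝ} (hδ : 0 < δ) (hR0 : 0 < R 0) (hR : ∀ k, R k + δ ≤ R (k + 1))
    (hms : ∀ lo hi : ℝ, 0 < lo → lo ≤ hi → ∃ C ω : ℝ, 0 < ω ∧ ∃ k0 : ℕ, ∀ k, k0 ≤ k →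
      ∫⁻ t in Set.Icc lo hi, ENNReal.ofReal ((e (t * R k) -
        P a φ (Icc 1 (mk k ^ 2)) (t * R k)) ^ 2) ≤ ENNReal.ofReal (C * ((k : ℝ) + 1) ^ (-ω))) :
    ∀ᵐ t : ℝ, 0 < t → ∀ f : ℝ → ℝ, Continuous f → (∃ C : ℝ, ∀ z, |f z| ≤ C * (1 + z ^ 2)) →
      ∀ L : ℝ, Tendsto (av fun k => f (e' k)) atTop (𝓝 L) →
        Tendsto (av fun k => f (e (t * R k))) atTop (𝓝 L) := by
  apply ae_pos
  intro lo hi hlo hab
  filter_upwards [ae_apx he hA φ hτ hτ0 hδ hR0 hR hab (hms lo hi hlo hab),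
    ae_equid countable_Λ₀ hδ hR0 hR hab] with t h1 h2 f hf hC L hL
  obtain ⟨C, hC⟩ := hC
  refine transfer (Λ := Λ₀) (U := fun M => P a φ (Icc 1 (M ^ 2))) (fun M => ?_) (fun M => ?_)
    h2 hy h1 hye hf hC hL
  · exact P_mem a φ fun m _ => sqrt_mem m
  · exact ⟨A * (Icc 1 (M ^ 2)).card, fun x => abs_P_le hA φ _ x⟩

end Pool.Agent.Q138.Met
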