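import Mathlib

set_option autoImplicit false

/-! # Integer parts `⌊α u_k⌋` in sparse exceptional sets: Hausdorff measure zero -/

namespace Pool.Agent.Q138.Met

open Filter Topology MeasureTheory Set
open scoped ENNReal NNReal

/-- Hausdorff measure zero from countable covers whose `s`-sums tend to zero -/
theorem hausdorff_null_of_covers {ι : Type} [Countable ι] {S : Set ℝ} {s : ℝ} (hs : 0 < s)
    (t : ℕ → ι → Set ℝ) (hcov : ∀ n, S ⊆ ⋃ i, t n i)
    (hsum : Tendsto (fun n => ∑' i, Metric.ediam (t n i) ^ s) atTop (𝓝 0)) :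
    μH[s] S = 0 := by
  have hmeas : μH[s] S ≤ 0 := by
    have h1 := Measure.hausdorffMeasure_le_liminf_tsum (β := ℕ) (ι := fun _ => ι) s S
      (l := atTop) (fun n => (∑' i, Metric.ediam (t n i) ^ s) ^ (s⁻¹)) ?_ t
      (Eventually.of_forall fun n i => ?_) (Eventually.of_forall fun n => hcov n)
    · exact h1.trans hsum.liminf_eq.le
    · have := (ENNReal.continuous_rpow_const (y := s⁻¹)).tendsto 0 |>.comp hsum
      rwa [ENNReal.zero_rpow_of_pos (inv_pos.2 hs)] at this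
    · have h2 : Metric.ediam (t n i) ^ s ≤ ∑' i, Metric.ediam (t n i) ^ s :=
        ENNReal.le_tsum i
      have h3 := ENNReal.rpow_le_rpow h2 (inv_nonneg.2 hs.le)
      rwa [← ENNReal.rpow_mul, mul_inv_cancel₀ hs.ne', ENNReal.rpow_one] at h3
  exact nonpos_iff_eq_zero.1 hmeas

/-- a positive sequence with `∑ u_k ^ (-a) < ∞` tends to infinity -/
theorem tendsto_of_summable {a : ℝ} (ha : 0 < a) (u : ℕ → ℝ) (hu : ∀ k, 0 < u k)
    (hsum : Summable fun k => (u k) ^ (-a)) : Tendsto u atTop atTop := by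
  have h1 := hsum.tendsto_atTop_zero
  rw [tendsto_atTop]
  intro b
  have hb : 0 < max b 1 := lt_max_of_lt_right one_pos
  have h2 : ∀ᶠ k in atTop, (u k) ^ (-a) < (max b 1) ^ (-a) :=
    h1.eventually_lt_const (Real.rpow_pos_of_pos hb _)
  filter_upwards [h2] with k hk
  by_contra hcon
  push Not at hcon
  have h3 : u k ≤ max b 1 := hcon.le.trans (le_max_left _ _)
  have h4 := Real.rpow_le_rpow_of_nonpos (hu k) h3 (by linarith : -a ≤ 0)
  linarith

theorem floor_null {θ s : ℝ} (hθ : 0 ≤ θ) (hθs : θ < s) (u : ℕ → ℝ) (hu : ∀ k, 0 < u k)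
    (hsum : Summable fun k => (u k) ^ (θ - s)) (Z : ℕ → Finset ℕ)
    (hZ : ∃ N₀ : ℕ, ∀ N : ℕ, N₀ ≤ N → ((Z N).card : ℝ) ≤ (N : ℝ) ^ θ) (m : ℕ) (hm : 1 ≤ m) :
    μH[s] {α : ℝ | 0 < α ∧ α ≤ m ∧ ∃ᶠ k in atTop, ⌊α * u k⌋₊ ∈ Z ⌈m * u k⌉₊} = 0 := by
  have hs : 0 < s := lt_of_le_of_lt hθ hθs
  have hut : Tendsto u atTop atTop := by
    apply tendsto_of_summable (a := s - θ) (by linarith) u hu
    refine hsum.congr fun k => ?_
    congr 1
    ring
  obtain ⟨N₀, hN₀⟩ := hZ
  have hm0 : (0 : ℝ) < m := by exact_mod_cast hm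
  have hm1 : (1 : ℝ) ≤ m := by exact_mod_cast hm
  set f : ℕ → ℝ≥0∞ := fun k => ENNReal.ofReal (((m : ℝ) + 1) ^ θ * (u k) ^ (θ - s)) with hf
  have hfs : ∑' k, f k ≠ ∞ := (hsum.mul_left (((m : ℝ) + 1) ^ θ)).tsum_ofReal_ne_top
  have hev : ∀ᶠ k in atTop, max (N₀ : ℝ) 1 ≤ u k := hut.eventually_ge_atTop _
  obtain ⟨K₀, hK₀⟩ := eventually_atTop.1 hev
  set t : ℕ → ℕ × ℕ → Set ℝ := fun K i => if i.2 ∈ Z ⌈m * u (i.1 + K)⌉₊ then
    Icc ((i.2 : ℝ) / u (i.1 + K)) (((i.2 : ℝ) + 1) / u (i.1 + K)) else ∅ with ht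
  refine hausdorff_null_of_covers hs t (fun K => ?_) ?_
  · rintro α ⟨hα0, hαm, hfr⟩
    obtain ⟨k, hkK, hk⟩ := (hfr.and_eventually (eventually_ge_atTop K)).exists.imp
      fun k h => And.intro h.2 h.1
    refine mem_iUnion.2 ⟨(k - K, ⌊α * u k⌋₊), ?_⟩
    have hkk : k - K + K = k := by omega
    simp only [ht, hkk]
    rw [if_pos hk]
    have huk := hu k
    constructor
    · rw [div_le_iff₀ huk]
      exact Nat.floor_le (by positivity)
    · rw [le_div_iff₀ huk]
      exact (Nat.lt_floor_add_one _).le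
  · have hle : ∀ K, K₀ ≤ K → ∑' i, Metric.ediam (t K i) ^ s ≤ ∑' k, f (k + K) := by
      intro K hK
      rw [ENNReal.tsum_prod']
      refine ENNReal.tsum_le_tsum fun k => ?_
      have huk := hu (k + K)
      have hu1 := hK₀ (k + K) (by omega)
      have hu2 : 1 ≤ u (k + K) := (le_max_right _ _).trans hu1
      have hu3 : (N₀ : ℝ) ≤ u (k + K) := (le_max_left _ _).trans hu1
      have hNN : N₀ ≤ ⌈m * u (k + K)⌉₊ := by
        have h1 : (N₀ : ℝ) ≤ m * u (k + K) := by nlinarith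
        exact_mod_cast h1.trans (Nat.le_ceil _)
      have hcard := hN₀ _ hNN
      have hceil : (⌈m * u (k + K)⌉₊ : ℝ) ≤ ((m : ℝ) + 1) * u (k + K) := by
        have h1 := (Nat.ceil_lt_add_one (a := (m : ℝ) * u (k + K)) (by positivity)).le
        linarith
      have h2 : ((Z ⌈m * u (k + K)⌉₊).card : ℝ) ≤ ((m : ℝ) + 1) ^ θ * (u (k + K)) ^ θ := by
        refine hcard.trans ?_
        rw [← Real.mul_rpow (by positivity) huk.le]
        exact Real.rpow_le_rpow (Nat.cast_nonneg _) hceil hθ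
      have h3 : ∀ n : ℕ, Metric.ediam (t K (k, n)) ^ s =
          if n ∈ Z ⌈m * u (k + K)⌉₊ then ENNReal.ofReal ((u (k + K)) ^ (-s)) else 0 := by
        intro n
        simp only [ht]
        split_ifs with hn
        · rw [Real.ediam_Icc]
          have e : ((n : ℝ) + 1) / u (k + K) - n / u (k + K) = (u (k + K))⁻¹ := by
            field_simp
            ring
          rw [e, ENNReal.ofReal_rpow_of_pos (by positivity), Real.inv_rpow huk.le,
            Real.rpow_neg huk.le]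
        · rw [Metric.ediam_empty, ENNReal.zero_rpow_of_pos hs]
      have h4 : ∑' n : ℕ, Metric.ediam (t K (k, n)) ^ s =
          ((Z ⌈m * u (k + K)⌉₊).card : ℝ≥0∞) * ENNReal.ofReal ((u (k + K)) ^ (-s)) := by
        rw [tsum_eq_sum (s := Z ⌈m * u (k + K)⌉₊)]
        · rw [Finset.sum_congr rfl (g := fun _ => ENNReal.ofReal ((u (k + K)) ^ (-s)))]
          · rw [Finset.sum_const, nsmul_eq_mul]
          · intro n hn
            rw [h3, if_pos hn]
        · intro n hn
          rw [h3, if_neg hn]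
      rw [h4, hf]
      have h5 : ((Z ⌈m * u (k + K)⌉₊).card : ℝ≥0∞) =
          ENNReal.ofReal ((Z ⌈m * u (k + K)⌉₊).card : ℝ) := (ENNReal.ofReal_natCast _).symm
      rw [h5, ← ENNReal.ofReal_mul (Nat.cast_nonneg _)]
      apply ENNReal.ofReal_le_ofReal
      have h6 : (u (k + K)) ^ (θ - s) = (u (k + K)) ^ θ * (u (k + K)) ^ (-s) := by
        rw [← Real.rpow_add huk]
        congr 1
      rw [h6, ← mul_assoc]
      exact mul_le_mul_of_nonneg_right h2 (by positivity)
    have h0 : Tendsto (fun K => ∑' k, f (k + K)) atTop (𝓝 0) := ENNReal.tendsto_sum_nat_add f hfs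
    refine tendsto_of_tendsto_of_tendsto_of_le_of_le' tendsto_const_nhds h0
      (Eventually.of_forall fun _ => zero_le) ?_
    filter_upwards [eventually_ge_atTop K₀] with K hK using hle K hK

end Pool.Agent.Q138.Met
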