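import Mathlib
import Pool.Agent.Q138.Met.Floor
import Pool.Agent.H771R4.SE.AllX2

set_option autoImplicit false

/-! # The exceptional `α` for the integer parts `⌊α u_k⌋` and a counting problem of
`Pool.Agent.H771R4.SE` -/

namespace Pool.Agent.Q138.Met

open Filter Topology MeasureTheory Set
open scoped ENNReal NNReal
open Pool.Agent.H771R4.SE (Dat badY cntE)

/-- the counts `f k x`, `k = 0, 1, …`, are asymptotically `A π(x)`, uniformly for
`u_k ^ C ≤ x ≤ exp ((log u_k) ^ (1 + κ))` -/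
def NearL (u : ℕ → ℝ) (C κ : ℝ) (f : ℕ → ℕ → ℕ) (A : ℝ) : Prop :=
  ∀ ε : ℝ, 0 < ε → ∀ᶠ k in atTop, ∀ x : ℕ, (u k) ^ C ≤ x →
    (x : ℝ) ≤ Real.exp ((Real.log (u k)) ^ (1 + κ)) →
      |(f k x : ℝ) - A * (Nat.primeCounting x : ℝ)| ≤ ε * (Nat.primeCounting x : ℝ)

theorem null_dat {θ C C0 κ s : ℝ} (hθ : 0 ≤ θ) (hθs : θ < s) (hC0 : 0 ≤ C0) (hCC : C0 < C)
    (hκ : 0 < κ) (d : Dat)
    (hall : ∀ ε : ℝ, 0 < ε → ∃ N₀ : ℕ, ∀ N : ℕ, N₀ ≤ N →
      ((badY d ε C0 κ N).card : ℝ) ≤ (N : ℝ) ^ θ)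
    (u : ℕ → ℝ) (hu : ∀ k, 0 < u k) (hsum : Summable fun k => (u k) ^ (θ - s)) :
    μH[s] {α : ℝ | 0 < α ∧ ¬ NearL u C κ (fun k x => cntE d ⌊α * u k⌋₊ x) d.A} = 0 := by
  classical
  have hut : Tendsto u atTop atTop := by
    apply tendsto_of_summable (a := s - θ) (by linarith) u hu
    refine hsum.congr fun k => ?_
    congr 1
    ring
  have hsub : {α : ℝ | 0 < α ∧ ¬ NearL u C κ (fun k x => cntE d ⌊α * u k⌋₊ x) d.A} ⊆
      ⋃ i : ℕ × ℕ, {α : ℝ | 0 < α ∧ α ≤ ((i.1 + 1 : ℕ) : ℝ) ∧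
        ∃ᶠ k in atTop, ⌊α * u k⌋₊ ∈
          badY d (1 / ((i.2 : ℝ) + 1)) C0 κ ⌈((i.1 + 1 : ℕ) : ℝ) * u k⌉₊} := by
    rintro α ⟨hα, hn⟩
    unfold NearL at hn
    push Not at hn
    obtain ⟨ε, hε, hfr⟩ := hn
    obtain ⟨m, hm⟩ := exists_nat_gt α
    obtain ⟨j, hj⟩ := exists_nat_one_div_lt hε
    refine mem_iUnion.2 ⟨(m, j), hα, ?_, ?_⟩
    · push_cast
      linarith
    -- eventual conditions
    have e1 : ∀ᶠ k in atTop, 1 ≤ α * u k :=
      (hut.const_mul_atTop hα).eventually_ge_atTop 1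
    have e2 : ∀ᶠ k in atTop, ((m : ℝ) + 2) ^ C0 ≤ (u k) ^ (C - C0) :=
      ((tendsto_rpow_atTop (by linarith : 0 < C - C0)).comp hut).eventually_ge_atTop _
    have e3 : ∀ᶠ k in atTop, 1 ≤ u k := hut.eventually_ge_atTop 1
    refine (hfr.and_eventually (e1.and (e2.and e3))).mono ?_
    rintro k ⟨⟨x, hx1, hx2, hx3⟩, h1, h2, h3⟩
    set n := ⌊α * u k⌋₊ with hn
    set N := ⌈((m + 1 : ℕ) : ℝ) * u k⌉₊ with hN
    have huk := hu k
    have hmm : (0 : ℝ) ≤ m := Nat.cast_nonneg _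
    have hNge : ((m + 1 : ℕ) : ℝ) * u k ≤ N := Nat.le_ceil _
    have hNle : (N : ℝ) ≤ ((m : ℝ) + 2) * u k := by
      have h4 := (Nat.ceil_lt_add_one (a := ((m + 1 : ℕ) : ℝ) * u k) (by positivity)).le
      rw [← hN] at h4
      push_cast at h4
      linarith
    have huN : u k ≤ N := by
      refine le_trans ?_ hNge
      push_cast
      nlinarith
    simp only [badY, Finset.mem_filter, Finset.mem_Icc]
    refine ⟨⟨?_, ?_⟩, x, ?_, ?_, ?_⟩
    · rw [hn, Nat.one_le_floor_iff]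
      exact h1
    · have h5 : (n : ℝ) ≤ N := by
        refine (Nat.floor_le (by positivity)).trans (le_trans ?_ hNge)
        apply mul_le_mul_of_nonneg_right _ huk.le
        push_cast
        linarith
      exact_mod_cast h5
    · refine le_trans ?_ hx1
      calc (N : ℝ) ^ C0 ≤ (((m : ℝ) + 2) * u k) ^ C0 :=
            Real.rpow_le_rpow (Nat.cast_nonneg _) hNle hC0
        _ = ((m : ℝ) + 2) ^ C0 * (u k) ^ C0 := Real.mul_rpow (by positivity) huk.le
        _ ≤ (u k) ^ (C - C0) * (u k) ^ C0 := mul_le_mul_of_nonneg_right h2 (by positivity)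
        _ = (u k) ^ C := by
            rw [← Real.rpow_add huk]
            congr 1
            ring
    · refine hx2.trans (Real.exp_le_exp.2 ?_)
      exact Real.rpow_le_rpow (Real.log_nonneg h3) (Real.log_le_log huk huN) (by linarith)
    · refine lt_of_le_of_lt ?_ hx3
      apply mul_le_mul_of_nonneg_right hj.le (Nat.cast_nonneg _)
  refine measure_mono_null hsub (measure_iUnion_null fun i => ?_)
  exact floor_null hθ hθs u hu hsum (fun N => badY d (1 / ((i.2 : ℝ) + 1)) C0 κ N)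
    (hall _ (by positivity)) (i.1 + 1) (by omega)

end Pool.Agent.Q138.Met
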