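import Pool.Agent.Q138.Met.FloorC

set_option autoImplicit false

/-! # Bounds for almost all dilations from bounds for the number of exceptional integers -/

namespace Pool.Agent.Q138.Met

open Filter Topology MeasureTheory
open scoped ENNReal NNReal

open Classical in
/-- the integers `1 ≤ n ≤ N` such that `p y` holds for some `y ∈ [n, n + 1)` -/
noncomputable def hits (p : ℝ → Prop) (N : ℕ) : Finset ℕ :=
  (Finset.Icc 1 N).filter fun n : ℕ => ∃ y : ℝ, (n : ℝ) ≤ y ∧ y < n + 1 ∧ p y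

open Classical in
theorem mem_hits {p : ℝ → Prop} {N n : ℕ} :
    n ∈ hits p N ↔ (1 ≤ n ∧ n ≤ N) ∧ ∃ y : ℝ, (n : ℝ) ≤ y ∧ y < n + 1 ∧ p y := by
  unfold hits
  rw [Finset.mem_filter, Finset.mem_Icc]

/-- the starting points of the windows of length `W` which contain an exceptional point below `N` -/
noncomputable def starts (S : Finset ℕ) (W : ℝ) : Finset ℕ :=
  (S ×ˢ Finset.range (⌊W⌋₊ + 2)).image fun p => p.1 - p.2

theorem starts_card (S : Finset ℕ) {W : ℝ} (hW : 0 ≤ W) :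
    ((starts S W).card : ℝ) ≤ S.card * (W + 2) := by
  have h1 : (starts S W).card ≤ S.card * (⌊W⌋₊ + 2) := by
    unfold starts
    refine Finset.card_image_le.trans ?_
    rw [Finset.card_product, Finset.card_range]
  have h2 : ((⌊W⌋₊ : ℕ) : ℝ) ≤ W := Nat.floor_le hW
  calc ((starts S W).card : ℝ) ≤ ((S.card * (⌊W⌋₊ + 2) : ℕ) : ℝ) := by exact_mod_cast h1
    _ = S.card * ((⌊W⌋₊ : ℝ) + 2) := by push_cast; ring
    _ ≤ S.card * (W + 2) := mul_le_mul_of_nonneg_left (by linarith) (Nat.cast_nonneg _)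

theorem mem_starts {S : Finset ℕ} {W x y : ℝ} (hx : 0 ≤ x) (h1 : x ≤ y) (h2 : y ≤ x + W)
    (h3 : ⌊y⌋₊ ∈ S) : ⌊x⌋₊ ∈ starts S W := by
  unfold starts
  rw [Finset.mem_image]
  have hmono : ⌊x⌋₊ ≤ ⌊y⌋₊ := Nat.floor_mono h1
  refine ⟨(⌊y⌋₊, ⌊y⌋₊ - ⌊x⌋₊), ?_, ?_⟩
  · rw [Finset.mem_product, Finset.mem_range]
    refine ⟨h3, ?_⟩
    have h4 : (⌊y⌋₊ : ℝ) ≤ y := Nat.floor_le (hx.trans h1)
    have h5 : x < ⌊x⌋₊ + 1 := Nat.lt_floor_add_one x
    have h6 : ((⌊y⌋₊ - ⌊x⌋₊ : ℕ) : ℝ) < W + 1 := by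
      rw [Nat.cast_sub hmono]
      linarith
    have h7 : W < ⌊W⌋₊ + 1 := Nat.lt_floor_add_one W
    have h8 : ((⌊y⌋₊ - ⌊x⌋₊ : ℕ) : ℝ) < ((⌊W⌋₊ + 2 : ℕ) : ℝ) := by
      push_cast
      linarith
    exact_mod_cast h8
  · simp only
    omega

/-- **Hausdorff measure of the exceptional dilations** -/
theorem dil_null {p : ℝ → Prop} {C κ : ℝ} (hC : 0 ≤ C) (hκ1 : κ ≤ 1)
    (hp : ∀ N : ℕ, 1 ≤ N → ((hits p N).card : ℝ) ≤ C * (N : ℝ) ^ (1 - κ)) {lam s : ℝ}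
    (hlam : 0 ≤ lam) (hlam1 : lam ≤ 1) (hs : 1 - κ + lam < s) (u : ℕ → ℝ) (hu : ∀ k, 0 < u k)
    (hsum : Summable fun k => (u k) ^ (1 - κ + lam - s)) :
    μH[s] {t : ℝ | 0 < t ∧ ∃ᶠ k in atTop, ∃ y : ℝ, t * u k ≤ y ∧ y ≤ t * u k + (u k) ^ lam ∧
      p y} = 0 := by
  have hs0 : 0 < s := by linarith
  have hut : Tendsto u atTop atTop := by
    apply tendsto_of_summable (a := s - (1 - κ + lam)) (by linarith) u hu
    refine hsum.congr fun k => ?_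
    congr 1
    ring
  have hcov : {t : ℝ | 0 < t ∧ ∃ᶠ k in atTop, ∃ y : ℝ, t * u k ≤ y ∧
      y ≤ t * u k + (u k) ^ lam ∧ p y} ⊆ ⋃ m : ℕ, {α : ℝ | 0 < α ∧ ∃ᶠ k in atTop,
        ⌊α * u k⌋₊ ∈ starts (hits p ⌊(m : ℝ) * u k + (u k) ^ lam⌋₊) ((u k) ^ lam)} := by
    rintro t ⟨ht, hfr⟩
    obtain ⟨m, hm⟩ := exists_nat_ge t
    refine Set.mem_iUnion.2 ⟨m, ht, ?_⟩
    have hev : ∀ᶠ k in atTop, 1 / t ≤ u k := hut.eventually_ge_atTop _
    refine (hfr.and_eventually hev).mono ?_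
    rintro k ⟨⟨y, h1, h2, h3⟩, hk⟩
    have huk := hu k
    have htu : 1 ≤ t * u k := by
      rw [div_le_iff₀ ht] at hk
      linarith
    refine mem_starts (by positivity) h1 h2 ?_
    rw [mem_hits]
    refine ⟨⟨?_, ?_⟩, y, Nat.floor_le (by linarith), Nat.lt_floor_add_one y, h3⟩
    · rw [Nat.one_le_floor_iff]
      linarith
    · apply Nat.floor_mono
      have : t * u k ≤ m * u k := mul_le_mul_of_nonneg_right hm huk.le
      linarith
  refine measure_mono_null hcov (measure_iUnion_null fun m => ?_)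
  refine floor_null' (θ := 1 - κ + lam) (C := 3 * C * ((m : ℝ) + 1) ^ (1 - κ)) hs0 u hu hsum
    (fun k => starts (hits p ⌊(m : ℝ) * u k + (u k) ^ lam⌋₊) ((u k) ^ lam)) ?_
  filter_upwards [hut.eventually_ge_atTop 1] with k hk
  have huk := hu k
  have hul : 1 ≤ (u k) ^ lam := Real.one_le_rpow hk hlam
  have hul1 : (u k) ^ lam ≤ u k := by
    nth_rewrite 2 [← Real.rpow_one (u k)]
    exact Real.rpow_le_rpow_of_exponent_le hk hlam1
  refine (starts_card _ (by positivity)).trans ?_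
  set N := ⌊(m : ℝ) * u k + (u k) ^ lam⌋₊ with hN
  have hN1 : 1 ≤ N := by
    rw [hN, Nat.one_le_floor_iff]
    have : 0 ≤ (m : ℝ) * u k := by positivity
    linarith
  have hNle : (N : ℝ) ≤ ((m : ℝ) + 1) * u k := by
    have h1 : (N : ℝ) ≤ (m : ℝ) * u k + (u k) ^ lam := Nat.floor_le (by positivity)
    linarith
  have h2 := hp N hN1
  have h3 : (N : ℝ) ^ (1 - κ) ≤ ((m : ℝ) + 1) ^ (1 - κ) * (u k) ^ (1 - κ) := by
    rw [← Real.mul_rpow (by positivity) huk.le]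
    exact Real.rpow_le_rpow (Nat.cast_nonneg N) hNle (by linarith)
  have h4 : (u k) ^ lam + 2 ≤ 3 * (u k) ^ lam := by linarith
  calc ((hits p N).card : ℝ) * ((u k) ^ lam + 2) ≤
      (C * (((m : ℝ) + 1) ^ (1 - κ) * (u k) ^ (1 - κ))) * (3 * (u k) ^ lam) := by
        apply mul_le_mul (h2.trans (mul_le_mul_of_nonneg_left h3 hC)) h4 (by positivity)
          (by positivity)
    _ = 3 * C * ((m : ℝ) + 1) ^ (1 - κ) * ((u k) ^ (1 - κ) * (u k) ^ lam) := by ring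
    _ = _ := by rw [← Real.rpow_add huk]

/-- superpolynomial sequences -/
theorem summable_of_superpoly {u : ℕ → ℝ} (hsup : ∀ A : ℝ, ∀ᶠ k : ℕ in atTop, (k : ℝ) ^ A ≤ u k)
    {a : ℝ} (ha : 0 < a) (hu : ∀ k, 0 < u k) : Summable fun k => (u k) ^ (-a) := by
  have h1 : Summable fun k : ℕ => (k : ℝ) ^ (-2 : ℝ) := by
    rw [Real.summable_nat_rpow]
    norm_num
  refine Summable.of_norm_bounded_eventually_nat (g := fun k : ℕ => (k : ℝ) ^ (-2 : ℝ)) h1 ?_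
  filter_upwards [hsup (2 / a), eventually_ge_atTop 1] with k hk hk1
  have hk0 : (0 : ℝ) < k := by exact_mod_cast hk1
  rw [Real.norm_eq_abs, abs_of_pos (Real.rpow_pos_of_pos (hu k) _)]
  calc (u k) ^ (-a) ≤ ((k : ℝ) ^ (2 / a)) ^ (-a) :=
        Real.rpow_le_rpow_of_nonpos (by positivity) hk (by linarith)
    _ = (k : ℝ) ^ (-2 : ℝ) := by
      rw [← Real.rpow_mul hk0.le]
      congr 1
      field_simp

theorem dimH_le_of_null {S : Set ℝ} {D : ℝ} (hD : 0 ≤ D) (h : ∀ s, D < s → μH[s] S = 0) :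
    dimH S ≤ ENNReal.ofReal D := by
  refine le_of_forall_gt_imp_ge_of_dense ?_
  intro b hb
  rcases eq_or_ne b ∞ with rfl | hbt
  · exact le_top
  · have h1 : D < b.toReal := (ENNReal.ofReal_lt_iff_lt_toReal hD hbt).1 hb
    have h2 := h b.toReal h1
    have h3 : dimH S ≤ ((b.toNNReal : ℝ≥0) : ℝ≥0∞) := by
      apply dimH_le_of_hausdorffMeasure_ne_top
      have e : ((b.toNNReal : ℝ≥0) : ℝ) = b.toReal := rfl
      rw [e, h2]
      exact ENNReal.zero_ne_top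
    rwa [ENNReal.coe_toNNReal hbt] at h3

/-- counting in blocks of bounded multiplicative length -/
theorem block_count {q : ℕ → Prop} [DecidablePred q] {C V p κ : ℝ} (hC : 0 ≤ C) (hκ : κ ≤ 1)
    (hV : 0 < V) {N0 : ℕ} (h : ∀ N : ℕ, N0 ≤ N → (((Finset.Ico N (2 * N)).filter q).card : ℝ) ≤
      C * (V ^ (-p) * N + (N : ℝ) ^ (1 - κ))) (L : ℕ) {N : ℕ} (hN : N0 ≤ N) :
    (((Finset.Ico N (2 ^ L * N)).filter q).card : ℝ) ≤
      L * (C * (V ^ (-p) * (2 ^ L * N) + (2 ^ L * (N : ℝ)) ^ (1 - κ))) := by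
  induction L with
  | zero => simp
  | succ L ih =>
    have h1 : (Finset.Ico N (2 ^ (L + 1) * N)).filter q ⊆
        (Finset.Ico N (2 ^ L * N)).filter q ∪
          (Finset.Ico (2 ^ L * N) (2 * (2 ^ L * N))).filter q := by
      intro x hx
      rw [Finset.mem_union, Finset.mem_filter, Finset.mem_filter, Finset.mem_Ico, Finset.mem_Ico]
      rw [Finset.mem_filter, Finset.mem_Ico] at hx
      have e : 2 ^ (L + 1) * N = 2 * (2 ^ L * N) := by ring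
      rw [e] at hx
      obtain ⟨⟨h2, h3⟩, h4⟩ := hx
      by_cases h5 : x < 2 ^ L * N
      · exact Or.inl ⟨⟨h2, h5⟩, h4⟩
      · exact Or.inr ⟨⟨by omega, h3⟩, h4⟩
    have h2 := (Finset.card_le_card h1).trans (Finset.card_union_le _ _)
    have h3 : (N0 : ℕ) ≤ 2 ^ L * N := hN.trans (Nat.le_mul_of_pos_left _ (by positivity))
    have h4 := h (2 ^ L * N) h3
    push_cast at h4
    have hVp : 0 < V ^ (-p) := Real.rpow_pos_of_pos hV _
    have h5 : (2 : ℝ) ^ L * N ≤ 2 ^ (L + 1) * N := by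
      rw [pow_succ]
      have : (0 : ℝ) ≤ 2 ^ L * N := by positivity
      nlinarith
    have h6 : ((2 : ℝ) ^ L * N) ^ (1 - κ) ≤ (2 ^ (L + 1) * (N : ℝ)) ^ (1 - κ) :=
      Real.rpow_le_rpow (by positivity) h5 (by linarith)
    have h7 : C * (V ^ (-p) * (2 ^ L * N) + (2 ^ L * (N : ℝ)) ^ (1 - κ)) ≤
        C * (V ^ (-p) * (2 ^ (L + 1) * N) + (2 ^ (L + 1) * (N : ℝ)) ^ (1 - κ)) := by
      apply mul_le_mul_of_nonneg_left _ hC
      exact add_le_add (mul_le_mul_of_nonneg_left h5 hVp.le) h6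
    calc (((Finset.Ico N (2 ^ (L + 1) * N)).filter q).card : ℝ) ≤
        (((Finset.Ico N (2 ^ L * N)).filter q).card : ℝ) +
          (((Finset.Ico (2 ^ L * N) (2 * (2 ^ L * N))).filter q).card : ℝ) := by
            exact_mod_cast h2
      _ ≤ L * (C * (V ^ (-p) * (2 ^ L * N) + (2 ^ L * (N : ℝ)) ^ (1 - κ))) +
          C * (V ^ (-p) * (2 ^ L * N) + (2 ^ L * (N : ℝ)) ^ (1 - κ)) := add_le_add ih h4
      _ ≤ L * (C * (V ^ (-p) * (2 ^ (L + 1) * N) + (2 ^ (L + 1) * (N : ℝ)) ^ (1 - κ))) +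
          C * (V ^ (-p) * (2 ^ (L + 1) * N) + (2 ^ (L + 1) * (N : ℝ)) ^ (1 - κ)) :=
            add_le_add (mul_le_mul_of_nonneg_left h7 (Nat.cast_nonneg L)) h7
      _ = _ := by push_cast; ring

/-- the main estimate for one window size and one bound -/
theorem dil_bound_aux {E : ℝ → ℝ}
    (hcnt : ∀ p : ℝ, 0 < p → ∃ C κ : ℝ, 0 ≤ C ∧ 0 < κ ∧ κ ≤ 1 ∧ ∃ N0 : ℕ, ∀ N : ℕ, N0 ≤ N →
      ∀ V : ℝ, 0 < V → (({n : ℕ | N ≤ n ∧ n < 2 * N ∧ V < |E n|}.ncard : ℕ) : ℝ) ≤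
        C * (V ^ (-p) * N + (N : ℝ) ^ (1 - κ)))
    (hloc : ∀ n : ℕ, 1 ≤ n → ∀ y : ℝ, (n : ℝ) ≤ y → y < n + 1 → |E y| ≤ 2 * |E n| + 40)
    {u : ℕ → ℝ} (hu : ∀ k, 0 < u k) (hsup : ∀ A : ℝ, ∀ᶠ k : ℕ in atTop, (k : ℝ) ^ A ≤ u k)
    (m B : ℕ) (hm : 1 ≤ m) {η : ℝ} (hη : 0 < η) :
    ∀ᵐ t : ℝ, t ∈ Set.Icc (1 / (m : ℝ)) m → ∀ᶠ k : ℕ in atTop, ∀ y : ℝ, t * u k ≤ y →
      y ≤ t * u k + (k : ℝ) ^ B → |E y| ≤ (k : ℝ) ^ η := by
  classical
  set p : ℝ := ((B : ℝ) + 3) / η with hp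
  have hp0 : 0 < p := by positivity
  obtain ⟨C, κ, hC, hκ, hκ1, N0, hcnt⟩ := hcnt p hp0
  obtain ⟨L, hL⟩ := exists_nat_ge (8 * (m : ℝ) ^ 2)
  have hm1 : (1 : ℝ) ≤ m := by exact_mod_cast hm
  have hm0 : (0 : ℝ) < m := by linarith
  have hL2 : 8 * (m : ℝ) ^ 2 ≤ 2 ^ L := by
    have h1 : (L : ℝ) < 2 ^ L := by exact_mod_cast Nat.lt_two_pow_self
    linarith
  set n0 : ℕ → ℕ := fun k => ⌊u k / m⌋₊ with hn0
  set Q : ℕ → Finset ℕ := fun k => (Finset.Ico (n0 k) (2 ^ L * n0 k)).filter fun n =>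
    ((k : ℝ) ^ η - 40) / 2 < |E n| with hQ
  set Z : ℕ → Finset ℕ := fun k => starts (Q k) ((k : ℝ) ^ B) with hZ
  -- asymptotic facts
  have hut : Tendsto u atTop atTop := by
    have h1 := hsup 1
    refine tendsto_atTop_mono' _ (h1.mono fun k hk => ?_) tendsto_natCast_atTop_atTop
    rwa [Real.rpow_one] at hk
  have hkη : Tendsto (fun k : ℕ => (k : ℝ) ^ η) atTop atTop :=
    (tendsto_rpow_atTop hη).comp tendsto_natCast_atTop_atTop
  have hsm : Summable fun k : ℕ => 3 * (L * (C * (4 ^ p * 2 ^ L + 2 ^ L))) * (k : ℝ) ^ (-2 : ℝ) := by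
    apply Summable.mul_left
    rw [Real.summable_nat_rpow]
    norm_num
  have hZc : ∀ᶠ k in atTop, ((Z k).card : ℝ) / u k ≤
      3 * (L * (C * (4 ^ p * 2 ^ L + 2 ^ L))) * (k : ℝ) ^ (-2 : ℝ) := by
    filter_upwards [hsup (((B : ℝ) + 3) / κ), eventually_ge_atTop 1,
      hut.eventually_ge_atTop ((m : ℝ) * (N0 + 1)), hkη.eventually_ge_atTop 80] with k h1 h2 h3 h4
    have huk := hu k
    have hk1 : (1 : ℝ) ≤ k := by exact_mod_cast h2
    have hk0 : (0 : ℝ) < k := by linarith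
    have hn0N : N0 ≤ n0 k := by
      apply Nat.le_floor
      rw [le_div_iff₀ hm0]
      nlinarith
    set V : ℝ := ((k : ℝ) ^ η - 40) / 2 with hV
    have hV4 : (k : ℝ) ^ η / 4 ≤ V := by
      rw [hV]
      linarith
    have hkη0 : 0 < (k : ℝ) ^ η := by positivity
    have hV0 : 0 < V := by linarith
    have hblk := block_count (q := fun n : ℕ => V < |E n|) (p := p) hC hκ1 hV0 (N0 := N0)
      (fun N hN => by
        refine le_trans (le_of_eq ?_) (hcnt N hN V hV0)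
        congr 1
        rw [← Set.ncard_coe_finset]
        congr 1
        ext n
        simp only [Finset.coe_filter, Finset.mem_Ico, Set.mem_ofPred_eq]
        tauto) L hn0N
    have hn0u : (n0 k : ℝ) ≤ u k := by
      have h5 : (n0 k : ℝ) ≤ u k / m := Nat.floor_le (by positivity)
      refine h5.trans (div_le_self huk.le hm1)
    have hVp : V ^ (-p) ≤ 4 ^ p * (k : ℝ) ^ (-((B : ℝ) + 3)) := by
      calc V ^ (-p) ≤ ((k : ℝ) ^ η / 4) ^ (-p) :=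
            Real.rpow_le_rpow_of_nonpos (by positivity) hV4 (by linarith)
        _ = 4 ^ p * (k : ℝ) ^ (-((B : ℝ) + 3)) := by
          rw [Real.div_rpow hkη0.le (by norm_num), ← Real.rpow_mul hk0.le,
            Real.rpow_neg (by norm_num : (0 : ℝ) ≤ 4), div_inv_eq_mul, mul_comm]
          congr 2
          rw [hp]
          field_simp
    have huκ : (u k) ^ (1 - κ) ≤ (k : ℝ) ^ (-((B : ℝ) + 3)) * u k := by
      have h6 : (u k) ^ (1 - κ) = (u k) ^ (-κ) * u k := by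
        nth_rewrite 3 [← Real.rpow_one (u k)]
        rw [← Real.rpow_add huk]
        congr 1
        ring
      rw [h6]
      apply mul_le_mul_of_nonneg_right _ huk.le
      calc (u k) ^ (-κ) ≤ ((k : ℝ) ^ (((B : ℝ) + 3) / κ)) ^ (-κ) :=
            Real.rpow_le_rpow_of_nonpos (by positivity) h1 (by linarith)
        _ = (k : ℝ) ^ (-((B : ℝ) + 3)) := by
          rw [← Real.rpow_mul hk0.le]
          congr 1
          field_simp
    have hQc : ((Q k).card : ℝ) ≤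
        L * (C * (4 ^ p * 2 ^ L + 2 ^ L)) * ((k : ℝ) ^ (-((B : ℝ) + 3)) * u k) := by
      refine hblk.trans ?_
      have h7 : V ^ (-p) * (2 ^ L * (n0 k : ℝ)) ≤
          4 ^ p * 2 ^ L * ((k : ℝ) ^ (-((B : ℝ) + 3)) * u k) := by
        calc V ^ (-p) * (2 ^ L * (n0 k : ℝ)) ≤
            (4 ^ p * (k : ℝ) ^ (-((B : ℝ) + 3))) * (2 ^ L * u k) := by
              apply mul_le_mul hVp _ (by positivity) (by positivity)
              exact mul_le_mul_of_nonneg_left hn0u (by positivity)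
          _ = _ := by ring
      have h8 : (2 ^ L * (n0 k : ℝ)) ^ (1 - κ) ≤ 2 ^ L * ((k : ℝ) ^ (-((B : ℝ) + 3)) * u k) := by
        calc (2 ^ L * (n0 k : ℝ)) ^ (1 - κ) ≤ (2 ^ L * u k) ^ (1 - κ) :=
              Real.rpow_le_rpow (by positivity)
                (mul_le_mul_of_nonneg_left hn0u (by positivity)) (by linarith)
          _ = ((2 : ℝ) ^ L) ^ (1 - κ) * (u k) ^ (1 - κ) :=
              Real.mul_rpow (by positivity) huk.le
          _ ≤ 2 ^ L * ((k : ℝ) ^ (-((B : ℝ) + 3)) * u k) := by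
              apply mul_le_mul _ huκ (by positivity) (by positivity)
              have h9 : (1 : ℝ) ≤ 2 ^ L := one_le_pow₀ (by norm_num)
              nth_rewrite 2 [← Real.rpow_one ((2 : ℝ) ^ L)]
              exact Real.rpow_le_rpow_of_exponent_le h9 (by linarith)
      calc (L : ℝ) * (C * (V ^ (-p) * (2 ^ L * (n0 k : ℝ)) + (2 ^ L * (n0 k : ℝ)) ^ (1 - κ))) ≤
          L * (C * (4 ^ p * 2 ^ L * ((k : ℝ) ^ (-((B : ℝ) + 3)) * u k) +
            2 ^ L * ((k : ℝ) ^ (-((B : ℝ) + 3)) * u k))) := by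
              gcongr
        _ = _ := by ring
    have hkB : (1 : ℝ) ≤ (k : ℝ) ^ B := one_le_pow₀ hk1
    have hst := starts_card (Q k) (W := (k : ℝ) ^ B) (by positivity)
    rw [div_le_iff₀ huk]
    refine hst.trans ?_
    have h10 : (k : ℝ) ^ B + 2 ≤ 3 * (k : ℝ) ^ B := by linarith
    have h11 : (k : ℝ) ^ (-((B : ℝ) + 3)) * (k : ℝ) ^ B ≤ (k : ℝ) ^ (-2 : ℝ) := by
      rw [← Real.rpow_natCast (k : ℝ) B, ← Real.rpow_add hk0]
      exact Real.rpow_le_rpow_of_exponent_le hk1 (by linarith)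
    calc ((Q k).card : ℝ) * ((k : ℝ) ^ B + 2) ≤
        (L * (C * (4 ^ p * 2 ^ L + 2 ^ L)) * ((k : ℝ) ^ (-((B : ℝ) + 3)) * u k)) *
          (3 * (k : ℝ) ^ B) := by
          apply mul_le_mul hQc h10 (by positivity) (by positivity)
      _ = 3 * (L * (C * (4 ^ p * 2 ^ L + 2 ^ L))) *
          ((k : ℝ) ^ (-((B : ℝ) + 3)) * (k : ℝ) ^ B) * u k := by ring
      _ ≤ 3 * (L * (C * (4 ^ p * 2 ^ L + 2 ^ L))) * (k : ℝ) ^ (-2 : ℝ) * u k := by
          gcongr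
  have hmain := floor_ae u hu Z hsm hZc
  filter_upwards [hmain] with t ht htm
  have ht0 : 0 < t := lt_of_lt_of_le (by positivity) htm.1
  have hev := ht ht0
  have hkB : ∀ᶠ k : ℕ in atTop, (k : ℝ) ^ B ≤ u k := by
    have := hsup B
    simpa using this
  filter_upwards [hev, hkB, eventually_ge_atTop 1, hut.eventually_ge_atTop (2 * m)]
    with k h1 h2 h3 h4 y hy1 hy2
  by_contra hcon
  push Not at hcon
  apply h1
  have huk := hu k
  have hk1 : (1 : ℝ) ≤ k := by exact_mod_cast h3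
  refine mem_starts (by positivity) hy1 hy2 ?_
  have htu : u k / m ≤ t * u k := by
    have := mul_le_mul_of_nonneg_right htm.1 huk.le
    calc u k / m = 1 / (m : ℝ) * u k := by ring
      _ ≤ t * u k := this
  have hyp : 0 < y := lt_of_lt_of_le (by positivity) hy1
  have hn1 : n0 k ≤ ⌊y⌋₊ := Nat.floor_mono (htu.trans hy1)
  have hn01 : 1 ≤ n0 k := by
    simp only [hn0]
    rw [Nat.one_le_floor_iff, le_div_iff₀ hm0]
    linarith
  simp only [hQ]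
  rw [Finset.mem_filter, Finset.mem_Ico]
  refine ⟨⟨hn1, ?_⟩, ?_⟩
  · have h5 : (⌊y⌋₊ : ℝ) ≤ y := Nat.floor_le hyp.le
    have h6 : y ≤ 2 * m * u k := by
      have h7 : t * u k ≤ m * u k := mul_le_mul_of_nonneg_right htm.2 huk.le
      nlinarith
    have h8 : u k / m < n0 k + 1 := Nat.lt_floor_add_one _
    have h9 : u k / (2 * m) ≤ n0 k := by
      have h10 : (1 : ℝ) ≤ n0 k := by exact_mod_cast hn01
      have h11 : u k / (2 * m) = (u k / m) / 2 := by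
        field_simp
      rw [h11]
      linarith
    have h12 : 8 * (m : ℝ) ^ 2 * (u k / (2 * m)) ≤ 2 ^ L * n0 k :=
      mul_le_mul hL2 h9 (by positivity) (by positivity)
    have h13 : 8 * (m : ℝ) ^ 2 * (u k / (2 * m)) = 4 * m * u k := by
      field_simp
      ring
    have h14 : (⌊y⌋₊ : ℝ) < 2 ^ L * n0 k := by
      have : 0 < m * u k := by positivity
      nlinarith
    exact_mod_cast h14
  · have h15 := hloc ⌊y⌋₊ (hn01.trans hn1) y (Nat.floor_le hyp.le) (Nat.lt_floor_add_one y)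
    linarith

/-- **bounds for almost all dilations of superpolynomial sequences** -/
theorem dil_bound {E : ℝ → ℝ}
    (hcnt : ∀ p : ℝ, 0 < p → ∃ C κ : ℝ, 0 ≤ C ∧ 0 < κ ∧ κ ≤ 1 ∧ ∃ N0 : ℕ, ∀ N : ℕ, N0 ≤ N →
      ∀ V : ℝ, 0 < V → (({n : ℕ | N ≤ n ∧ n < 2 * N ∧ V < |E n|}.ncard : ℕ) : ℝ) ≤
        C * (V ^ (-p) * N + (N : ℝ) ^ (1 - κ)))
    (hloc : ∀ n : ℕ, 1 ≤ n → ∀ y : ℝ, (n : ℝ) ≤ y → y < n + 1 → |E y| ≤ 2 * |E n| + 40)
    {u : ℕ → ℝ} (hu : ∀ k, 0 < u k) (hsup : ∀ A : ℝ, ∀ᶠ k : ℕ in atTop, (k : ℝ) ^ A ≤ u k) :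
    ∀ᵐ t : ℝ, 0 < t → ∀ B η : ℝ, 0 < η → ∀ᶠ k : ℕ in atTop, ∀ y : ℝ, t * u k ≤ y →
      y ≤ t * u k + (k : ℝ) ^ B → |E y| ≤ (k : ℝ) ^ η := by
  have h1 : ∀ i : ℕ × ℕ × ℕ, ∀ᵐ t : ℝ, t ∈ Set.Icc (1 / ((i.1 + 1 : ℕ) : ℝ)) ((i.1 + 1 : ℕ) : ℝ) →
      ∀ᶠ k : ℕ in atTop, ∀ y : ℝ, t * u k ≤ y → y ≤ t * u k + (k : ℝ) ^ i.2.1 →
        |E y| ≤ (k : ℝ) ^ (1 / ((i.2.2 : ℝ) + 1)) := fun i =>
    dil_bound_aux hcnt hloc hu hsup (i.1 + 1) i.2.1 (by omega) (by positivity)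
  filter_upwards [ae_all_iff.2 h1] with t ht h0 B η hη
  obtain ⟨m, hm⟩ := exists_nat_ge (max t (1 / t))
  obtain ⟨b, hb⟩ := exists_nat_ge B
  obtain ⟨q, hq⟩ := exists_nat_ge (1 / η)
  have htm : t ∈ Set.Icc (1 / ((m + 1 : ℕ) : ℝ)) ((m + 1 : ℕ) : ℝ) := by
    have h2 : t ≤ m := (le_max_left _ _).trans hm
    have h3 : 1 / t ≤ m := (le_max_right _ _).trans hm
    rw [div_le_iff₀ h0] at h3
    push_cast
    constructor
    · rw [div_le_iff₀ (by positivity)]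
      nlinarith
    · linarith
  filter_upwards [ht (m, b, q) htm, eventually_ge_atTop 1] with k hk hk1 y hy1 hy2
  have hk1' : (1 : ℝ) ≤ k := by exact_mod_cast hk1
  have h4 : (k : ℝ) ^ B ≤ (k : ℝ) ^ b := by
    rw [← Real.rpow_natCast]
    exact Real.rpow_le_rpow_of_exponent_le hk1' hb
  refine (hk y hy1 (by linarith)).trans ?_
  apply Real.rpow_le_rpow_of_exponent_le hk1'
  rw [div_le_iff₀ (by positivity)]
  rw [div_le_iff₀ hη] at hq
  nlinarith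

end Pool.Agent.Q138.Met
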