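import Pool.Agent.Q138.Met.Exc

set_option autoImplicit false

/-! # From exceptional sets and truncated moments to bounds for almost all dilations -/

namespace Pool.Agent.Q138.Met

open Filter Topology MeasureTheory
open scoped ENNReal NNReal

theorem kap_bd {c ε : ℝ} (hc : 0 < c) (hc1 : c ≤ 1 / 2) (hε : 0 < ε) (hεc : ε ≤ c) :
    0 < c * (ε * Real.log (1 / ε)) ∧ c * (ε * Real.log (1 / ε)) ≤ 1 / 2 := by
  have h1 : 1 < 1 / ε := by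
    rw [lt_div_iff₀ hε]
    linarith
  have h2 : 0 < Real.log (1 / ε) := Real.log_pos h1
  have h3 : Real.log (1 / ε) ≤ 1 / ε - 1 := Real.log_le_sub_one_of_pos (by positivity)
  have h4 : ε * Real.log (1 / ε) ≤ 1 := by
    calc ε * Real.log (1 / ε) ≤ ε * (1 / ε - 1) := mul_le_mul_of_nonneg_left h3 hε.le
      _ = 1 - ε := by field_simp
      _ ≤ 1 := by linarith
  refine ⟨by positivity, ?_⟩
  nlinarith [mul_pos hε h2]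

/-- lowering the constant -/
theorem exc_min {E : ℝ → ℝ} {c c' : ℝ} (hc' : 0 < c') (hle : c' ≤ c) (hc'1 : c' ≤ 1 / 2)
    (h : ∀ ε : ℝ, 0 < ε → ε ≤ c → ∃ C : ℝ, 0 < C ∧ ∀ N : ℕ, 1 ≤ N →
      ((hits (fun y => y ^ ε < |E y|) N).card : ℝ) ≤ C * (N : ℝ) ^ (1 - c * (ε * Real.log (1 / ε))))
    (ε : ℝ) (hε : 0 < ε) (hεc : ε ≤ c') : ∃ C : ℝ, 0 < C ∧ ∀ N : ℕ, 1 ≤ N →
      ((hits (fun y => y ^ ε < |E y|) N).card : ℝ) ≤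
        C * (N : ℝ) ^ (1 - c' * (ε * Real.log (1 / ε))) := by
  obtain ⟨C, hC, h1⟩ := h ε hε (hεc.trans hle)
  refine ⟨C, hC, fun N hN => (h1 N hN).trans ?_⟩
  apply mul_le_mul_of_nonneg_left _ hC.le
  apply Real.rpow_le_rpow_of_exponent_le (by exact_mod_cast hN)
  have h2 : 1 < 1 / ε := by
    rw [lt_div_iff₀ hε]
    linarith
  have h3 : 0 < Real.log (1 / ε) := Real.log_pos h2
  have h4 : 0 ≤ (c - c') * (ε * Real.log (1 / ε)) :=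
    mul_nonneg (by linarith) (mul_pos hε h3).le
  nlinarith

theorem cnt_of {E : ℝ → ℝ} {c : ℝ} (hc : 0 < c) (hc1 : c ≤ 1 / 2)
    (hexc : ∀ ε : ℝ, 0 < ε → ε ≤ c → ∃ C : ℝ, 0 < C ∧ ∀ N : ℕ, 1 ≤ N →
      ((hits (fun y => y ^ ε < |E y|) N).card : ℝ) ≤ C * (N : ℝ) ^ (1 - c * (ε * Real.log (1 / ε))))
    (htr : ∀ p : ℝ, 0 < p → ∃ c₀ : ℝ, 0 < c₀ ∧ ∀ ε : ℝ, 0 < ε → ε ≤ c₀ →
      ∃ M : ℝ, 0 ≤ M ∧ ∃ N₀ : ℕ, ∀ N : ℕ, N₀ ≤ N → ∀ S : Finset ℕ,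
        (∀ n ∈ S, N ≤ n ∧ n < 2 * N ∧ |E n| ≤ (n : ℝ) ^ ε) → ∑ n ∈ S, |E n| ^ p ≤ M * N)
    (p : ℝ) (hp : 0 < p) : ∃ C κ : ℝ, 0 ≤ C ∧ 0 < κ ∧ κ ≤ 1 ∧ ∃ N0 : ℕ, ∀ N : ℕ, N0 ≤ N →
      ∀ V : ℝ, 0 < V → (({n : ℕ | N ≤ n ∧ n < 2 * N ∧ V < |E n|}.ncard : ℕ) : ℝ) ≤
        C * (V ^ (-p) * N + (N : ℝ) ^ (1 - κ)) := by
  classical
  obtain ⟨c₀, hc₀, h1⟩ := htr p hp
  set ε : ℝ := min c c₀ with hε
  have hε0 : 0 < ε := lt_min hc hc₀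
  obtain ⟨M, hM, N₀, h2⟩ := h1 ε hε0 (min_le_right _ _)
  obtain ⟨C, hC, h3⟩ := hexc ε hε0 (min_le_left _ _)
  obtain ⟨hκ0, hκ1⟩ := kap_bd hc hc1 hε0 (min_le_left _ _)
  set κ : ℝ := c * (ε * Real.log (1 / ε)) with hκ
  refine ⟨M + 2 * C, κ, by linarith, hκ0, by linarith, max N₀ 1, fun N hN V hV => ?_⟩
  have hN0 : N₀ ≤ N := (le_max_left _ _).trans hN
  have hN1 : 1 ≤ N := (le_max_right _ _).trans hN
  set S : Finset ℕ := (Finset.Ico N (2 * N)).filter fun n => |E n| ≤ (n : ℝ) ^ ε ∧ V < |E n|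
    with hS
  have hsub : {n : ℕ | N ≤ n ∧ n < 2 * N ∧ V < |E n|} ⊆
      ((S ∪ hits (fun y => y ^ ε < |E y|) (2 * N) : Finset ℕ) : Set ℕ) := by
    rintro n ⟨ha, hb, hd⟩
    rw [Finset.mem_coe, Finset.mem_union]
    by_cases he : |E n| ≤ (n : ℝ) ^ ε
    · left
      rw [hS, Finset.mem_filter, Finset.mem_Ico]
      exact ⟨⟨ha, hb⟩, he, hd⟩
    · right
      rw [mem_hits]
      push Not at he
      exact ⟨⟨by omega, by omega⟩, n, le_rfl, by linarith, he⟩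
  have hcard := Set.ncard_le_ncard hsub (Finset.finite_toSet _)
  rw [Set.ncard_coe_finset] at hcard
  have hcard2 := hcard.trans (Finset.card_union_le _ _)
  have hS1 : (S.card : ℝ) ≤ M * (V ^ (-p) * N) := by
    have h4 := h2 N hN0 S (fun n hn => by
      rw [hS, Finset.mem_filter, Finset.mem_Ico] at hn
      exact ⟨hn.1.1, hn.1.2, hn.2.1⟩)
    have h5 : (S.card : ℝ) * V ^ p ≤ ∑ n ∈ S, |E n| ^ p := by
      rw [← nsmul_eq_mul]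
      apply Finset.card_nsmul_le_sum
      intro n hn
      rw [hS, Finset.mem_filter] at hn
      exact Real.rpow_le_rpow hV.le hn.2.2.le hp.le
    have hVp : 0 < V ^ p := Real.rpow_pos_of_pos hV p
    have h6 : (S.card : ℝ) ≤ M * N / V ^ p := by
      rw [le_div_iff₀ hVp]
      exact h5.trans h4
    refine h6.trans (le_of_eq ?_)
    rw [Real.rpow_neg hV.le]
    field_simp
  have h7 := h3 (2 * N) (by omega)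
  have h8 : (((2 * N : ℕ) : ℝ)) ^ (1 - κ) ≤ 2 * (N : ℝ) ^ (1 - κ) := by
    push_cast
    rw [Real.mul_rpow (by norm_num) (Nat.cast_nonneg N)]
    apply mul_le_mul_of_nonneg_right _ (by positivity)
    have h11 : (2 : ℝ) ^ (1 - κ) ≤ (2 : ℝ) ^ (1 : ℝ) :=
      Real.rpow_le_rpow_of_exponent_le (by norm_num) (by linarith)
    rwa [Real.rpow_one] at h11
  have h9 : 0 ≤ V ^ (-p) * N := by positivity
  have h10 : 0 ≤ (N : ℝ) ^ (1 - κ) := by positivity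
  calc (({n : ℕ | N ≤ n ∧ n < 2 * N ∧ V < |E n|}.ncard : ℕ) : ℝ) ≤
      (S.card : ℝ) + ((hits (fun y => y ^ ε < |E y|) (2 * N)).card : ℝ) := by
        exact_mod_cast hcard2
    _ ≤ M * (V ^ (-p) * N) + C * (2 * (N : ℝ) ^ (1 - κ)) := by
        apply add_le_add hS1
        exact h7.trans (mul_le_mul_of_nonneg_left h8 hC.le)
    _ ≤ _ := by nlinarith

/-- **the metric bounds** -/
theorem metric {E : ℝ → ℝ} {c : ℝ} (hc : 0 < c) (hc1 : c ≤ 1 / 2)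
    (hexc : ∀ ε : ℝ, 0 < ε → ε ≤ c → ∃ C : ℝ, 0 < C ∧ ∀ N : ℕ, 1 ≤ N →
      ((hits (fun y => y ^ ε < |E y|) N).card : ℝ) ≤ C * (N : ℝ) ^ (1 - c * (ε * Real.log (1 / ε))))
    (htr : ∀ p : ℝ, 0 < p → ∃ c₀ : ℝ, 0 < c₀ ∧ ∀ ε : ℝ, 0 < ε → ε ≤ c₀ →
      ∃ M : ℝ, 0 ≤ M ∧ ∃ N₀ : ℕ, ∀ N : ℕ, N₀ ≤ N → ∀ S : Finset ℕ,
        (∀ n ∈ S, N ≤ n ∧ n < 2 * N ∧ |E n| ≤ (n : ℝ) ^ ε) → ∑ n ∈ S, |E n| ^ p ≤ M * N)
    (hloc : ∀ n : ℕ, 1 ≤ n → ∀ y : ℝ, (n : ℝ) ≤ y → y < n + 1 → |E y| ≤ 2 * |E n| + 40) :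
    (∀ u : ℕ → ℝ, (∀ k, 0 < u k) → (∀ A : ℝ, ∀ᶠ k : ℕ in atTop, (k : ℝ) ^ A ≤ u k) →
      ∀ᵐ t : ℝ, 0 < t → ∀ B η : ℝ, 0 < η → ∀ᶠ k : ℕ in atTop, ∀ y : ℝ, t * u k ≤ y →
        y ≤ t * u k + (k : ℝ) ^ B → |E y| ≤ (k : ℝ) ^ η) ∧
    (∀ ε : ℝ, 0 < ε → ε ≤ c → ∀ lam : ℝ, 0 ≤ lam → lam ≤ 1 → ∀ u : ℕ → ℝ, (∀ k, 0 < u k) →
      ∀ s : ℝ, 1 - c * (ε * Real.log (1 / ε)) + lam < s →
      (Summable fun k => (u k) ^ (1 - c * (ε * Real.log (1 / ε)) + lam - s)) →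
      μH[s] {t : ℝ | 0 < t ∧ ∃ᶠ k in atTop, ∃ y : ℝ, t * u k ≤ y ∧ y ≤ t * u k + (u k) ^ lam ∧
        y ^ ε < |E y|} = 0) ∧
    (∀ ε : ℝ, 0 < ε → ε ≤ c → ∀ lam : ℝ, 0 ≤ lam → lam ≤ 1 → ∀ u : ℕ → ℝ, (∀ k, 0 < u k) →
      (∀ A : ℝ, ∀ᶠ k : ℕ in atTop, (k : ℝ) ^ A ≤ u k) →
      dimH {t : ℝ | 0 < t ∧ ∃ᶠ k in atTop, ∃ y : ℝ, t * u k ≤ y ∧ y ≤ t * u k + (u k) ^ lam ∧
        y ^ ε < |E y|} ≤ ENNReal.ofReal (1 - c * (ε * Real.log (1 / ε)) + lam)) := by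
  have h2 : ∀ ε : ℝ, 0 < ε → ε ≤ c → ∀ lam : ℝ, 0 ≤ lam → lam ≤ 1 → ∀ u : ℕ → ℝ, (∀ k, 0 < u k) →
      ∀ s : ℝ, 1 - c * (ε * Real.log (1 / ε)) + lam < s →
      (Summable fun k => (u k) ^ (1 - c * (ε * Real.log (1 / ε)) + lam - s)) →
      μH[s] {t : ℝ | 0 < t ∧ ∃ᶠ k in atTop, ∃ y : ℝ, t * u k ≤ y ∧ y ≤ t * u k + (u k) ^ lam ∧
        y ^ ε < |E y|} = 0 := by
    intro ε hε hεc lam hlam hlam1 u hu s hs hsum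
    obtain ⟨C, hC, h3⟩ := hexc ε hε hεc
    obtain ⟨hκ0, hκ1⟩ := kap_bd hc hc1 hε hεc
    exact dil_null (p := fun y => y ^ ε < |E y|) hC.le (by linarith) h3 hlam hlam1 hs u hu hsum
  refine ⟨fun u hu hsup => dil_bound (cnt_of hc hc1 hexc htr) hloc hu hsup, h2, ?_⟩
  intro ε hε hεc lam hlam hlam1 u hu hsup
  obtain ⟨hκ0, hκ1⟩ := kap_bd hc hc1 hε hεc
  apply dimH_le_of_null (by linarith)
  intro s hs
  apply h2 ε hε hεc lam hlam hlam1 u hu s hs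
  have h4 := summable_of_superpoly hsup (a := s - (1 - c * (ε * Real.log (1 / ε)) + lam))
    (by linarith) hu
  refine h4.congr fun k => ?_
  congr 1
  ring

end Pool.Agent.Q138.Met
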