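import Pool.Agent.Q138.Met.ExcC

set_option autoImplicit false

/-! # Preparation of the hypotheses of `metric` -/

namespace Pool.Agent.Q138.Met

open Filter Topology MeasureTheory
open scoped ENNReal NNReal

theorem loc_of {F : ℝ → ℝ} (hloc : ∀ n : ℕ, 1 ≤ n → ∀ y : ℝ, (n : ℝ) ≤ y → y < n + 1 →
    |F y - F n| ≤ 5 + Real.log n) {E : ℝ → ℝ} (hE : ∀ x, E x = F x / x ^ (1 / 4 : ℝ)) (n : ℕ)
    (hn : 1 ≤ n) (y : ℝ) (h1 : (n : ℝ) ≤ y) (h2 : y < n + 1) : |E y| ≤ 2 * |E n| + 40 := by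
  have hn1 : (1 : ℝ) ≤ n := by exact_mod_cast hn
  have hn0 : (0 : ℝ) < n := by linarith
  have hy0 : 0 < y := by linarith
  have hp : 0 < (n : ℝ) ^ (1 / 4 : ℝ) := by positivity
  have hq : 0 < y ^ (1 / 4 : ℝ) := by positivity
  have hpq : (n : ℝ) ^ (1 / 4 : ℝ) ≤ y ^ (1 / 4 : ℝ) := Real.rpow_le_rpow hn0.le h1 (by norm_num)
  have hp1 : 1 ≤ (n : ℝ) ^ (1 / 4 : ℝ) := Real.one_le_rpow hn1 (by norm_num)
  have h3 := hloc n hn y h1 h2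
  have h4 : |F y| ≤ |F n| + (5 + Real.log n) := by
    have := abs_sub_abs_le_abs_sub (F y) (F n)
    linarith
  have h5 := Real.log_le_rpow_div hn0.le (by norm_num : (0 : ℝ) < 1 / 4)
  have h6 : |E n| = |F n| / (n : ℝ) ^ (1 / 4 : ℝ) := by
    rw [hE, abs_div, abs_of_pos hp]
  have h7 : |E y| = |F y| / y ^ (1 / 4 : ℝ) := by
    rw [hE, abs_div, abs_of_pos hq]
  have h8 : |F n| = |E n| * (n : ℝ) ^ (1 / 4 : ℝ) := by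
    rw [h6]
    field_simp
  rw [h7, div_le_iff₀ hq]
  have h9 : 0 ≤ |E n| := abs_nonneg _
  calc |F y| ≤ |E n| * (n : ℝ) ^ (1 / 4 : ℝ) + (5 + (n : ℝ) ^ (1 / 4 : ℝ) / (1 / 4)) := by
        rw [← h8]
        linarith
    _ ≤ (2 * |E n| + 40) * (n : ℝ) ^ (1 / 4 : ℝ) := by
        nlinarith [mul_nonneg h9 hp.le]
    _ ≤ (2 * |E n| + 40) * y ^ (1 / 4 : ℝ) := mul_le_mul_of_nonneg_left hpq (by linarith)

open Classical in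
theorem exc_of {E : ℝ → ℝ} {c : ℝ} (hc : 0 < c)
    (h : ∀ ε : ℝ, 0 < ε → ε ≤ c → ∃ C : ℝ, 0 < C ∧
      ∀ K H : ℕ, 1 ≤ K → (K : ℝ) ^ (1 / 2 + 1 / 2 : ℝ) ≤ H →
      (((Finset.Ico K (K + H)).filter (fun n : ℕ =>
          ∃ y : ℝ, (n : ℝ) ≤ y ∧ y < n + 1 ∧ y ^ ε < |E y|)).card : ℝ)
        ≤ C * (H : ℝ) ^ (1 - c * (ε * Real.log (1 / ε)))) :
    ∃ c' : ℝ, 0 < c' ∧ c' ≤ 1 / 2 ∧ c' ≤ c ∧ ∀ ε : ℝ, 0 < ε → ε ≤ c' → ∃ C : ℝ, 0 < C ∧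
      ∀ N : ℕ, 1 ≤ N → ((hits (fun y => y ^ ε < |E y|) N).card : ℝ) ≤
        C * (N : ℝ) ^ (1 - c' * (ε * Real.log (1 / ε))) := by
  refine ⟨min c (1 / 2), lt_min hc (by norm_num), min_le_right _ _, min_le_left _ _, ?_⟩
  apply exc_min (lt_min hc (by norm_num)) (min_le_left _ _) (min_le_right _ _)
  intro ε hε hεc
  obtain ⟨C, hC, h1⟩ := h ε hε hεc
  refine ⟨C, hC, fun N hN => ?_⟩
  refine le_trans ?_ (h1 1 N le_rfl ?_)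
  · apply Nat.cast_le.2
    apply Finset.card_le_card
    intro n hn
    rw [mem_hits] at hn
    rw [Finset.mem_filter, Finset.mem_Ico]
    exact ⟨⟨hn.1.1, by omega⟩, hn.2⟩
  · rw [Nat.cast_one, Real.one_rpow]
    exact_mod_cast hN

open Classical in
theorem tr_of {κ : Type} [Fintype κ] {E : ℝ → ℝ} {ev : ℕ → κ → ℝ} {D : ℝ} (hD : 0 < D)
    (hE1 : ∀ n : ℕ, |E n| ≤ D * ‖ev n‖) (hE2 : ∀ n i, |ev n i| ≤ |E n|) {p : ℝ} (hp : 0 < p)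
    {c₀ I : ℝ} (hc₀ : 0 < c₀) (h : ∀ c : ℝ, 0 < c → c ≤ c₀ → ∃ N₀ : ℕ, ∀ N : ℕ, N₀ ≤ N →
        |∑ n ∈ (Finset.Ico N (N + N)).filter (fun n : ℕ => ∀ i, |ev n i| ≤ (n : ℝ) ^ c),
            ‖ev n‖ ^ p - N * I| ≤ 1 * N) :
    ∃ c₀ : ℝ, 0 < c₀ ∧ ∀ ε : ℝ, 0 < ε → ε ≤ c₀ →
      ∃ M : ℝ, 0 ≤ M ∧ ∃ N₀ : ℕ, ∀ N : ℕ, N₀ ≤ N → ∀ S : Finset ℕ,
        (∀ n ∈ S, N ≤ n ∧ n < 2 * N ∧ |E n| ≤ (n : ℝ) ^ ε) → ∑ n ∈ S, |E n| ^ p ≤ M * N := by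
  refine ⟨c₀, hc₀, fun ε hε hεc => ?_⟩
  obtain ⟨N₀, h1⟩ := h ε hε hεc
  refine ⟨D ^ p * (|I| + 1), by positivity, N₀, fun N hN S hS => ?_⟩
  have h2 := h1 N hN
  have h3 : S ⊆ (Finset.Ico N (N + N)).filter (fun n : ℕ => ∀ i, |ev n i| ≤ (n : ℝ) ^ ε) := by
    intro n hn
    obtain ⟨ha, hb, hd⟩ := hS n hn
    rw [Finset.mem_filter, Finset.mem_Ico]
    exact ⟨⟨ha, by omega⟩, fun i => (hE2 n i).trans hd⟩
  have h4 : ∑ n ∈ S, |E n| ^ p ≤ D ^ p * ∑ n ∈ S, ‖ev n‖ ^ p := by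
    rw [Finset.mul_sum]
    apply Finset.sum_le_sum
    intro n _
    rw [← Real.mul_rpow hD.le (norm_nonneg _)]
    exact Real.rpow_le_rpow (abs_nonneg _) (hE1 n) hp.le
  have h5 : ∑ n ∈ S, ‖ev n‖ ^ p ≤ ∑ n ∈ (Finset.Ico N (N + N)).filter
      (fun n : ℕ => ∀ i, |ev n i| ≤ (n : ℝ) ^ ε), ‖ev n‖ ^ p :=
    Finset.sum_le_sum_of_subset_of_nonneg h3 fun n _ _ => by positivity
  have h6 := (abs_le.1 h2).2
  have h7 : (N : ℝ) * I ≤ N * |I| := mul_le_mul_of_nonneg_left (le_abs_self I) (Nat.cast_nonneg N)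
  have hDp : 0 ≤ D ^ p := by positivity
  calc ∑ n ∈ S, |E n| ^ p ≤ D ^ p * (N * |I| + 1 * N) :=
        h4.trans (mul_le_mul_of_nonneg_left (by linarith) hDp)
    _ = _ := by ring

end Pool.Agent.Q138.Met
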