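import Pool.Agent.Q138.Met.Gen

set_option autoImplicit false

/-! # The final form: functions and sets -/

namespace Pool.Agent.Q138.Met

open Filter Topology MeasureTheory Finset
open scoped ENNReal NNReal Real
open Pool.Agent.H383 Pool.Agent.H452R2.Win Pool.Agent.H425R3.JL

/-- proportions from averages of continuous functions -/
theorem portm1 {e : ℕ → ℝ} {ν : ProbabilityMeasure ℝ}
    (h : ∀ f : ℝ → ℝ, Continuous f → (∃ C : ℝ, ∀ z, |f z| ≤ C * (1 + z ^ 2)) →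
      Tendsto (av fun k => f (e k)) atTop (𝓝 (∫ z, f z ∂(ν : Measure ℝ))))
    {A : Set ℝ} (hA : (ν : Measure ℝ) (frontier A) = 0) :
    Tendsto (fun K : ℕ => ({k : ℕ | k < K ∧ e k ∈ A}.ncard : ℝ) / K) atTop
      (𝓝 ((ν : Measure ℝ).real A)) := by
  classical
  rw [← tendsto_add_atTop_iff_nat 1]
  have hne : ∀ j : ℕ, (range (j + 1)).Nonempty := fun j => ⟨0, by simp⟩
  set emp : ℕ → Measure ℝ := fun j =>
    (((range (j + 1)).card : ℕ) : ENNReal)⁻¹ • ∑ n ∈ range (j + 1), Measure.dirac (e n) with hemp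
  have hprob : ∀ j, IsProbabilityMeasure (emp j) := by
    intro j
    constructor
    simp only [hemp, Measure.smul_apply, Measure.coe_finsetSum, Finset.sum_apply, measure_univ,
      Finset.sum_const, nsmul_eq_mul, mul_one, smul_eq_mul]
    apply ENNReal.inv_mul_cancel
    · exact_mod_cast (Finset.card_pos.mpr (hne j)).ne'
    · simp
  have hint : ∀ j, ∀ f : ℝ → ℝ, Continuous f →
      ∫ x, f x ∂(emp j) = av (fun k => f (e k)) (j + 1) := by
    intro j f hf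
    simp only [hemp]
    unfold av
    rw [integral_smul_measure, integral_finsetSum_measure]
    · rw [smul_eq_mul, div_eq_inv_mul]
      congr 1
      · rw [ENNReal.toReal_inv, ENNReal.toReal_natCast, card_range]
      · apply Finset.sum_congr rfl
        intro n _
        rw [integral_dirac]
    · intro n _
      exact integrable_dirac' hf.stronglyMeasurable (by simp)
  set P : ℕ → ProbabilityMeasure ℝ := fun j => ⟨emp j, hprob j⟩ with hP
  have hw : Tendsto P atTop (𝓝 ν) := by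
    rw [ProbabilityMeasure.tendsto_iff_forall_integral_tendsto]
    intro f
    have a1 := h f f.continuous ⟨‖f‖, fun x => by
      have h1 := f.norm_coe_le_norm x
      rw [Real.norm_eq_abs] at h1
      nlinarith [norm_nonneg f, sq_nonneg x]⟩
    have a2 := (tendsto_add_atTop_iff_nat 1).2 a1
    refine a2.congr fun j => ?_
    exact (hint j f f.continuous).symm
  have h2 := ProbabilityMeasure.tendsto_measure_of_null_frontier_of_tendsto' hw hA
  have h3 := (ENNReal.tendsto_toReal (measure_ne_top _ _)).comp h2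
  refine h3.congr fun j => ?_
  simp only [Function.comp_apply, hP, ProbabilityMeasure.coe_mk, hemp]
  rw [Measure.smul_apply, Measure.finsetSum_apply]
  simp only [Measure.dirac_apply, smul_eq_mul]
  have h4 : ∑ n ∈ range (j + 1), A.indicator (1 : ℝ → ENNReal) (e n) =
      (((range (j + 1)).filter (fun n => e n ∈ A)).card : ENNReal) := by
    simp only [Set.indicator_apply, Pi.one_apply]
    rw [← Finset.sum_filter, Finset.sum_const, nsmul_eq_mul, mul_one]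
  have h5 : {k : ℕ | k < j + 1 ∧ e k ∈ A} =
      (((range (j + 1)).filter (fun n => e n ∈ A) : Finset ℕ) : Set ℕ) := by
    ext k
    simp only [Set.mem_ofPred_eq, coe_filter, mem_range]
  rw [h4, h5, Set.ncard_coe_finset, ENNReal.toReal_mul, ENNReal.toReal_inv,
    ENNReal.toReal_natCast, ENNReal.toReal_natCast, div_eq_inv_mul, card_range]

/-- the law of the values at the integers, in terms of `av` -/
theorem law_int {Ex : ℝ → ℝ} {ν : ProbabilityMeasure ℝ} {μ : ProbabilityMeasure (Fin 1 → ℝ)}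
    (hμν : (μ : Measure (Fin 1 → ℝ)).map (fun x => x 0) = (ν : Measure ℝ))
    (h : ∀ f : (Fin 1 → ℝ) → ℝ, Continuous f →
      (∃ C : ℝ, ∀ x, |f x| ≤ C * (1 + ∑ i, x i ^ 2)) →
      ∀ η : ℝ, 0 < η → ∃ N₀ : ℕ, ∀ N : ℕ, N₀ ≤ N →
        |∑ n ∈ Icc 1 N, (f (fun _ => Ex n) - ∫ x, f x ∂(μ : Measure (Fin 1 → ℝ)))| ≤ η * N)
    {g : ℝ → ℝ} (hg : Continuous g) (hC : ∃ C : ℝ, ∀ z, |g z| ≤ C * (1 + z ^ 2)) :
    Tendsto (av fun k : ℕ => g (Ex ((k : ℝ) + 1))) atTop (𝓝 (∫ z, g z ∂(ν : Measure ℝ))) := by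
  obtain ⟨C, hC⟩ := hC
  have hint : ∫ x, g (x 0) ∂(μ : Measure (Fin 1 → ℝ)) = ∫ z, g z ∂(ν : Measure ℝ) := by
    rw [← hμν, integral_map (measurable_pi_apply 0).aemeasurable hg.aestronglyMeasurable]
  rw [Metric.tendsto_atTop]
  intro ε hε
  obtain ⟨N0, hN0⟩ := h (fun x => g (x 0)) (hg.comp (continuous_apply 0)) ⟨C, fun x => by
    have := hC (x 0)
    simpa using this⟩ (ε / 2) (by positivity)
  refine ⟨N0 + 1, fun N hN => ?_⟩
  have hN1 := hN0 N (by omega)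
  have hNpos : (0 : ℝ) < N := by exact_mod_cast (by omega : 0 < N)
  rw [hint, Finset.sum_sub_distrib, sum_const, Nat.card_Icc, Nat.add_sub_cancel, nsmul_eq_mul,
    sum_shift] at hN1
  rw [Real.dist_eq]
  unfold av
  have h1 : (∑ k ∈ range N, g (Ex ((k : ℝ) + 1))) / N - ∫ z, g z ∂(ν : Measure ℝ) =
      (∑ k ∈ range N, g (Ex ((k : ℝ) + 1)) - N * ∫ z, g z ∂(ν : Measure ℝ)) / N := by
    field_simp
  rw [h1, abs_div, abs_of_pos hNpos, div_lt_iff₀ hNpos]
  have h2 : ∑ k ∈ range N, g (Ex ((k : ℝ) + 1)) = ∑ k ∈ range N, g (Ex ((k + 1 : ℕ) : ℝ)) :=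
    Finset.sum_congr rfl fun k _ => by push_cast; rfl
  rw [h2]
  refine lt_of_le_of_lt hN1 ?_
  nlinarith

/-- **the final form** -/
theorem final {E : ℝ → ℝ} {a : ℕ → ℝ} {φ : ℝ} {w : ℝ → ℂ} {κ₁ κ₂ : ℝ} (ha : Bdw a)
    (ha0 : a 0 = 0) (hw : GW.Wt w) (hS : SandW E a φ w κ₁ κ₂) {c : ℝ} (hc : 0 < c) {F Ex : ℝ → ℝ}
    (hF : Measurable F) (hloc : ∀ n : ℕ, 1 ≤ n → ∀ y : ℝ, (n : ℝ) ≤ y → y < n + 1 →
      |F y - F n| ≤ 5 + Real.log n)
    (hEx : ∀ x, Ex x = F x / x ^ (1 / 4 : ℝ))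
    (hEF : ∀ n : ℕ, 1 ≤ n → E (c * √(n : ℝ)) = Ex n)
    {ν : ProbabilityMeasure ℝ} (hν : ∀ g : ℝ → ℝ, Continuous g →
      (∃ C : ℝ, ∀ z, |g z| ≤ C * (1 + z ^ 2)) →
      Tendsto (av fun k : ℕ => g (Ex ((k : ℝ) + 1))) atTop (𝓝 (∫ z, g z ∂(ν : Measure ℝ))))
    {R : ℕ → ℝ} {δ : ℝ} (hδ : 0 < δ) (hR0 : 0 < R 0) (hR : ∀ k, R k + δ ≤ R (k + 1)) :
    ∀ᵐ t : ℝ, 0 < t →
      (∀ f : ℝ → ℝ, Continuous f → (∃ C : ℝ, ∀ z, |f z| ≤ C * (1 + z ^ 2)) →
        Tendsto (fun K : ℕ => (∑ k ∈ range K, f (Ex ((t * R k) ^ 2))) / K) atTop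
          (𝓝 (∫ z, f z ∂(ν : Measure ℝ)))) ∧
      ∀ A : Set ℝ, (ν : Measure ℝ) (frontier A) = 0 →
        Tendsto (fun K : ℕ => ({k : ℕ | k < K ∧ Ex ((t * R k) ^ 2) ∈ A}.ncard : ℝ) / K) atTop
          (𝓝 ((ν : Measure ℝ).real A)) := by
  have hmain := gen ha ha0 hw hS hc hF hloc (fun n hn => (hEF n hn).trans (hEx n)) hδ hR0 hR
  filter_upwards [hmain] with t ht h0
  have h1 : ∀ f : ℝ → ℝ, Continuous f → (∃ C : ℝ, ∀ z, |f z| ≤ C * (1 + z ^ 2)) →
      Tendsto (av fun k : ℕ => f (Ex ((t * R k) ^ 2))) atTop (𝓝 (∫ z, f z ∂(ν : Measure ℝ))) := by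
    intro f hf hC
    have h2 := ht h0 f hf hC (∫ z, f z ∂(ν : Measure ℝ)) (by
      have := hν f hf hC
      simp only [hEx] at this
      exact this)
    simp only [hEx]
    exact h2
  exact ⟨h1, fun A hA => portm1 h1 hA⟩

end Pool.Agent.Q138.Met
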