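import Pool.Agent.Q138.Met.Floor

set_option autoImplicit false

/-! # Integer parts `⌊α u_k⌋` in sets depending on `k` -/

namespace Pool.Agent.Q138.Met

open Filter Topology MeasureTheory Set
open scoped ENNReal NNReal

/-- Hausdorff measure zero, for finite sets with at most `C u_k ^ θ` elements -/
theorem floor_null' {θ s C : ℝ} (hs : 0 < s) (u : ℕ → ℝ)
    (hu : ∀ k, 0 < u k) (hsum : Summable fun k => (u k) ^ (θ - s)) (Z : ℕ → Finset ℕ)
    (hZ : ∀ᶠ k in atTop, ((Z k).card : ℝ) ≤ C * (u k) ^ θ) :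
    μH[s] {α : ℝ | 0 < α ∧ ∃ᶠ k in atTop, ⌊α * u k⌋₊ ∈ Z k} = 0 := by
  obtain ⟨K₀, hK₀⟩ := eventually_atTop.1 hZ
  set f : ℕ → ℝ≥0∞ := fun k => ENNReal.ofReal (C * (u k) ^ (θ - s)) with hf
  have hfs : ∑' k, f k ≠ ∞ := (hsum.mul_left C).tsum_ofReal_ne_top
  set t : ℕ → ℕ × ℕ → Set ℝ := fun K i => if i.2 ∈ Z (i.1 + K) then
    Icc ((i.2 : ℝ) / u (i.1 + K)) (((i.2 : ℝ) + 1) / u (i.1 + K)) else ∅ with ht
  refine hausdorff_null_of_covers hs t (fun K => ?_) ?_
  · rintro α ⟨hα0, hfr⟩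
    obtain ⟨k, hkK, hk⟩ := (hfr.and_eventually (eventually_ge_atTop K)).exists.imp
      fun k h => And.intro h.2 h.1
    refine mem_iUnion.2 ⟨(k - K, ⌊α * u k⌋₊), ?_⟩
    have hkk : k - K + K = k := by omega
    simp only [ht, hkk]
    rw [if_pos hk]
    have huk := hu k
    constructor
    · rw [div_le_iff₀ huk]
      exact Nat.floor_le (by positivity)
    · rw [le_div_iff₀ huk]
      exact (Nat.lt_floor_add_one _).le
  · have hle : ∀ K, K₀ ≤ K → ∑' i, Metric.ediam (t K i) ^ s ≤ ∑' k, f (k + K) := by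
      intro K hK
      rw [ENNReal.tsum_prod']
      refine ENNReal.tsum_le_tsum fun k => ?_
      have huk := hu (k + K)
      have h2 := hK₀ (k + K) (by omega)
      have h3 : ∀ n : ℕ, Metric.ediam (t K (k, n)) ^ s =
          if n ∈ Z (k + K) then ENNReal.ofReal ((u (k + K)) ^ (-s)) else 0 := by
        intro n
        simp only [ht]
        split_ifs with hn
        · rw [Real.ediam_Icc]
          have e : ((n : ℝ) + 1) / u (k + K) - n / u (k + K) = (u (k + K))⁻¹ := by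
            field_simp
            ring
          rw [e, ENNReal.ofReal_rpow_of_pos (by positivity), Real.inv_rpow huk.le,
            Real.rpow_neg huk.le]
        · rw [Metric.ediam_empty, ENNReal.zero_rpow_of_pos hs]
      have h4 : ∑' n : ℕ, Metric.ediam (t K (k, n)) ^ s =
          ((Z (k + K)).card : ℝ≥0∞) * ENNReal.ofReal ((u (k + K)) ^ (-s)) := by
        rw [tsum_eq_sum (s := Z (k + K))]
        · rw [Finset.sum_congr rfl (g := fun _ => ENNReal.ofReal ((u (k + K)) ^ (-s)))]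
          · rw [Finset.sum_const, nsmul_eq_mul]
          · intro n hn
            rw [h3, if_pos hn]
        · intro n hn
          rw [h3, if_neg hn]
      rw [h4, hf]
      have h5 : ((Z (k + K)).card : ℝ≥0∞) = ENNReal.ofReal ((Z (k + K)).card : ℝ) :=
        (ENNReal.ofReal_natCast _).symm
      rw [h5, ← ENNReal.ofReal_mul (Nat.cast_nonneg _)]
      apply ENNReal.ofReal_le_ofReal
      have h6 : (u (k + K)) ^ (θ - s) = (u (k + K)) ^ θ * (u (k + K)) ^ (-s) := by
        rw [← Real.rpow_add huk]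
        congr 1
      rw [h6, ← mul_assoc]
      exact mul_le_mul_of_nonneg_right h2 (by positivity)
    have h0 : Tendsto (fun K => ∑' k, f (k + K)) atTop (𝓝 0) := ENNReal.tendsto_sum_nat_add f hfs
    refine tendsto_of_tendsto_of_tendsto_of_le_of_le' tendsto_const_nhds h0
      (Eventually.of_forall fun _ => zero_le) ?_
    filter_upwards [eventually_ge_atTop K₀] with K hK using hle K hK

/-- Borel–Cantelli: if `∑ |Z_k| / u_k < ∞` then for almost all `α > 0` the number `⌊α u_k⌋` is in `Z_k` only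
finitely often -/
theorem floor_ae (u : ℕ → ℝ) (hu : ∀ k, 0 < u k) (Z : ℕ → Finset ℕ) {g : ℕ → ℝ}
    (hg : Summable g) (hZ : ∀ᶠ k in atTop, ((Z k).card : ℝ) / u k ≤ g k) :
    ∀ᵐ α : ℝ, 0 < α → ∀ᶠ k in atTop, ⌊α * u k⌋₊ ∉ Z k := by
  obtain ⟨K₀, hK₀⟩ := eventually_atTop.1 hZ
  have hs : ∑' k, volume {α : ℝ | 0 < α ∧ ⌊α * u (k + K₀)⌋₊ ∈ Z (k + K₀)} ≠ ∞ := by
    have hg' : Summable fun k => g (k + K₀) := (summable_nat_add_iff K₀).2 hg
    refine ne_top_of_le_ne_top hg'.tsum_ofReal_ne_top (ENNReal.tsum_le_tsum fun k => ?_)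
    have huk := hu (k + K₀)
    have h1 : {α : ℝ | 0 < α ∧ ⌊α * u (k + K₀)⌋₊ ∈ Z (k + K₀)} ⊆
        ⋃ n ∈ Z (k + K₀), Icc ((n : ℝ) / u (k + K₀)) (((n : ℝ) + 1) / u (k + K₀)) := by
      rintro α ⟨hα, hm⟩
      simp only [mem_iUnion]
      refine ⟨_, hm, ?_, ?_⟩
      · rw [div_le_iff₀ huk]
        exact Nat.floor_le (by positivity)
      · rw [le_div_iff₀ huk]
        exact (Nat.lt_floor_add_one _).le
    refine (measure_mono h1).trans ((measure_biUnion_finset_le _ _).trans ?_)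
    have h2 : ∀ n ∈ Z (k + K₀), volume (Icc ((n : ℝ) / u (k + K₀)) (((n : ℝ) + 1) / u (k + K₀))) ≤
        ENNReal.ofReal ((u (k + K₀))⁻¹) := by
      intro n _
      rw [Real.volume_Icc]
      apply ENNReal.ofReal_le_ofReal
      apply le_of_eq
      field_simp
      ring
    refine (Finset.sum_le_sum h2).trans ?_
    rw [Finset.sum_const, nsmul_eq_mul]
    have h5 : ((Z (k + K₀)).card : ℝ≥0∞) = ENNReal.ofReal ((Z (k + K₀)).card : ℝ) :=
      (ENNReal.ofReal_natCast _).symm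
    rw [h5, ← ENNReal.ofReal_mul (Nat.cast_nonneg _)]
    apply ENNReal.ofReal_le_ofReal
    rw [← div_eq_mul_inv]
    exact hK₀ (k + K₀) (by omega)
  have h := ae_eventually_notMem hs
  filter_upwards [h] with α hα h0
  obtain ⟨N, hN⟩ := eventually_atTop.1 hα
  refine eventually_atTop.2 ⟨N + K₀, fun k hk hm => ?_⟩
  refine hN (k - K₀) (by omega) ⟨h0, ?_⟩
  rw [Nat.sub_add_cancel (by omega : K₀ ≤ k)]
  exact hm

end Pool.Agent.Q138.Met
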