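import Pool.Agent.Q138.Met.Real
import Pool.Agent.W24.CP.SU
import Pool.Agent.W24.CP.SR

set_option autoImplicit false

/-! # The general theorem for error terms with a Voronoi expansion -/

namespace Pool.Agent.Q138.Met

open Filter Topology MeasureTheory Finset
open scoped ENNReal NNReal Real
open Pool.Agent.H383 Pool.Agent.H452R2.Win Pool.Agent.H469R2.NK

theorem coef_bd {a : ℕ → ℝ} (ha : Gen.Bd a) (ha0 : a 0 = 0) :
    ∃ A : ℝ, (∀ m, |a m| ≤ A) ∧ ∃ τ : ℕ → ℝ,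
      (∀ M N, M ≤ N → ∑ m ∈ Ioc (M ^ 2) (N ^ 2), a m ^ 2 ≤ τ M) ∧ Tendsto τ atTop (𝓝 0) := by
  obtain ⟨C, hC, h⟩ := ha
  have hs : ∀ m : ℕ, 1 ≤ m → (√(m : ℝ)) ^ (-(37 / 25) : ℝ) ≤ 1 := by
    intro m hm
    apply Real.rpow_le_one_of_one_le_of_nonpos _ (by norm_num)
    rw [Real.one_le_sqrt]
    exact_mod_cast hm
  refine ⟨C, fun m => ?_, fun M => ∑' k : ℕ, C ^ 2 * ((k + (M ^ 2 + 1) : ℕ) : ℝ) ^ (-(37 / 25) : ℝ),
    fun M N hMN => ?_, ?_⟩
  · rcases Nat.eq_zero_or_pos m with rfl | hm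
    · rw [ha0, abs_zero]
      exact hC.le
    · refine (h m hm).trans ?_
      have := hs m hm
      nlinarith
  · have hsum : Summable fun n : ℕ => C ^ 2 * (n : ℝ) ^ (-(37 / 25) : ℝ) := by
      apply Summable.mul_left
      rw [Real.summable_nat_rpow]
      norm_num
    have h1 : ∀ m ∈ Ioc (M ^ 2) (N ^ 2), a m ^ 2 ≤ C ^ 2 * (m : ℝ) ^ (-(37 / 25) : ℝ) := by
      intro m hm
      rw [mem_Ioc] at hm
      have hm1 : 1 ≤ m := by omega
      have hm0 : (0 : ℝ) < m := by exact_mod_cast hm1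
      have h2 := h m hm1
      rw [← sq_abs]
      refine (pow_le_pow_left₀ (abs_nonneg _) h2 2).trans (le_of_eq ?_)
      rw [mul_pow, ← Real.rpow_natCast ((√(m : ℝ)) ^ (-(37 / 25) : ℝ)),
        ← Real.rpow_mul (Real.sqrt_nonneg _), Real.sqrt_eq_rpow, ← Real.rpow_mul hm0.le]
      norm_num
    refine (Finset.sum_le_sum h1).trans ?_
    have h3 : Ioc (M ^ 2) (N ^ 2) = Ico (M ^ 2 + 1) (N ^ 2 + 1) := by
      ext x
      simp only [mem_Ioc, mem_Ico]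
      omega
    rw [h3, Finset.sum_Ico_eq_sum_range]
    have h4 : Summable fun k : ℕ => C ^ 2 * ((k + (M ^ 2 + 1) : ℕ) : ℝ) ^ (-(37 / 25) : ℝ) :=
      (summable_nat_add_iff (M ^ 2 + 1)).2 hsum
    refine le_trans (le_of_eq ?_) (h4.sum_le_tsum (range (N ^ 2 + 1 - (M ^ 2 + 1)))
      (fun k _ => by positivity))
    refine Finset.sum_congr rfl fun k _ => ?_
    rw [add_comm (M ^ 2 + 1) k]
  · have h5 := tendsto_sum_nat_add fun n : ℕ => C ^ 2 * (n : ℝ) ^ (-(37 / 25) : ℝ)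
    have h6 : Tendsto (fun M : ℕ => M ^ 2 + 1) atTop atTop := by
      rw [tendsto_atTop]
      intro b
      filter_upwards [eventually_ge_atTop b] with M hM
      nlinarith [sq_nonneg M, Nat.zero_le M]
    exact h5.comp h6

theorem U_eq (a : ℕ → ℝ) (φ x : ℝ) (M : ℕ) : Gen.U a φ x M = P a φ (Icc 1 (M ^ 2)) x := rfl

theorem sum_shift {β : Type} [AddCommMonoid β] (g : ℕ → β) (N : ℕ) :
    ∑ n ∈ Icc 1 N, g n = ∑ k ∈ range N, g (k + 1) := by
  induction N with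
  | zero => simp
  | succ N ih => rw [Finset.sum_Icc_succ_top (by omega), ih, Finset.sum_range_succ]

/-- the square roots are equidistributed for all frequencies -/
theorem equid_sqrt (c : ℝ) (hc : 0 < c) : Equid Λ₀ (fun k : ℕ => c * √((k : ℝ) + 1)) := by
  intro θ _ hθ
  have h1 := Pool.Agent.W24.CP.SU.SI_Av (θ * c)
  have h2 : Pool.Agent.W24.CP.SL.mcS (θ * c) = 0 := by
    unfold Pool.Agent.W24.CP.SL.mcS
    rw [if_neg (mul_ne_zero hθ hc.ne')]
  rw [h2] at h1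
  rw [← tendsto_add_atTop_iff_nat 1]
  refine h1.congr fun j => ?_
  unfold Pool.Agent.H425R3.JL.cav
  rw [Pool.Agent.W24.CP.SU.SI_card]
  congr 1
  unfold Pool.Agent.W24.CP.SU.SI
  rw [sum_shift]
  refine Finset.sum_congr rfl fun k _ => ?_
  unfold Pool.Agent.W24.CP.SL.chS Pool.Agent.H469R2.NK.e ex
  congr 3
  push_cast
  ring

/-- **the general theorem** -/
theorem gen {E : ℝ → ℝ} {a : ℕ → ℝ} {φ : ℝ} {w : ℝ → ℂ} {κ₁ κ₂ : ℝ} (ha : Bdw a) (ha0 : a 0 = 0)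
    (hw : GW.Wt w) (hS : SandW E a φ w κ₁ κ₂) {c : ℝ} (hc : 0 < c) {F : ℝ → ℝ}
    (hF : Measurable F) (hloc : ∀ n : ℕ, 1 ≤ n → ∀ y : ℝ, (n : ℝ) ≤ y → y < n + 1 →
      |F y - F n| ≤ 5 + Real.log n)
    (hEF : ∀ n : ℕ, 1 ≤ n → E (c * √(n : ℝ)) = F n / (n : ℝ) ^ (1 / 4 : ℝ))
    {R : ℕ → ℝ} {δ : ℝ} (hδ : 0 < δ) (hR0 : 0 < R 0) (hR : ∀ k, R k + δ ≤ R (k + 1)) :
    ∀ᵐ t : ℝ, 0 < t → ∀ f : ℝ → ℝ, Continuous f → (∃ C : ℝ, ∀ z, |f z| ≤ C * (1 + z ^ 2)) →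
      ∀ L : ℝ, Tendsto (av fun k : ℕ => f (F ((k : ℝ) + 1) / ((k : ℝ) + 1) ^ (1 / 4 : ℝ)))
        atTop (𝓝 L) →
      Tendsto (av fun k : ℕ => f (F ((t * R k) ^ 2) / ((t * R k) ^ 2) ^ (1 / 4 : ℝ)))
        atTop (𝓝 L) := by
  obtain ⟨A, hA, τ, hτ, hτ0⟩ := coef_bd ha.Bd ha0
  obtain ⟨ω, hω, hω2, C0, hC0, hms⟩ := Pool.Agent.W24.CP.SM.ms_total ha ha0 hw hS hc
  have hms' : ∀ M X : ℕ, 1 ≤ M → M ^ 40 ≤ X →
      ∑ n ∈ Icc 1 X, (F n / (n : ℝ) ^ (1 / 4 : ℝ) - P a φ (Icc 1 (M ^ 2)) (c * √(n : ℝ))) ^ 2 ≤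
        C0 * (M : ℝ) ^ (-ω) * X := by
    intro M X hM hX
    refine le_trans (le_of_eq ?_) (hms M X hM hX)
    refine Finset.sum_congr rfl fun n hn => ?_
    rw [mem_Icc] at hn
    rw [hEF n hn.1, U_eq]
  set e : ℝ → ℝ := fun x => F ((x / c) ^ 2) / ((x / c) ^ 2) ^ (1 / 4 : ℝ) with he
  have hem : Measurable e := by
    have h1 : Measurable fun x : ℝ => (x / c) ^ 2 := (measurable_id.div_const c).pow_const 2
    exact (hF.comp h1).div (h1.pow_const _)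
  have hcR0 : 0 < c * R 0 := by positivity
  have hcR : ∀ k, c * R k + c * δ ≤ c * R (k + 1) := fun k => by
    have := mul_le_mul_of_nonneg_left (hR k) hc.le
    linarith
  have hRpos := sep_pos hδ hR0 hR
  have hye : Apx (fun M => P a φ (Icc 1 (M ^ 2))) (fun k : ℕ => c * √((k : ℝ) + 1))
      (fun k : ℕ => F ((k : ℝ) + 1) / ((k : ℝ) + 1) ^ (1 / 4 : ℝ)) := by
    intro η hη
    have h1 : Tendsto (fun M : ℕ => C0 * (M : ℝ) ^ (-ω)) atTop (𝓝 (C0 * 0)) :=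
      ((tendsto_rpow_neg_atTop hω).comp tendsto_natCast_atTop_atTop).const_mul C0
    rw [mul_zero] at h1
    obtain ⟨M0, hM0⟩ := eventually_atTop.1 (h1.eventually_le_const hη)
    refine ⟨max M0 1, fun M hM => ⟨M ^ 40 + 1, fun K hK => ?_⟩⟩
    have hK0 : (0 : ℝ) < K := by exact_mod_cast (by omega : 0 < K)
    have h2 := hms' M K (by omega) (by omega)
    rw [sum_shift] at h2
    unfold av
    rw [div_le_iff₀ hK0]
    have h3 := hM0 M (by omega)
    calc _ ≤ C0 * (M : ℝ) ^ (-ω) * K := by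
          refine le_trans (le_of_eq ?_) h2
          refine Finset.sum_congr rfl fun k _ => ?_
          push_cast
          rfl
      _ ≤ η * K := mul_le_mul_of_nonneg_right h3 hK0.le
  have hmsr : ∀ lo hi : ℝ, 0 < lo → lo ≤ hi → ∃ C ω : ℝ, 0 < ω ∧ ∃ k0 : ℕ, ∀ k, k0 ≤ k →
      ∫⁻ t in Set.Icc lo hi, ENNReal.ofReal ((e (t * (c * R k)) -
        P a φ (Icc 1 (mk k ^ 2)) (t * (c * R k))) ^ 2) ≤
          ENNReal.ofReal (C * ((k : ℝ) + 1) ^ (-ω)) := by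
    intro lo hi hlo hlh
    obtain ⟨C, hC, hreal⟩ := ms_real (a := a) (φ := φ) hloc hc hω (by linarith) ⟨C0, hC0, hms'⟩
      (Pool.Agent.W24.CP.U_lip ha.Bd φ) ⟨_, fun x => abs_P_le hA φ _ x⟩ hlo hlh
    set μ := min (R 0) δ with hμ
    have hμ0 : 0 < μ := lt_min hR0 hδ
    have hRk : ∀ k : ℕ, μ * ((k : ℝ) + 1) ≤ R k := by
      intro k
      have h1 := sep_le hR 0 k
      rw [Nat.zero_add] at h1
      have h2 : μ ≤ R 0 := min_le_left _ _
      have h3 : μ ≤ δ := min_le_right _ _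
      have h4 : μ * k ≤ δ * k := mul_le_mul_of_nonneg_right h3 (Nat.cast_nonneg k)
      linarith
    have hev : ∀ᶠ k : ℕ in atTop, 2 ^ 40 * ((k : ℝ) + 1) ^ (40 / 100 : ℝ) ≤
        (lo * μ) ^ 2 * ((k : ℝ) + 1) ^ 2 := by
      have h1 : Tendsto (fun k : ℕ => ((k : ℝ) + 1) ^ (160 / 100 : ℝ)) atTop atTop :=
        (tendsto_rpow_atTop (by norm_num)).comp
          (tendsto_atTop_add_const_right _ _ tendsto_natCast_atTop_atTop)
      filter_upwards [h1.eventually_ge_atTop (2 ^ 40 / (lo * μ) ^ 2)] with k hk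
      have hk0 : (0 : ℝ) < (k : ℝ) + 1 := by positivity
      rw [div_le_iff₀ (by positivity)] at hk
      have h2 : ((k : ℝ) + 1) ^ 2 = ((k : ℝ) + 1) ^ (160 / 100 : ℝ) *
          ((k : ℝ) + 1) ^ (40 / 100 : ℝ) := by
        rw [← Real.rpow_add hk0]
        norm_num
      rw [h2]
      have h3 : 0 ≤ ((k : ℝ) + 1) ^ (40 / 100 : ℝ) := by positivity
      calc 2 ^ 40 * ((k : ℝ) + 1) ^ (40 / 100 : ℝ) ≤
          (((k : ℝ) + 1) ^ (160 / 100 : ℝ) * (lo * μ) ^ 2) * ((k : ℝ) + 1) ^ (40 / 100 : ℝ) :=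
            mul_le_mul_of_nonneg_right hk h3
        _ = _ := by ring
    obtain ⟨k0, hk0⟩ := eventually_atTop.1 hev
    refine ⟨C, ω / 100, by positivity, k0, fun k hk => ?_⟩
    have hkpos : (0 : ℝ) < (k : ℝ) + 1 := by positivity
    have hcond : mk k ^ 40 ≤ ⌊(lo * R k) ^ 2⌋₊ := by
      apply Nat.le_floor
      push_cast
      have h1 := mk_pow_le k 40
      have h2 := hk0 k hk
      have h3 : (lo * μ) ^ 2 * ((k : ℝ) + 1) ^ 2 ≤ (lo * R k) ^ 2 := by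
        rw [← mul_pow]
        apply pow_le_pow_left₀ (by positivity)
        calc lo * μ * ((k : ℝ) + 1) = lo * (μ * ((k : ℝ) + 1)) := by ring
          _ ≤ lo * R k := mul_le_mul_of_nonneg_left (hRk k) hlo.le
      have h4 : (((40 : ℕ) : ℝ) / 100) = (40 / 100 : ℝ) := by norm_num
      rw [h4] at h1
      exact h1.trans (h2.trans h3)
    have h5 := hreal (mk k) (mk_pos k) (R k) (hRpos k) hcond
    have h6 : ∀ t : ℝ, e (t * (c * R k)) = F ((t * R k) ^ 2) /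
        ((t * R k) ^ 2) ^ (1 / 4 : ℝ) := by
      intro t
      simp only [he]
      have : t * (c * R k) / c = t * R k := by
        field_simp
      rw [this]
    have h7 : ∀ t : ℝ, t * (c * R k) = c * (t * R k) := fun t => by ring
    refine le_trans (le_of_eq ?_) (h5.trans ?_)
    · refine lintegral_congr fun t => ?_
      rw [h6, h7]
    · apply ENNReal.ofReal_le_ofReal
      apply mul_le_mul_of_nonneg_left _ hC.le
      have h8 := mk_ge k
      have h9 : (0 : ℝ) < ((k : ℝ) + 1) ^ (1 / 100 : ℝ) := by positivity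
      calc (mk k : ℝ) ^ (-ω) ≤ (((k : ℝ) + 1) ^ (1 / 100 : ℝ)) ^ (-ω) :=
            Real.rpow_le_rpow_of_nonpos h9 h8 (by linarith)
        _ = ((k : ℝ) + 1) ^ (-(ω / 100)) := by
          rw [← Real.rpow_mul hkpos.le]
          congr 1
          ring
  have hmain := ae_law hem hA φ hτ hτ0 (equid_sqrt c hc) hye (R := fun k => c * R k)
    (δ := c * δ) (by positivity) hcR0 hcR hmsr
  filter_upwards [hmain] with t ht h0 f hf hC L hL
  refine (ht h0 f hf hC L hL).congr fun K => ?_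
  unfold av
  congr 1
  refine Finset.sum_congr rfl fun k _ => ?_
  simp only [he]
  have : t * (c * R k) / c = t * R k := by
    field_simp
  rw [this]

end Pool.Agent.Q138.Met
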