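import Pool.Agent.Q138.Met.Fin

set_option autoImplicit false

/-! # Asymptotic independence along almost every dilation of a rapidly growing sequence -/

namespace Pool.Agent.Q138.Met

open Filter Topology MeasureTheory Finset
open scoped ENNReal NNReal Real

/-- the mean of the first `K` terms of a complex sequence -/
noncomputable def avc (g : ℕ → ℂ) (K : ℕ) : ℂ := (∑ k ∈ range K, g k) / (K : ℂ)

theorem avc_add (g h : ℕ → ℂ) (K : ℕ) : avc (fun k => g k + h k) K = avc g K + avc h K := by
  unfold avc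
  rw [Finset.sum_add_distrib, add_div]

theorem avc_sub (g h : ℕ → ℂ) (K : ℕ) : avc (fun k => g k - h k) K = avc g K - avc h K := by
  unfold avc
  rw [Finset.sum_sub_distrib, sub_div]

theorem avc_mul (c : ℂ) (g : ℕ → ℂ) (K : ℕ) : avc (fun k => c * g k) K = c * avc g K := by
  unfold avc
  rw [← Finset.mul_sum, mul_div_assoc]

theorem avc_norm_le (g : ℕ → ℂ) (K : ℕ) : ‖avc g K‖ ≤ av (fun k => ‖g k‖) K := by
  unfold avc av
  rw [norm_div, Complex.norm_natCast]
  exact div_le_div_of_nonneg_right (norm_sum_le _ _) (Nat.cast_nonneg K)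

theorem avc_one : Tendsto (avc fun _ => 1) atTop (𝓝 1) := by
  have h1 : ∀ᶠ K : ℕ in atTop, avc (fun _ => 1) K = 1 := by
    filter_upwards [eventually_ge_atTop 1] with K hK
    have hK0 : (K : ℂ) ≠ 0 := by exact_mod_cast (by omega : K ≠ 0)
    unfold avc
    rw [sum_const, card_range, nsmul_eq_mul, mul_one, div_self hK0]
  exact tendsto_const_nhds.congr' (EventuallyEq.symm h1)

/-- shifting the sequence does not change the limit of the means -/
theorem avc_shift {g : ℕ → ℂ} {L : ℂ} (n : ℕ) :
    Tendsto (avc fun k => g (k + n)) atTop (𝓝 L) ↔ Tendsto (avc g) atTop (𝓝 L) := by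
  have hS : Tendsto (fun K : ℕ => (∑ k ∈ range n, g k) / (K : ℂ)) atTop (𝓝 0) := by
    have := tendsto_const_nhds (x := ∑ k ∈ range n, g k) (f := (atTop : Filter ℕ))
    have h2 : Tendsto (fun K : ℕ => ((K : ℂ))⁻¹) atTop (𝓝 0) := by
      have h3 := tendsto_inv_atTop_nhds_zero_nat (𝕜 := ℂ)
      exact h3
    have h3 := this.mul h2
    rw [mul_zero] at h3
    exact h3.congr fun K => by rw [div_eq_mul_inv]
  have hr : Tendsto (fun K : ℕ => ((K + n : ℕ) : ℂ) / (K : ℂ)) atTop (𝓝 1) := by
    have h1 : Tendsto (fun K : ℕ => 1 + (n : ℂ) * ((K : ℂ))⁻¹) atTop (𝓝 (1 + n * 0)) :=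
      tendsto_const_nhds.add ((tendsto_inv_atTop_nhds_zero_nat (𝕜 := ℂ)).const_mul _)
    rw [mul_zero, add_zero] at h1
    refine h1.congr' ?_
    filter_upwards [eventually_ge_atTop 1] with K hK
    have hK0 : (K : ℂ) ≠ 0 := by exact_mod_cast (by omega : K ≠ 0)
    push_cast
    field_simp
  have key : ∀ᶠ K : ℕ in atTop, avc (fun k => g (k + n)) K =
      avc g (K + n) * (((K + n : ℕ) : ℂ) / (K : ℂ)) - (∑ k ∈ range n, g k) / (K : ℂ) := by
    filter_upwards [eventually_ge_atTop 1] with K hK
    have hK0 : (K : ℂ) ≠ 0 := by exact_mod_cast (by omega : K ≠ 0)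
    have hK1 : ((K + n : ℕ) : ℂ) ≠ 0 := by exact_mod_cast (by omega : K + n ≠ 0)
    have h1 : ∑ k ∈ range (K + n), g k = ∑ k ∈ range n, g k + ∑ k ∈ range K, g (k + n) := by
      rw [add_comm K n, Finset.sum_range_add]
      congr 1
      exact Finset.sum_congr rfl fun k _ => by rw [add_comm]
    unfold avc
    rw [h1]
    field_simp
    ring
  constructor
  · intro h
    rw [← tendsto_add_atTop_iff_nat n]
    have h1 : Tendsto (fun K : ℕ => (avc (fun k => g (k + n)) K + (∑ k ∈ range n, g k) / (K : ℂ)) *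
        (((K + n : ℕ) : ℂ) / (K : ℂ))⁻¹) atTop (𝓝 ((L + 0) * (1 : ℂ)⁻¹)) :=
      (h.add hS).mul (hr.inv₀ one_ne_zero)
    rw [inv_one, mul_one, add_zero] at h1
    refine h1.congr' ?_
    filter_upwards [key, eventually_ge_atTop 1] with K hK hK1
    have hK0 : (K : ℂ) ≠ 0 := by exact_mod_cast (by omega : K ≠ 0)
    have hK1' : ((K + n : ℕ) : ℂ) ≠ 0 := by exact_mod_cast (by omega : K + n ≠ 0)
    rw [hK, sub_add_cancel, mul_assoc, mul_inv_cancel₀ (div_ne_zero hK1' hK0), mul_one]
  · intro h
    have h1 := (((tendsto_add_atTop_iff_nat n).2 h).mul hr).sub hS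
    rw [mul_one, sub_zero] at h1
    exact h1.congr' (EventuallyEq.symm key)

/-- the shifted mean of a nonnegative sequence -/
theorem av_shift_le {g : ℕ → ℝ} (hg : ∀ k, 0 ≤ g k) {n K : ℕ} (hK : n ≤ K) (hK1 : 1 ≤ K) :
    av (fun k => g (k + n)) K ≤ 2 * av g (K + n) := by
  unfold av
  have hK0 : (0 : ℝ) < K := by exact_mod_cast hK1
  have hK2 : (0 : ℝ) < ((K + n : ℕ) : ℝ) := by exact_mod_cast (by omega : 0 < K + n)
  have h1 : ∑ k ∈ range K, g (k + n) ≤ ∑ k ∈ range (K + n), g k := by
    rw [add_comm K n, Finset.sum_range_add]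
    have : ∑ k ∈ range K, g (k + n) = ∑ k ∈ range K, g (n + k) :=
      Finset.sum_congr rfl fun k _ => by rw [add_comm]
    rw [this]
    exact le_add_of_nonneg_left (Finset.sum_nonneg fun k _ => hg k)
  rw [mul_div_assoc', div_le_div_iff₀ hK0 hK2]
  have h2 : 0 ≤ ∑ k ∈ range (K + n), g k := Finset.sum_nonneg fun k _ => hg k
  have h3 : ((K + n : ℕ) : ℝ) ≤ 2 * K := by exact_mod_cast (by omega : K + n ≤ 2 * K)
  calc (∑ k ∈ range K, g (k + n)) * ((K + n : ℕ) : ℝ) ≤
      (∑ k ∈ range (K + n), g k) * (2 * K) :=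
        mul_le_mul h1 h3 hK2.le h2
    _ = _ := by ring

/-! ### exponential sums with several consecutive terms -/

/-- the eventual growth of linear combinations of consecutive terms -/
theorem comb_growth {R : ℕ → ℝ} (hR0 : ∀ k, 0 < R k)
    (hR : Tendsto (fun k => R (k + 1) / R k) atTop atTop) {m : ℕ} (θ : Fin m → ℝ)
    (hθ : ∃ j, θ j ≠ 0) : ∃ s : ℝ, (s = 1 ∨ s = -1) ∧ ∃ k0 : ℕ, ∀ k, k0 ≤ k →
      0 < s * ∑ j, θ j * R (k + j) ∧
      s * ∑ j, θ j * R (k + j) + 1 ≤ s * ∑ j, θ j * R (k + 1 + j) := by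
  classical
  -- the largest index with a nonzero coefficient
  have hne : (univ.filter fun j => θ j ≠ 0).Nonempty := by
    obtain ⟨j, hj⟩ := hθ
    exact ⟨j, by simp [hj]⟩
  obtain ⟨J, hJ, hmax⟩ := (univ.filter fun j => θ j ≠ 0).exists_max_image id hne
  have hJ0 : θ J ≠ 0 := by simpa using hJ
  have hJm : ∀ j, J < j → θ j = 0 := by
    intro j hj
    by_contra h
    have := hmax j (by simp [h])
    exact absurd hj (not_lt.2 this)
  -- ratios
  have hq : Tendsto (fun k => R k / R (k + 1)) atTop (𝓝 0) := by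
    refine (tendsto_inv_atTop_zero.comp hR).congr fun k => ?_
    rw [Function.comp_apply, inv_div]
  have hratio : ∀ d i : ℕ, Tendsto (fun k => R (k + i) / R (k + i + (d + 1))) atTop (𝓝 0) := by
    intro d
    induction d with
    | zero =>
      intro i
      exact (tendsto_add_atTop_iff_nat (f := fun k => R k / R (k + 1)) i).2 hq
    | succ d ih =>
      intro i
      have h1 := (ih i).mul
        ((tendsto_add_atTop_iff_nat (f := fun k => R k / R (k + 1)) (i + (d + 1))).2 hq)
      rw [mul_zero] at h1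
      refine h1.congr fun k => ?_
      have e1 : k + (i + (d + 1)) = k + i + (d + 1) := by ring
      have e2 : k + (i + (d + 1)) + 1 = k + i + (d + 1 + 1) := by ring
      rw [e2, e1]
      have := (hR0 (k + i + (d + 1))).ne'
      field_simp
  have hterm : ∀ j : Fin m, Tendsto (fun k => θ j * (R (k + j) / R (k + J))) atTop
      (𝓝 (if j = J then θ J else 0)) := by
    intro j
    rcases lt_trichotomy j J with h | h | h
    · rw [if_neg h.ne]
      obtain ⟨d, hd⟩ := Nat.exists_eq_add_of_lt (show (j : ℕ) < J from h)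
      have h1 := (hratio d j).const_mul (θ j)
      rw [mul_zero] at h1
      refine h1.congr fun k => ?_
      have : k + j + (d + 1) = k + J := by omega
      rw [this]
    · rw [if_pos h, h]
      refine tendsto_const_nhds.congr fun k => ?_
      rw [div_self (hR0 _).ne', mul_one]
    · rw [if_neg h.ne', hJm j h]
      simp only [zero_mul]
      exact tendsto_const_nhds
  have hS : Tendsto (fun k => (∑ j, θ j * R (k + j)) / R (k + J)) atTop (𝓝 (θ J)) := by
    have h1 := tendsto_finsetSum univ fun j (_ : j ∈ univ) => hterm j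
    rw [Finset.sum_ite_eq' univ J fun _ => θ J, if_pos (mem_univ J)] at h1
    refine h1.congr fun k => ?_
    rw [Finset.sum_div]
    exact Finset.sum_congr rfl fun j _ => (mul_div_assoc _ _ _).symm
  have hRt : Tendsto R atTop atTop := by
    have h1 := hR.eventually_ge_atTop 2
    obtain ⟨k0, hk0⟩ := eventually_atTop.1 h1
    have h2 : ∀ n : ℕ, R k0 * 2 ^ n ≤ R (n + k0) := by
      intro n
      induction n with
      | zero => simp
      | succ n ih =>
        have h3 := hk0 (n + k0) (by omega)
        rw [le_div_iff₀ (hR0 _)] at h3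
        calc R k0 * 2 ^ (n + 1) = 2 * (R k0 * 2 ^ n) := by ring
          _ ≤ 2 * R (n + k0) := by linarith
          _ ≤ R (n + k0 + 1) := h3
          _ = R (n + 1 + k0) := by congr 1; ring
    rw [← tendsto_add_atTop_iff_nat k0]
    refine tendsto_atTop_mono h2 ?_
    exact (tendsto_pow_atTop_atTop_of_one_lt one_lt_two).const_mul_atTop (hR0 k0)
  -- the sign
  obtain ⟨s, hs, hsθ⟩ : ∃ s : ℝ, (s = 1 ∨ s = -1) ∧ s * θ J = |θ J| := by
    rcases lt_or_gt_of_ne hJ0 with h | h
    · exact ⟨-1, Or.inr rfl, by rw [abs_of_neg h]; ring⟩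
    · exact ⟨1, Or.inl rfl, by rw [abs_of_pos h]; ring⟩
  have hpos : 0 < |θ J| := abs_pos.2 hJ0
  have hS2 : Tendsto (fun k => s * ((∑ j, θ j * R (k + j)) / R (k + J))) atTop (𝓝 |θ J|) := by
    rw [← hsθ]
    exact hS.const_mul s
  have e1 := hS2.eventually_const_lt (show 3 / 4 * |θ J| < |θ J| by linarith)
  have e2 := hS2.eventually_lt_const (show |θ J| < 5 / 4 * |θ J| by linarith)
  have e3 := (tendsto_add_atTop_iff_nat (f := fun k => R (k + 1) / R k) J).2 hR
  have e4 := e3.eventually_ge_atTop 5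
  have e5 := ((tendsto_add_atTop_iff_nat (J + 1)).2 hRt).eventually_ge_atTop (2 / |θ J|)
  obtain ⟨k0, hk0⟩ := eventually_atTop.1 (e1.and (e2.and (e4.and e5)))
  refine ⟨s, hs, k0, fun k hk => ?_⟩
  obtain ⟨a1, a2, a3, a4⟩ := hk0 k hk
  obtain ⟨b1, -, -, -⟩ := hk0 (k + 1) (by omega)
  have c1 := hR0 (k + J)
  have c2 := hR0 (k + (J + 1))
  have c3 : R (k + 1 + J) = R (k + (J + 1)) := by congr 1; ring
  have c4 : R (k + J + 1) = R (k + (J + 1)) := by congr 1
  rw [← mul_div_assoc, lt_div_iff₀ c1] at a1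
  rw [← mul_div_assoc, div_lt_iff₀ c1] at a2
  rw [le_div_iff₀ c1, c4] at a3
  rw [div_le_iff₀ hpos] at a4
  rw [← mul_div_assoc, c3, lt_div_iff₀ c2] at b1
  constructor
  · have : 0 < 3 / 4 * |θ J| * R (k + J) := by positivity
    linarith
  · nlinarith [mul_le_mul_of_nonneg_left a3 hpos.le]

/-- exponential sums along an eventually separated sequence of one sign -/
theorem ae_exp {S : ℕ → ℝ} {s : ℝ} (hs : s = 1 ∨ s = -1) {k0 : ℕ}
    (hS : ∀ k, k0 ≤ k → 0 < s * S k ∧ s * S k + 1 ≤ s * S (k + 1)) {lo hi : ℝ} (hab : lo ≤ hi) :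
    ∀ᵐ t ∂(volume.restrict (Set.Icc lo hi)),
      Tendsto (avc fun k => ex 1 (t * S k)) atTop (𝓝 0) := by
  have hΛ : ((AddSubgroup.zmultiples (1 : ℝ) : AddSubgroup ℝ) : Set ℝ).Countable := by
    rw [AddSubgroup.coe_zmultiples]
    exact Set.countable_range _
  have h1 := ae_equid hΛ (R := fun k => s * S (k + k0)) (δ := 1) one_pos
    (by simpa using (hS k0 le_rfl).1) (fun k => by
      have := (hS (k + k0) (by omega)).2
      have e : k + 1 + k0 = k + k0 + 1 := by ring
      simp only [e]
      exact this) hab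
  filter_upwards [h1] with t ht
  rw [← avc_shift k0]
  rcases hs with rfl | rfl
  · have h2 := ht 1 (AddSubgroup.mem_zmultiples 1) one_ne_zero
    refine h2.congr fun K => ?_
    unfold avc
    simp only [one_mul]
  · have h2 := ht (-1) ((AddSubgroup.zmultiples (1 : ℝ)).neg_mem (AddSubgroup.mem_zmultiples 1))
      (neg_ne_zero.2 one_ne_zero)
    refine h2.congr fun K => ?_
    unfold avc
    congr 1
    refine Finset.sum_congr rfl fun k _ => ?_
    unfold ex
    congr 3
    ring

/-- averages of products of characters at consecutive terms -/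
def MEquid (Λ : AddSubgroup ℝ) (x : ℕ → ℝ) : Prop :=
  ∀ (m : ℕ) (θ : Fin m → Λ), (∃ j, (θ j : ℝ) ≠ 0) →
    Tendsto (avc fun k => ∏ j, ex (θ j) (x (k + j))) atTop (𝓝 0)

theorem ae_mequid {Λ : AddSubgroup ℝ} (hΛ : (Λ : Set ℝ).Countable) {R : ℕ → ℝ}
    (hR0 : ∀ k, 0 < R k) (hR : Tendsto (fun k => R (k + 1) / R k) atTop atTop)
    {lo hi : ℝ} (hab : lo ≤ hi) :
    ∀ᵐ t ∂(volume.restrict (Set.Icc lo hi)), MEquid Λ (fun k => t * R k) := by
  have : Countable Λ := hΛ.to_subtype
  unfold MEquid
  rw [ae_all_iff]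
  intro m
  rw [ae_all_iff]
  intro θ
  by_cases h : ∃ j, (θ j : ℝ) ≠ 0
  · obtain ⟨s, hs, k0, hk0⟩ := comb_growth hR0 hR (fun j => (θ j : ℝ)) h
    filter_upwards [ae_exp hs (S := fun k => ∑ j, (θ j : ℝ) * R (k + j)) hk0 hab] with t ht _
    refine ht.congr fun K => ?_
    unfold avc
    congr 1
    refine Finset.sum_congr rfl fun k _ => ?_
    unfold ex
    beta_reduce
    rw [← Complex.exp_sum]
    congr 1
    push_cast
    rw [Finset.mul_sum, Finset.mul_sum, Finset.mul_sum, Finset.sum_mul]
    refine Finset.sum_congr rfl fun j _ => ?_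
    ring
  · exact Eventually.of_forall fun t h' => absurd h' h

/-! ### products of trigonometric polynomials -/

theorem MEquid.equid {Λ : AddSubgroup ℝ} {x : ℕ → ℝ} (h : MEquid Λ x) : Equid Λ x := by
  intro θ hθ h0
  have h1 := h 1 (fun _ => ⟨θ, hθ⟩) ⟨0, h0⟩
  refine h1.congr fun K => ?_
  unfold avc
  simp

theorem TP_bdd {Λ : AddSubgroup ℝ} {g : ℝ → ℂ} (hg : g ∈ TP Λ) : ∃ C : ℝ, ∀ x, ‖g x‖ ≤ C := by
  unfold TP at hg
  induction hg using Submodule.span_induction with
  | mem x hx =>
    obtain ⟨θ, hθ, rfl⟩ := hx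
    exact ⟨1, fun y => (norm_ex θ y).le⟩
  | zero => exact ⟨0, fun y => by simp⟩
  | add f g _ _ hf hg =>
    obtain ⟨C, hC⟩ := hf
    obtain ⟨C', hC'⟩ := hg
    exact ⟨C + C', fun y => (norm_add_le _ _).trans (add_le_add (hC y) (hC' y))⟩
  | smul c f _ hf =>
    obtain ⟨C, hC⟩ := hf
    refine ⟨‖c‖ * C, fun y => ?_⟩
    rw [Pi.smul_apply, smul_eq_mul, norm_mul]
    exact mul_le_mul_of_nonneg_left (hC y) (norm_nonneg c)

theorem TP_limc {Λ : AddSubgroup ℝ} {x : ℕ → ℝ} (hx : Equid Λ x) {g : ℝ → ℂ} (hg : g ∈ TP Λ) :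
    ∃ L : ℂ, Tendsto (avc fun k => g (x k)) atTop (𝓝 L) := by
  obtain ⟨L, hL⟩ := TP_lim hg
  exact ⟨L, hL x hx⟩

theorem prod_update {m : ℕ} (g : Fin m → ℕ → ℂ) (a : Fin m) (h : ℕ → ℂ) (k : ℕ) :
    ∏ j, Function.update g a h j (k + j) = h (k + a) * ∏ j ∈ univ.erase a, g j (k + j) := by
  rw [← Finset.mul_prod_erase univ _ (mem_univ a), Function.update_self]
  congr 1
  refine Finset.prod_congr rfl fun j hj => ?_
  rw [Function.update_of_ne (Finset.ne_of_mem_erase hj)]

theorem prod_update' {m : ℕ} (L : Fin m → ℂ) (a : Fin m) (l : ℂ) :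
    ∏ j, Function.update L a l j = l * ∏ j ∈ univ.erase a, L j := by
  rw [← Finset.mul_prod_erase univ _ (mem_univ a), Function.update_self]
  congr 1
  refine Finset.prod_congr rfl fun j hj => ?_
  rw [Function.update_of_ne (Finset.ne_of_mem_erase hj)]

/-- products of trigonometric polynomials at consecutive terms -/
theorem prod_TP {Λ : AddSubgroup ℝ} {x : ℕ → ℝ} (hx : MEquid Λ x) {m : ℕ} (T : Finset (Fin m)) :
    ∀ (g : Fin m → ℝ → ℂ) (L : Fin m → ℂ), (∀ j ∈ T, g j ∈ TP Λ) →
      (∀ j, j ∉ T → ∃ θ ∈ Λ, g j = ex θ) →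
      (∀ j, Tendsto (avc fun k => g j (x k)) atTop (𝓝 (L j))) →
      Tendsto (avc fun k => ∏ j, g j (x (k + j))) atTop (𝓝 (∏ j, L j)) := by
  classical
  induction T using Finset.induction with
  | empty =>
    intro g L _ hg hL
    choose θ hθ hgθ using fun j => hg j (by simp)
    by_cases h : ∃ j, θ j ≠ 0
    · have h1 := hx m (fun j => ⟨θ j, hθ j⟩) h
      obtain ⟨j, hj⟩ := h
      have h2 : L j = 0 := by
        refine tendsto_nhds_unique (hL j) ?_
        rw [hgθ j]
        exact hx.equid (θ j) (hθ j) hj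
      rw [Finset.prod_eq_zero (mem_univ j) h2]
      refine h1.congr fun K => ?_
      unfold avc
      simp only [hgθ]
    · push Not at h
      have h1 : ∀ j, g j = fun _ => 1 := fun j => by
        rw [hgθ j, h j]
        funext y
        exact ex_zero y
      have h2 : ∀ j, L j = 1 := fun j => by
        refine tendsto_nhds_unique (hL j) ?_
        rw [h1 j]
        exact avc_one
      simp only [h1, h2, Finset.prod_const_one]
      exact avc_one
  | insert a T ha ih =>
    intro g L hT hg hL
    have key : ∀ h ∈ TP Λ, ∀ l : ℂ, Tendsto (avc fun k => h (x k)) atTop (𝓝 l) →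
        Tendsto (avc fun k => h (x (k + a)) * ∏ j ∈ univ.erase a, g j (x (k + j))) atTop
          (𝓝 (l * ∏ j ∈ univ.erase a, L j)) := by
      intro h hh
      unfold TP at hh
      induction hh using Submodule.span_induction with
      | mem h hmem =>
        intro l hl
        obtain ⟨θ, hθ, rfl⟩ := hmem
        have h1 := ih (Function.update g a (ex θ)) (Function.update L a l) ?_ ?_ ?_
        · rw [prod_update'] at h1
          refine h1.congr fun K => ?_
          unfold avc
          congr 1
          refine Finset.sum_congr rfl fun k _ => ?_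
          beta_reduce
          rw [← Finset.mul_prod_erase univ _ (mem_univ a), Function.update_self]
          congr 1
          refine Finset.prod_congr rfl fun j hj => ?_
          rw [Function.update_of_ne (Finset.ne_of_mem_erase hj)]
        · intro j hj
          have hja : j ≠ a := fun h => ha (h ▸ hj)
          rw [Function.update_of_ne hja]
          exact hT j (Finset.mem_insert_of_mem hj)
        · intro j hj
          by_cases hja : j = a
          · subst hja
            rw [Function.update_self]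
            exact ⟨θ, hθ, rfl⟩
          · rw [Function.update_of_ne hja]
            exact hg j (by simp [hja, hj])
        · intro j
          by_cases hja : j = a
          · subst hja
            rw [Function.update_self, Function.update_self]
            exact hl
          · rw [Function.update_of_ne hja, Function.update_of_ne hja]
            exact hL j
      | zero =>
        intro l hl
        have h1 : l = 0 := by
          refine tendsto_nhds_unique hl ?_
          refine tendsto_const_nhds.congr fun K => ?_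
          unfold avc
          simp
        rw [h1, zero_mul]
        refine tendsto_const_nhds.congr fun K => ?_
        unfold avc
        simp
      | add h₁ h₂ hh₁ hh₂ ih₁ ih₂ =>
        intro l hl
        obtain ⟨l₁, hl₁⟩ := TP_limc hx.equid (show h₁ ∈ TP Λ from hh₁)
        obtain ⟨l₂, hl₂⟩ := TP_limc hx.equid (show h₂ ∈ TP Λ from hh₂)
        have h1 : l = l₁ + l₂ := by
          refine tendsto_nhds_unique hl ?_
          refine (hl₁.add hl₂).congr fun K => ?_
          rw [← avc_add]
          rfl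
        rw [h1, add_mul]
        refine ((ih₁ l₁ hl₁).add (ih₂ l₂ hl₂)).congr fun K => ?_
        rw [← avc_add]
        unfold avc
        congr 1
        refine Finset.sum_congr rfl fun k _ => ?_
        simp only [Pi.add_apply]
        ring
      | smul c h₁ hh₁ ih₁ =>
        intro l hl
        obtain ⟨l₁, hl₁⟩ := TP_limc hx.equid (show h₁ ∈ TP Λ from hh₁)
        have h1 : l = c * l₁ := by
          refine tendsto_nhds_unique hl ?_
          refine (hl₁.const_mul c).congr fun K => ?_
          rw [← avc_mul]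
          rfl
        rw [h1, mul_assoc]
        refine ((ih₁ l₁ hl₁).const_mul c).congr fun K => ?_
        rw [← avc_mul]
        unfold avc
        congr 1
        refine Finset.sum_congr rfl fun k _ => ?_
        simp only [Pi.smul_apply, smul_eq_mul]
        ring
    have h1 := key (g a) (hT a (Finset.mem_insert_self a T)) (L a) (hL a)
    rw [Finset.mul_prod_erase univ L (mem_univ a)] at h1
    refine h1.congr fun K => ?_
    unfold avc
    congr 1
    refine Finset.sum_congr rfl fun k _ => ?_
    beta_reduce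
    rw [Finset.mul_prod_erase univ (fun j : Fin m => g j (x (k + j))) (mem_univ a)]

/-! ### products of approximable sequences -/

/-- bounded sequences which are approximated in mean by trigonometric polynomials along `x` -/
structure Good (Λ : AddSubgroup ℝ) (x : ℕ → ℝ) (s : ℕ → ℂ) (L : ℂ) : Prop where
  bdd : ∃ C : ℝ, ∀ k, ‖s k‖ ≤ C
  apx : ∀ η : ℝ, 0 < η → ∃ g ∈ TP Λ, ∃ K0 : ℕ, ∀ K, K0 ≤ K → av (fun k => ‖s k - g (x k)‖) K ≤ η
  lim : Tendsto (avc s) atTop (𝓝 L)

theorem Good.of_TP {Λ : AddSubgroup ℝ} {x : ℕ → ℝ} {g : ℝ → ℂ} (hg : g ∈ TP Λ) {L : ℂ}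
    (hL : Tendsto (avc fun k => g (x k)) atTop (𝓝 L)) : Good Λ x (fun k => g (x k)) L where
  bdd := by
    obtain ⟨C, hC⟩ := TP_bdd hg
    exact ⟨C, fun k => hC _⟩
  apx := fun η hη => ⟨g, hg, 0, fun K _ => by
    simp only [sub_self, norm_zero]
    exact (av_const_le le_rfl K).trans hη.le⟩
  lim := hL

theorem Good.add {Λ : AddSubgroup ℝ} {x : ℕ → ℝ} {s s' : ℕ → ℂ} {L L' : ℂ}
    (h : Good Λ x s L) (h' : Good Λ x s' L') : Good Λ x (fun k => s k + s' k) (L + L') where
  bdd := by
    obtain ⟨C, hC⟩ := h.bdd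
    obtain ⟨C', hC'⟩ := h'.bdd
    exact ⟨C + C', fun k => (norm_add_le _ _).trans (add_le_add (hC k) (hC' k))⟩
  apx := by
    intro η hη
    obtain ⟨g, hg, K0, hK0⟩ := h.apx (η / 2) (by positivity)
    obtain ⟨g', hg', K0', hK0'⟩ := h'.apx (η / 2) (by positivity)
    refine ⟨g + g', (TP Λ).add_mem hg hg', K0 + K0', fun K hK => ?_⟩
    have h1 := hK0 K (by omega)
    have h2 := hK0' K (by omega)
    refine (av_mono (h := fun k => ‖s k - g (x k)‖ + ‖s' k - g' (x k)‖) (fun k => ?_) K).trans ?_
    · refine le_trans (le_of_eq ?_) (norm_add_le _ _)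
      congr 1
      simp only [Pi.add_apply]
      ring
    · rw [av_add]
      linarith
  lim := (h.lim.add h'.lim).congr fun K => (avc_add _ _ K).symm

theorem Good.const_mul {Λ : AddSubgroup ℝ} {x : ℕ → ℝ} {s : ℕ → ℂ} {L : ℂ} (c : ℂ)
    (h : Good Λ x s L) : Good Λ x (fun k => c * s k) (c * L) where
  bdd := by
    obtain ⟨C, hC⟩ := h.bdd
    refine ⟨‖c‖ * C, fun k => ?_⟩
    rw [norm_mul]
    exact mul_le_mul_of_nonneg_left (hC k) (norm_nonneg c)
  apx := by
    intro η hη
    obtain ⟨g, hg, K0, hK0⟩ := h.apx (η / (‖c‖ + 1)) (by positivity)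
    refine ⟨c • g, (TP Λ).smul_mem c hg, K0, fun K hK => ?_⟩
    have h1 := hK0 K hK
    refine (av_mono (h := fun k => ‖c‖ * ‖s k - g (x k)‖) (fun k => ?_) K).trans ?_
    · refine le_of_eq ?_
      simp only [Pi.smul_apply, smul_eq_mul]
      rw [← mul_sub, norm_mul]
    · rw [av_mul]
      have h2 : 0 ≤ av (fun k => ‖s k - g (x k)‖) K :=
        div_nonneg (Finset.sum_nonneg fun k _ => norm_nonneg _) (Nat.cast_nonneg K)
      calc ‖c‖ * av (fun k => ‖s k - g (x k)‖) K ≤
          (‖c‖ + 1) * av (fun k => ‖s k - g (x k)‖) K :=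
            mul_le_mul_of_nonneg_right (by linarith) h2
        _ ≤ (‖c‖ + 1) * (η / (‖c‖ + 1)) := mul_le_mul_of_nonneg_left h1 (by positivity)
        _ = η := by field_simp
  lim := (h.lim.const_mul c).congr fun K => (avc_mul _ _ K).symm

/-- **means of products of approximable sequences at consecutive terms** -/
theorem prod_good {Λ : AddSubgroup ℝ} {x : ℕ → ℝ} (hx : MEquid Λ x) {m : ℕ}
    (T : Finset (Fin m)) : ∀ (s : Fin m → ℕ → ℂ) (L : Fin m → ℂ), (∀ j, Good Λ x (s j) (L j)) →
      (∀ j, j ∉ T → ∃ g ∈ TP Λ, s j = fun k => g (x k)) →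
      Tendsto (avc fun k => ∏ j, s j (k + j)) atTop (𝓝 (∏ j, L j)) := by
  classical
  induction T using Finset.induction with
  | empty =>
    intro s L hs hg
    choose g hg hsg using fun j => hg j (by simp)
    have h1 := prod_TP hx univ g L (fun j _ => hg j) (fun j hj => absurd (mem_univ j) hj)
      (fun j => by
        have := (hs j).lim
        rw [hsg j] at this
        exact this)
    refine h1.congr fun K => ?_
    unfold avc
    simp only [hsg]
  | insert a T ha ih =>
    intro s L hs hg
    choose C hC using fun j => (hs j).bdd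
    set D : ℝ := ∏ j ∈ univ.erase a, (|C j| + 1) with hD
    have hD0 : 0 < D := Finset.prod_pos fun j _ => by positivity
    have hDb : ∀ k, ‖∏ j ∈ univ.erase a, s j (k + j)‖ ≤ D := by
      intro k
      rw [norm_prod]
      exact Finset.prod_le_prod (fun j _ => norm_nonneg _) fun j _ =>
        ((hC j _).trans (le_abs_self _)).trans (by linarith)
    have hLb : ‖∏ j ∈ univ.erase a, L j‖ ≤ D := by
      rw [norm_prod]
      refine Finset.prod_le_prod (fun j _ => norm_nonneg _) fun j _ => ?_
      have h1 : Tendsto (fun K => ‖avc (s j) K‖) atTop (𝓝 ‖L j‖) := (hs j).lim.norm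
      refine le_of_tendsto h1 (Eventually.of_forall fun K => ?_)
      refine (avc_norm_le _ K).trans ((av_mono (h := fun _ => |C j| + 1) (fun k => ?_) K).trans
        (av_const_le (by positivity) K))
      exact ((hC j _).trans (le_abs_self _)).trans (by linarith)
    rw [Metric.tendsto_atTop]
    intro ε hε
    obtain ⟨g, hgT, K0, hK0⟩ := (hs a).apx (ε / (6 * D)) (by positivity)
    obtain ⟨l, hl⟩ := TP_limc hx.equid hgT
    have hla : ‖l - L a‖ ≤ ε / (6 * D) := by
      have h1 : Tendsto (fun K => ‖avc (fun k => g (x k)) K - avc (s a) K‖) atTop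
          (𝓝 ‖l - L a‖) := (hl.sub (hs a).lim).norm
      refine le_of_tendsto h1 ?_
      filter_upwards [eventually_ge_atTop K0] with K hK
      rw [← avc_sub]
      refine (avc_norm_le _ K).trans ?_
      refine le_trans (le_of_eq ?_) (hK0 K hK)
      unfold av
      congr 1
      exact Finset.sum_congr rfl fun k _ => norm_sub_rev _ _
    have h1 := ih (Function.update s a fun k => g (x k)) (Function.update L a l) ?_ ?_
    · rw [prod_update'] at h1
      simp only [prod_update] at h1
      rw [Metric.tendsto_atTop] at h1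
      obtain ⟨K1, hK1⟩ := h1 (ε / 3) (by positivity)
      refine ⟨K0 + K1 + a + 1, fun K hK => ?_⟩
      have h2 := hK1 K (by omega)
      rw [dist_eq_norm] at h2 ⊢
      have h3 : ‖avc (fun k => ∏ j, s j (k + j)) K -
          avc (fun k => g (x (k + a)) * ∏ j ∈ univ.erase a, s j (k + j)) K‖ ≤ ε / 3 := by
        rw [← avc_sub]
        refine (avc_norm_le _ K).trans ?_
        have h4 : ∀ k, ‖∏ j, s j (k + j) - g (x (k + a)) * ∏ j ∈ univ.erase a, s j (k + j)‖ ≤
            D * ‖s a (k + a) - g (x (k + a))‖ := by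
          intro k
          rw [← Finset.mul_prod_erase univ (fun j => s j (k + j)) (mem_univ a), ← sub_mul,
            norm_mul, mul_comm]
          exact mul_le_mul_of_nonneg_right (hDb k) (norm_nonneg _)
        refine (av_mono h4 K).trans ?_
        rw [av_mul]
        have h5 := av_shift_le (g := fun k => ‖s a k - g (x k)‖) (fun k => norm_nonneg _)
          (n := a) (K := K) (by omega) (by omega)
        have h6 := hK0 (K + a) (by omega)
        calc D * av (fun k => ‖s a (k + a) - g (x (k + a))‖) K ≤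
            D * (2 * (ε / (6 * D))) := mul_le_mul_of_nonneg_left (by linarith) hD0.le
          _ = ε / 3 := by field_simp; norm_num
      have h7 : ‖l * ∏ j ∈ univ.erase a, L j - ∏ j, L j‖ ≤ ε / 6 := by
        rw [← Finset.mul_prod_erase univ L (mem_univ a), ← sub_mul, norm_mul]
        calc ‖l - L a‖ * ‖∏ j ∈ univ.erase a, L j‖ ≤ ε / (6 * D) * D :=
              mul_le_mul hla hLb (norm_nonneg _) (by positivity)
          _ = ε / 6 := by field_simp
      have h8 : avc (fun k => ∏ j, s j (k + j)) K - ∏ j, L j =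
          (avc (fun k => ∏ j, s j (k + j)) K -
            avc (fun k => g (x (k + a)) * ∏ j ∈ univ.erase a, s j (k + j)) K) +
          (avc (fun k => g (x (k + a)) * ∏ j ∈ univ.erase a, s j (k + j)) K -
            l * ∏ j ∈ univ.erase a, L j) + (l * ∏ j ∈ univ.erase a, L j - ∏ j, L j) := by ring
      rw [h8]
      have h9 := norm_add₃_le (a := avc (fun k => ∏ j, s j (k + j)) K -
            avc (fun k => g (x (k + a)) * ∏ j ∈ univ.erase a, s j (k + j)) K)
        (b := avc (fun k => g (x (k + a)) * ∏ j ∈ univ.erase a, s j (k + j)) K -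
            l * ∏ j ∈ univ.erase a, L j) (c := l * ∏ j ∈ univ.erase a, L j - ∏ j, L j)
      linarith
    · intro j
      by_cases hja : j = a
      · subst hja
        rw [Function.update_self, Function.update_self]
        exact Good.of_TP hgT hl
      · rw [Function.update_of_ne hja, Function.update_of_ne hja]
        exact hs j
    · intro j hj
      by_cases hja : j = a
      · subst hja
        rw [Function.update_self]
        exact ⟨g, hgT, rfl⟩
      · rw [Function.update_of_ne hja]
        exact hg j (by simp [hja, hj])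

end Pool.Agent.Q138.Met
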