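import Pool.Agent.Q138.Met.Indep

set_option autoImplicit false

/-! # The joint law of consecutive terms -/

namespace Pool.Agent.Q138.Met

open Filter Topology MeasureTheory Finset
open scoped ENNReal NNReal Real

/-- the block of length `m` which starts at the index `k` -/
def block (e : ℕ → ℝ) (m k : ℕ) : Fin m → ℝ := fun j => e (k + j)

/-- the empirical law of the first `j + 1` blocks -/
noncomputable def emp (e : ℕ → ℝ) (m j : ℕ) : Measure (Fin m → ℝ) :=
  (((range (j + 1)).card : ℕ) : ENNReal)⁻¹ • ∑ n ∈ range (j + 1), Measure.dirac (block e m n)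

instance (e : ℕ → ℝ) (m j : ℕ) : IsProbabilityMeasure (emp e m j) := by
  constructor
  have hne : (range (j + 1)).Nonempty := ⟨0, by simp⟩
  simp only [emp, Measure.smul_apply, Measure.coe_finsetSum, Finset.sum_apply, measure_univ,
    Finset.sum_const, nsmul_eq_mul, mul_one, smul_eq_mul]
  apply ENNReal.inv_mul_cancel
  · exact_mod_cast (Finset.card_pos.mpr hne).ne'
  · simp

theorem emp_int (e : ℕ → ℝ) (m j : ℕ) {f : (Fin m → ℝ) → ℂ} (hf : Continuous f) :
    ∫ x, f x ∂(emp e m j) = avc (fun k => f (block e m k)) (j + 1) := by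
  unfold emp avc
  rw [integral_smul_measure, integral_finsetSum_measure]
  · rw [div_eq_inv_mul, ENNReal.toReal_inv, ENNReal.toReal_natCast, card_range]
    rw [Complex.real_smul]
    congr 1
    · push_cast
      rfl
    · apply Finset.sum_congr rfl
      intro n _
      rw [integral_dirac]
  · intro n _
    exact integrable_dirac' hf.stronglyMeasurable (by simp)

/-- **the joint law** -/
theorem joint {Λ : AddSubgroup ℝ} {x : ℕ → ℝ} (hx : MEquid Λ x) {e : ℕ → ℝ}
    {ν : ProbabilityMeasure ℝ}
    (h : ∀ ξ : ℝ, Good Λ x (fun k => Complex.exp (((ξ * e k : ℝ) : ℂ) * Complex.I))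
      (charFun (ν : Measure ℝ) ξ)) (m : ℕ) {A : Set (Fin m → ℝ)}
    (hA : (Measure.pi fun _ : Fin m => (ν : Measure ℝ)) (frontier A) = 0) :
    Tendsto (fun K : ℕ => ({k : ℕ | k < K ∧ (fun j : Fin m => e (k + j)) ∈ A}.ncard : ℝ) / K) atTop
      (𝓝 ((Measure.pi fun _ : Fin m => (ν : Measure ℝ)).real A)) := by
  classical
  rw [← tendsto_add_atTop_iff_nat 1]
  have hprob : ∀ j, IsProbabilityMeasure ((emp e m j).map (WithLp.toLp 2)) := fun j =>
    Measure.isProbabilityMeasure_map (by fun_prop)
  have hprob0 : IsProbabilityMeasure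
      ((Measure.pi fun _ : Fin m => (ν : Measure ℝ)).map (WithLp.toLp 2)) :=
    Measure.isProbabilityMeasure_map (by fun_prop)
  set Q : ℕ → ProbabilityMeasure (EuclideanSpace ℝ (Fin m)) :=
    fun j => ⟨(emp e m j).map (WithLp.toLp 2), hprob j⟩ with hQ
  set Q0 : ProbabilityMeasure (EuclideanSpace ℝ (Fin m)) :=
    ⟨(Measure.pi fun _ : Fin m => (ν : Measure ℝ)).map (WithLp.toLp 2), hprob0⟩ with hQ0
  have hw : Tendsto Q atTop (𝓝 Q0) := by
    apply ProbabilityMeasure.tendsto_of_tendsto_charFun
    intro t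
    have e1 : charFun (Q0 : Measure (EuclideanSpace ℝ (Fin m))) t =
        ∏ j, charFun (ν : Measure ℝ) (t j) := charFun_pi t
    rw [e1]
    have e2 := prod_good hx univ (fun j k => Complex.exp (((t j * e k : ℝ) : ℂ) * Complex.I))
      (fun j => charFun (ν : Measure ℝ) (t j)) (fun j => h (t j))
      (fun j hj => absurd (mem_univ j) hj)
    have e3 := (tendsto_add_atTop_iff_nat 1).2 e2
    refine e3.congr fun j => ?_
    have e4 : charFun (Q j : Measure (EuclideanSpace ℝ (Fin m))) t =
        ∫ y, Complex.exp (((inner ℝ (WithLp.toLp 2 y : EuclideanSpace ℝ (Fin m)) t : ℝ) : ℂ) *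
          Complex.I) ∂(emp e m j) := by
      rw [charFun_apply]
      simp only [hQ, ProbabilityMeasure.coe_mk]
      rw [integral_map (by fun_prop) (by fun_prop)]
    rw [e4, emp_int]
    · unfold avc
      congr 1
      refine Finset.sum_congr rfl fun k _ => ?_
      beta_reduce
      rw [← Complex.exp_sum]
      congr 1
      rw [PiLp.inner_apply, ← Finset.sum_mul]
      congr 1
      push_cast
      refine Finset.sum_congr rfl fun i _ => ?_
      simp [block]
    · fun_prop
  have hcont : Continuous (fun y : EuclideanSpace ℝ (Fin m) => (y.ofLp : Fin m → ℝ)) := by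
    fun_prop
  have hw2 := ProbabilityMeasure.tendsto_map_of_tendsto_of_continuous Q Q0 hw hcont
  set P : ℕ → ProbabilityMeasure (Fin m → ℝ) := fun j => ⟨emp e m j, inferInstance⟩ with hP
  set P0 : ProbabilityMeasure (Fin m → ℝ) :=
    ⟨Measure.pi fun _ : Fin m => (ν : Measure ℝ), inferInstance⟩ with hP0
  have hPQ : ∀ j, (Q j).map hcont.aemeasurable = P j := by
    intro j
    apply Subtype.ext
    show Measure.map (fun y : EuclideanSpace ℝ (Fin m) => (y.ofLp : Fin m → ℝ))
      (Measure.map (WithLp.toLp 2) (emp e m j)) = emp e m j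
    rw [Measure.map_map (by fun_prop) (by fun_prop)]
    have : ((fun y : EuclideanSpace ℝ (Fin m) => (y.ofLp : Fin m → ℝ)) ∘
        (WithLp.toLp 2 : (Fin m → ℝ) → EuclideanSpace ℝ (Fin m))) = id := by
      funext y; rfl
    rw [this, Measure.map_id]
  have hPQ0 : Q0.map hcont.aemeasurable = P0 := by
    apply Subtype.ext
    show Measure.map (fun y : EuclideanSpace ℝ (Fin m) => (y.ofLp : Fin m → ℝ))
      (Measure.map (WithLp.toLp 2) (Measure.pi fun _ : Fin m => (ν : Measure ℝ))) =
      Measure.pi fun _ : Fin m => (ν : Measure ℝ)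
    rw [Measure.map_map (by fun_prop) (by fun_prop)]
    have : ((fun y : EuclideanSpace ℝ (Fin m) => (y.ofLp : Fin m → ℝ)) ∘
        (WithLp.toLp 2 : (Fin m → ℝ) → EuclideanSpace ℝ (Fin m))) = id := by
      funext y; rfl
    rw [this, Measure.map_id]
  rw [hPQ0] at hw2
  simp only [hPQ] at hw2
  have h2 := ProbabilityMeasure.tendsto_measure_of_null_frontier_of_tendsto' hw2
    (show (P0 : Measure (Fin m → ℝ)) (frontier A) = 0 from hA)
  have h3 := (ENNReal.tendsto_toReal (measure_ne_top _ _)).comp h2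
  refine h3.congr fun j => ?_
  simp only [Function.comp_apply, hP, ProbabilityMeasure.coe_mk, emp]
  rw [Measure.smul_apply, Measure.finsetSum_apply]
  simp only [Measure.dirac_apply, smul_eq_mul]
  have h4 : ∑ n ∈ range (j + 1), A.indicator (1 : (Fin m → ℝ) → ENNReal) (block e m n) =
      (((range (j + 1)).filter (fun n => block e m n ∈ A)).card : ENNReal) := by
    simp only [Set.indicator_apply, Pi.one_apply]
    rw [← Finset.sum_filter, Finset.sum_const, nsmul_eq_mul, mul_one]
  have h5 : {k : ℕ | k < j + 1 ∧ (fun i : Fin m => e (k + i)) ∈ A} =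
      (((range (j + 1)).filter (fun n => block e m n ∈ A) : Finset ℕ) : Set ℕ) := by
    ext k
    simp only [Set.mem_ofPred_eq, coe_filter, mem_range]
    exact Iff.rfl
  rw [h4, h5, Set.ncard_coe_finset, ENNReal.toReal_mul, ENNReal.toReal_inv,
    ENNReal.toReal_natCast, ENNReal.toReal_natCast, div_eq_inv_mul, card_range]

end Pool.Agent.Q138.Met
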