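import Pool.Agent.Q138.Met.Indep2

set_option autoImplicit false

/-! # Asymptotic independence of error terms with a Voronoi expansion -/

namespace Pool.Agent.Q138.Met

open Filter Topology MeasureTheory Finset
open scoped ENNReal NNReal Real
open Pool.Agent.H383 Pool.Agent.H452R2.Win Pool.Agent.H469R2.NK Pool.Agent.H425R3.JL

/-- the approximation by the short models for almost all dilations -/
theorem gen_apx {E : ℝ → ℝ} {a : ℕ → ℝ} {φ : ℝ} {w : ℝ → ℂ} {κ₁ κ₂ : ℝ} (ha : Bdw a)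
    (ha0 : a 0 = 0) (hw : GW.Wt w) (hS : SandW E a φ w κ₁ κ₂) {c : ℝ} (hc : 0 < c) {F : ℝ → ℝ}
    (hF : Measurable F) (hloc : ∀ n : ℕ, 1 ≤ n → ∀ y : ℝ, (n : ℝ) ≤ y → y < n + 1 →
      |F y - F n| ≤ 5 + Real.log n)
    (hEF : ∀ n : ℕ, 1 ≤ n → E (c * √(n : ℝ)) = F n / (n : ℝ) ^ (1 / 4 : ℝ))
    {R : ℕ → ℝ} {δ : ℝ} (hδ : 0 < δ) (hR0 : 0 < R 0) (hR : ∀ k, R k + δ ≤ R (k + 1))
    {lo hi : ℝ} (hlo : 0 < lo) (hlh : lo ≤ hi) :
    ∀ᵐ t ∂(volume.restrict (Set.Icc lo hi)),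
      Apx (fun M => P a φ (Icc 1 (M ^ 2))) (fun k => t * (c * R k))
        (fun k => F ((t * R k) ^ 2) / ((t * R k) ^ 2) ^ (1 / 4 : ℝ)) := by
  obtain ⟨A, hA, τ, hτ, hτ0⟩ := coef_bd ha.Bd ha0
  obtain ⟨ω, hω, hω2, C0, hC0, hms⟩ := Pool.Agent.W24.CP.SM.ms_total ha ha0 hw hS hc
  have hms' : ∀ M X : ℕ, 1 ≤ M → M ^ 40 ≤ X →
      ∑ n ∈ Icc 1 X, (F n / (n : ℝ) ^ (1 / 4 : ℝ) - P a φ (Icc 1 (M ^ 2)) (c * √(n : ℝ))) ^ 2 ≤
        C0 * (M : ℝ) ^ (-ω) * X := by
    intro M X hM hX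
    refine le_trans (le_of_eq ?_) (hms M X hM hX)
    refine Finset.sum_congr rfl fun n hn => ?_
    rw [mem_Icc] at hn
    rw [hEF n hn.1, U_eq]
  set e : ℝ → ℝ := fun x => F ((x / c) ^ 2) / ((x / c) ^ 2) ^ (1 / 4 : ℝ) with he
  have hem : Measurable e := by
    have h1 : Measurable fun x : ℝ => (x / c) ^ 2 := (measurable_id.div_const c).pow_const 2
    exact (hF.comp h1).div (h1.pow_const _)
  have hcR0 : 0 < c * R 0 := by positivity
  have hcR : ∀ k, c * R k + c * δ ≤ c * R (k + 1) := fun k => by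
    have := mul_le_mul_of_nonneg_left (hR k) hc.le
    linarith
  have hRpos := sep_pos hδ hR0 hR
  have h6 : ∀ t : ℝ, ∀ k, e (t * (c * R k)) = F ((t * R k) ^ 2) /
      ((t * R k) ^ 2) ^ (1 / 4 : ℝ) := by
    intro t k
    simp only [he]
    have : t * (c * R k) / c = t * R k := by
      field_simp
    rw [this]
  have hmsr : ∃ C ω : ℝ, 0 < ω ∧ ∃ k0 : ℕ, ∀ k, k0 ≤ k →
      ∫⁻ t in Set.Icc lo hi, ENNReal.ofReal ((e (t * (c * R k)) -
        P a φ (Icc 1 (mk k ^ 2)) (t * (c * R k))) ^ 2) ≤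
          ENNReal.ofReal (C * ((k : ℝ) + 1) ^ (-ω)) := by
    obtain ⟨C, hC, hreal⟩ := ms_real (a := a) (φ := φ) hloc hc hω (by linarith) ⟨C0, hC0, hms'⟩
      (Pool.Agent.W24.CP.U_lip ha.Bd φ) ⟨_, fun x => abs_P_le hA φ _ x⟩ hlo hlh
    set μ := min (R 0) δ with hμ
    have hμ0 : 0 < μ := lt_min hR0 hδ
    have hRk : ∀ k : ℕ, μ * ((k : ℝ) + 1) ≤ R k := by
      intro k
      have h1 := sep_le hR 0 k
      rw [Nat.zero_add] at h1
      have h2 : μ ≤ R 0 := min_le_left _ _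
      have h3 : μ ≤ δ := min_le_right _ _
      have h4 : μ * k ≤ δ * k := mul_le_mul_of_nonneg_right h3 (Nat.cast_nonneg k)
      linarith
    have hev : ∀ᶠ k : ℕ in atTop, 2 ^ 40 * ((k : ℝ) + 1) ^ (40 / 100 : ℝ) ≤
        (lo * μ) ^ 2 * ((k : ℝ) + 1) ^ 2 := by
      have h1 : Tendsto (fun k : ℕ => ((k : ℝ) + 1) ^ (160 / 100 : ℝ)) atTop atTop :=
        (tendsto_rpow_atTop (by norm_num)).comp
          (tendsto_atTop_add_const_right _ _ tendsto_natCast_atTop_atTop)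
      filter_upwards [h1.eventually_ge_atTop (2 ^ 40 / (lo * μ) ^ 2)] with k hk
      have hk0 : (0 : ℝ) < (k : ℝ) + 1 := by positivity
      rw [div_le_iff₀ (by positivity)] at hk
      have h2 : ((k : ℝ) + 1) ^ 2 = ((k : ℝ) + 1) ^ (160 / 100 : ℝ) *
          ((k : ℝ) + 1) ^ (40 / 100 : ℝ) := by
        rw [← Real.rpow_add hk0]
        norm_num
      rw [h2]
      have h3 : 0 ≤ ((k : ℝ) + 1) ^ (40 / 100 : ℝ) := by positivity
      calc 2 ^ 40 * ((k : ℝ) + 1) ^ (40 / 100 : ℝ) ≤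
          (((k : ℝ) + 1) ^ (160 / 100 : ℝ) * (lo * μ) ^ 2) * ((k : ℝ) + 1) ^ (40 / 100 : ℝ) :=
            mul_le_mul_of_nonneg_right hk h3
        _ = _ := by ring
    obtain ⟨k0, hk0⟩ := eventually_atTop.1 hev
    refine ⟨C, ω / 100, by positivity, k0, fun k hk => ?_⟩
    have hkpos : (0 : ℝ) < (k : ℝ) + 1 := by positivity
    have hcond : mk k ^ 40 ≤ ⌊(lo * R k) ^ 2⌋₊ := by
      apply Nat.le_floor
      push_cast
      have h1 := mk_pow_le k 40
      have h2 := hk0 k hk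
      have h3 : (lo * μ) ^ 2 * ((k : ℝ) + 1) ^ 2 ≤ (lo * R k) ^ 2 := by
        rw [← mul_pow]
        apply pow_le_pow_left₀ (by positivity)
        calc lo * μ * ((k : ℝ) + 1) = lo * (μ * ((k : ℝ) + 1)) := by ring
          _ ≤ lo * R k := mul_le_mul_of_nonneg_left (hRk k) hlo.le
      have h4 : (((40 : ℕ) : ℝ) / 100) = (40 / 100 : ℝ) := by norm_num
      rw [h4] at h1
      exact h1.trans (h2.trans h3)
    have h5 := hreal (mk k) (mk_pos k) (R k) (hRpos k) hcond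
    have h7 : ∀ t : ℝ, t * (c * R k) = c * (t * R k) := fun t => by ring
    refine le_trans (le_of_eq ?_) (h5.trans ?_)
    · refine lintegral_congr fun t => ?_
      rw [h6, h7]
    · apply ENNReal.ofReal_le_ofReal
      apply mul_le_mul_of_nonneg_left _ hC.le
      have h8 := mk_ge k
      have h9 : (0 : ℝ) < ((k : ℝ) + 1) ^ (1 / 100 : ℝ) := by positivity
      calc (mk k : ℝ) ^ (-ω) ≤ (((k : ℝ) + 1) ^ (1 / 100 : ℝ)) ^ (-ω) :=
            Real.rpow_le_rpow_of_nonpos h9 h8 (by linarith)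
        _ = ((k : ℝ) + 1) ^ (-(ω / 100)) := by
          rw [← Real.rpow_mul hkpos.le]
          congr 1
          ring
  have hmain := ae_apx hem hA φ hτ hτ0 (R := fun k => c * R k) (δ := c * δ) (by positivity)
    hcR0 hcR hlh hmsr
  filter_upwards [hmain] with t ht
  simp only [h6] at ht
  exact ht

/-- continuous bounded functions of an approximable sequence -/
theorem good_real {Λ : AddSubgroup ℝ} {U : ℕ → ℝ → ℝ}
    (hU : ∀ M, (fun x => ((U M x : ℝ) : ℂ)) ∈ TP Λ) (hb : ∀ M, ∃ B : ℝ, ∀ x, |U M x| ≤ B)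
    {x e : ℕ → ℝ} (hx : Apx U x e) {f : ℝ → ℝ} (hf : Continuous f) {C : ℝ} (hC : ∀ z, |f z| ≤ C)
    {L : ℝ} (hL : Tendsto (av fun k => f (e k)) atTop (𝓝 L)) :
    Good Λ x (fun k => ((f (e k) : ℝ) : ℂ)) (L : ℂ) where
  bdd := ⟨C, fun k => by rw [Complex.norm_real, Real.norm_eq_abs]; exact hC _⟩
  apx := by
    intro η hη
    obtain ⟨t, ht, K0, hK0⟩ := apx_poly hU hb hx hx hf (C := C) (fun z => by
      have h0 : 0 ≤ C := (abs_nonneg _).trans (hC 0)
      have := hC z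
      nlinarith [sq_nonneg z, mul_nonneg h0 (sq_nonneg z)]) hη
    exact ⟨t, ht, K0, fun K hK => (hK0 K hK).1⟩
  lim := by
    have h1 := (Complex.continuous_ofReal.tendsto L).comp hL
    exact h1.congr fun K => av_complex _ K

theorem good_exp {Λ : AddSubgroup ℝ} {U : ℕ → ℝ → ℝ}
    (hU : ∀ M, (fun x => ((U M x : ℝ) : ℂ)) ∈ TP Λ) (hb : ∀ M, ∃ B : ℝ, ∀ x, |U M x| ≤ B)
    {x e : ℕ → ℝ} (hx : Apx U x e) {ν : ProbabilityMeasure ℝ}
    (hL : ∀ f : ℝ → ℝ, Continuous f → (∃ C : ℝ, ∀ z, |f z| ≤ C * (1 + z ^ 2)) →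
      Tendsto (av fun k => f (e k)) atTop (𝓝 (∫ z, f z ∂(ν : Measure ℝ)))) (ξ : ℝ) :
    Good Λ x (fun k => Complex.exp (((ξ * e k : ℝ) : ℂ) * Complex.I))
      (charFun (ν : Measure ℝ) ξ) := by
  have hcos : Continuous fun z : ℝ => Real.cos (ξ * z) := by fun_prop
  have hsin : Continuous fun z : ℝ => Real.sin (ξ * z) := by fun_prop
  have b1 : ∀ z : ℝ, |Real.cos (ξ * z)| ≤ 1 := fun z => Real.abs_cos_le_one _
  have b2 : ∀ z : ℝ, |Real.sin (ξ * z)| ≤ 1 := fun z => Real.abs_sin_le_one _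
  have h1 := good_real hU hb hx hcos b1 (hL _ hcos ⟨1, fun z => (b1 z).trans (by nlinarith)⟩)
  have h2 := good_real hU hb hx hsin b2 (hL _ hsin ⟨1, fun z => (b2 z).trans (by nlinarith)⟩)
  have h3 := h1.add (h2.const_mul Complex.I)
  have e1 : (fun k => ((Real.cos (ξ * e k) : ℝ) : ℂ) + Complex.I * ((Real.sin (ξ * e k) : ℝ) : ℂ)) =
      fun k => Complex.exp (((ξ * e k : ℝ) : ℂ) * Complex.I) := by
    funext k
    rw [Complex.exp_mul_I, Complex.ofReal_cos, Complex.ofReal_sin, mul_comm Complex.I]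
  have e2 : ((∫ z, Real.cos (ξ * z) ∂(ν : Measure ℝ) : ℝ) : ℂ) +
      Complex.I * ((∫ z, Real.sin (ξ * z) ∂(ν : Measure ℝ) : ℝ) : ℂ) =
      charFun (ν : Measure ℝ) ξ := by
    rw [charFun_apply_real]
    have i1 : Integrable (fun z : ℝ => ((Real.cos (ξ * z) : ℝ) : ℂ)) (ν : Measure ℝ) := by
      refine Integrable.of_bound (by fun_prop) 1 (Eventually.of_forall fun z => ?_)
      rw [Complex.norm_real, Real.norm_eq_abs]
      exact b1 z
    have i2 : Integrable (fun z : ℝ => Complex.I * ((Real.sin (ξ * z) : ℝ) : ℂ))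
        (ν : Measure ℝ) := by
      refine Integrable.of_bound (by fun_prop) 1 (Eventually.of_forall fun z => ?_)
      rw [norm_mul, Complex.norm_I, one_mul, Complex.norm_real, Real.norm_eq_abs]
      exact b2 z
    rw [← integral_complex_ofReal, ← integral_complex_ofReal, ← integral_const_mul]
    rw [← integral_add i1 i2]
    refine integral_congr_ae (Eventually.of_forall fun z => ?_)
    beta_reduce
    have : ((ξ : ℂ) * (z : ℂ) * Complex.I) = (((ξ * z : ℝ) : ℂ) * Complex.I) := by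
      push_cast
      ring
    rw [this, Complex.exp_mul_I, Complex.ofReal_cos, Complex.ofReal_sin, mul_comm Complex.I]
  rw [e1, e2] at h3
  exact h3

open Classical in
theorem prop_eq_av (p : ℕ → Prop) (K : ℕ) :
    (({k : ℕ | k < K ∧ p k}.ncard : ℝ) / K : ℝ) = av (fun k => if p k then 1 else 0) K := by
  unfold av
  congr 1
  have : {k : ℕ | k < K ∧ p k} = (((range K).filter p : Finset ℕ) : Set ℕ) := by
    ext k
    simp
  rw [this, Set.ncard_coe_finset, Finset.sum_boole]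

/-- proportions do not change under a shift -/
theorem prop_shift {p : ℕ → Prop} {L : ℝ} (n : ℕ)
    (h : Tendsto (fun K : ℕ => (({k : ℕ | k < K ∧ p (k + n)}.ncard : ℝ) / K)) atTop (𝓝 L)) :
    Tendsto (fun K : ℕ => (({k : ℕ | k < K ∧ p k}.ncard : ℝ) / K)) atTop (𝓝 L) := by
  classical
  have key : ∀ q : ℕ → Prop, (∀ K : ℕ, ((({k : ℕ | k < K ∧ q k}.ncard : ℝ) / K : ℝ) : ℂ) =
      avc (fun k => if q k then 1 else 0) K) := by
    intro q K
    rw [prop_eq_av, av_complex]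
    unfold avc
    congr 1
    refine Finset.sum_congr rfl fun k _ => ?_
    split_ifs <;> simp [*]
  have h1 := (Complex.continuous_ofReal.tendsto L).comp h
  have h2 : Tendsto (avc fun k => if p (k + n) then 1 else 0) atTop (𝓝 (L : ℂ)) :=
    h1.congr fun K => key (fun k => p (k + n)) K
  have h3 := (avc_shift (g := fun k => if p k then 1 else 0) n).1 h2
  have h4 : Tendsto (fun K : ℕ => ((({k : ℕ | k < K ∧ p k}.ncard : ℝ) / K : ℝ) : ℂ)) atTop
      (𝓝 (L : ℂ)) := h3.congr fun K => (key p K).symm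
  have h5 := (Complex.continuous_re.tendsto _).comp h4
  exact h5

/-- **asymptotic independence** -/
theorem indep {E : ℝ → ℝ} {a : ℕ → ℝ} {φ : ℝ} {w : ℝ → ℂ} {κ₁ κ₂ : ℝ} (ha : Bdw a)
    (ha0 : a 0 = 0) (hw : GW.Wt w) (hS : SandW E a φ w κ₁ κ₂) {c : ℝ} (hc : 0 < c) {F Ex : ℝ → ℝ}
    (hF : Measurable F) (hloc : ∀ n : ℕ, 1 ≤ n → ∀ y : ℝ, (n : ℝ) ≤ y → y < n + 1 →
      |F y - F n| ≤ 5 + Real.log n)
    (hEx : ∀ x, Ex x = F x / x ^ (1 / 4 : ℝ))
    (hEF : ∀ n : ℕ, 1 ≤ n → E (c * √(n : ℝ)) = Ex n)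
    {ν : ProbabilityMeasure ℝ} (hν : ∀ g : ℝ → ℝ, Continuous g →
      (∃ C : ℝ, ∀ z, |g z| ≤ C * (1 + z ^ 2)) →
      Tendsto (av fun k : ℕ => g (Ex ((k : ℝ) + 1))) atTop (𝓝 (∫ z, g z ∂(ν : Measure ℝ))))
    {R : ℕ → ℝ} (hR0 : ∀ k, 0 < R k) (hR : Tendsto (fun k => R (k + 1) / R k) atTop atTop) :
    ∀ᵐ t : ℝ, 0 < t → ∀ (m : ℕ) (A : Set (Fin m → ℝ)),
      (Measure.pi fun _ : Fin m => (ν : Measure ℝ)) (frontier A) = 0 →
        Tendsto (fun K : ℕ => ({k : ℕ | k < K ∧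
          (fun j : Fin m => Ex ((t * R (k + j)) ^ 2)) ∈ A}.ncard : ℝ) / K) atTop
          (𝓝 ((Measure.pi fun _ : Fin m => (ν : Measure ℝ)).real A)) := by
  -- separation after a shift
  have hRt : Tendsto R atTop atTop := by
    have h1 := hR.eventually_ge_atTop 2
    obtain ⟨k0, hk0⟩ := eventually_atTop.1 h1
    have h2 : ∀ n : ℕ, R k0 * 2 ^ n ≤ R (n + k0) := by
      intro n
      induction n with
      | zero => simp
      | succ n ih =>
        have h3 := hk0 (n + k0) (by omega)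
        rw [le_div_iff₀ (hR0 _)] at h3
        calc R k0 * 2 ^ (n + 1) = 2 * (R k0 * 2 ^ n) := by ring
          _ ≤ 2 * R (n + k0) := by linarith
          _ ≤ R (n + k0 + 1) := h3
          _ = R (n + 1 + k0) := by congr 1; ring
    rw [← tendsto_add_atTop_iff_nat k0]
    refine tendsto_atTop_mono h2 ?_
    exact (tendsto_pow_atTop_atTop_of_one_lt one_lt_two).const_mul_atTop (hR0 k0)
  obtain ⟨k0, hk0⟩ := eventually_atTop.1
    ((hR.eventually_ge_atTop 2).and (hRt.eventually_ge_atTop 1))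
  set R' : ℕ → ℝ := fun k => R (k + k0) with hR'
  have hR'0 : ∀ k, 0 < R' k := fun k => hR0 _
  have hR'1 : ∀ k, R' k + 1 ≤ R' (k + 1) := by
    intro k
    obtain ⟨h1, h2⟩ := hk0 (k + k0) (by omega)
    rw [le_div_iff₀ (hR0 _)] at h1
    have e : R' (k + 1) = R (k + k0 + 1) := by
      simp only [hR']
      congr 1
      ring
    rw [e]
    simp only [hR']
    linarith
  have hR'r : Tendsto (fun k => c * R' (k + 1) / (c * R' k)) atTop atTop := by
    refine ((tendsto_add_atTop_iff_nat (f := fun k => R (k + 1) / R k) k0).2 hR).congr fun k => ?_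
    simp only [hR']
    rw [mul_div_mul_left _ _ hc.ne']
    congr 2
    ring
  obtain ⟨B, hB, τ, hτ, hτ0⟩ := coef_bd ha.Bd ha0
  have hlaw := final ha ha0 hw hS hc hF hloc hEx hEF hν (R := R') one_pos (hR'0 0) hR'1
  apply ae_pos
  intro lo hi hlo hlh
  have hlaw' := ae_restrict_of_ae (s := Set.Icc lo hi) hlaw
  have hmem : ∀ᵐ t ∂(volume.restrict (Set.Icc lo hi)), t ∈ Set.Icc lo hi :=
    ae_restrict_mem measurableSet_Icc
  filter_upwards [hlaw', hmem,
    gen_apx ha ha0 hw hS hc hF hloc (fun n hn => (hEF n hn).trans (hEx n)) one_pos (hR'0 0)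
      hR'1 hlo hlh,
    ae_mequid countable_Λ₀ (R := fun k => c * R' k) (fun k => mul_pos hc (hR'0 k)) hR'r hlh]
    with t h1 h2 h3 h4 m A hA
  have ht : 0 < t := lt_of_lt_of_le hlo h2.1
  obtain ⟨h5, -⟩ := h1 ht
  have h6 : ∀ ξ : ℝ, Good Λ₀ (fun k => t * (c * R' k))
      (fun k => Complex.exp (((ξ * Ex ((t * R' k) ^ 2) : ℝ) : ℂ) * Complex.I))
      (charFun (ν : Measure ℝ) ξ) := by
    refine good_exp (U := fun M => P a φ (Icc 1 (M ^ 2)))
      (fun M => P_mem a φ fun m _ => sqrt_mem m)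
      (fun M => ⟨B * (Icc 1 (M ^ 2)).card, fun x => abs_P_le hB φ _ x⟩) ?_ ?_
    · simp only [hEx]
      exact h3
    · intro f hf hC
      exact h5 f hf hC
  have h7 := joint h4 (e := fun k => Ex ((t * R' k) ^ 2)) h6 m hA
  apply prop_shift (p := fun k => (fun j : Fin m => Ex ((t * R (k + j)) ^ 2)) ∈ A) k0
  refine h7.congr fun K => ?_
  have e : ∀ k (j : Fin m), R' (k + j) = R (k + k0 + j) := fun k j => by
    simp only [hR']
    congr 1
    ring
  simp only [e]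

end Pool.Agent.Q138.Met
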