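import Pool.Agent.Q138.Met.NF
import Pool.Agent.Q138.Met.Indep3

set_option autoImplicit false

/-! # Asymptotic independence of `Δ_2` and of the partial sums of newforms along dilated sparse sequences -/

namespace Pool.Agent.Q138.Met

open Filter Topology MeasureTheory
open Finset hiding card
open Pool.Agent.H425R3.JL (Edv Edv_eq)
open UpperHalfPlane MatrixGroups CongruenceSubgroup
open Pool.Agent.TH940.NV

theorem sqrt_ratio {u : ℕ → ℝ} (hpos : ∀ k, 0 < u k)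
    (hu : Tendsto (fun k => u (k + 1) / u k) atTop atTop) :
    Tendsto (fun k => √(u (k + 1)) / √(u k)) atTop atTop := by
  have h1 : (fun k => √(u (k + 1)) / √(u k)) = fun k => √(u (k + 1) / u k) := by
    funext k
    rw [Real.sqrt_div (hpos _).le]
  rw [h1]
  exact Real.tendsto_sqrt_atTop.comp hu

/-- asymptotic independence in the divisor problem -/
theorem div_ind : ∃ (ν : ProbabilityMeasure ℝ) (G : ℂ → ℂ),
    (Differentiable ℂ G ∧ (∀ x : ℝ, 0 ≤ (G x).re ∧ (G x).im = 0) ∧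
      (ν : Measure ℝ) = volume.withDensity (fun x : ℝ => ENNReal.ofReal (G x).re) ∧
      (∀ u v : ℝ, u < v → 0 < (ν : Measure ℝ) (Set.Ioo u v)) ∧
      Integrable (fun x : ℝ => x ^ 2) (ν : Measure ℝ) ∧ ∫ x, x ∂(ν : Measure ℝ) = 0 ∧
      ∫ x, x ^ 2 ∂(ν : Measure ℝ) =
        (∑' h : ℕ, (h.divisors.card : ℝ) ^ 2 / (h : ℝ) ^ (3 / 2 : ℝ)) / (4 * Real.pi ^ 2)) ∧
    ∀ u : ℕ → ℝ, (∀ k, 0 < u k) → Tendsto (fun k => u (k + 1) / u k) atTop atTop →
      ∀ᵐ t : ℝ, 0 < t → ∀ (m : ℕ) (A : Set (Fin m → ℝ)),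
        (Measure.pi fun _ : Fin m => (ν : Measure ℝ)) (frontier A) = 0 →
          Tendsto (fun K : ℕ => ({k : ℕ | k < K ∧
            (fun j : Fin m => Edv (t * u (k + j))) ∈ A}.ncard : ℝ) / K) atTop
            (𝓝 ((Measure.pi fun _ : Fin m => (ν : Measure ℝ)).real A)) := by
  obtain ⟨ν, G, g1, g2, g3, g4, hν⟩ := Pool.Agent.Y969.Lin.div_lin
  obtain ⟨μ, m1, m2, m3, m4, m5, -⟩ := hν 1 (fun _ => 1) (fun _ => 0) (fun _ => one_pos)
  have hm2 := m2 0
  have hmeas : Measurable fun x : Fin 1 → ℝ => x 0 := measurable_pi_apply 0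
  have hint2 : Integrable (fun x : ℝ => x ^ 2) (ν : Measure ℝ) := by
    rw [← hm2, integrable_map_measure (by fun_prop) hmeas.aemeasurable]
    refine m1.congr (Eventually.of_forall fun x => ?_)
    simp
  have hmean : ∫ x, x ∂(ν : Measure ℝ) = 0 := by
    rw [← hm2, integral_map hmeas.aemeasurable (by fun_prop)]
    exact m3 0
  have hvar : ∫ x, x ^ 2 ∂(ν : Measure ℝ) =
      (∑' h : ℕ, (h.divisors.card : ℝ) ^ 2 / (h : ℝ) ^ (3 / 2 : ℝ)) / (4 * Real.pi ^ 2) := by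
    obtain ⟨-, h2⟩ := m4 0 0 1 1 1 rfl rfl (Nat.coprime_one_left 1)
    rw [← hm2, integral_map hmeas.aemeasurable (by fun_prop)]
    have h3 : (fun x : Fin 1 → ℝ => x 0 ^ 2) = fun x => x 0 * x 0 := by
      funext x
      ring
    rw [h3, h2]
    congr 1
    refine tsum_congr fun h => ?_
    rw [one_mul, Nat.cast_one, one_mul, one_mul, ← sq, ← Real.rpow_natCast (h : ℝ) 2,
      ← Real.rpow_mul (Nat.cast_nonneg h)]
    norm_num
  refine ⟨ν, G, ⟨g1, g2, g3, g4, hint2, hmean, hvar⟩, fun u hpos hu => ?_⟩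
  have hlaw : ∀ f : ℝ → ℝ, Continuous f → (∃ C : ℝ, ∀ z, |f z| ≤ C * (1 + z ^ 2)) →
      Tendsto (av fun k : ℕ => f (Edv ((k : ℝ) + 1))) atTop
        (𝓝 (∫ z, f z ∂(ν : Measure ℝ))) := by
    intro f hf hC
    refine law_int hm2 (fun F hF hFC η hη => ?_) hf hC
    obtain ⟨N0, hN0⟩ := m5 F hF hFC η hη
    refine ⟨N0, fun N hN => ?_⟩
    have h1 := (hN0 N hN 0).1 (fun _ => 1) (fun n => by simp) (fun m n _ => by simp)
    simp only [one_mul, Complex.ofReal_zero, zero_mul, mul_zero, Complex.exp_zero, Nat.cast_one,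
      Nat.cast_zero, add_zero, ← Complex.ofReal_sum, Complex.norm_real, Real.norm_eq_abs] at h1
    exact h1
  have hmain := indep (E := Pool.Agent.H383.Div.E2) (F := Pool.Agent.Y969.SW.Dl)
    (Ex := Edv) (c := 2) Pool.Agent.H452R2.Win.ad_Bdw2
    Pool.Agent.H383.Div.ad_zero Pool.Agent.H383.Div.wd_Wt
    (Pool.Agent.H452R2.Win.E2_SandW Pool.Agent.H383.Div.vor)
    two_pos measurable_Dl Pool.Agent.Y969.SW.Dl_loc Edv_Dl (fun n hn => by
      unfold Pool.Agent.H383.Div.E2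
      rw [mul_div_assoc, mul_comm, div_mul_cancel₀ _ (two_ne_zero), Edv_eq (Nat.cast_nonneg n)])
    hlaw (R := fun k => √(u k)) (fun k => Real.sqrt_pos.2 (hpos k)) (sqrt_ratio hpos hu)
  apply ae_sq (q := fun t => ∀ (m : ℕ) (A : Set (Fin m → ℝ)),
        (Measure.pi fun _ : Fin m => (ν : Measure ℝ)) (frontier A) = 0 →
          Tendsto (fun K : ℕ => ({k : ℕ | k < K ∧
            (fun j : Fin m => Edv (t * u (k + j))) ∈ A}.ncard : ℝ) / K) atTop
            (𝓝 ((Measure.pi fun _ : Fin m => (ν : Measure ℝ)).real A)))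
  filter_upwards [hmain] with t ht h0
  have e : ∀ k, (t * √(u k)) ^ 2 = t ^ 2 * u k := by
    intro k
    rw [mul_pow, Real.sq_sqrt (hpos k).le]
  have h12 := ht h0
  simp only [e] at h12
  exact h12

/-- asymptotic independence, for newforms -/
theorem nf_ind (N : ℕ) [NeZero N] (k : ℤ) (hk : 1 ≤ k)
    (f g : CuspForm (Gamma1 N : Subgroup (GL (Fin 2) ℝ)) k) (η : ℂ) (lam : ℕ → ℂ)
    (h : FormData N k f g η lam) (w : ℂ) (E : ℝ → ℝ)
    (hE : ∀ x : ℝ, E x = (w * ∑ j ∈ Icc 1 ⌊x⌋₊, lam j).re / x ^ (1 / 4 : ℝ)) :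
    ∃ ν : ProbabilityMeasure ℝ,
      (Integrable (fun x : ℝ => x ^ 2) (ν : Measure ℝ) ∧ ∫ x, x ∂(ν : Measure ℝ) = 0 ∧
        (Summable fun l : ℕ => (w * η * (starRingEnd ℂ) (lam l)).re ^ 2 / (l : ℝ) ^ (3 / 2 : ℝ)) ∧
        ∫ x, x ^ 2 ∂(ν : Measure ℝ) = √(N : ℝ) / (4 * Real.pi ^ 2) *
          ∑' l : ℕ, (w * η * (starRingEnd ℂ) (lam l)).re ^ 2 / (l : ℝ) ^ (3 / 2 : ℝ)) ∧
      ∀ u : ℕ → ℝ, (∀ k, 0 < u k) → Tendsto (fun k => u (k + 1) / u k) atTop atTop →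
        ∀ᵐ t : ℝ, 0 < t → ∀ (m : ℕ) (A : Set (Fin m → ℝ)),
          (Measure.pi fun _ : Fin m => (ν : Measure ℝ)) (frontier A) = 0 →
            Tendsto (fun K : ℕ => ({k : ℕ | k < K ∧
              (fun j : Fin m => E (t * u (k + j))) ∈ A}.ncard : ℝ) / K) atTop
              (𝓝 ((Measure.pi fun _ : Fin m => (ν : Measure ℝ)).real A)) := by
  have hN0 : (0 : ℝ) < N := Nat.cast_pos.2 (Nat.pos_of_ne_zero (NeZero.ne N))
  have hsN : 0 < √(N : ℝ) := Real.sqrt_pos.2 hN0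
  obtain ⟨μ, m1, m2, m3, m4⟩ := Pool.Agent.Results.MP_a009d0_nt.LinearArguments.result
    (fun _ : Fin 1 => N) (fun _ => k) (fun _ => hk) (fun _ => f) (fun _ => g) (fun _ => η)
    (fun _ => lam) (fun _ => h) (fun _ => w) (fun _ => 1) (fun _ => one_pos)
  have hmeas : Measurable fun x : Fin 1 → ℝ => x 0 := measurable_pi_apply 0
  set ν : ProbabilityMeasure ℝ := μ.map hmeas.aemeasurable with hν
  have hm2 : (μ : Measure (Fin 1 → ℝ)).map (fun x => x 0) = (ν : Measure ℝ) := rfl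
  have hint2 : Integrable (fun x : ℝ => x ^ 2) (ν : Measure ℝ) := by
    rw [← hm2, integrable_map_measure (by fun_prop) hmeas.aemeasurable]
    refine m1.congr (Eventually.of_forall fun x => ?_)
    simp
  have hmean : ∫ x, x ∂(ν : Measure ℝ) = 0 := by
    rw [← hm2, integral_map hmeas.aemeasurable (by fun_prop)]
    exact m2 0
  have hterm : ∀ l : ℕ, (w * η * (starRingEnd ℂ) (lam (1 * l))).re *
      (w * η * (starRingEnd ℂ) (lam (1 * l))).re /
        ((((1 : ℕ) : ℝ)) * ((1 : ℕ) : ℝ) * (l : ℝ) ^ 2) ^ (3 / 4 : ℝ) =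
      (w * η * (starRingEnd ℂ) (lam l)).re ^ 2 / (l : ℝ) ^ (3 / 2 : ℝ) := by
    intro l
    rw [one_mul, Nat.cast_one, one_mul, one_mul, ← sq, ← Real.rpow_natCast (l : ℝ) 2,
      ← Real.rpow_mul (Nat.cast_nonneg l)]
    norm_num
  obtain ⟨s1, s2⟩ := m3 0 0 1 1 one_pos one_pos (Nat.coprime_one_left 1) rfl
  simp only [hterm] at s1 s2
  refine ⟨ν, ⟨hint2, hmean, s1, ?_⟩, fun u hpos hu => ?_⟩
  · rw [← hm2, integral_map hmeas.aemeasurable (by fun_prop)]
    have h3 : (fun x : Fin 1 → ℝ => x 0 ^ 2) = fun x => x 0 * x 0 := by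
      funext x
      ring
    rw [h3, s2, sub_self, zero_mul, Real.cos_zero, mul_one]
    congr 2
    rw [← sq, ← Real.rpow_natCast (N : ℝ) 2, ← Real.rpow_mul hN0.le, Real.sqrt_eq_rpow]
    norm_num
  have hev : ∀ (n : ℕ) (i : Fin 1), (fun (n : ℕ) (_ : Fin 1) => E n) n i =
      (w * ∑ j ∈ Finset.Icc 1 (1 * n + 0), lam j).re / ((1 * n + 0 : ℕ) : ℝ) ^ (1 / 4 : ℝ) := by
    intro n i
    simp only [hE, one_mul, add_zero, Nat.floor_natCast]
  obtain ⟨m5, -⟩ := m4 (fun _ => 0) (fun n _ => E n) hev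
  have hlaw : ∀ F : ℝ → ℝ, Continuous F → (∃ C : ℝ, ∀ z, |F z| ≤ C * (1 + z ^ 2)) →
      Tendsto (av fun k : ℕ => F (E ((k : ℝ) + 1))) atTop
        (𝓝 (∫ z, F z ∂(ν : Measure ℝ))) := by
    intro F hF hC
    refine law_int hm2 (fun F hF hFC η hη => ?_) hF hC
    obtain ⟨N0, hN0⟩ := m5 F hF hFC η hη
    refine ⟨N0, fun N hN => ?_⟩
    have h1 := (hN0 N hN 0).1 (fun _ => 1) (fun n => by simp) (fun m n _ => by simp)
    simp only [one_mul, Complex.ofReal_zero, zero_mul, mul_zero, Complex.exp_zero,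
      ← Complex.ofReal_sum, Complex.norm_real, Real.norm_eq_abs] at h1
    exact h1
  have hFm : Measurable fun x : ℝ => (w * ∑ j ∈ Icc 1 ⌊x⌋₊, lam j).re := by
    have h1 : Measurable fun n : ℕ => (w * ∑ j ∈ Icc 1 n, lam j).re := measurable_from_nat
    exact h1.comp Nat.measurable_floor
  have hmain := indep (E := En (lre w lam) (2 / √(N : ℝ)))
    (F := fun x : ℝ => (w * ∑ j ∈ Icc 1 ⌊x⌋₊, lam j).re)
    (Ex := E) (c := 2 / √(N : ℝ)) (h.Bdw hk w) (af_zero w η N k lam) wq_Wt (h.sandW hk w)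
    (by positivity) hFm (fun n hn y h1 h2 => by
      have hfl : ⌊y⌋₊ = n := by
        rw [Nat.floor_eq_iff (by have : (0 : ℝ) ≤ n := Nat.cast_nonneg n; linarith)]
        exact ⟨h1, h2⟩
      simp only [hfl, Nat.floor_natCast, sub_self, abs_zero]
      have : 0 ≤ Real.log n := Real.log_natCast_nonneg n
      linarith) hE (fun n hn => by
      have hn0 : (0 : ℝ) < n := by exact_mod_cast hn
      rw [E_quad N w lam hn0, hE])
    hlaw (R := fun k => √(u k)) (fun k => Real.sqrt_pos.2 (hpos k)) (sqrt_ratio hpos hu)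
  apply ae_sq (q := fun t => ∀ (m : ℕ) (A : Set (Fin m → ℝ)),
        (Measure.pi fun _ : Fin m => (ν : Measure ℝ)) (frontier A) = 0 →
          Tendsto (fun K : ℕ => ({k : ℕ | k < K ∧
            (fun j : Fin m => E (t * u (k + j))) ∈ A}.ncard : ℝ) / K) atTop
            (𝓝 ((Measure.pi fun _ : Fin m => (ν : Measure ℝ)).real A)))
  filter_upwards [hmain] with t ht h0
  have e : ∀ k, (t * √(u k)) ^ 2 = t ^ 2 * u k := by
    intro k
    rw [mul_pow, Real.sq_sqrt (hpos k).le]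
  have h12 := ht h0
  simp only [e] at h12
  exact h12

end Pool.Agent.Q138.Met
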