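import Pool.Agent.Q138.Met.Model

set_option autoImplicit false

/-! # Limit laws along sequences which are equidistributed for the frequencies of the model -/

namespace Pool.Agent.Q138.Met

open Filter Topology MeasureTheory Finset
open scoped ENNReal NNReal Real

/-- the character `x ↦ exp(2πiθx)` -/
noncomputable def ex (θ x : ℝ) : ℂ := Complex.exp (((2 * π * (θ * x) : ℝ) : ℂ) * Complex.I)

theorem norm_ex (θ x : ℝ) : ‖ex θ x‖ = 1 := Complex.norm_exp_ofReal_mul_I _

theorem ex_mul (θ θ' x : ℝ) : ex θ x * ex θ' x = ex (θ + θ') x := by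
  unfold ex
  rw [← Complex.exp_add]
  congr 1
  push_cast
  ring

theorem ex_zero (x : ℝ) : ex 0 x = 1 := by simp [ex]

/-- trigonometric polynomials with frequencies in `Λ` -/
def TP (Λ : AddSubgroup ℝ) : Submodule ℂ (ℝ → ℂ) :=
  Submodule.span ℂ {f | ∃ θ ∈ Λ, f = ex θ}

theorem TP_ex {Λ : AddSubgroup ℝ} {θ : ℝ} (h : θ ∈ Λ) : ex θ ∈ TP Λ :=
  Submodule.subset_span ⟨θ, h, rfl⟩

theorem TP_one (Λ : AddSubgroup ℝ) : (1 : ℝ → ℂ) ∈ TP Λ := by
  have : (1 : ℝ → ℂ) = ex 0 := by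
    funext x
    rw [ex_zero, Pi.one_apply]
  rw [this]
  exact TP_ex Λ.zero_mem

theorem TP_mul {Λ : AddSubgroup ℝ} {f g : ℝ → ℂ} (hf : f ∈ TP Λ) (hg : g ∈ TP Λ) :
    f * g ∈ TP Λ := by
  have h : ∀ θ ∈ Λ, ∀ g ∈ TP Λ, ex θ * g ∈ TP Λ := by
    intro θ hθ g hg
    unfold TP at hg
    induction hg using Submodule.span_induction with
    | mem x hx =>
      obtain ⟨θ', hθ', rfl⟩ := hx
      have : ex θ * ex θ' = ex (θ + θ') := by
        funext x
        exact ex_mul θ θ' x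
      rw [this]
      exact TP_ex (Λ.add_mem hθ hθ')
    | zero => rw [mul_zero]; exact (TP Λ).zero_mem
    | add x y _ _ hx hy => rw [mul_add]; exact (TP Λ).add_mem hx hy
    | smul c x _ hx => rw [mul_smul_comm]; exact (TP Λ).smul_mem c hx
  unfold TP at hf
  induction hf using Submodule.span_induction with
  | mem x hx =>
    obtain ⟨θ, hθ, rfl⟩ := hx
    exact h θ hθ g hg
  | zero => rw [zero_mul]; exact (TP Λ).zero_mem
  | add x y _ _ hx hy => rw [add_mul]; exact (TP Λ).add_mem hx hy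
  | smul c x _ hx => rw [smul_mul_assoc]; exact (TP Λ).smul_mem c hx

/-- averages of the characters of `Λ` along the sequence `x` -/
def Equid (Λ : AddSubgroup ℝ) (x : ℕ → ℝ) : Prop :=
  ∀ θ ∈ Λ, θ ≠ 0 → Tendsto (fun K : ℕ => (∑ k ∈ range K, ex θ (x k)) / (K : ℂ)) atTop (𝓝 0)

theorem TP_lim {Λ : AddSubgroup ℝ} {f : ℝ → ℂ} (hf : f ∈ TP Λ) : ∃ L : ℂ,
    ∀ x : ℕ → ℝ, Equid Λ x →
      Tendsto (fun K : ℕ => (∑ k ∈ range K, f (x k)) / (K : ℂ)) atTop (𝓝 L) := by
  unfold TP at hf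
  induction hf using Submodule.span_induction with
  | mem x hx =>
    obtain ⟨θ, hθ, rfl⟩ := hx
    by_cases h0 : θ = 0
    · refine ⟨1, fun x _ => ?_⟩
      have h1 : ∀ᶠ K : ℕ in atTop, (∑ k ∈ range K, ex θ (x k)) / (K : ℂ) = 1 := by
        filter_upwards [eventually_ge_atTop 1] with K hK
        have hK0 : (K : ℂ) ≠ 0 := by exact_mod_cast (by omega : K ≠ 0)
        simp only [h0, ex_zero]
        rw [sum_const, card_range, nsmul_eq_mul, mul_one, div_self hK0]
      exact tendsto_const_nhds.congr' (EventuallyEq.symm h1)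
    · exact ⟨0, fun x hx => hx θ hθ h0⟩
  | zero => exact ⟨0, fun x _ => by simp⟩
  | add f g _ _ hf hg =>
    obtain ⟨L, hL⟩ := hf
    obtain ⟨L', hL'⟩ := hg
    refine ⟨L + L', fun x hx => ?_⟩
    refine ((hL x hx).add (hL' x hx)).congr fun K => ?_
    rw [← add_div, ← Finset.sum_add_distrib]
    rfl
  | smul c f _ hf =>
    obtain ⟨L, hL⟩ := hf
    refine ⟨c * L, fun x hx => ?_⟩
    refine ((hL x hx).const_mul c).congr fun K => ?_
    rw [← mul_div_assoc, Finset.mul_sum]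
    rfl

/-- the model polynomials are trigonometric polynomials -/
theorem P_mem {Λ : AddSubgroup ℝ} (a : ℕ → ℝ) (φ : ℝ) {s : Finset ℕ}
    (hs : ∀ m ∈ s, √(m : ℝ) ∈ Λ) : (fun x => ((P a φ s x : ℝ) : ℂ)) ∈ TP Λ := by
  have h1 : (fun x => ((P a φ s x : ℝ) : ℂ)) =
      ∑ m ∈ s, ((((a m : ℝ) : ℂ) * (Complex.exp ((-φ : ℝ) * Complex.I) / 2)) • ex √(m : ℝ) +
        (((a m : ℝ) : ℂ) * (Complex.exp ((φ : ℝ) * Complex.I) / 2)) • ex (-√(m : ℝ))) := by
    funext x
    rw [Finset.sum_apply]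
    unfold P
    push_cast
    refine Finset.sum_congr rfl fun m _ => ?_
    simp only [Pi.add_apply, Pi.smul_apply, smul_eq_mul, ex]
    rw [Complex.cos]
    have e1 : Complex.exp ((2 * π * (x * √(m : ℝ)) - φ : ℂ) * Complex.I) =
        Complex.exp ((-φ : ℝ) * Complex.I) *
          Complex.exp (((2 * π * (√(m : ℝ) * x) : ℝ) : ℂ) * Complex.I) := by
      rw [← Complex.exp_add]
      congr 1
      push_cast
      ring
    have e2 : Complex.exp (-(2 * π * (x * √(m : ℝ)) - φ : ℂ) * Complex.I) =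
        Complex.exp ((φ : ℝ) * Complex.I) *
          Complex.exp (((2 * π * (-√(m : ℝ) * x) : ℝ) : ℂ) * Complex.I) := by
      rw [← Complex.exp_add]
      congr 1
      push_cast
      ring
    rw [e1, e2]
    push_cast
    ring
  rw [h1]
  refine (TP Λ).sum_mem fun m hm => ?_
  exact (TP Λ).add_mem ((TP Λ).smul_mem _ (TP_ex (hs m hm)))
    ((TP Λ).smul_mem _ (TP_ex (Λ.neg_mem (hs m hm))))

/-- Weierstrass approximation for continuous functions of a bounded trigonometric polynomial -/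
theorem weier {Λ : AddSubgroup ℝ} {u : ℝ → ℝ} (hu : (fun x => ((u x : ℝ) : ℂ)) ∈ TP Λ) {B : ℝ}
    (hB : ∀ x, |u x| ≤ B) {f : ℝ → ℝ} (hf : Continuous f) {η : ℝ} (hη : 0 < η) :
    ∃ t : ℝ → ℂ, t ∈ TP Λ ∧ ∀ x, ‖((f (u x) : ℝ) : ℂ) - t x‖ ≤ η := by
  set K : Set ℝ := Set.Icc (-B) B with hK
  have hKc : IsCompact K := isCompact_Icc
  haveI : CompactSpace K := isCompact_iff_compactSpace.mp hKc
  have hmem : ∀ x, u x ∈ K := fun x => ⟨(abs_le.mp (hB x)).1, (abs_le.mp (hB x)).2⟩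
  set v : ℝ → K := fun x => ⟨u x, hmem x⟩ with hv
  let A : Subalgebra ℝ C(K, ℝ) :=
    { carrier := {g | (fun x => ((g (v x) : ℝ) : ℂ)) ∈ TP Λ}
      mul_mem' := by
        intro a b ha hb
        simp only [Set.mem_setOf_eq] at ha hb ⊢
        have := TP_mul ha hb
        convert this using 1
        funext n; simp
      add_mem' := by
        intro a b ha hb
        simp only [Set.mem_setOf_eq] at ha hb ⊢
        have := (TP Λ).add_mem ha hb
        convert this using 1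
        funext n; simp
      algebraMap_mem' := by
        intro r
        simp only [Set.mem_setOf_eq]
        have := (TP Λ).smul_mem (r : ℂ) (TP_one Λ)
        convert this using 1
        funext n; simp }
  have hsep : A.SeparatesPoints := by
    intro x y hxy
    refine ⟨fun z => (z : ℝ), ⟨⟨fun z => (z : ℝ), continuous_subtype_val⟩, ?_, rfl⟩, ?_⟩
    · exact hu
    · exact fun h => hxy (Subtype.ext h)
  have htop := ContinuousMap.subalgebra_topologicalClosure_eq_top_of_separatesPoints A hsep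
  have hfK : (⟨fun z : K => f z, by fun_prop⟩ : C(K, ℝ)) ∈ A.topologicalClosure := by
    rw [htop]; exact Algebra.mem_top
  rw [← SetLike.mem_coe, Subalgebra.topologicalClosure_coe, Metric.mem_closure_iff] at hfK
  obtain ⟨g, hg, hd⟩ := hfK η hη
  refine ⟨fun x => ((g (v x) : ℝ) : ℂ), hg, fun x => ?_⟩
  rw [← Complex.ofReal_sub, Complex.norm_real, Real.norm_eq_abs, ← Real.dist_eq]
  have h1 := ContinuousMap.dist_apply_le_dist
    (f := (⟨fun z : K => f z, by fun_prop⟩ : C(K, ℝ))) (g := g) (v x)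
  exact h1.trans hd.le

/-- the mean of the first `K` terms -/
noncomputable def av (g : ℕ → ℝ) (K : ℕ) : ℝ := (∑ k ∈ range K, g k) / K

theorem av_mono {g h : ℕ → ℝ} (H : ∀ k, g k ≤ h k) (K : ℕ) : av g K ≤ av h K := by
  unfold av
  exact div_le_div_of_nonneg_right (Finset.sum_le_sum fun k _ => H k) (Nat.cast_nonneg K)

theorem av_add (g h : ℕ → ℝ) (K : ℕ) : av (fun k => g k + h k) K = av g K + av h K := by
  unfold av
  rw [Finset.sum_add_distrib, add_div]

theorem av_mul (c : ℝ) (g : ℕ → ℝ) (K : ℕ) : av (fun k => c * g k) K = c * av g K := by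
  unfold av
  rw [← Finset.mul_sum, mul_div_assoc]

theorem av_const_le {c : ℝ} (hc : 0 ≤ c) (K : ℕ) : av (fun _ => c) K ≤ c := by
  unfold av
  rw [sum_const, card_range, nsmul_eq_mul]
  rcases Nat.eq_zero_or_pos K with rfl | hK
  · simpa using hc
  · have : (K : ℝ) ≠ 0 := by exact_mod_cast hK.ne'
    rw [mul_comm, mul_div_assoc, div_self this, mul_one]

theorem av_abs_sub (g h : ℕ → ℝ) (K : ℕ) : |av g K - av h K| ≤ av (fun k => |g k - h k|) K := by
  unfold av
  rw [← sub_div, ← Finset.sum_sub_distrib, abs_div, Nat.abs_cast]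
  exact div_le_div_of_nonneg_right (Finset.abs_sum_le_sum_abs _ _) (Nat.cast_nonneg K)

/-- the sequence `e` is approximated in mean square by the model `U M` along `x` -/
def Apx (U : ℕ → ℝ → ℝ) (x e : ℕ → ℝ) : Prop :=
  ∀ η : ℝ, 0 < η → ∃ M0 : ℕ, ∀ M, M0 ≤ M → ∃ K0 : ℕ, ∀ K, K0 ≤ K →
    av (fun k => (e k - U M (x k)) ^ 2) K ≤ η

/-- continuous functions of at most quadratic growth have asymptotically the averages of a
trigonometric polynomial -/
theorem apx_poly {Λ : AddSubgroup ℝ} {U : ℕ → ℝ → ℝ}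
    (hU : ∀ M, (fun x => ((U M x : ℝ) : ℂ)) ∈ TP Λ) (hb : ∀ M, ∃ B : ℝ, ∀ x, |U M x| ≤ B)
    {x y e e' : ℕ → ℝ} (hx : Apx U x e) (hy : Apx U y e')
    {f : ℝ → ℝ} (hf : Continuous f) {C : ℝ} (hC : ∀ z, |f z| ≤ C * (1 + z ^ 2))
    {η : ℝ} (hη : 0 < η) :
    ∃ t : ℝ → ℂ, t ∈ TP Λ ∧ ∃ K0 : ℕ, ∀ K, K0 ≤ K →
      av (fun k => ‖((f (e k) : ℝ) : ℂ) - t (x k)‖) K ≤ η ∧
      av (fun k => ‖((f (e' k) : ℝ) : ℂ) - t (y k)‖) K ≤ η := by
  have hC0 : 0 ≤ C := by
    have h1 := hC 0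
    have h2 := abs_nonneg (f 0)
    norm_num at h1
    linarith
  -- the cut-off
  have hη1 : 0 < η / (4 * (8 * C + 1)) := by positivity
  obtain ⟨M1, hM1⟩ := hx _ hη1
  obtain ⟨M1', hM1'⟩ := hy _ hη1
  set m := max M1 M1' with hm
  obtain ⟨K1, hK1⟩ := hM1 m (le_max_left _ _)
  obtain ⟨K1', hK1'⟩ := hM1' m (le_max_right _ _)
  obtain ⟨B, hB⟩ := hb m
  have hB0 : 0 ≤ B := (abs_nonneg _).trans (hB 0)
  set T : ℝ := 2 * B + 1 with hT
  have hT1 : 1 ≤ T := by linarith
  set χ : ℝ → ℝ := fun z => max 0 (min 1 (2 - |z| / T)) with hχ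
  have hχc : Continuous χ := by
    simp only [hχ]
    fun_prop
  have hχ0 : ∀ z, 0 ≤ χ z := fun z => le_max_left _ _
  have hχ1 : ∀ z, χ z ≤ 1 := fun z => max_le (by norm_num) (min_le_left _ _)
  have hχeq : ∀ z, |z| ≤ T → χ z = 1 := by
    intro z hz
    have : |z| / T ≤ 1 := by
      rw [div_le_one (by linarith)]
      exact hz
    simp only [hχ]
    rw [min_eq_left (by linarith), max_eq_right (by norm_num)]
  have hχz : ∀ z, 2 * T ≤ |z| → χ z = 0 := by
    intro z hz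
    have : 2 ≤ |z| / T := by
      rw [le_div_iff₀ (by linarith)]
      exact hz
    simp only [hχ]
    exact max_eq_left ((min_le_right _ _).trans (by linarith))
  set h : ℝ → ℝ := fun z => f z * χ z with hh
  have hhc : Continuous h := hf.mul hχc
  have hcs : HasCompactSupport h := by
    apply HasCompactSupport.intro (isCompact_Icc (a := -(2 * T)) (b := 2 * T))
    intro z hz
    have : 2 * T ≤ |z| := by
      by_contra hcon
      push Not at hcon
      exact hz ⟨(abs_lt.1 hcon).1.le, (abs_lt.1 hcon).2.le⟩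
    simp only [hh]
    rw [hχz z this, mul_zero]
  have huc : UniformContinuous h := hhc.uniformContinuous_of_tendsto_cocompact (x := 0)
    (hcs.is_zero_at_infty)
  obtain ⟨H0, hH0⟩ := hcs.exists_bound_of_continuous hhc
  set H : ℝ := |H0| + 1 with hHdef
  have hHpos : 0 < H := by positivity
  have hHb : ∀ z, |h z| ≤ H := fun z => by
    have := hH0 z
    rw [Real.norm_eq_abs] at this
    exact this.trans ((le_abs_self _).trans (by linarith))
  rw [Metric.uniformContinuous_iff] at huc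
  obtain ⟨d, hd, hdu⟩ := huc (η / 8) (by positivity)
  have hquad : ∀ z w : ℝ, |h z - h w| ≤ η / 8 + 2 * H / d ^ 2 * (z - w) ^ 2 := by
    intro z w
    by_cases hzw : |z - w| < d
    · have h1 := hdu (show dist z w < d from by rwa [Real.dist_eq])
      rw [Real.dist_eq] at h1
      have h2 : 0 ≤ 2 * H / d ^ 2 * (z - w) ^ 2 := by positivity
      linarith
    · push Not at hzw
      have h1 : |h z - h w| ≤ 2 * H := by
        have := abs_sub (h z) (h w)
        have := hHb z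
        have := hHb w
        linarith
      have h2 : 1 ≤ (z - w) ^ 2 / d ^ 2 := by
        rw [le_div_iff₀ (by positivity), one_mul, ← sq_abs (z - w)]
        exact pow_le_pow_left₀ hd.le hzw 2
      have h3 : 2 * H ≤ 2 * H / d ^ 2 * (z - w) ^ 2 := by
        calc 2 * H = 2 * H * 1 := (mul_one _).symm
          _ ≤ 2 * H * ((z - w) ^ 2 / d ^ 2) := mul_le_mul_of_nonneg_left h2 (by positivity)
          _ = _ := by ring
      linarith
  -- the large values
  have hlarge : ∀ z w : ℝ, |w| ≤ B → |f z - h z| ≤ 8 * C * (z - w) ^ 2 := by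
    intro z w hw
    by_cases hz : |z| ≤ T
    · have : f z - h z = 0 := by
        simp only [hh]
        rw [hχeq z hz]
        ring
      rw [this, abs_zero]
      positivity
    · push Not at hz
      have h1 : |f z - h z| ≤ |f z| := by
        simp only [hh]
        have : f z - f z * χ z = f z * (1 - χ z) := by ring
        rw [this, abs_mul]
        have h2 : |1 - χ z| ≤ 1 := abs_le.2 ⟨by linarith [hχ1 z], by linarith [hχ0 z]⟩
        calc |f z| * |1 - χ z| ≤ |f z| * 1 := mul_le_mul_of_nonneg_left h2 (abs_nonneg _)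
          _ = |f z| := mul_one _
      have h3 : |z| / 2 ≤ |z - w| := by
        have := abs_sub_abs_le_abs_sub z w
        linarith
      have h4 : z ^ 2 ≤ 4 * (z - w) ^ 2 := by
        have h5 := pow_le_pow_left₀ (by positivity) h3 2
        rw [sq_abs, div_pow, sq_abs] at h5
        linarith
      have h6 : 1 + z ^ 2 ≤ 2 * z ^ 2 := by
        have : 1 ≤ z ^ 2 := by
          rw [← sq_abs]
          nlinarith
        linarith
      calc |f z - h z| ≤ |f z| := h1
        _ ≤ C * (1 + z ^ 2) := hC z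
        _ ≤ C * (2 * (4 * (z - w) ^ 2)) := mul_le_mul_of_nonneg_left (by linarith) hC0
        _ = _ := by ring
  -- second approximation
  have hη2 : 0 < η * d ^ 2 / (16 * H) := by positivity
  obtain ⟨M2, hM2⟩ := hx _ hη2
  obtain ⟨M2', hM2'⟩ := hy _ hη2
  set n := max M2 M2' with hn
  obtain ⟨K2, hK2⟩ := hM2 n (le_max_left _ _)
  obtain ⟨K2', hK2'⟩ := hM2' n (le_max_right _ _)
  obtain ⟨B2, hB2⟩ := hb n
  obtain ⟨t, ht, htw⟩ := weier (hU n) hB2 hhc (η := η / 4) (by positivity)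
  refine ⟨t, ht, K1 + K1' + K2 + K2', fun K hK => ?_⟩
  have main : ∀ (x e : ℕ → ℝ), av (fun k => (e k - U m (x k)) ^ 2) K ≤ η / (4 * (8 * C + 1)) →
      av (fun k => (e k - U n (x k)) ^ 2) K ≤ η * d ^ 2 / (16 * H) →
      av (fun k => ‖((f (e k) : ℝ) : ℂ) - t (x k)‖) K ≤ η := by
    intro x e h1 h2
    have h3 : ∀ k, ‖((f (e k) : ℝ) : ℂ) - t (x k)‖ ≤
        8 * C * (e k - U m (x k)) ^ 2 + (2 * H / d ^ 2 * (e k - U n (x k)) ^ 2 +
          (η / 8 + η / 4)) := by
      intro k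
      have e1 : ((f (e k) : ℝ) : ℂ) - t (x k) = ((f (e k) - h (e k) : ℝ) : ℂ) +
          ((h (e k) - h (U n (x k)) : ℝ) : ℂ) + (((h (U n (x k)) : ℝ) : ℂ) - t (x k)) := by
        push_cast
        ring
      rw [e1]
      refine (norm_add_le _ _).trans ?_
      refine (add_le_add (norm_add_le _ _) (htw (x k))).trans ?_
      rw [Complex.norm_real, Complex.norm_real, Real.norm_eq_abs, Real.norm_eq_abs]
      have h4 := hlarge (e k) (U m (x k)) (hB _)
      have h5 := hquad (e k) (U n (x k))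
      linarith
    refine (av_mono h3 K).trans ?_
    rw [av_add, av_add, av_mul, av_mul]
    have h6 := av_const_le (c := η / 8 + η / 4) (by positivity) K
    have h7 : 8 * C * av (fun k => (e k - U m (x k)) ^ 2) K ≤ η / 4 := by
      have h8 : 0 ≤ av (fun k => (e k - U m (x k)) ^ 2) K :=
        div_nonneg (Finset.sum_nonneg fun k _ => sq_nonneg _) (Nat.cast_nonneg K)
      calc 8 * C * av (fun k => (e k - U m (x k)) ^ 2) K ≤
          (8 * C + 1) * av (fun k => (e k - U m (x k)) ^ 2) K :=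
            mul_le_mul_of_nonneg_right (by linarith) h8
        _ ≤ (8 * C + 1) * (η / (4 * (8 * C + 1))) :=
            mul_le_mul_of_nonneg_left h1 (by positivity)
        _ = η / 4 := by field_simp
    have h9 : 2 * H / d ^ 2 * av (fun k => (e k - U n (x k)) ^ 2) K ≤ η / 8 := by
      calc _ ≤ 2 * H / d ^ 2 * (η * d ^ 2 / (16 * H)) :=
            mul_le_mul_of_nonneg_left h2 (by positivity)
        _ = η / 8 := by
            field_simp
            norm_num
    linarith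
  exact ⟨main x e (hK1 K (by omega)) (hK2 K (by omega)),
    main y e' (hK1' K (by omega)) (hK2' K (by omega))⟩

theorem av_complex (g : ℕ → ℝ) (K : ℕ) :
    ((av g K : ℝ) : ℂ) = (∑ k ∈ range K, ((g k : ℝ) : ℂ)) / (K : ℂ) := by
  unfold av
  push_cast
  rfl

/-- **transfer of limit laws** between two sequences with the same model -/
theorem transfer {Λ : AddSubgroup ℝ} {U : ℕ → ℝ → ℝ}
    (hU : ∀ M, (fun x => ((U M x : ℝ) : ℂ)) ∈ TP Λ) (hb : ∀ M, ∃ B : ℝ, ∀ x, |U M x| ≤ B)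
    {x y e e' : ℕ → ℝ} (hEx : Equid Λ x) (hEy : Equid Λ y) (hx : Apx U x e) (hy : Apx U y e')
    {f : ℝ → ℝ} (hf : Continuous f) {C : ℝ} (hC : ∀ z, |f z| ≤ C * (1 + z ^ 2)) {L : ℝ}
    (hL : Tendsto (av fun k => f (e' k)) atTop (𝓝 L)) :
    Tendsto (av fun k => f (e k)) atTop (𝓝 L) := by
  rw [Metric.tendsto_atTop] at hL ⊢
  intro ε hε
  obtain ⟨t, ht, K0, hK0⟩ := apx_poly hU hb hx hy hf hC (η := ε / 8) (by positivity)
  obtain ⟨ℓ, hℓ⟩ := TP_lim ht
  have h1 := hℓ x hEx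
  have h2 := hℓ y hEy
  rw [Metric.tendsto_atTop] at h1 h2
  obtain ⟨K1, hK1⟩ := h1 (ε / 8) (by positivity)
  obtain ⟨K2, hK2⟩ := h2 (ε / 8) (by positivity)
  obtain ⟨K3, hK3⟩ := hL (ε / 8) (by positivity)
  refine ⟨K0 + K1 + K2 + K3, fun K hK => ?_⟩
  obtain ⟨a1, a2⟩ := hK0 K (by omega)
  have a3 := hK1 K (by omega)
  have a4 := hK2 K (by omega)
  have a5 := hK3 K (by omega)
  have key : ∀ (x e : ℕ → ℝ), av (fun k => ‖((f (e k) : ℝ) : ℂ) - t (x k)‖) K ≤ ε / 8 →
      ‖((av (fun k => f (e k)) K : ℝ) : ℂ) - (∑ k ∈ range K, t (x k)) / (K : ℂ)‖ ≤ ε / 8 := by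
    intro x e h
    refine le_trans ?_ h
    rw [av_complex, ← sub_div, ← Finset.sum_sub_distrib, norm_div, Complex.norm_natCast]
    unfold av
    exact div_le_div_of_nonneg_right (norm_sum_le _ _) (Nat.cast_nonneg K)
  have b1 := key x e a1
  have b2 := key y e' a2
  rw [dist_eq_norm] at a3 a4
  rw [Real.dist_eq] at a5 ⊢
  have e1 : ((av (fun k => f (e k)) K - L : ℝ) : ℂ) =
      (((av (fun k => f (e k)) K : ℝ) : ℂ) - (∑ k ∈ range K, t (x k)) / (K : ℂ)) +
      ((∑ k ∈ range K, t (x k)) / (K : ℂ) - ℓ) -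
      ((∑ k ∈ range K, t (y k)) / (K : ℂ) - ℓ) -
      (((av (fun k => f (e' k)) K : ℝ) : ℂ) - (∑ k ∈ range K, t (y k)) / (K : ℂ)) +
      ((av (fun k => f (e' k)) K - L : ℝ) : ℂ) := by
    push_cast
    ring
  have e2 : |av (fun k => f (e k)) K - L| = ‖((av (fun k => f (e k)) K - L : ℝ) : ℂ)‖ := by
    rw [Complex.norm_real, Real.norm_eq_abs]
  rw [e2, e1]
  refine lt_of_le_of_lt (norm_add_le _ _) ?_
  rw [Complex.norm_real, Real.norm_eq_abs]
  have n1 := norm_sub_le ((((av (fun k => f (e k)) K : ℝ) : ℂ) -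
    (∑ k ∈ range K, t (x k)) / (K : ℂ)) + ((∑ k ∈ range K, t (x k)) / (K : ℂ) - ℓ) -
      ((∑ k ∈ range K, t (y k)) / (K : ℂ) - ℓ))
    (((av (fun k => f (e' k)) K : ℝ) : ℂ) - (∑ k ∈ range K, t (y k)) / (K : ℂ))
  have n2 := norm_sub_le ((((av (fun k => f (e k)) K : ℝ) : ℂ) -
    (∑ k ∈ range K, t (x k)) / (K : ℂ)) + ((∑ k ∈ range K, t (x k)) / (K : ℂ) - ℓ))
      ((∑ k ∈ range K, t (y k)) / (K : ℂ) - ℓ)
  have n3 := norm_add_le (((av (fun k => f (e k)) K : ℝ) : ℂ) -
    (∑ k ∈ range K, t (x k)) / (K : ℂ)) ((∑ k ∈ range K, t (x k)) / (K : ℂ) - ℓ)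
  linarith

end Pool.Agent.Q138.Met
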