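import Pool.Agent.Q138.Met.Weyl

set_option autoImplicit false

/-! # Almost periodic models along dilated separated sequences -/

namespace Pool.Agent.Q138.Met

open Filter Topology MeasureTheory Finset
open scoped ENNReal NNReal Real

/-- for almost all dilations the average of a cosine along a separated sequence is zero -/
theorem ae_cos {R : ℕ → ℝ} {δ : ℝ} (hδ : 0 < δ) (hR0 : 0 < R 0)
    (hR : ∀ k, R k + δ ≤ R (k + 1)) {lo hi : ℝ} (hab : lo ≤ hi) {θ : ℝ} (hθ : θ ≠ 0) (ψ : ℝ) :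
    ∀ᵐ t ∂(volume.restrict (Set.Icc lo hi)),
      Tendsto (fun K : ℕ => (∑ k ∈ range K, Real.cos (2 * π * (t * R k * θ) - ψ)) / K)
        atTop (𝓝 0) := by
  obtain ⟨C, hC, h⟩ := weyl_sq hδ hR0 hR hab
  have hC' : 0 ≤ C * (1 + 1 / |θ|) := by positivity
  refine ae_avg_zero (C := C * (1 + 1 / |θ|) + 1) _ (fun k => ?_) (by positivity)
    (fun k t => ?_) (fun K => ?_)
  · exact Continuous.aemeasurable (by fun_prop)
  · refine (Real.abs_cos_le_one _).trans ?_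
    have h1 : (1 : ℝ) ≤ ((k : ℝ) + 1) ^ (1 / 10 : ℝ) :=
      Real.one_le_rpow (by linarith [Nat.cast_nonneg (α := ℝ) k]) (by norm_num)
    nlinarith
  · refine lint_of_int (by fun_prop) (fun t => sq_nonneg _) hab ?_
    refine (h θ ψ hθ K (range K) (Finset.Subset.refl _)).trans ?_
    rcases Nat.eq_zero_or_pos K with rfl | hK
    · norm_num
    · have hK1 : (1 : ℝ) ≤ K := by exact_mod_cast hK
      have h2 : (K : ℝ) ^ (5 / 4 : ℝ) ≤ (K : ℝ) ^ (7 / 5 : ℝ) :=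
        Real.rpow_le_rpow_of_exponent_le hK1 (by norm_num)
      have h3 : 0 ≤ (K : ℝ) ^ (7 / 5 : ℝ) := by positivity
      have h4 := mul_le_mul_of_nonneg_left h2 hC'
      linarith

/-- the trigonometric polynomial `∑_{m ∈ s} a_m cos(2πx√m - φ)` -/
noncomputable def P (a : ℕ → ℝ) (φ : ℝ) (s : Finset ℕ) (x : ℝ) : ℝ :=
  ∑ m ∈ s, a m * Real.cos (2 * π * (x * √(m : ℝ)) - φ)

/-- the oscillating part of a product of two terms -/
noncomputable def G (φ : ℝ) (m n : ℕ) (x : ℝ) : ℝ :=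
  (if m = n then 0 else Real.cos (2 * π * (x * (√(m : ℝ) - √(n : ℝ))) - 0)) +
    Real.cos (2 * π * (x * (√(m : ℝ) + √(n : ℝ))) - 2 * φ)

theorem P_cont (a : ℕ → ℝ) (φ : ℝ) (s : Finset ℕ) : Continuous (P a φ s) := by
  unfold P
  fun_prop

theorem G_cont (φ : ℝ) (m n : ℕ) : Continuous (G φ m n) := by
  unfold G
  split_ifs
  · fun_prop
  · fun_prop

theorem P_sq (a : ℕ → ℝ) (φ : ℝ) (s : Finset ℕ) (x : ℝ) :
    P a φ s x ^ 2 - 1 / 2 * ∑ m ∈ s, a m ^ 2 =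
      ∑ p ∈ s ×ˢ s, a p.1 * a p.2 / 2 * G φ p.1 p.2 x := by
  have h1 : P a φ s x ^ 2 = ∑ p ∈ s ×ˢ s, (a p.1 * a p.2 / 2 * G φ p.1 p.2 x +
      if p.1 = p.2 then a p.1 * a p.2 / 2 else 0) := by
    unfold P
    rw [sq, Finset.sum_mul_sum, Finset.sum_product]
    refine Finset.sum_congr rfl fun m _ => Finset.sum_congr rfl fun n _ => ?_
    have h2 := Real.two_mul_cos_mul_cos (2 * π * (x * √(m : ℝ)) - φ) (2 * π * (x * √(n : ℝ)) - φ)
    have h3 : (2 * π * (x * √(m : ℝ)) - φ) - (2 * π * (x * √(n : ℝ)) - φ) =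
      2 * π * (x * (√(m : ℝ) - √(n : ℝ))) - 0 := by ring
    have h4 : (2 * π * (x * √(m : ℝ)) - φ) + (2 * π * (x * √(n : ℝ)) - φ) =
      2 * π * (x * (√(m : ℝ) + √(n : ℝ))) - 2 * φ := by ring
    rw [h3, h4] at h2
    unfold G
    by_cases hmn : m = n
    · subst hmn
      rw [if_pos rfl, if_pos rfl]
      have h5 : Real.cos (2 * π * (x * (√(m : ℝ) - √(m : ℝ))) - 0) = 1 := by
        rw [sub_self, mul_zero, mul_zero, sub_zero, Real.cos_zero]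
      rw [h5] at h2
      linear_combination (a m * a m / 2) * h2
    · rw [if_neg hmn, if_neg hmn]
      linear_combination (a m * a n / 2) * h2
  rw [h1, Finset.sum_add_distrib]
  have h6 : ∑ p ∈ s ×ˢ s, (if p.1 = p.2 then a p.1 * a p.2 / 2 else 0) =
      1 / 2 * ∑ m ∈ s, a m ^ 2 := by
    rw [Finset.sum_product, Finset.mul_sum]
    refine Finset.sum_congr rfl fun m hm => ?_
    rw [Finset.sum_ite_eq s m fun n => a m * a n / 2, if_pos hm]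
    ring
  rw [h6]
  ring

theorem abs_P_le {a : ℕ → ℝ} {A : ℝ} (hA : ∀ m, |a m| ≤ A) (φ : ℝ) (s : Finset ℕ) (x : ℝ) :
    |P a φ s x| ≤ A * s.card := by
  unfold P
  refine (Finset.abs_sum_le_sum_abs _ _).trans ?_
  have h : ∀ m ∈ s, |a m * Real.cos (2 * π * (x * √(m : ℝ)) - φ)| ≤ A := by
    intro m _
    rw [abs_mul]
    have h1 := Real.abs_cos_le_one (2 * π * (x * √(m : ℝ)) - φ)
    have h2 := hA m
    have h3 := abs_nonneg (a m)
    nlinarith [abs_nonneg (Real.cos (2 * π * (x * √(m : ℝ)) - φ))]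
  refine (Finset.sum_le_card_nsmul _ _ _ h).trans ?_
  rw [nsmul_eq_mul, mul_comm]

/-- the spacing of the square roots -/
theorem sqrt_gap {m n q : ℕ} (hm : 1 ≤ m) (hn : 1 ≤ n) (hmq : m ≤ q ^ 2) (hnq : n ≤ q ^ 2)
    (hmn : m ≠ n) : √(m : ℝ) - √(n : ℝ) ≠ 0 ∧ 1 / |√(m : ℝ) - √(n : ℝ)| ≤ 2 * q := by
  have hm0 : (0 : ℝ) < m := by exact_mod_cast hm
  have hn0 : (0 : ℝ) < n := by exact_mod_cast hn
  have hsm : 0 < √(m : ℝ) := Real.sqrt_pos.2 hm0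
  have hsn : 0 < √(n : ℝ) := Real.sqrt_pos.2 hn0
  have h1 : √(m : ℝ) ≤ q := by
    rw [Real.sqrt_le_left (Nat.cast_nonneg q)]
    exact_mod_cast hmq
  have h2 : √(n : ℝ) ≤ q := by
    rw [Real.sqrt_le_left (Nat.cast_nonneg q)]
    exact_mod_cast hnq
  have h3 : (√(m : ℝ) - √(n : ℝ)) * (√(m : ℝ) + √(n : ℝ)) = m - n := by
    have e1 := Real.sq_sqrt hm0.le
    have e2 := Real.sq_sqrt hn0.le
    linear_combination e1 - e2
  have h4 : (1 : ℝ) ≤ |(m : ℝ) - n| := by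
    have h5 : (1 : ℤ) ≤ |(m : ℤ) - n| := Int.one_le_abs (sub_ne_zero.2 (by exact_mod_cast hmn))
    exact_mod_cast h5
  rw [← h3, abs_mul, abs_of_pos (by linarith : 0 < √(m : ℝ) + √(n : ℝ))] at h4
  have h6 : 0 < |√(m : ℝ) - √(n : ℝ)| := by
    rcases (abs_nonneg (√(m : ℝ) - √(n : ℝ))).eq_or_lt with h | h
    · rw [← h, zero_mul] at h4
      linarith
    · exact h
  refine ⟨abs_pos.1 h6, ?_⟩
  rw [div_le_iff₀ h6]
  nlinarith

/-- the cut-off `⌈(k+1)^(1/100)⌉` -/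
noncomputable def mk (k : ℕ) : ℕ := ⌈((k : ℝ) + 1) ^ (1 / 100 : ℝ)⌉₊

theorem mk_pos (k : ℕ) : 1 ≤ mk k := by
  unfold mk
  rw [Nat.one_le_ceil_iff]
  positivity

theorem mk_mono : Monotone mk := by
  intro k l h
  unfold mk
  apply Nat.ceil_mono
  apply Real.rpow_le_rpow (by positivity) _ (by norm_num)
  have : (k : ℝ) ≤ l := by exact_mod_cast h
  linarith

theorem mk_ge (k : ℕ) : ((k : ℝ) + 1) ^ (1 / 100 : ℝ) ≤ mk k := Nat.le_ceil _

theorem mk_le (k : ℕ) : (mk k : ℝ) ≤ 2 * ((k : ℝ) + 1) ^ (1 / 100 : ℝ) := by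
  have h1 : (1 : ℝ) ≤ ((k : ℝ) + 1) ^ (1 / 100 : ℝ) :=
    Real.one_le_rpow (by linarith [Nat.cast_nonneg (α := ℝ) k]) (by norm_num)
  have h2 := (Nat.ceil_lt_add_one (a := ((k : ℝ) + 1) ^ (1 / 100 : ℝ)) (by positivity)).le
  unfold mk
  linarith

theorem mk_pow_le (k n : ℕ) : (mk k : ℝ) ^ n ≤ 2 ^ n * ((k : ℝ) + 1) ^ ((n : ℝ) / 100) := by
  have h1 := pow_le_pow_left₀ (Nat.cast_nonneg _) (mk_le k) n
  refine h1.trans (le_of_eq ?_)
  rw [mul_pow]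
  congr 1
  rw [← Real.rpow_natCast, ← Real.rpow_mul (by positivity)]
  congr 1
  ring

theorem mk_tendsto : Tendsto mk atTop atTop := by
  have h1 : Tendsto (fun k : ℕ => ((k : ℝ) + 1) ^ (1 / 100 : ℝ)) atTop atTop :=
    (tendsto_rpow_atTop (by norm_num)).comp
      (tendsto_atTop_add_const_right _ _ tendsto_natCast_atTop_atTop)
  have h2 : Tendsto (fun k : ℕ => (mk k : ℝ)) atTop atTop :=
    tendsto_atTop_mono mk_ge h1
  exact tendsto_natCast_atTop_iff.1 h2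

/-- the centred squares of the tails of the model -/
noncomputable def Xt (a : ℕ → ℝ) (φ : ℝ) (R : ℕ → ℝ) (M k : ℕ) (t : ℝ) : ℝ :=
  P a φ (Ioc (M ^ 2) (mk k ^ 2)) (t * R k) ^ 2 - 1 / 2 * ∑ m ∈ Ioc (M ^ 2) (mk k ^ 2), a m ^ 2

theorem Xt_cont (a : ℕ → ℝ) (φ : ℝ) (R : ℕ → ℝ) (M k : ℕ) : Continuous (Xt a φ R M k) := by
  unfold Xt
  have := (P_cont a φ (Ioc (M ^ 2) (mk k ^ 2))).comp (continuous_id.mul_const (R k))
  simp only [Function.comp_def, id] at this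
  fun_prop

theorem Xt_bound {a : ℕ → ℝ} {A : ℝ} (hA : ∀ m, |a m| ≤ A) (φ : ℝ) (R : ℕ → ℝ) (M k : ℕ)
    (t : ℝ) : |Xt a φ R M k t| ≤ 32 * A ^ 2 * ((k : ℝ) + 1) ^ (1 / 10 : ℝ) := by
  have hA0 : 0 ≤ A := (abs_nonneg (a 0)).trans (hA 0)
  set s := Ioc (M ^ 2) (mk k ^ 2) with hs
  have hcard : (s.card : ℝ) ≤ (mk k : ℝ) ^ 2 := by
    have : s.card ≤ mk k ^ 2 := by
      rw [hs, Nat.card_Ioc]
      omega
    exact_mod_cast this
  have hmk1 : (1 : ℝ) ≤ mk k := by exact_mod_cast mk_pos k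
  have h1 : P a φ s (t * R k) ^ 2 ≤ A ^ 2 * (mk k : ℝ) ^ 4 := by
    rw [← sq_abs]
    have h2 := abs_P_le hA φ s (t * R k)
    have h3 : A * s.card ≤ A * (mk k : ℝ) ^ 2 := mul_le_mul_of_nonneg_left hcard hA0
    calc |P a φ s (t * R k)| ^ 2 ≤ (A * (mk k : ℝ) ^ 2) ^ 2 :=
          pow_le_pow_left₀ (abs_nonneg _) (h2.trans h3) 2
      _ = A ^ 2 * (mk k : ℝ) ^ 4 := by ring
  have h4 : 1 / 2 * ∑ m ∈ s, a m ^ 2 ≤ A ^ 2 * (mk k : ℝ) ^ 4 := by
    have h5 : ∑ m ∈ s, a m ^ 2 ≤ s.card * A ^ 2 := by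
      have : ∀ m ∈ s, a m ^ 2 ≤ A ^ 2 := fun m _ => by
        rw [← sq_abs]
        exact pow_le_pow_left₀ (abs_nonneg _) (hA m) 2
      refine (Finset.sum_le_card_nsmul _ _ _ this).trans ?_
      rw [nsmul_eq_mul]
    have h6 : (mk k : ℝ) ^ 2 ≤ (mk k : ℝ) ^ 4 := pow_le_pow_right₀ hmk1 (by norm_num)
    have h7 : (s.card : ℝ) * A ^ 2 ≤ (mk k : ℝ) ^ 4 * A ^ 2 :=
      mul_le_mul_of_nonneg_right (hcard.trans h6) (sq_nonneg A)
    have h8 : 0 ≤ (mk k : ℝ) ^ 4 * A ^ 2 := by positivity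
    linarith
  have h9 : 0 ≤ 1 / 2 * ∑ m ∈ s, a m ^ 2 :=
    mul_nonneg (by norm_num) (Finset.sum_nonneg fun m _ => sq_nonneg _)
  have h10 : |Xt a φ R M k t| ≤ A ^ 2 * (mk k : ℝ) ^ 4 * 2 := by
    unfold Xt
    rw [abs_le]
    have h11 := sq_nonneg (P a φ s (t * R k))
    have h12 : 0 ≤ A ^ 2 * (mk k : ℝ) ^ 4 := by positivity
    constructor <;> linarith
  refine h10.trans ?_
  have h13 := mk_pow_le k 4
  have h14 : ((k : ℝ) + 1) ^ (((4 : ℕ) : ℝ) / 100) ≤ ((k : ℝ) + 1) ^ (1 / 10 : ℝ) := by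
    apply Real.rpow_le_rpow_of_exponent_le (by linarith [Nat.cast_nonneg (α := ℝ) k])
    norm_num
  calc A ^ 2 * (mk k : ℝ) ^ 4 * 2 ≤ A ^ 2 * (2 ^ 4 * ((k : ℝ) + 1) ^ (1 / 10 : ℝ)) * 2 := by
        gcongr
        exact h13.trans (mul_le_mul_of_nonneg_left h14 (by norm_num))
    _ = _ := by ring

theorem Xt_var {a : ℕ → ℝ} {A : ℝ} (hA : ∀ m, |a m| ≤ A) (φ : ℝ) {R : ℕ → ℝ} {δ : ℝ}
    (hδ : 0 < δ) (hR0 : 0 < R 0) (hR : ∀ k, R k + δ ≤ R (k + 1)) {lo hi : ℝ} (hab : lo ≤ hi)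
    (M : ℕ) : ∃ C : ℝ, 0 ≤ C ∧ ∀ K : ℕ,
      ∫ t in lo..hi, (∑ k ∈ range K, Xt a φ R M k t) ^ 2 ≤ C * (K : ℝ) ^ (7 / 5 : ℝ) := by
  obtain ⟨C, hC, hW⟩ := weyl_sq hδ hR0 hR hab
  have hA0 : 0 ≤ A := (abs_nonneg (a 0)).trans (hA 0)
  refine ⟨3 * A ^ 4 * C * 2 ^ 9, by positivity, ?_⟩
  intro K
  rcases Nat.eq_zero_or_pos K with rfl | hK
  · norm_num
  have hK0 : (0 : ℝ) < K := by exact_mod_cast hK
  have hK1 : (1 : ℝ) ≤ K := by exact_mod_cast hK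
  set q := mk (K - 1) with hq
  have hq1 : 1 ≤ q := mk_pos _
  have hq1' : (1 : ℝ) ≤ q := by exact_mod_cast hq1
  have hqb : (q : ℝ) ^ 9 ≤ 2 ^ 9 * (K : ℝ) ^ (9 / 100 : ℝ) := by
    have h1 := mk_pow_le (K - 1) 9
    have h2 : ((K - 1 : ℕ) : ℝ) + 1 = K := by
      rw [Nat.cast_sub hK]
      push_cast
      ring
    rw [h2] at h1
    exact_mod_cast h1
  set s' := Ioc (M ^ 2) (q ^ 2) with hs'
  have hsub : ∀ k ∈ range K, Ioc (M ^ 2) (mk k ^ 2) ⊆ s' := by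
    intro k hk
    rw [mem_range] at hk
    have : mk k ≤ q := mk_mono (by omega)
    exact Finset.Ioc_subset_Ioc_right (Nat.pow_le_pow_left this 2)
  set I := s' ×ˢ s' with hI
  have hcard : (I.card : ℝ) ≤ (q : ℝ) ^ 4 := by
    have h1 : s'.card ≤ q ^ 2 := by
      rw [hs', Nat.card_Ioc]
      omega
    have h2 : I.card ≤ q ^ 2 * q ^ 2 := by
      rw [hI, card_product]
      exact Nat.mul_le_mul h1 h1
    calc (I.card : ℝ) ≤ ((q ^ 2 * q ^ 2 : ℕ) : ℝ) := by exact_mod_cast h2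
      _ = (q : ℝ) ^ 4 := by push_cast; ring
  set κ : ℕ × ℕ → Finset ℕ := fun p => (range K).filter fun k =>
    p.1 ∈ Ioc (M ^ 2) (mk k ^ 2) ∧ p.2 ∈ Ioc (M ^ 2) (mk k ^ 2) with hκ
  set F : ℕ × ℕ → ℝ → ℝ := fun p t => ∑ k ∈ κ p, G φ p.1 p.2 (t * R k) with hF
  have hsum : ∀ t, ∑ k ∈ range K, Xt a φ R M k t = ∑ p ∈ I, a p.1 * a p.2 / 2 * F p t := by
    intro t
    have e1 : ∀ k ∈ range K, Xt a φ R M k t = ∑ p ∈ I,
        if p.1 ∈ Ioc (M ^ 2) (mk k ^ 2) ∧ p.2 ∈ Ioc (M ^ 2) (mk k ^ 2) then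
          a p.1 * a p.2 / 2 * G φ p.1 p.2 (t * R k) else 0 := by
      intro k hk
      unfold Xt
      rw [P_sq, ← Finset.sum_filter]
      refine Finset.sum_congr ?_ fun _ _ => rfl
      ext p
      rw [mem_filter, mem_product, hI, mem_product]
      constructor
      · intro h
        exact ⟨⟨hsub k hk h.1, hsub k hk h.2⟩, h⟩
      · intro h
        exact h.2
    rw [Finset.sum_congr rfl e1, Finset.sum_comm]
    refine Finset.sum_congr rfl fun p _ => ?_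
    rw [← Finset.sum_filter, hF]
    simp only
    rw [Finset.mul_sum]
  have hFc : ∀ p, Continuous (F p) := by
    intro p
    simp only [hF]
    refine continuous_finsetSum _ fun k _ => ?_
    exact (G_cont φ p.1 p.2).comp (continuous_id.mul_const (R k))
  have hFsq : ∀ p ∈ I, ∫ t in lo..hi, F p t ^ 2 ≤ 12 * C * q * (K : ℝ) ^ (5 / 4 : ℝ) := by
    intro p hp
    rw [hI, mem_product, hs', mem_Ioc, mem_Ioc] at hp
    obtain ⟨⟨p1, p2⟩, ⟨p3, p4⟩⟩ := hp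
    have hm1 : 1 ≤ p.1 := by omega
    have hn1 : 1 ≤ p.2 := by omega
    have hm0 : (1 : ℝ) ≤ p.1 := by exact_mod_cast hm1
    have hn0 : (1 : ℝ) ≤ p.2 := by exact_mod_cast hn1
    have hsm : 1 ≤ √(p.1 : ℝ) := Real.one_le_sqrt.2 hm0
    have hsn : 1 ≤ √(p.2 : ℝ) := Real.one_le_sqrt.2 hn0
    have hκs : κ p ⊆ range K := Finset.filter_subset _ _
    set F1 : ℝ → ℝ := fun t => ∑ k ∈ κ p, (if p.1 = p.2 then 0 else
      Real.cos (2 * π * (t * R k * (√(p.1 : ℝ) - √(p.2 : ℝ))) - 0)) with hF1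
    set F2 : ℝ → ℝ := fun t => ∑ k ∈ κ p,
      Real.cos (2 * π * (t * R k * (√(p.1 : ℝ) + √(p.2 : ℝ))) - 2 * φ) with hF2
    have hF1c : Continuous F1 := by
      simp only [hF1]
      refine continuous_finsetSum _ fun k _ => ?_
      split_ifs
      · fun_prop
      · fun_prop
    have hF2c : Continuous F2 := by
      simp only [hF2]
      fun_prop
    have hle : ∀ t, F p t ^ 2 ≤ 2 * F1 t ^ 2 + 2 * F2 t ^ 2 := by
      intro t
      have : F p t = F1 t + F2 t := by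
        simp only [hF, hF1, hF2, G]
        rw [← Finset.sum_add_distrib]
      rw [this]
      nlinarith [sq_nonneg (F1 t - F2 t)]
    have hKp : 0 ≤ (K : ℝ) ^ (5 / 4 : ℝ) := by positivity
    have hi1 : ∫ t in lo..hi, F1 t ^ 2 ≤ 3 * C * q * (K : ℝ) ^ (5 / 4 : ℝ) := by
      by_cases hmn : p.1 = p.2
      · simp only [hF1, if_pos hmn, Finset.sum_const_zero]
        norm_num
        positivity
      · obtain ⟨g1, g2⟩ := sqrt_gap hm1 hn1 p2 p4 hmn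
        have h1 := hW (√(p.1 : ℝ) - √(p.2 : ℝ)) 0 g1 K (κ p) hκs
        simp only [hF1, if_neg hmn]
        refine h1.trans ?_
        apply mul_le_mul_of_nonneg_right _ hKp
        nlinarith
    have hi2 : ∫ t in lo..hi, F2 t ^ 2 ≤ 3 * C * q * (K : ℝ) ^ (5 / 4 : ℝ) := by
      have g1 : √(p.1 : ℝ) + √(p.2 : ℝ) ≠ 0 := by linarith
      have h1 := hW (√(p.1 : ℝ) + √(p.2 : ℝ)) (2 * φ) g1 K (κ p) hκs
      refine h1.trans ?_
      apply mul_le_mul_of_nonneg_right _ hKp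
      have g2 : 1 / |√(p.1 : ℝ) + √(p.2 : ℝ)| ≤ 1 := by
        rw [div_le_one (by rw [abs_of_pos] <;> linarith)]
        exact le_trans (by linarith) (le_abs_self _)
      nlinarith
    have h2 : ∫ t in lo..hi, F p t ^ 2 ≤ ∫ t in lo..hi, (2 * F1 t ^ 2 + 2 * F2 t ^ 2) := by
      apply intervalIntegral.integral_mono_on hab
      · exact ((hFc p).pow 2).intervalIntegrable _ _
      · exact Continuous.intervalIntegrable (by fun_prop) _ _
      · intro t _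
        exact hle t
    rw [intervalIntegral.integral_add (Continuous.intervalIntegrable (by fun_prop) _ _)
      (Continuous.intervalIntegrable (by fun_prop) _ _),
      intervalIntegral.integral_const_mul, intervalIntegral.integral_const_mul] at h2
    linarith
  have hpt : ∀ t, (∑ k ∈ range K, Xt a φ R M k t) ^ 2 ≤
      ∑ p ∈ I, (q : ℝ) ^ 4 * (A ^ 4 / 4) * F p t ^ 2 := by
    intro t
    rw [hsum t]
    have h1 := sq_sum_le_card_mul_sum_sq (s := I) (f := fun p => a p.1 * a p.2 / 2 * F p t)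
    refine h1.trans ?_
    rw [Finset.mul_sum]
    refine Finset.sum_le_sum fun p _ => ?_
    have h2 : (a p.1 * a p.2 / 2) ^ 2 ≤ A ^ 4 / 4 := by
      have h3 : (a p.1) ^ 2 ≤ A ^ 2 := by
        rw [← sq_abs]
        exact pow_le_pow_left₀ (abs_nonneg _) (hA _) 2
      have h4 : (a p.2) ^ 2 ≤ A ^ 2 := by
        rw [← sq_abs]
        exact pow_le_pow_left₀ (abs_nonneg _) (hA _) 2
      have h5 : (a p.1) ^ 2 * (a p.2) ^ 2 ≤ A ^ 2 * A ^ 2 :=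
        mul_le_mul h3 h4 (sq_nonneg _) (sq_nonneg _)
      nlinarith
    rw [mul_pow]
    calc (I.card : ℝ) * ((a p.1 * a p.2 / 2) ^ 2 * F p t ^ 2) ≤
        (q : ℝ) ^ 4 * (A ^ 4 / 4 * F p t ^ 2) := by
          apply mul_le_mul hcard _ _ (by positivity)
          · exact mul_le_mul_of_nonneg_right h2 (sq_nonneg _)
          · positivity
      _ = _ := by ring
  have hXc : Continuous fun t => (∑ k ∈ range K, Xt a φ R M k t) ^ 2 :=
    (continuous_finsetSum _ fun k _ => Xt_cont a φ R M k).pow 2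
  have h3 : ∫ t in lo..hi, (∑ k ∈ range K, Xt a φ R M k t) ^ 2 ≤
      ∫ t in lo..hi, ∑ p ∈ I, (q : ℝ) ^ 4 * (A ^ 4 / 4) * F p t ^ 2 := by
    apply intervalIntegral.integral_mono_on hab
    · exact hXc.intervalIntegrable _ _
    · exact Continuous.intervalIntegrable
        (continuous_finsetSum _ fun p _ => ((hFc p).pow 2).const_mul _) _ _
    · intro t _
      exact hpt t
  have h3' : ∫ t in lo..hi, ∑ p ∈ I, (q : ℝ) ^ 4 * (A ^ 4 / 4) * F p t ^ 2 =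
      ∑ p ∈ I, (q : ℝ) ^ 4 * (A ^ 4 / 4) * ∫ t in lo..hi, F p t ^ 2 := by
    rw [intervalIntegral.integral_finsetSum]
    · simp only [intervalIntegral.integral_const_mul]
    · intro p _
      exact Continuous.intervalIntegrable (((hFc p).pow 2).const_mul _) _ _
  rw [h3'] at h3
  refine h3.trans ?_
  have h4 : ∑ p ∈ I, (q : ℝ) ^ 4 * (A ^ 4 / 4) * ∫ t in lo..hi, F p t ^ 2 ≤
      (I.card : ℝ) * ((q : ℝ) ^ 4 * (A ^ 4 / 4) * (12 * C * q * (K : ℝ) ^ (5 / 4 : ℝ))) := by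
    rw [← nsmul_eq_mul]
    apply Finset.sum_le_card_nsmul
    intro p hp
    exact mul_le_mul_of_nonneg_left (hFsq p hp) (by positivity)
  refine h4.trans ?_
  have h5 : (I.card : ℝ) * ((q : ℝ) ^ 4 * (A ^ 4 / 4) * (12 * C * q * (K : ℝ) ^ (5 / 4 : ℝ))) ≤
      (q : ℝ) ^ 4 * ((q : ℝ) ^ 4 * (A ^ 4 / 4) * (12 * C * q * (K : ℝ) ^ (5 / 4 : ℝ))) :=
    mul_le_mul_of_nonneg_right hcard (by positivity)
  refine h5.trans ?_
  have h6 : (K : ℝ) ^ (9 / 100 : ℝ) * (K : ℝ) ^ (5 / 4 : ℝ) ≤ (K : ℝ) ^ (7 / 5 : ℝ) := by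
    rw [← Real.rpow_add hK0]
    exact Real.rpow_le_rpow_of_exponent_le hK1 (by norm_num)
  calc (q : ℝ) ^ 4 * ((q : ℝ) ^ 4 * (A ^ 4 / 4) * (12 * C * q * (K : ℝ) ^ (5 / 4 : ℝ))) =
      3 * A ^ 4 * C * ((q : ℝ) ^ 9 * (K : ℝ) ^ (5 / 4 : ℝ)) := by ring
    _ ≤ 3 * A ^ 4 * C * ((2 ^ 9 * (K : ℝ) ^ (9 / 100 : ℝ)) * (K : ℝ) ^ (5 / 4 : ℝ)) := by
        gcongr
    _ = 3 * A ^ 4 * C * 2 ^ 9 * ((K : ℝ) ^ (9 / 100 : ℝ) * (K : ℝ) ^ (5 / 4 : ℝ)) := by ring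
    _ ≤ 3 * A ^ 4 * C * 2 ^ 9 * (K : ℝ) ^ (7 / 5 : ℝ) := by
        apply mul_le_mul_of_nonneg_left h6 (by positivity)

/-- the tails of the model along a dilated separated sequence -/
theorem ae_tail {a : ℕ → ℝ} {A : ℝ} (hA : ∀ m, |a m| ≤ A) (φ : ℝ) {R : ℕ → ℝ} {δ : ℝ}
    (hδ : 0 < δ) (hR0 : 0 < R 0) (hR : ∀ k, R k + δ ≤ R (k + 1)) {lo hi : ℝ} (hab : lo ≤ hi)
    (M : ℕ) : ∀ᵐ t ∂(volume.restrict (Set.Icc lo hi)),
      Tendsto (fun K : ℕ => (∑ k ∈ range K, Xt a φ R M k t) / K) atTop (𝓝 0) := by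
  obtain ⟨C, hC, h⟩ := Xt_var hA φ hδ hR0 hR hab M
  refine ae_avg_zero (C := C + 32 * A ^ 2) _ (fun k => ?_) (by positivity)
    (fun k t => ?_) (fun K => ?_)
  · exact (Xt_cont a φ R M k).aemeasurable
  · refine (Xt_bound hA φ R M k t).trans ?_
    apply mul_le_mul_of_nonneg_right _ (by positivity)
    linarith
  · refine lint_of_int ((continuous_finsetSum _ fun k _ => Xt_cont a φ R M k).pow 2)
      (fun t => sq_nonneg _) hab ((h K).trans ?_)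
    apply mul_le_mul_of_nonneg_right _ (by positivity)
    have : 0 ≤ 32 * A ^ 2 := by positivity
    linarith

end Pool.Agent.Q138.Met
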