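import Pool.Agent.Q138.Met.SqVar
import Pool.Agent.Y969.NF.C

set_option autoImplicit false

/-! # Partial sums of newforms along almost all dilations -/

namespace Pool.Agent.Q138.Met

open Filter Topology MeasureTheory
open Finset hiding card
open UpperHalfPlane MatrixGroups CongruenceSubgroup
open Pool.Agent.TH940.NV

/-- the law and the dilations, for newforms -/
theorem nf_dil (N : ℕ) [NeZero N] (k : ℤ) (hk : 1 ≤ k)
    (f g : CuspForm (Gamma1 N : Subgroup (GL (Fin 2) ℝ)) k) (η : ℂ) (lam : ℕ → ℂ)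
    (h : FormData N k f g η lam) (w : ℂ) (E : ℝ → ℝ)
    (hE : ∀ x : ℝ, E x = (w * ∑ j ∈ Icc 1 ⌊x⌋₊, lam j).re / x ^ (1 / 4 : ℝ)) :
    ∃ ν : ProbabilityMeasure ℝ,
      (Integrable (fun x : ℝ => x ^ 2) (ν : Measure ℝ) ∧ ∫ x, x ∂(ν : Measure ℝ) = 0 ∧
        (Summable fun l : ℕ => (w * η * (starRingEnd ℂ) (lam l)).re ^ 2 / (l : ℝ) ^ (3 / 2 : ℝ)) ∧
        ∫ x, x ^ 2 ∂(ν : Measure ℝ) = √(N : ℝ) / (4 * Real.pi ^ 2) *
          ∑' l : ℕ, (w * η * (starRingEnd ℂ) (lam l)).re ^ 2 / (l : ℝ) ^ (3 / 2 : ℝ)) ∧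
      ∀ (u : ℕ → ℝ) (δ : ℝ), 0 < δ → 0 < u 0 → (∀ k, √(u k) + δ ≤ √(u (k + 1))) →
        ∀ᵐ t : ℝ, 0 < t →
          (∀ F : ℝ → ℝ, Continuous F → (∃ C : ℝ, ∀ z, |F z| ≤ C * (1 + z ^ 2)) →
            Tendsto (fun K : ℕ => (∑ k ∈ range K, F (E (t * u k))) / K) atTop
              (𝓝 (∫ z, F z ∂(ν : Measure ℝ)))) ∧
          ∀ A : Set ℝ, (ν : Measure ℝ) (frontier A) = 0 →
            Tendsto (fun K : ℕ => ({k : ℕ | k < K ∧ E (t * u k) ∈ A}.ncard : ℝ) / K)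
              atTop (𝓝 ((ν : Measure ℝ).real A)) := by
  have hN0 : (0 : ℝ) < N := Nat.cast_pos.2 (Nat.pos_of_ne_zero (NeZero.ne N))
  have hsN : 0 < √(N : ℝ) := Real.sqrt_pos.2 hN0
  obtain ⟨μ, m1, m2, m3, m4⟩ := Pool.Agent.Results.MP_a009d0_nt.LinearArguments.result
    (fun _ : Fin 1 => N) (fun _ => k) (fun _ => hk) (fun _ => f) (fun _ => g) (fun _ => η)
    (fun _ => lam) (fun _ => h) (fun _ => w) (fun _ => 1) (fun _ => one_pos)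
  have hmeas : Measurable fun x : Fin 1 → ℝ => x 0 := measurable_pi_apply 0
  set ν : ProbabilityMeasure ℝ := μ.map hmeas.aemeasurable with hν
  have hm2 : (μ : Measure (Fin 1 → ℝ)).map (fun x => x 0) = (ν : Measure ℝ) := rfl
  have hint2 : Integrable (fun x : ℝ => x ^ 2) (ν : Measure ℝ) := by
    rw [← hm2, integrable_map_measure (by fun_prop) hmeas.aemeasurable]
    refine m1.congr (Eventually.of_forall fun x => ?_)
    simp
  have hmean : ∫ x, x ∂(ν : Measure ℝ) = 0 := by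
    rw [← hm2, integral_map hmeas.aemeasurable (by fun_prop)]
    exact m2 0
  have hterm : ∀ l : ℕ, (w * η * (starRingEnd ℂ) (lam (1 * l))).re *
      (w * η * (starRingEnd ℂ) (lam (1 * l))).re /
        ((((1 : ℕ) : ℝ)) * ((1 : ℕ) : ℝ) * (l : ℝ) ^ 2) ^ (3 / 4 : ℝ) =
      (w * η * (starRingEnd ℂ) (lam l)).re ^ 2 / (l : ℝ) ^ (3 / 2 : ℝ) := by
    intro l
    rw [one_mul, Nat.cast_one, one_mul, one_mul, ← sq, ← Real.rpow_natCast (l : ℝ) 2,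
      ← Real.rpow_mul (Nat.cast_nonneg l)]
    norm_num
  obtain ⟨s1, s2⟩ := m3 0 0 1 1 one_pos one_pos (Nat.coprime_one_left 1) rfl
  simp only [hterm] at s1 s2
  refine ⟨ν, ⟨hint2, hmean, s1, ?_⟩, fun u δ hδ hu0 hu => ?_⟩
  · rw [← hm2, integral_map hmeas.aemeasurable (by fun_prop)]
    have h3 : (fun x : Fin 1 → ℝ => x 0 ^ 2) = fun x => x 0 * x 0 := by
      funext x
      ring
    rw [h3, s2, sub_self, zero_mul, Real.cos_zero, mul_one]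
    congr 2
    rw [← sq, ← Real.rpow_natCast (N : ℝ) 2, ← Real.rpow_mul hN0.le, Real.sqrt_eq_rpow]
    norm_num
  have hev : ∀ (n : ℕ) (i : Fin 1), (fun (n : ℕ) (_ : Fin 1) => E n) n i =
      (w * ∑ j ∈ Finset.Icc 1 (1 * n + 0), lam j).re / ((1 * n + 0 : ℕ) : ℝ) ^ (1 / 4 : ℝ) := by
    intro n i
    simp only [hE, one_mul, add_zero, Nat.floor_natCast]
  obtain ⟨m5, -⟩ := m4 (fun _ => 0) (fun n _ => E n) hev
  have hlaw : ∀ F : ℝ → ℝ, Continuous F → (∃ C : ℝ, ∀ z, |F z| ≤ C * (1 + z ^ 2)) →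
      Tendsto (av fun k : ℕ => F (E ((k : ℝ) + 1))) atTop
        (𝓝 (∫ z, F z ∂(ν : Measure ℝ))) := by
    intro F hF hC
    refine law_int hm2 (fun F hF hFC η hη => ?_) hF hC
    obtain ⟨N0, hN0⟩ := m5 F hF hFC η hη
    refine ⟨N0, fun N hN => ?_⟩
    have h1 := (hN0 N hN 0).1 (fun _ => 1) (fun n => by simp) (fun m n _ => by simp)
    simp only [one_mul, Complex.ofReal_zero, zero_mul, mul_zero, Complex.exp_zero,
      ← Complex.ofReal_sum, Complex.norm_real, Real.norm_eq_abs] at h1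
    exact h1
  have hpos : ∀ k, 0 < u k := by
    intro k
    induction k with
    | zero => exact hu0
    | succ k ih =>
      have h1 := hu k
      have h2 : 0 < √(u k) := Real.sqrt_pos.2 ih
      exact Real.sqrt_pos.1 (by linarith)
  have hFm : Measurable fun x : ℝ => (w * ∑ j ∈ Icc 1 ⌊x⌋₊, lam j).re := by
    have h1 : Measurable fun n : ℕ => (w * ∑ j ∈ Icc 1 n, lam j).re := measurable_from_nat
    exact h1.comp Nat.measurable_floor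
  have hmain := final (E := En (lre w lam) (2 / √(N : ℝ)))
    (F := fun x : ℝ => (w * ∑ j ∈ Icc 1 ⌊x⌋₊, lam j).re)
    (Ex := E) (c := 2 / √(N : ℝ)) (h.Bdw hk w) (af_zero w η N k lam) wq_Wt (h.sandW hk w)
    (by positivity) hFm (fun n hn y h1 h2 => by
      have hfl : ⌊y⌋₊ = n := by
        rw [Nat.floor_eq_iff (by have : (0 : ℝ) ≤ n := Nat.cast_nonneg n; linarith)]
        exact ⟨h1, h2⟩
      simp only [hfl, Nat.floor_natCast, sub_self, abs_zero]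
      have : 0 ≤ Real.log n := Real.log_natCast_nonneg n
      linarith) hE (fun n hn => by
      have hn0 : (0 : ℝ) < n := by exact_mod_cast hn
      rw [E_quad N w lam hn0, hE])
    hlaw hδ (R := fun k => √(u k)) (Real.sqrt_pos.2 hu0) hu
  apply ae_sq (q := fun t => (∀ F : ℝ → ℝ, Continuous F → (∃ C : ℝ, ∀ z, |F z| ≤ C * (1 + z ^ 2)) →
          Tendsto (fun K : ℕ => (∑ k ∈ range K, F (E (t * u k))) / K) atTop
            (𝓝 (∫ z, F z ∂(ν : Measure ℝ)))) ∧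
        ∀ A : Set ℝ, (ν : Measure ℝ) (frontier A) = 0 →
          Tendsto (fun K : ℕ => ({k : ℕ | k < K ∧ E (t * u k) ∈ A}.ncard : ℝ) / K)
            atTop (𝓝 ((ν : Measure ℝ).real A)))
  filter_upwards [hmain] with t ht h0
  have e : ∀ k, (t * √(u k)) ^ 2 = t ^ 2 * u k := by
    intro k
    rw [mul_pow, Real.sq_sqrt (hpos k).le]
  have h12 := ht h0
  simp only [e] at h12
  exact h12

open Classical in
theorem hits_of {E : ℝ → ℝ} {c : ℝ}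
    (h : ∀ ε : ℝ, 0 < ε → ε ≤ c → ∃ C : ℝ, 0 < C ∧
      ∀ K H : ℕ, 1 ≤ K → (K : ℝ) ^ (1 / 2 + 1 / 2 : ℝ) ≤ H →
      (((Finset.Ico K (K + H)).filter (fun n : ℕ =>
          ∃ y : ℝ, (n : ℝ) ≤ y ∧ y < n + 1 ∧ y ^ ε < |E y|)).card : ℝ)
        ≤ C * (H : ℝ) ^ (1 - c * (ε * Real.log (1 / ε)))) (ε : ℝ) (hε : 0 < ε) (hεc : ε ≤ c) :
    ∃ C : ℝ, 0 < C ∧
      ∀ N : ℕ, 1 ≤ N → ((hits (fun y => y ^ ε < |E y|) N).card : ℝ) ≤
        C * (N : ℝ) ^ (1 - c * (ε * Real.log (1 / ε))) := by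
  obtain ⟨C, hC, h1⟩ := h ε hε hεc
  refine ⟨C, hC, fun N hN => ?_⟩
  refine le_trans ?_ (h1 1 N le_rfl ?_)
  · apply Nat.cast_le.2
    apply Finset.card_le_card
    intro n hn
    rw [mem_hits] at hn
    rw [Finset.mem_filter, Finset.mem_Ico]
    exact ⟨⟨hn.1.1, by omega⟩, hn.2⟩
  · rw [Nat.cast_one, Real.one_rpow]
    exact_mod_cast hN

/-- the metric bounds, for newforms -/
theorem nf_bounds : ∃ c : ℝ, 0 < c ∧ ∀ (N : ℕ) [NeZero N] (k : ℤ), 1 ≤ k →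
    ∀ (f g : CuspForm (Gamma1 N : Subgroup (GL (Fin 2) ℝ)) k) (η : ℂ) (lam : ℕ → ℂ),
    FormData N k f g η lam → ∀ E : ℝ → ℝ,
    (∀ x : ℝ, E x = ‖∑ j ∈ Icc 1 ⌊x⌋₊, lam j‖ / x ^ (1 / 4 : ℝ)) →
    (∀ u : ℕ → ℝ, (∀ k, 0 < u k) → (∀ A : ℝ, ∀ᶠ k : ℕ in atTop, (k : ℝ) ^ A ≤ u k) →
      ∀ᵐ t : ℝ, 0 < t → ∀ B η : ℝ, 0 < η → ∀ᶠ k : ℕ in atTop, ∀ x : ℝ, t * u k ≤ x →
        x ≤ t * u k + (k : ℝ) ^ B → E x ≤ (k : ℝ) ^ η) ∧
    ∀ ε : ℝ, 0 < ε → ε ≤ c → ∀ κ : ℝ, κ = c * (ε * Real.log (1 / ε)) →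
      ∀ lam : ℝ, 0 ≤ lam → lam ≤ 1 → ∀ u : ℕ → ℝ, (∀ k, 0 < u k) →
      ∀ T : Set ℝ, T = {t : ℝ | 0 < t ∧ ∃ᶠ k in atTop, ∃ x : ℝ, t * u k ≤ x ∧
        x ≤ t * u k + (u k) ^ lam ∧ x ^ ε < E x} →
      (∀ s : ℝ, 1 - κ + lam < s → (Summable fun k => (u k) ^ (1 - κ + lam - s)) →
        μH[s] T = 0) ∧
      ((∀ A : ℝ, ∀ᶠ k : ℕ in atTop, (k : ℝ) ^ A ≤ u k) →
        dimH T ≤ ENNReal.ofReal (1 - κ + lam)) := by
  classical
  obtain ⟨c₁, hc₁, h1⟩ := Pool.Agent.Y969.NF.nf_exc_win (δ := 1 / 2) (by norm_num)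
  have hc : 0 < min c₁ (1 / 2) := lt_min hc₁ (by norm_num)
  refine ⟨min c₁ (1 / 2), hc, ?_⟩
  intro N _ k hk f g η lam h E hE
  have hEabs : ∀ x : ℝ, 0 ≤ x → |E x| = E x := by
    intro x hx
    apply abs_of_nonneg
    rw [hE]
    positivity
  have hexc : ∀ ε : ℝ, 0 < ε → ε ≤ min c₁ (1 / 2) → ∃ C : ℝ, 0 < C ∧ ∀ N : ℕ, 1 ≤ N →
      ((hits (fun y => y ^ ε < |E y|) N).card : ℝ) ≤
        C * (N : ℝ) ^ (1 - min c₁ (1 / 2) * (ε * Real.log (1 / ε))) := by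
    apply exc_min hc (min_le_left _ _) (min_le_right _ _)
    apply hits_of
    intro ε hε hεc
    obtain ⟨C, hC, h2⟩ := h1 N k hk f g η lam h ε hε hεc
    refine ⟨C, hC, fun K H hK hKH => le_trans ?_ (h2 K H hK hKH)⟩
    apply Nat.cast_le.2
    apply Finset.card_le_card
    intro n hn
    rw [Finset.mem_filter] at hn ⊢
    obtain ⟨hn1, y, hy1, hy2, hy3⟩ := hn
    refine ⟨hn1, y, hy1, hy2, ?_⟩
    rw [mem_Ico] at hn1
    have hn0 : (1 : ℝ) ≤ n := by exact_mod_cast (by omega : 1 ≤ n)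
    have hy0 : 0 < y := by linarith
    rw [hEabs y hy0.le, hE, lt_div_iff₀ (by positivity), ← Real.rpow_add hy0] at hy3
    rwa [add_comm (1 / 4 : ℝ) ε]
  obtain ⟨μ, -, -, hμ⟩ := Pool.Agent.Y969.NF.nf_trunc
    (fun _ : Fin 2 => N) (fun _ => k) (fun _ => hk) (fun _ => f) (fun _ => g) (fun _ => η)
    (fun _ => lam) (fun _ => h) (fun i => if i = 0 then 1 else -Complex.I) (fun _ => 1)
    (fun _ => one_pos)
  set ev : ℕ → Fin 2 → ℝ := fun n i =>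
    ((if i = 0 then (1 : ℂ) else -Complex.I) * ∑ j ∈ Finset.Icc 1 (1 * n + 0), lam j).re /
      ((1 * n + 0 : ℕ) : ℝ) ^ (1 / 4 : ℝ) with hev
  have he0 : ∀ n : ℕ, ev n 0 = (∑ j ∈ Finset.Icc 1 n, lam j).re / (n : ℝ) ^ (1 / 4 : ℝ) := by
    intro n
    simp [hev]
  have he1 : ∀ n : ℕ, ev n 1 = (∑ j ∈ Finset.Icc 1 n, lam j).im / (n : ℝ) ^ (1 / 4 : ℝ) := by
    intro n
    simp [hev]
  have hEn : ∀ n : ℕ, |E n| = ‖∑ j ∈ Finset.Icc 1 n, lam j‖ / (n : ℝ) ^ (1 / 4 : ℝ) := by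
    intro n
    rw [hEabs n (Nat.cast_nonneg n), hE, Nat.floor_natCast]
  have hq : ∀ n : ℕ, 0 ≤ (n : ℝ) ^ (1 / 4 : ℝ) := fun n => by positivity
  have hb1 : ∀ n : ℕ, |E n| ≤ 2 * ‖ev n‖ := by
    intro n
    have h2 : |ev n 0| ≤ ‖ev n‖ := norm_le_pi_norm (ev n) 0
    have h3 : |ev n 1| ≤ ‖ev n‖ := norm_le_pi_norm (ev n) 1
    rw [he0, abs_div, abs_of_nonneg (hq n)] at h2
    rw [he1, abs_div, abs_of_nonneg (hq n)] at h3
    have h4 := Complex.norm_le_abs_re_add_abs_im (∑ j ∈ Finset.Icc 1 n, lam j)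
    have h5 := div_le_div_of_nonneg_right h4 (hq n)
    rw [add_div] at h5
    rw [hEn]
    linarith
  have hb2 : ∀ (n : ℕ) (i : Fin 2), |ev n i| ≤ |E n| := by
    intro n i
    fin_cases i
    · show |ev n 0| ≤ _
      rw [he0, hEn, abs_div, abs_of_nonneg (hq n)]
      exact div_le_div_of_nonneg_right (Complex.abs_re_le_norm _) (hq n)
    · show |ev n 1| ≤ _
      rw [he1, hEn, abs_div, abs_of_nonneg (hq n)]
      exact div_le_div_of_nonneg_right (Complex.abs_im_le_norm _) (hq n)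
  have htr : ∀ p : ℝ, 0 < p → ∃ c₀ : ℝ, 0 < c₀ ∧ ∀ ε : ℝ, 0 < ε → ε ≤ c₀ →
      ∃ M : ℝ, 0 ≤ M ∧ ∃ N₀ : ℕ, ∀ N : ℕ, N₀ ≤ N → ∀ S : Finset ℕ,
        (∀ n ∈ S, N ≤ n ∧ n < 2 * N ∧ |E n| ≤ (n : ℝ) ^ ε) →
          ∑ n ∈ S, |E n| ^ p ≤ M * N := by
    intro p hp
    obtain ⟨-, h2⟩ := hμ p hp
    obtain ⟨c₀, hc₀, h3⟩ := h2 (fun _ => 0) ev (fun n i => rfl) (1 / 2) (by norm_num)
    refine tr_of (ev := ev) (D := 2) two_pos hb1 hb2 hp (c₀ := c₀)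
      (I := ∫ x, ‖x‖ ^ p ∂(μ : Measure (Fin 2 → ℝ))) hc₀ (fun ε hε hεc => ?_)
    obtain ⟨N₀, hN₀⟩ := h3 ε hε hεc (fun x => ‖x‖ ^ p) (by fun_prop (disch := positivity))
      ⟨1, fun x => by
        rw [abs_of_nonneg (by positivity)]
        linarith⟩ 1 one_pos
    refine ⟨N₀, fun N hN => ?_⟩
    convert (hN₀ N hN).1 N le_rfl (by norm_num)
  have hloc : ∀ n : ℕ, 1 ≤ n → ∀ y : ℝ, (n : ℝ) ≤ y → y < n + 1 → |E y| ≤ 2 * |E n| + 40 := by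
    apply loc_of (F := fun x => ‖∑ j ∈ Icc 1 ⌊x⌋₊, lam j‖) _ hE
    intro n hn y h1 h2
    have hfl : ⌊y⌋₊ = n := by
      rw [Nat.floor_eq_iff (by have : (0 : ℝ) ≤ n := Nat.cast_nonneg n; linarith)]
      exact ⟨h1, h2⟩
    simp only [hfl, Nat.floor_natCast, sub_self, abs_zero]
    have : 0 ≤ Real.log n := Real.log_natCast_nonneg n
    linarith
  obtain ⟨m1, m2, m3⟩ := metric hc (min_le_right _ _) hexc htr hloc
  refine ⟨?_, ?_⟩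
  · intro u hu hsup
    filter_upwards [m1 u hu hsup] with t ht h0 B η hη
    filter_upwards [ht h0 B η hη] with k hk x hx1 hx2
    exact (le_abs_self _).trans (hk x hx1 hx2)
  · rintro ε hε hεc κ rfl lam' hlam hlam1 u hu T rfl
    have hT : {t : ℝ | 0 < t ∧ ∃ᶠ k in atTop, ∃ x : ℝ, t * u k ≤ x ∧
        x ≤ t * u k + (u k) ^ lam' ∧ x ^ ε < E x} ⊆
        {t : ℝ | 0 < t ∧ ∃ᶠ k in atTop, ∃ x : ℝ, t * u k ≤ x ∧
        x ≤ t * u k + (u k) ^ lam' ∧ x ^ ε < |E x|} := by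
      rintro t ⟨h0, hfr⟩
      refine ⟨h0, hfr.mono ?_⟩
      rintro k ⟨x, a1, a2, a3⟩
      exact ⟨x, a1, a2, a3.trans_le (le_abs_self _)⟩
    refine ⟨fun s hs hsum => measure_mono_null hT (m2 ε hε hεc lam' hlam hlam1 u hu s hs hsum), ?_⟩
    intro hsup
    exact (dimH_mono hT).trans (m3 ε hε hεc lam' hlam hlam1 u hu hsup)

end Pool.Agent.Q138.Met
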