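import Pool.Agent.Q138.Met.AeLaw

set_option autoImplicit false

/-! # From mean squares at the integers to mean squares over dilations -/

namespace Pool.Agent.Q138.Met

open Filter Topology MeasureTheory Finset
open scoped ENNReal NNReal Real

/-- an integral over dilations is bounded by a sum over integers -/
theorem lint_le {g : ℝ → ℝ} {h : ℕ → ℝ} {ρ lo hi : ℝ} (hρ : 0 < ρ) (hlo : 0 < lo) (_hlh : lo ≤ hi)
    (h0 : ∀ n, 0 ≤ h n) (hg : ∀ t ∈ Set.Icc lo hi, g t ≤ h ⌊(t * ρ) ^ 2⌋₊) :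
    ∫⁻ t in Set.Icc lo hi, ENNReal.ofReal (g t) ≤
      ENNReal.ofReal (1 / (lo * ρ ^ 2) *
        ∑ n ∈ Icc ⌊(lo * ρ) ^ 2⌋₊ ⌊(hi * ρ) ^ 2⌋₊, h n) := by
  set S : ℕ → Set ℝ := fun n => Set.Icc (√(n : ℝ) / ρ) (√((n : ℝ) + 1) / ρ) with hS
  set I := Icc ⌊(lo * ρ) ^ 2⌋₊ ⌊(hi * ρ) ^ 2⌋₊ with hI
  have h1 : ∀ t ∈ Set.Icc lo hi, ENNReal.ofReal (g t) ≤
      ∑ n ∈ I, (S n).indicator (fun _ => ENNReal.ofReal (h n)) t := by
    intro t ht
    have ht0 : 0 < t := hlo.trans_le ht.1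
    set n := ⌊(t * ρ) ^ 2⌋₊ with hn
    have hnI : n ∈ I := by
      rw [hI, mem_Icc]
      constructor
      · apply Nat.floor_mono
        have : lo * ρ ≤ t * ρ := mul_le_mul_of_nonneg_right ht.1 hρ.le
        exact pow_le_pow_left₀ (by positivity) this 2
      · apply Nat.floor_mono
        have : t * ρ ≤ hi * ρ := mul_le_mul_of_nonneg_right ht.2 hρ.le
        exact pow_le_pow_left₀ (by positivity) this 2
    have hnS : t ∈ S n := by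
      simp only [hS]
      have e1 : (n : ℝ) ≤ (t * ρ) ^ 2 := Nat.floor_le (by positivity)
      have e2 : (t * ρ) ^ 2 < n + 1 := Nat.lt_floor_add_one _
      constructor
      · rw [div_le_iff₀ hρ, Real.sqrt_le_left (by positivity)]
        exact e1
      · rw [le_div_iff₀ hρ]
        exact Real.le_sqrt_of_sq_le e2.le
    have h2 : (S n).indicator (fun _ => ENNReal.ofReal (h n)) t = ENNReal.ofReal (h n) :=
      Set.indicator_of_mem hnS _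
    calc ENNReal.ofReal (g t) ≤ ENNReal.ofReal (h n) := ENNReal.ofReal_le_ofReal (hg t ht)
      _ = (S n).indicator (fun _ => ENNReal.ofReal (h n)) t := h2.symm
      _ ≤ _ := Finset.single_le_sum
        (f := fun n => (S n).indicator (fun _ => ENNReal.ofReal (h n)) t) (fun _ _ => zero_le) hnI
  have hmeasS : ∀ n, MeasurableSet (S n) := fun n => measurableSet_Icc
  have h3 : ∫⁻ t in Set.Icc lo hi, ENNReal.ofReal (g t) ≤
      ∫⁻ t, ∑ n ∈ I, (S n).indicator (fun _ => ENNReal.ofReal (h n)) t := by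
    refine (setLIntegral_mono' measurableSet_Icc h1).trans ?_
    exact setLIntegral_le_lintegral _ _
  refine h3.trans ?_
  rw [lintegral_finsetSum' _ fun n _ =>
    (measurable_const.indicator (hmeasS n)).aemeasurable]
  have h4 : ∀ n ∈ I, ∫⁻ t, (S n).indicator (fun _ => ENNReal.ofReal (h n)) t ≤
      ENNReal.ofReal (1 / (lo * ρ ^ 2) * h n) := by
    intro n hn
    rw [lintegral_indicator_const (hmeasS n)]
    simp only [hS]
    rw [Real.volume_Icc, ← ENNReal.ofReal_mul (h0 n)]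
    apply ENNReal.ofReal_le_ofReal
    rw [mul_comm]
    apply mul_le_mul_of_nonneg_right _ (h0 n)
    rw [hI, mem_Icc] at hn
    have e1 : (lo * ρ) ^ 2 < n + 1 := by
      have h5 := Nat.lt_floor_add_one ((lo * ρ) ^ 2)
      have h6 : ((⌊(lo * ρ) ^ 2⌋₊ : ℕ) : ℝ) ≤ n := by exact_mod_cast hn.1
      linarith
    have e2 : lo * ρ ≤ √((n : ℝ) + 1) := Real.le_sqrt_of_sq_le e1.le
    have e3 : 0 < lo * ρ := by positivity
    have e4 : (√((n : ℝ) + 1) - √(n : ℝ)) * (√((n : ℝ) + 1) + √(n : ℝ)) = 1 := by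
      have a1 := Real.sq_sqrt (by positivity : (0 : ℝ) ≤ (n : ℝ) + 1)
      have a2 := Real.sq_sqrt (Nat.cast_nonneg (α := ℝ) n)
      linear_combination a1 - a2
    have e5 : 0 ≤ √((n : ℝ) + 1) - √(n : ℝ) :=
      sub_nonneg.2 (Real.sqrt_le_sqrt (by linarith))
    have e6 : (√((n : ℝ) + 1) - √(n : ℝ)) * (lo * ρ) ≤ 1 := by
      have e7 : lo * ρ ≤ √((n : ℝ) + 1) + √(n : ℝ) := by
        have := Real.sqrt_nonneg (n : ℝ)
        linarith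
      have e8 := mul_le_mul_of_nonneg_left e7 e5
      linarith
    rw [← sub_div, div_le_iff₀ hρ, div_mul_eq_mul_div, one_mul, le_div_iff₀ (by positivity)]
    calc (√((n : ℝ) + 1) - √(n : ℝ)) * (lo * ρ ^ 2) =
        ((√((n : ℝ) + 1) - √(n : ℝ)) * (lo * ρ)) * ρ := by ring
      _ ≤ 1 * ρ := mul_le_mul_of_nonneg_right e6 hρ.le
      _ = ρ := one_mul ρ
  refine (Finset.sum_le_sum h4).trans (le_of_eq ?_)
  rw [← ENNReal.ofReal_sum_of_nonneg fun n _ => mul_nonneg (by positivity) (h0 n), Finset.mul_sum]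

theorem log_bound {n : ℕ} (hn : 1 ≤ n) : (5 + Real.log n) ^ 2 / √(n : ℝ) ≤
    169 * (n : ℝ) ^ (-(1 / 4) : ℝ) := by
  have hn1 : (1 : ℝ) ≤ n := by exact_mod_cast hn
  have hn0 : (0 : ℝ) < n := by linarith
  have h1 := Real.log_le_rpow_div hn0.le (by norm_num : (0 : ℝ) < 1 / 8)
  have h2 : (1 : ℝ) ≤ (n : ℝ) ^ (1 / 8 : ℝ) := Real.one_le_rpow hn1 (by norm_num)
  have h3 : 5 + Real.log n ≤ 13 * (n : ℝ) ^ (1 / 8 : ℝ) := by linarith
  have h4 : 0 ≤ 5 + Real.log n := by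
    have := Real.log_nonneg hn1
    linarith
  have h5 := pow_le_pow_left₀ h4 h3 2
  have h6 : (13 * (n : ℝ) ^ (1 / 8 : ℝ)) ^ 2 = 169 * (n : ℝ) ^ (1 / 4 : ℝ) := by
    rw [mul_pow, ← Real.rpow_natCast ((n : ℝ) ^ (1 / 8 : ℝ)), ← Real.rpow_mul hn0.le]
    norm_num
  rw [h6] at h5
  rw [div_le_iff₀ (Real.sqrt_pos.2 hn0)]
  refine h5.trans (le_of_eq ?_)
  rw [Real.sqrt_eq_rpow, mul_assoc, ← Real.rpow_add hn0]
  norm_num

/-- the change of the normalised error term within a unit interval -/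
theorem norm_loc {F : ℝ → ℝ} (hloc : ∀ n : ℕ, 1 ≤ n → ∀ y : ℝ, (n : ℝ) ≤ y → y < n + 1 →
    |F y - F n| ≤ 5 + Real.log n) {n : ℕ} (hn : 1 ≤ n) {y : ℝ} (h1 : (n : ℝ) ≤ y)
    (h2 : y < n + 1) :
    (F y / y ^ (1 / 4 : ℝ) - F n / (n : ℝ) ^ (1 / 4 : ℝ)) ^ 2 ≤
      2 * ((5 + Real.log n) ^ 2 / √(n : ℝ)) +
        2 * ((F n / (n : ℝ) ^ (1 / 4 : ℝ)) ^ 2 / (n : ℝ) ^ 2) := by
  have hn1 : (1 : ℝ) ≤ n := by exact_mod_cast hn
  have hn0 : (0 : ℝ) < n := by linarith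
  have hy0 : 0 < y := by linarith
  have hp : 0 < (n : ℝ) ^ (1 / 4 : ℝ) := by positivity
  have hq : 0 < y ^ (1 / 4 : ℝ) := by positivity
  set E := F n / (n : ℝ) ^ (1 / 4 : ℝ) with hE
  have hF : F n = E * (n : ℝ) ^ (1 / 4 : ℝ) := by
    rw [hE]
    field_simp
  set u := (F y - F n) / y ^ (1 / 4 : ℝ) with hu
  set v := E * ((n : ℝ) ^ (1 / 4 : ℝ) / y ^ (1 / 4 : ℝ) - 1) with hv
  have e1 : F y / y ^ (1 / 4 : ℝ) - E = u + v := by
    rw [hu, hv, sub_div, hF]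
    ring
  have hpq : (n : ℝ) ^ (1 / 4 : ℝ) ≤ y ^ (1 / 4 : ℝ) := Real.rpow_le_rpow hn0.le h1 (by norm_num)
  have hu2 : u ^ 2 ≤ (5 + Real.log n) ^ 2 / √(n : ℝ) := by
    rw [hu, div_pow]
    have e2 : (y ^ (1 / 4 : ℝ)) ^ 2 = √y := by
      rw [← Real.rpow_natCast, ← Real.rpow_mul hy0.le, Real.sqrt_eq_rpow]
      norm_num
    rw [e2, ← sq_abs (F y - F n)]
    have e3 : |F y - F n| ^ 2 ≤ (5 + Real.log n) ^ 2 :=
      pow_le_pow_left₀ (abs_nonneg _) (hloc n hn y h1 h2) 2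
    have e4 : √(n : ℝ) ≤ √y := Real.sqrt_le_sqrt h1
    have e5 : 0 < √(n : ℝ) := Real.sqrt_pos.2 hn0
    exact div_le_div₀ (by positivity) e3 e5 e4
  have hr : (n : ℝ) / y ≤ (n : ℝ) ^ (1 / 4 : ℝ) / y ^ (1 / 4 : ℝ) := by
    rw [← Real.div_rpow hn0.le hy0.le]
    have hr1 : (n : ℝ) / y ≤ 1 := by
      rw [div_le_one hy0]
      exact h1
    have hr0 : 0 < (n : ℝ) / y := by positivity
    calc (n : ℝ) / y = ((n : ℝ) / y) ^ (1 : ℝ) := (Real.rpow_one _).symm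
      _ ≤ ((n : ℝ) / y) ^ (1 / 4 : ℝ) :=
        Real.rpow_le_rpow_of_exponent_ge hr0 hr1 (by norm_num)
  have hr2 : 1 - 1 / (n : ℝ) ≤ (n : ℝ) / y := by
    rw [le_div_iff₀ hy0]
    have e6 : (1 - 1 / (n : ℝ)) * y ≤ (1 - 1 / (n : ℝ)) * (n + 1) := by
      apply mul_le_mul_of_nonneg_left h2.le
      have : 1 / (n : ℝ) ≤ 1 := by
        rw [div_le_one hn0]
        exact hn1
      linarith
    have e7 : (1 - 1 / (n : ℝ)) * (n + 1) = n - 1 / n := by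
      field_simp
      ring
    have e8 : 0 ≤ 1 / (n : ℝ) := by positivity
    linarith
  have hv2 : v ^ 2 ≤ E ^ 2 / (n : ℝ) ^ 2 := by
    rw [hv, mul_pow]
    have e9 : ((n : ℝ) ^ (1 / 4 : ℝ) / y ^ (1 / 4 : ℝ) - 1) ^ 2 ≤ (1 / (n : ℝ)) ^ 2 := by
      rw [← sq_abs]
      apply pow_le_pow_left₀ (abs_nonneg _)
      rw [abs_le]
      have e10 : (n : ℝ) ^ (1 / 4 : ℝ) / y ^ (1 / 4 : ℝ) ≤ 1 := by
        rw [div_le_one hq]
        exact hpq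
      have e11 : 0 ≤ 1 / (n : ℝ) := by positivity
      constructor <;> linarith
    calc E ^ 2 * ((n : ℝ) ^ (1 / 4 : ℝ) / y ^ (1 / 4 : ℝ) - 1) ^ 2 ≤ E ^ 2 * (1 / (n : ℝ)) ^ 2 :=
          mul_le_mul_of_nonneg_left e9 (sq_nonneg _)
      _ = _ := by ring
  rw [e1]
  nlinarith [sq_nonneg (u - v)]

/-- mean squares over dilations from mean squares at the integers -/
theorem ms_real {F : ℝ → ℝ} (hloc : ∀ n : ℕ, 1 ≤ n → ∀ y : ℝ, (n : ℝ) ≤ y → y < n + 1 →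
    |F y - F n| ≤ 5 + Real.log n) {a : ℕ → ℝ} {φ c : ℝ} (hc : 0 < c) {ω : ℝ} (_hω : 0 < ω)
    (hω1 : ω ≤ 1)
    (hms : ∃ C : ℝ, 0 < C ∧ ∀ M X : ℕ, 1 ≤ M → M ^ 40 ≤ X →
      ∑ n ∈ Icc 1 X, (F n / (n : ℝ) ^ (1 / 4 : ℝ) - P a φ (Icc 1 (M ^ 2)) (c * √(n : ℝ))) ^ 2 ≤
        C * (M : ℝ) ^ (-ω) * X)
    (hlip : ∃ K : ℝ, 0 < K ∧ ∀ M : ℕ, ∀ x x' : ℝ,
      |P a φ (Icc 1 (M ^ 2)) x - P a φ (Icc 1 (M ^ 2)) x'| ≤ K * (M : ℝ) ^ 2 * |x - x'|)
    (hbd : ∃ B : ℝ, ∀ x, |P a φ (Icc 1 (1 ^ 2)) x| ≤ B) {lo hi : ℝ} (hlo : 0 < lo)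
    (hlh : lo ≤ hi) :
    ∃ C : ℝ, 0 < C ∧ ∀ M : ℕ, 1 ≤ M → ∀ ρ : ℝ, 0 < ρ → M ^ 40 ≤ ⌊(lo * ρ) ^ 2⌋₊ →
      ∫⁻ t in Set.Icc lo hi, ENNReal.ofReal ((F ((t * ρ) ^ 2) / ((t * ρ) ^ 2) ^ (1 / 4 : ℝ) -
        P a φ (Icc 1 (M ^ 2)) (c * (t * ρ))) ^ 2) ≤ ENNReal.ofReal (C * (M : ℝ) ^ (-ω)) := by
  obtain ⟨C, hC, hms⟩ := hms
  obtain ⟨K, hK, hlip⟩ := hlip
  obtain ⟨B, hB⟩ := hbd
  have hhi : 0 < hi := hlo.trans_le hlh
  set E : ℕ → ℝ := fun n => F n / (n : ℝ) ^ (1 / 4 : ℝ) with hE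
  -- second moment
  have hsec : ∀ X : ℕ, 1 ≤ X → ∑ n ∈ Icc 1 X, E n ^ 2 ≤ (2 * C + 2 * B ^ 2) * X := by
    intro X hX
    have h1 := hms 1 X le_rfl (by simpa using hX)
    rw [Nat.cast_one, Real.one_rpow, mul_one] at h1
    have h2 : ∀ n ∈ Icc 1 X, E n ^ 2 ≤
        2 * (F n / (n : ℝ) ^ (1 / 4 : ℝ) - P a φ (Icc 1 (1 ^ 2)) (c * √(n : ℝ))) ^ 2 +
          2 * B ^ 2 := by
      intro n _
      have h3 : P a φ (Icc 1 (1 ^ 2)) (c * √(n : ℝ)) ^ 2 ≤ B ^ 2 := by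
        rw [← sq_abs]
        exact pow_le_pow_left₀ (abs_nonneg _) (hB _) 2
      simp only [hE]
      generalize F n / (n : ℝ) ^ (1 / 4 : ℝ) = p at *
      generalize P a φ (Icc 1 (1 ^ 2)) (c * √(n : ℝ)) = q at *
      nlinarith [sq_nonneg (p - 2 * q)]
    refine (Finset.sum_le_sum h2).trans ?_
    rw [Finset.sum_add_distrib, ← Finset.mul_sum, sum_const, Nat.card_Icc, nsmul_eq_mul]
    have h4 : ((X + 1 - 1 : ℕ) : ℝ) = X := by simp
    rw [h4]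
    linarith
  set D := 3 * C + (1014 + 6 * (2 * C + 2 * B ^ 2) + 3 * (K * c) ^ 2) with hD
  have hD0 : 0 < D := by positivity
  refine ⟨hi ^ 2 / lo * D, by positivity, ?_⟩
  intro M hM ρ hρ hMρ
  set n0 := ⌊(lo * ρ) ^ 2⌋₊ with hn0
  set X := ⌊(hi * ρ) ^ 2⌋₊ with hX
  have hM1 : (1 : ℝ) ≤ M := by exact_mod_cast hM
  have hM0 : (0 : ℝ) < M := by linarith
  have hn01 : 1 ≤ n0 := le_trans (Nat.one_le_pow _ _ hM) hMρ
  have hn01' : (1 : ℝ) ≤ n0 := by exact_mod_cast hn01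
  have hn0X : n0 ≤ X := by
    apply Nat.floor_mono
    have : lo * ρ ≤ hi * ρ := mul_le_mul_of_nonneg_right hlh hρ.le
    exact pow_le_pow_left₀ (by positivity) this 2
  have hX1 : 1 ≤ X := hn01.trans hn0X
  have hX1' : (1 : ℝ) ≤ X := by exact_mod_cast hX1
  set z : ℝ := (n0 : ℝ) ^ (-(1 / 4) : ℝ) with hz
  have hz0 : 0 < z := by positivity
  set h : ℕ → ℝ := fun n => 3 * (E n - P a φ (Icc 1 (M ^ 2)) (c * √(n : ℝ))) ^ 2 +
    z * (1014 + 6 * E n ^ 2 + 3 * (K * c) ^ 2 * (M : ℝ) ^ 4) with hh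
  have hh0 : ∀ n, 0 ≤ h n := by
    intro n
    simp only [hh]
    positivity
  have hg : ∀ t ∈ Set.Icc lo hi, (F ((t * ρ) ^ 2) / ((t * ρ) ^ 2) ^ (1 / 4 : ℝ) -
      P a φ (Icc 1 (M ^ 2)) (c * (t * ρ))) ^ 2 ≤ h ⌊(t * ρ) ^ 2⌋₊ := by
    intro t ht
    have ht0 : 0 < t := hlo.trans_le ht.1
    set y := (t * ρ) ^ 2 with hy
    set n := ⌊y⌋₊ with hn
    have hy0 : 0 < y := by positivity
    have hn0n : n0 ≤ n := by
      apply Nat.floor_mono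
      have : lo * ρ ≤ t * ρ := mul_le_mul_of_nonneg_right ht.1 hρ.le
      exact pow_le_pow_left₀ (by positivity) this 2
    have hn1 : 1 ≤ n := hn01.trans hn0n
    have hn1' : (1 : ℝ) ≤ n := by exact_mod_cast hn1
    have hnpos : (0 : ℝ) < n := by linarith
    have y1 : (n : ℝ) ≤ y := Nat.floor_le hy0.le
    have y2 : y < n + 1 := Nat.lt_floor_add_one y
    have hty : t * ρ = √y := by
      rw [hy, Real.sqrt_sq (by positivity)]
    rw [hty]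
    have b1 := norm_loc hloc hn1 y1 y2
    have b2 := hlip M (c * √y) (c * √(n : ℝ))
    have hzn : (n : ℝ) ^ (-(1 / 4) : ℝ) ≤ z := by
      rw [hz]
      exact Real.rpow_le_rpow_of_nonpos (by linarith) (by exact_mod_cast hn0n) (by norm_num)
    have hnn1 : 1 / (n : ℝ) ≤ (n : ℝ) ^ (-(1 / 4) : ℝ) := by
      rw [one_div, ← Real.rpow_neg_one]
      exact Real.rpow_le_rpow_of_exponent_le hn1' (by norm_num)
    have b3 : |√y - √(n : ℝ)| ^ 2 ≤ 1 / (n : ℝ) := by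
      have s0 : 0 < √(n : ℝ) := Real.sqrt_pos.2 hnpos
      have s1 : √(n : ℝ) ≤ √y := Real.sqrt_le_sqrt y1
      have s2 : (√y - √(n : ℝ)) * (√y + √(n : ℝ)) = y - n := by
        have a1 := Real.sq_sqrt hy0.le
        have a2 := Real.sq_sqrt hnpos.le
        linear_combination a1 - a2
      have s3 : (√y - √(n : ℝ)) * √(n : ℝ) ≤ 1 := by
        have : (√y - √(n : ℝ)) * √(n : ℝ) ≤ (√y - √(n : ℝ)) * (√y + √(n : ℝ)) := by
          apply mul_le_mul_of_nonneg_left _ (by linarith)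
          linarith
        linarith
      rw [sq_abs, le_div_iff₀ hnpos]
      have s4 : (√y - √(n : ℝ)) ^ 2 * n = ((√y - √(n : ℝ)) * √(n : ℝ)) ^ 2 := by
        rw [mul_pow, Real.sq_sqrt hnpos.le]
      rw [s4]
      have s5 : 0 ≤ (√y - √(n : ℝ)) * √(n : ℝ) := mul_nonneg (by linarith) s0.le
      exact pow_le_one₀ s5 s3
    have b4 : (P a φ (Icc 1 (M ^ 2)) (c * √y) - P a φ (Icc 1 (M ^ 2)) (c * √(n : ℝ))) ^ 2 ≤
        (K * c) ^ 2 * (M : ℝ) ^ 4 * z := by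
      rw [← sq_abs]
      have e1 : |c * √y - c * √(n : ℝ)| = c * |√y - √(n : ℝ)| := by
        rw [← mul_sub, abs_mul, abs_of_pos hc]
      rw [e1] at b2
      refine (pow_le_pow_left₀ (abs_nonneg _) b2 2).trans ?_
      calc (K * (M : ℝ) ^ 2 * (c * |√y - √(n : ℝ)|)) ^ 2 =
          (K * c) ^ 2 * (M : ℝ) ^ 4 * |√y - √(n : ℝ)| ^ 2 := by ring
        _ ≤ (K * c) ^ 2 * (M : ℝ) ^ 4 * z := by
          apply mul_le_mul_of_nonneg_left _ (by positivity)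
          exact b3.trans (hnn1.trans hzn)
    have b5 : (F y / y ^ (1 / 4 : ℝ) - E n) ^ 2 ≤ z * (338 + 2 * E n ^ 2) := by
      refine b1.trans ?_
      have c1 := log_bound hn1
      have c2 : E n ^ 2 / (n : ℝ) ^ 2 ≤ z * E n ^ 2 := by
        rw [div_eq_mul_one_div, mul_comm]
        apply mul_le_mul_of_nonneg_right _ (sq_nonneg _)
        refine le_trans ?_ (hnn1.trans hzn)
        apply one_div_le_one_div_of_le hnpos
        nlinarith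
      have c3 : 169 * (n : ℝ) ^ (-(1 / 4) : ℝ) ≤ 169 * z :=
        mul_le_mul_of_nonneg_left hzn (by norm_num)
      simp only [hE] at c2 ⊢
      linarith
    simp only [hh]
    set p := F y / y ^ (1 / 4 : ℝ) with hp
    set q := P a φ (Icc 1 (M ^ 2)) (c * √y) with hq
    set r := P a φ (Icc 1 (M ^ 2)) (c * √(n : ℝ)) with hr
    have e2 : (p - q) ^ 2 ≤ 3 * (E n - r) ^ 2 + 3 * (p - E n) ^ 2 + 3 * (q - r) ^ 2 := by
      have e3 : p - q = (E n - r) + (p - E n) - (q - r) := by ring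
      rw [e3]
      nlinarith [sq_nonneg ((E n - r) - (p - E n)), sq_nonneg ((E n - r) + (q - r)),
        sq_nonneg ((p - E n) + (q - r))]
    linarith
  refine (lint_le hρ hlo hlh hh0 hg).trans ?_
  apply ENNReal.ofReal_le_ofReal
  have hsum : ∑ n ∈ Icc n0 X, h n ≤ D * (M : ℝ) ^ (-ω) * X := by
    have s1 : ∑ n ∈ Icc n0 X, h n ≤ ∑ n ∈ Icc 1 X, h n :=
      Finset.sum_le_sum_of_subset_of_nonneg (Finset.Icc_subset_Icc_left hn01)
        (fun n _ _ => hh0 n)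
    refine s1.trans ?_
    simp only [hh]
    rw [Finset.sum_add_distrib, ← Finset.mul_sum, ← Finset.mul_sum, Finset.sum_add_distrib,
      Finset.sum_add_distrib, ← Finset.mul_sum, sum_const, sum_const, Nat.card_Icc, nsmul_eq_mul,
      nsmul_eq_mul]
    have h4 : ((X + 1 - 1 : ℕ) : ℝ) = X := by simp
    rw [h4]
    have s2 := hms M X hM (hMρ.trans hn0X)
    have s3 := hsec X hX1
    have hzM : z * (M : ℝ) ^ 4 ≤ (M : ℝ) ^ (-ω) := by
      have t1 : z ≤ (M : ℝ) ^ (-10 : ℝ) := by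
        have t2 : ((M : ℝ) ^ 40) ≤ n0 := by exact_mod_cast hMρ
        calc z ≤ ((M : ℝ) ^ 40) ^ (-(1 / 4) : ℝ) :=
              Real.rpow_le_rpow_of_nonpos (by positivity) t2 (by norm_num)
          _ = (M : ℝ) ^ (-10 : ℝ) := by
            rw [← Real.rpow_natCast, ← Real.rpow_mul hM0.le]
            norm_num
      calc z * (M : ℝ) ^ 4 ≤ (M : ℝ) ^ (-10 : ℝ) * (M : ℝ) ^ 4 :=
            mul_le_mul_of_nonneg_right t1 (by positivity)
        _ = (M : ℝ) ^ (-6 : ℝ) := by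
          rw [← Real.rpow_natCast, ← Real.rpow_add hM0]
          norm_num
        _ ≤ (M : ℝ) ^ (-ω) := Real.rpow_le_rpow_of_exponent_le hM1 (by linarith)
    have hM4 : (1 : ℝ) ≤ (M : ℝ) ^ 4 := one_le_pow₀ hM1
    have hz1 : z ≤ (M : ℝ) ^ (-ω) := by nlinarith
    have hω0 : 0 < (M : ℝ) ^ (-ω) := by positivity
    have k1 : z * ((X : ℝ) * 1014) ≤ 1014 * (M : ℝ) ^ (-ω) * X := by nlinarith
    have k2 : z * (6 * ∑ n ∈ Icc 1 X, E n ^ 2) ≤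
        6 * (2 * C + 2 * B ^ 2) * (M : ℝ) ^ (-ω) * X := by
      calc z * (6 * ∑ n ∈ Icc 1 X, E n ^ 2) ≤ (M : ℝ) ^ (-ω) * (6 * ((2 * C + 2 * B ^ 2) * X)) := by
            gcongr
        _ = _ := by ring
    have k3 : z * ((X : ℝ) * (3 * (K * c) ^ 2 * (M : ℝ) ^ 4)) ≤
        3 * (K * c) ^ 2 * (M : ℝ) ^ (-ω) * X := by
      calc z * ((X : ℝ) * (3 * (K * c) ^ 2 * (M : ℝ) ^ 4)) =
          3 * (K * c) ^ 2 * X * (z * (M : ℝ) ^ 4) := by ring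
        _ ≤ 3 * (K * c) ^ 2 * X * (M : ℝ) ^ (-ω) :=
          mul_le_mul_of_nonneg_left hzM (by positivity)
        _ = _ := by ring
    have k4 : 3 * ∑ n ∈ Icc 1 X, (E n - P a φ (Icc 1 (M ^ 2)) (c * √(n : ℝ))) ^ 2 ≤
        3 * (C * (M : ℝ) ^ (-ω) * X) := mul_le_mul_of_nonneg_left s2 (by norm_num)
    rw [hD]
    linarith
  have hXle : (X : ℝ) ≤ (hi * ρ) ^ 2 := Nat.floor_le (by positivity)
  calc 1 / (lo * ρ ^ 2) * ∑ n ∈ Icc n0 X, h n ≤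
      1 / (lo * ρ ^ 2) * (D * (M : ℝ) ^ (-ω) * (hi * ρ) ^ 2) := by
        apply mul_le_mul_of_nonneg_left _ (by positivity)
        exact hsum.trans (mul_le_mul_of_nonneg_left hXle (by positivity))
    _ = hi ^ 2 / lo * D * (M : ℝ) ^ (-ω) := by
      field_simp

end Pool.Agent.Q138.Met
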