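import Pool.Agent.Q138.Met.Fin
import Pool.Agent.Q138.Met.ExcD
import Pool.Agent.Y969.QM4
import Pool.Agent.Y969.TW4
import Pool.Agent.Y969.Ex1
import Pool.Agent.Y969.Lin

set_option autoImplicit false

/-! # The variable `t²`, and the divisor problem -/

namespace Pool.Agent.Q138.Met

open Filter Topology MeasureTheory
open Finset hiding card
open Pool.Agent.H425R3.JL (Edv Edv_eq)

theorem ae_sq {q : ℝ → Prop} (h : ∀ᵐ t : ℝ, 0 < t → q (t ^ 2)) : ∀ᵐ s : ℝ, 0 < s → q s := by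
  rw [ae_iff] at h ⊢
  have h1 : {s : ℝ | ¬(0 < s → q s)} ⊆
      (fun t : ℝ => t ^ 2) '' {t : ℝ | ¬(0 < t → q (t ^ 2))} := by
    intro s hs
    have hs' : 0 < s ∧ ¬ q s := by
      simpa using hs
    refine ⟨√s, ?_, Real.sq_sqrt hs'.1.le⟩
    intro h2
    apply hs'.2
    have h3 := h2 (Real.sqrt_pos.2 hs'.1)
    rwa [Real.sq_sqrt hs'.1.le] at h3
  refine measure_mono_null h1 ?_
  refine addHaar_image_eq_zero_of_differentiableOn_of_addHaar_eq_zero volume ?_ h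
  exact (differentiable_pow 2).differentiableOn

theorem measurable_Dl : Measurable Pool.Agent.Y969.SW.Dl := by
  unfold Pool.Agent.Y969.SW.Dl
  have h1 : Monotone fun x : ℝ => ∑ j ∈ Finset.Icc 1 ⌊x⌋₊, (j.divisors.card : ℝ) := by
    intro x y hxy
    apply Finset.sum_le_sum_of_subset_of_nonneg
    · exact Finset.Icc_subset_Icc_right (Nat.floor_mono hxy)
    · intro n _ _
      positivity
  exact (h1.measurable.sub (measurable_id.mul Real.measurable_log)).sub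
    (measurable_const.mul measurable_id)

theorem Edv_Dl (x : ℝ) : Edv x = Pool.Agent.Y969.SW.Dl x / x ^ (1 / 4 : ℝ) := rfl

/-- the law and the dilations of the divisor problem -/
theorem div_dil : ∃ (ν : ProbabilityMeasure ℝ) (G : ℂ → ℂ),
    (Differentiable ℂ G ∧ (∀ x : ℝ, 0 ≤ (G x).re ∧ (G x).im = 0) ∧
      (ν : Measure ℝ) = volume.withDensity (fun x : ℝ => ENNReal.ofReal (G x).re) ∧
      (∀ u v : ℝ, u < v → 0 < (ν : Measure ℝ) (Set.Ioo u v)) ∧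
      Integrable (fun x : ℝ => x ^ 2) (ν : Measure ℝ) ∧ ∫ x, x ∂(ν : Measure ℝ) = 0 ∧
      ∫ x, x ^ 2 ∂(ν : Measure ℝ) =
        (∑' h : ℕ, (h.divisors.card : ℝ) ^ 2 / (h : ℝ) ^ (3 / 2 : ℝ)) / (4 * Real.pi ^ 2)) ∧
    ∀ (u : ℕ → ℝ) (δ : ℝ), 0 < δ → 0 < u 0 → (∀ k, √(u k) + δ ≤ √(u (k + 1))) →
      ∀ᵐ t : ℝ, 0 < t →
        (∀ f : ℝ → ℝ, Continuous f → (∃ C : ℝ, ∀ z, |f z| ≤ C * (1 + z ^ 2)) →
          Tendsto (fun K : ℕ => (∑ k ∈ range K, f (Edv (t * u k))) / K) atTop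
            (𝓝 (∫ z, f z ∂(ν : Measure ℝ)))) ∧
        ∀ A : Set ℝ, volume (frontier A) = 0 →
          Tendsto (fun K : ℕ => ({k : ℕ | k < K ∧ Edv (t * u k) ∈ A}.ncard : ℝ) / K)
            atTop (𝓝 ((ν : Measure ℝ).real A)) := by
  obtain ⟨ν, G, g1, g2, g3, g4, hν⟩ := Pool.Agent.Y969.Lin.div_lin
  obtain ⟨μ, m1, m2, m3, m4, m5, -⟩ := hν 1 (fun _ => 1) (fun _ => 0) (fun _ => one_pos)
  have hm2 := m2 0
  have hmeas : Measurable fun x : Fin 1 → ℝ => x 0 := measurable_pi_apply 0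
  have hint2 : Integrable (fun x : ℝ => x ^ 2) (ν : Measure ℝ) := by
    rw [← hm2, integrable_map_measure (by fun_prop) hmeas.aemeasurable]
    refine m1.congr (Eventually.of_forall fun x => ?_)
    simp
  have hmean : ∫ x, x ∂(ν : Measure ℝ) = 0 := by
    rw [← hm2, integral_map hmeas.aemeasurable (by fun_prop)]
    exact m3 0
  have hvar : ∫ x, x ^ 2 ∂(ν : Measure ℝ) =
      (∑' h : ℕ, (h.divisors.card : ℝ) ^ 2 / (h : ℝ) ^ (3 / 2 : ℝ)) / (4 * Real.pi ^ 2) := by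
    obtain ⟨-, h2⟩ := m4 0 0 1 1 1 rfl rfl (Nat.coprime_one_left 1)
    rw [← hm2, integral_map hmeas.aemeasurable (by fun_prop)]
    have h3 : (fun x : Fin 1 → ℝ => x 0 ^ 2) = fun x => x 0 * x 0 := by
      funext x
      ring
    rw [h3, h2]
    congr 1
    refine tsum_congr fun h => ?_
    rw [one_mul, Nat.cast_one, one_mul, one_mul, ← sq, ← Real.rpow_natCast (h : ℝ) 2,
      ← Real.rpow_mul (Nat.cast_nonneg h)]
    norm_num
  refine ⟨ν, G, ⟨g1, g2, g3, g4, hint2, hmean, hvar⟩, fun u δ hδ hu0 hu => ?_⟩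
  have hlaw : ∀ f : ℝ → ℝ, Continuous f → (∃ C : ℝ, ∀ z, |f z| ≤ C * (1 + z ^ 2)) →
      Tendsto (av fun k : ℕ => f (Edv ((k : ℝ) + 1))) atTop
        (𝓝 (∫ z, f z ∂(ν : Measure ℝ))) := by
    intro f hf hC
    refine law_int hm2 (fun F hF hFC η hη => ?_) hf hC
    obtain ⟨N0, hN0⟩ := m5 F hF hFC η hη
    refine ⟨N0, fun N hN => ?_⟩
    have h1 := (hN0 N hN 0).1 (fun _ => 1) (fun n => by simp) (fun m n _ => by simp)
    simp only [one_mul, Complex.ofReal_zero, zero_mul, mul_zero, Complex.exp_zero, Nat.cast_one,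
      Nat.cast_zero, add_zero, ← Complex.ofReal_sum, Complex.norm_real, Real.norm_eq_abs] at h1
    exact h1
  have hpos : ∀ k, 0 < u k := by
    intro k
    induction k with
    | zero => exact hu0
    | succ k ih =>
      have h1 := hu k
      have h2 : 0 < √(u k) := Real.sqrt_pos.2 ih
      exact Real.sqrt_pos.1 (by linarith)
  have hmain := final (E := Pool.Agent.H383.Div.E2) (F := Pool.Agent.Y969.SW.Dl)
    (Ex := Edv) (c := 2) Pool.Agent.H452R2.Win.ad_Bdw2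
    Pool.Agent.H383.Div.ad_zero Pool.Agent.H383.Div.wd_Wt
    (Pool.Agent.H452R2.Win.E2_SandW Pool.Agent.H383.Div.vor)
    two_pos measurable_Dl Pool.Agent.Y969.SW.Dl_loc Edv_Dl (fun n hn => by
      unfold Pool.Agent.H383.Div.E2
      rw [mul_div_assoc, mul_comm, div_mul_cancel₀ _ (two_ne_zero), Edv_eq (Nat.cast_nonneg n)])
    hlaw hδ (R := fun k => √(u k)) (Real.sqrt_pos.2 hu0) hu
  apply ae_sq (q := fun t => (∀ f : ℝ → ℝ, Continuous f → (∃ C : ℝ, ∀ z, |f z| ≤ C * (1 + z ^ 2)) →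
          Tendsto (fun K : ℕ => (∑ k ∈ range K, f (Edv (t * u k))) / K) atTop
            (𝓝 (∫ z, f z ∂(ν : Measure ℝ)))) ∧
        ∀ A : Set ℝ, volume (frontier A) = 0 →
          Tendsto (fun K : ℕ => ({k : ℕ | k < K ∧ Edv (t * u k) ∈ A}.ncard : ℝ) / K)
            atTop (𝓝 ((ν : Measure ℝ).real A)))
  filter_upwards [hmain] with t ht h0
  obtain ⟨h1, h2⟩ := ht h0
  have e : ∀ k, (t * √(u k)) ^ 2 = t ^ 2 * u k := by
    intro k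
    rw [mul_pow, Real.sq_sqrt (hpos k).le]
  simp only [e] at h1 h2
  refine ⟨h1, fun A hA => h2 A ?_⟩
  have hac : (ν : Measure ℝ) ≪ volume := by
    rw [g3]
    exact withDensity_absolutelyContinuous _ _
  exact hac hA

/-- the metric bounds of the divisor problem -/
theorem div_bounds :
    (∀ u : ℕ → ℝ, (∀ k, 0 < u k) → (∀ A : ℝ, ∀ᶠ k : ℕ in atTop, (k : ℝ) ^ A ≤ u k) →
      ∀ᵐ t : ℝ, 0 < t → ∀ B η : ℝ, 0 < η → ∀ᶠ k : ℕ in atTop, ∀ x : ℝ, t * u k ≤ x →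
        x ≤ t * u k + (k : ℝ) ^ B → |Edv x| ≤ (k : ℝ) ^ η) ∧
    ∃ c : ℝ, 0 < c ∧ ∀ ε : ℝ, 0 < ε → ε ≤ c → ∀ κ : ℝ, κ = c * (ε * Real.log (1 / ε)) →
      ∀ lam : ℝ, 0 ≤ lam → lam ≤ 1 → ∀ u : ℕ → ℝ, (∀ k, 0 < u k) →
      ∀ T : Set ℝ, T = {t : ℝ | 0 < t ∧ ∃ᶠ k in atTop, ∃ x : ℝ, t * u k ≤ x ∧
        x ≤ t * u k + (u k) ^ lam ∧ x ^ ε < |Edv x|} →
      (∀ s : ℝ, 1 - κ + lam < s → (Summable fun k => (u k) ^ (1 - κ + lam - s)) →
        μH[s] T = 0) ∧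
      ((∀ A : ℝ, ∀ᶠ k : ℕ in atTop, (k : ℝ) ^ A ≤ u k) →
        dimH T ≤ ENNReal.ofReal (1 - κ + lam)) := by
  classical
  obtain ⟨c₁, hc₁, h1⟩ := Pool.Agent.Y969.SW.exc_divisor' (1 / 2) (by norm_num)
  obtain ⟨c, hc, hc2, -, hexc⟩ := exc_of hc₁ h1
  obtain ⟨ν, hν⟩ := Pool.Agent.Y969.SW.div_trunc
  obtain ⟨μ, -, -, -, hμ⟩ := hν 1 (fun _ => 1) (fun _ => 0) (fun _ => one_pos)
  have htr : ∀ p : ℝ, 0 < p → ∃ c₀ : ℝ, 0 < c₀ ∧ ∀ ε : ℝ, 0 < ε → ε ≤ c₀ →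
      ∃ M : ℝ, 0 ≤ M ∧ ∃ N₀ : ℕ, ∀ N : ℕ, N₀ ≤ N → ∀ S : Finset ℕ,
        (∀ n ∈ S, N ≤ n ∧ n < 2 * N ∧ |Edv n| ≤ (n : ℝ) ^ ε) →
          ∑ n ∈ S, |Edv n| ^ p ≤ M * N := by
    intro p hp
    obtain ⟨-, h2⟩ := hμ p hp
    obtain ⟨c₀, hc₀, h3⟩ := h2 (1 / 2) (by norm_num)
    have hn : ∀ n : ℕ, ‖(fun _ : Fin 1 => Edv (((1 : ℕ) : ℝ) * n + ((0 : ℕ) : ℝ)))‖ =
        |Edv n| := by
      intro n
      rw [pi_norm_const, Real.norm_eq_abs, Nat.cast_one, one_mul, Nat.cast_zero, add_zero]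
    refine tr_of (ev := fun n (_ : Fin 1) => Edv (((1 : ℕ) : ℝ) * n + ((0 : ℕ) : ℝ)))
      (D := 1) one_pos
      (fun n => ?_) (fun n i => ?_) hp (c₀ := c₀)
      (I := ∫ x, ‖x‖ ^ p ∂(μ : Measure (Fin 1 → ℝ))) hc₀ (fun ε hε hεc => ?_)
    · rw [hn, one_mul]
    · simp
    · obtain ⟨N₀, hN₀⟩ := h3 ε hε hεc (fun x => ‖x‖ ^ p) (by fun_prop (disch := positivity))
        ⟨1, fun x => by
          rw [abs_of_nonneg (by positivity)]
          linarith⟩ 1 one_pos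
      refine ⟨N₀, fun N hN => ?_⟩
      convert (hN₀ N hN).1 N le_rfl (by norm_num)
  obtain ⟨m1, m2, m3⟩ := metric hc hc2 hexc htr (loc_of Pool.Agent.Y969.SW.Dl_loc Edv_Dl)
  refine ⟨m1, c, hc, ?_⟩
  rintro ε hε hεc κ rfl lam hlam hlam1 u hu T rfl
  exact ⟨m2 ε hε hεc lam hlam hlam1 u hu, m3 ε hε hεc lam hlam hlam1 u hu⟩

end Pool.Agent.Q138.Met
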