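import Mathlib
import Pool.Agent.Q261.AS.Mass

set_option autoImplicit false

/-! # The dimension of the set of `α` for which `⌊α 4 ^ k⌋` is a perfect square infinitely often -/

namespace Pool.Agent.Q138.Met

open Filter Topology MeasureTheory Set
open scoped ENNReal NNReal

/-- exponents -/
def ex (M n : ℕ) : ℕ := 8 * M ^ n

/-- sizes of the alphabets -/
def TT (M n : ℕ) : ℕ := 2 ^ (ex M (n + 1) - 2 * ex M n - 4)

lemma ex_pos (M n : ℕ) (hM : 4 ≤ M) : 8 ≤ ex M n := by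
  unfold ex
  have : 0 < M ^ n := by positivity
  omega

lemma ex_succ (M n : ℕ) : ex M (n + 1) = M * ex M n := by
  unfold ex; ring

lemma ex_ge (M n : ℕ) (hM : 4 ≤ M) : 2 * ex M n + 5 ≤ ex M (n + 1) := by
  have h1 := ex_pos M n hM
  rw [ex_succ]
  nlinarith

lemma ex_add (M n i : ℕ) (hM : 4 ≤ M) : ex M n + i ≤ ex M (n + i) := by
  induction i with
  | zero => simp
  | succ j ih =>
    have := ex_ge M (n + j) hM
    have h2 : n + (j + 1) = n + j + 1 := by ring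
    rw [h2]
    omega

lemma ex_mono (M : ℕ) (hM : 4 ≤ M) {i n : ℕ} (h : i ≤ n) : ex M i ≤ ex M n := by
  obtain ⟨j, rfl⟩ := Nat.exists_eq_add_of_le h
  have := ex_add M i j hM
  omega

lemma TT_pos (M n : ℕ) : 0 < TT M n := by unfold TT; positivity

/-- the weights of the levels -/
noncomputable def dl (M n : ℕ) : ℝ := (1 / 2) ^ (ex M (n + 1))

lemma dl_pos (M n : ℕ) : 0 < dl M n := by unfold dl; positivity

lemma TT_dl (M n : ℕ) (hM : 4 ≤ M) : (TT M n : ℝ) * dl M n = (1 / 2) ^ (2 * ex M n + 4) := by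
  have h := ex_ge M n hM
  unfold TT dl
  push_cast
  have e : ex M (n + 1) = (ex M (n + 1) - 2 * ex M n - 4) + (2 * ex M n + 4) := by omega
  conv_lhs => rw [e, pow_add, ← mul_assoc]
  have e2 : ex M (n + 1) - 2 * ex M n - 4 + (2 * ex M n + 4) - 2 * ex M n - 4 =
      ex M (n + 1) - 2 * ex M n - 4 := by omega
  rw [e2, ← mul_pow]
  norm_num

variable {M : ℕ}

lemma term_nn (ω : ∀ n, Fin (TT M n)) (n : ℕ) : 0 ≤ ((ω n : ℕ) : ℝ) * dl M n :=
  mul_nonneg (Nat.cast_nonneg _) (dl_pos M n).le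

lemma term_le (hM : 4 ≤ M) (ω : ∀ n, Fin (TT M n)) (n : ℕ) :
    ((ω n : ℕ) : ℝ) * dl M n ≤ (1 / 2) ^ (2 * ex M n + 4) := by
  rw [← TT_dl M n hM]
  apply mul_le_mul_of_nonneg_right _ (dl_pos M n).le
  exact_mod_cast (ω n).2.le

lemma term_le2 (hM : 4 ≤ M) (ω : ∀ n, Fin (TT M n)) (n i : ℕ) :
    ((ω (i + n) : ℕ) : ℝ) * dl M (i + n) ≤ (1 / 2) ^ (2 * ex M n + 4) * (1 / 2) ^ i := by
  refine (term_le hM ω (i + n)).trans ?_
  rw [← pow_add]
  apply pow_le_pow_of_le_one (by norm_num) (by norm_num)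
  have := ex_add M n i hM
  rw [add_comm i n]
  omega

lemma tail_summable (hM : 4 ≤ M) (ω : ∀ n, Fin (TT M n)) (n : ℕ) :
    Summable fun i => ((ω (i + n) : ℕ) : ℝ) * dl M (i + n) := by
  refine Summable.of_nonneg_of_le (fun i => term_nn ω _) (fun i => term_le2 hM ω n i) ?_
  exact (summable_geometric_of_lt_one (by norm_num) (by norm_num)).mul_left _

/-- the tail -/
noncomputable def Rn (ω : ∀ n, Fin (TT M n)) (n : ℕ) : ℝ :=
  ∑' i, ((ω (i + n) : ℕ) : ℝ) * dl M (i + n)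

lemma Rn_nn (ω : ∀ n, Fin (TT M n)) (n : ℕ) : 0 ≤ Rn ω n := tsum_nonneg fun _ => term_nn ω _

lemma Rn_le (hM : 4 ≤ M) (ω : ∀ n, Fin (TT M n)) (n : ℕ) :
    Rn ω n ≤ (1 / 2) ^ (2 * ex M n + 3) := by
  unfold Rn
  refine ((tail_summable hM ω n).tsum_le_tsum (fun i => term_le2 hM ω n i)
    ((summable_geometric_of_lt_one (by norm_num) (by norm_num)).mul_left _)).trans ?_
  rw [tsum_mul_left, tsum_geometric_of_lt_one (by norm_num) (by norm_num)]
  apply le_of_eq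
  rw [show 2 * ex M n + 4 = 2 * ex M n + 3 + 1 by ring, pow_succ]
  ring

/-- the coding -/
noncomputable def gm (ω : ∀ n, Fin (TT M n)) : ℝ := 1 + ∑' i, ((ω i : ℕ) : ℝ) * dl M i

lemma summ (hM : 4 ≤ M) (ω : ∀ n, Fin (TT M n)) : Summable fun i => ((ω i : ℕ) : ℝ) * dl M i := by
  have := tail_summable hM ω 0
  simpa using this

lemma gm_split (hM : 4 ≤ M) (ω : ∀ n, Fin (TT M n)) (n : ℕ) :
    gm ω = 1 + ∑ i ∈ Finset.range n, ((ω i : ℕ) : ℝ) * dl M i + Rn ω n := by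
  unfold gm Rn
  rw [← (summ hM ω).sum_add_tsum_nat_add n]
  ring

lemma gm_ge (ω : ∀ n, Fin (TT M n)) : 1 ≤ gm ω := by
  have : 0 ≤ ∑' i, ((ω i : ℕ) : ℝ) * dl M i := tsum_nonneg fun _ => term_nn ω _
  unfold gm
  linarith

lemma gm_le (hM : 4 ≤ M) (ω : ∀ n, Fin (TT M n)) : gm ω ≤ 2 := by
  have h := gm_split hM ω 0
  have h2 := Rn_le hM ω 0
  have h3 : ((1 : ℝ) / 2) ^ (2 * ex M 0 + 3) ≤ 1 := pow_le_one₀ (by norm_num) (by norm_num)
  simp only [Finset.range_zero, Finset.sum_empty, add_zero] at h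
  linarith

lemma gm_meas (hM : 4 ≤ M) : Measurable (gm (M := M)) := by
  unfold gm
  apply Measurable.const_add
  refine measurable_of_tendsto_metrizable (f := fun n (ω : ∀ n, Fin (TT M n)) =>
    ∑ i ∈ Finset.range n, ((ω i : ℕ) : ℝ) * dl M i) (fun n => ?_) ?_
  · apply Finset.measurable_fun_sum
    intro i _
    apply Measurable.mul_const
    exact (measurable_from_top (f := fun v : Fin (TT M i) => ((v : ℕ) : ℝ))).comp
      (measurable_pi_apply i)
  · rw [tendsto_pi_nhds]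
    intro ω
    exact (summ hM ω).hasSum.tendsto_sum_nat

/-- the square of the coding has a perfect square as the integer part of the product with
`4 ^ (e_n)` -/
lemma gm_square (hM : 4 ≤ M) (ω : ∀ n, Fin (TT M n)) (n : ℕ) :
    IsSquare ⌊(gm ω) ^ 2 * 4 ^ (ex M n)⌋₊ := by
  -- the integer
  set m : ℕ := 2 ^ ex M n + ∑ i ∈ Finset.range n, (ω i : ℕ) * 2 ^ (ex M n - ex M (i + 1)) with hm
  have hmR : (m : ℝ) = (1 + ∑ i ∈ Finset.range n, ((ω i : ℕ) : ℝ) * dl M i) * 2 ^ ex M n := by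
    rw [hm, add_mul, one_mul, Finset.sum_mul]
    push_cast
    congr 1
    apply Finset.sum_congr rfl
    intro i hi
    rw [Finset.mem_range] at hi
    have h1 : ex M (i + 1) ≤ ex M n := ex_mono M hM (by omega)
    have h2 : (2 : ℝ) ^ ex M n = 2 ^ (ex M n - ex M (i + 1)) * 2 ^ ex M (i + 1) := by
      rw [← pow_add]
      congr 1
      omega
    rw [h2, mul_assoc]
    congr 1
    unfold dl
    rw [mul_comm, mul_assoc, ← mul_pow]
    norm_num
  set ρ : ℝ := Rn ω n * 2 ^ ex M n with hρ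
  have hρ0 : 0 ≤ ρ := mul_nonneg (Rn_nn ω n) (by positivity)
  have hP : (0 : ℝ) < 2 ^ ex M n := by positivity
  have hρ1 : ρ * 2 ^ ex M n ≤ 1 / 8 := by
    have h1 := Rn_le hM ω n
    have h2 : ρ * 2 ^ ex M n = Rn ω n * 2 ^ (2 * ex M n) := by
      rw [hρ, mul_assoc, ← pow_add]
      congr 2
      ring
    rw [h2]
    calc Rn ω n * 2 ^ (2 * ex M n) ≤ (1 / 2) ^ (2 * ex M n + 3) * 2 ^ (2 * ex M n) :=
          mul_le_mul_of_nonneg_right h1 (by positivity)
      _ = 1 / 8 := by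
          rw [pow_add, mul_right_comm, ← mul_pow]
          norm_num
  have hP1 : (1 : ℝ) ≤ 2 ^ ex M n := one_le_pow₀ (by norm_num)
  have hρ2 : ρ ≤ 1 / 8 := by nlinarith
  have hg : gm ω * 2 ^ ex M n = m + ρ := by
    rw [gm_split hM ω n, hmR, hρ]
    ring
  have hm2 : (m : ℝ) ≤ 2 * 2 ^ ex M n := by
    have h1 := gm_le hM ω
    nlinarith
  have hsq : (gm ω) ^ 2 * 4 ^ (ex M n) = ((m : ℝ) + ρ) ^ 2 := by
    rw [← hg, mul_pow, ← pow_mul, mul_comm (ex M n) 2, pow_mul]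
    norm_num
  have hfl : ⌊(gm ω) ^ 2 * 4 ^ (ex M n)⌋₊ = m ^ 2 := by
    rw [hsq, Nat.floor_eq_iff (by positivity)]
    push_cast
    have hm0 : (0 : ℝ) ≤ m := Nat.cast_nonneg _
    constructor
    · nlinarith
    · nlinarith
  rw [hfl]
  exact ⟨m, by ring⟩

/-- separation -/
lemma gm_sep (hM : 4 ≤ M) (n : ℕ) (ω ω' : ∀ n, Fin (TT M n)) (h : ∀ i < n, ω i = ω' i)
    (hlt : ω n < ω' n) :
    ((((ω' n : ℕ) : ℝ) - ((ω n : ℕ) : ℝ)) * dl M n) / 2 ≤ |(gm ω) ^ 2 - (gm ω') ^ 2| := by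
  have h1 := gm_split hM ω (n + 1)
  have h2 := gm_split hM ω' (n + 1)
  rw [Finset.sum_range_succ] at h1 h2
  have h3 : ∑ i ∈ Finset.range n, ((ω i : ℕ) : ℝ) * dl M i =
      ∑ i ∈ Finset.range n, ((ω' i : ℕ) : ℝ) * dl M i := by
    apply Finset.sum_congr rfl
    intro i hi
    rw [h i (Finset.mem_range.1 hi)]
  have h4 := Rn_nn ω' (n + 1)
  have h5 := Rn_le hM ω (n + 1)
  have hd : (1 : ℝ) ≤ ((ω' n : ℕ) : ℝ) - ((ω n : ℕ) : ℝ) := by
    have : (ω n : ℕ) + 1 ≤ (ω' n : ℕ) := hlt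
    have h6 : ((ω n : ℕ) : ℝ) + 1 ≤ ((ω' n : ℕ) : ℝ) := by exact_mod_cast this
    linarith
  have h6 : ((1 : ℝ) / 2) ^ (2 * ex M (n + 1) + 3) ≤ dl M n / 2 := by
    have e : dl M n / 2 = (1 / 2) ^ (ex M (n + 1) + 1) := by
      unfold dl
      rw [pow_succ]
      ring
    rw [e]
    apply pow_le_pow_of_le_one (by norm_num) (by norm_num)
    omega
  have hdl := dl_pos M n
  set d : ℝ := ((ω' n : ℕ) : ℝ) - ((ω n : ℕ) : ℝ) with hddef
  have h7 : gm ω' - gm ω = d * dl M n + Rn ω' (n + 1) - Rn ω (n + 1) := by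
    rw [h1, h2, h3, hddef]
    ring
  have h8 : d * dl M n / 2 ≤ gm ω' - gm ω := by
    rw [h7]
    nlinarith
  have h9 := gm_ge ω
  have h10 := gm_ge ω'
  have h11 : 0 ≤ d * dl M n / 2 := by positivity
  rw [abs_sub_comm]
  refine h8.trans ((?_ : gm ω' - gm ω ≤ (gm ω') ^ 2 - (gm ω) ^ 2).trans (le_abs_self _))
  nlinarith

lemma prod_le (hM : 4 ≤ M) {s : ℝ} (hs0 : 0 < s) (hs : s ≤ 1 / 2 - 1 / M) (n : ℕ) :
    ∏ i ∈ Finset.range n, (1 / (TT M i : ℝ)) ≤ 2 ^ (11 : ℕ) * ((1 / 2 : ℝ) ^ (2 * ex M n + 5)) ^ s := by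
  have hM0 : (0 : ℝ) < M := by
    have : 0 < M := by omega
    exact_mod_cast this
  have hs2 : s ≤ 1 / 2 := hs.trans (by
    have : 0 < 1 / (M : ℝ) := by positivity
    linarith)
  have key : ∀ n : ℕ, ((1 / 2 : ℝ) ^ (2 * ex M n + 5)) ^ s =
      (2 : ℝ) ^ (-(s * (2 * (ex M n : ℝ) + 5))) := by
    intro n
    rw [one_div, inv_pow, Real.inv_rpow (by positivity), ← Real.rpow_natCast 2, ← Real.rpow_mul
      (by norm_num), Real.rpow_neg (by norm_num)]
    congr 2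
    push_cast
    ring
  rw [key]
  have h11 : (2 : ℝ) ^ (11 : ℕ) = (2 : ℝ) ^ (11 : ℝ) := by norm_cast
  rw [h11, ← Real.rpow_add (by norm_num)]
  rcases n with _ | n
  · rw [Finset.range_zero, Finset.prod_empty]
    apply Real.one_le_rpow (by norm_num)
    have e0 : (ex M 0 : ℝ) = 8 := by
      unfold ex
      norm_num
    rw [e0]
    nlinarith
  · rw [Finset.prod_range_succ]
    have h1 : ∏ i ∈ Finset.range n, (1 / (TT M i : ℝ)) ≤ 1 := by
      apply Finset.prod_le_one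
      · intro i _
        positivity
      · intro i _
        have : (1 : ℝ) ≤ TT M i := by exact_mod_cast TT_pos M i
        rw [div_le_one (by linarith)]
        exact this
    have h2 : (1 / (TT M n : ℝ)) = (2 : ℝ) ^ (-((ex M (n + 1) : ℝ) - 2 * (ex M n : ℝ) - 4)) := by
      unfold TT
      rw [Real.rpow_neg (by norm_num), one_div]
      congr 1
      push_cast
      rw [← Real.rpow_natCast]
      congr 1
      have h := ex_ge M n hM
      rw [Nat.cast_sub (by omega), Nat.cast_sub (by omega)]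
      push_cast
      ring
    have h3 : (∏ i ∈ Finset.range n, (1 / (TT M i : ℝ))) * (1 / (TT M n : ℝ)) ≤
        1 * (1 / (TT M n : ℝ)) := mul_le_mul_of_nonneg_right h1 (by positivity)
    refine h3.trans ?_
    rw [one_mul, h2]
    apply Real.rpow_le_rpow_of_exponent_le (by norm_num)
    have h4 : (ex M (n + 1) : ℝ) = M * (ex M n : ℝ) := by
      rw [ex_succ]
      push_cast
      ring
    have h5 : (0 : ℝ) ≤ (ex M n : ℝ) := Nat.cast_nonneg _
    have h6 : s * (M : ℝ) ≤ M / 2 - 1 := by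
      calc s * (M : ℝ) ≤ (1 / 2 - 1 / M) * M := mul_le_mul_of_nonneg_right hs hM0.le
        _ = M / 2 - 1 := by field_simp
    rw [h4]
    nlinarith

open Classical in
theorem dim_squares_aux {s : ℝ≥0} (hs0 : 0 < s) (hs : (s : ℝ) < 1 / 2) :
    (s : ℝ≥0∞) ≤ dimH {α : ℝ | 0 < α ∧ ∃ᶠ k : ℕ in atTop, IsSquare ⌊α * 4 ^ k⌋₊} := by
  obtain ⟨M0, hM0⟩ := exists_nat_gt (1 / (1 / 2 - (s : ℝ)))
  set M : ℕ := max M0 4 with hMdef
  have hM : 4 ≤ M := le_max_right _ _
  have hMr : (0 : ℝ) < M := by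
    have : 0 < M := by omega
    exact_mod_cast this
  have hsM : (s : ℝ) ≤ 1 / 2 - 1 / M := by
    have h1 : 1 / (1 / 2 - (s : ℝ)) ≤ M := hM0.le.trans (by
      have : (M0 : ℝ) ≤ (M : ℝ) := by exact_mod_cast le_max_left M0 4
      exact this)
    have h2 : 0 < 1 / 2 - (s : ℝ) := by linarith
    rw [div_le_iff₀ h2] at h1
    have h3 : 1 / (M : ℝ) ≤ 1 / 2 - (s : ℝ) := by
      rw [div_le_iff₀ hMr]
      linarith
    linarith
  have hs' : (0 : ℝ) < s := by exact_mod_cast hs0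
  refine Q261.Asy.le_dimH_of_levels (TT M) (fun n _ => 1 / (TT M n : ℝ)) (fun n v => by positivity)
    (fun n => ?_) (π := fun ω => (gm ω) ^ 2) ((gm_meas hM).pow_const 2) hs0
    (C := 2 ^ (12 : ℕ)) (by positivity) (fun ω => ?_) (fun n ω ω' h hlt => ?_) _ (fun ω => ?_)
  · have := TT_pos M n
    have h2 : (TT M n : ℝ) ≠ 0 := by positivity
    simp [h2]
  · -- the cylinders shrink
    have h1 : ∀ n : ℕ, ∏ i ∈ Finset.range n, (1 / (TT M i : ℝ)) ≤ (1 / 2 : ℝ) ^ n := by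
      intro n
      have h0 : ∏ _i ∈ Finset.range n, (1 / 2 : ℝ) = (1 / 2) ^ n := by
        rw [Finset.prod_const, Finset.card_range]
      rw [← h0]
      apply Finset.prod_le_prod
      · intro i _
        positivity
      · intro i _
        apply one_div_le_one_div_of_le (by norm_num)
        have h := ex_ge M i hM
        have : 2 ^ 1 ≤ TT M i := Nat.pow_le_pow_right (by norm_num) (by omega)
        exact_mod_cast this
    refine squeeze_zero (fun n => Finset.prod_nonneg fun i _ => by positivity) h1 ?_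
    exact tendsto_pow_atTop_nhds_zero_of_lt_one (by norm_num) (by norm_num)
  · -- the main inequality
    have hsep := gm_sep hM n ω ω' h hlt
    have hpr := prod_le hM hs' hsM n
    have hT : (0 : ℝ) < TT M n := by exact_mod_cast TT_pos M n
    set d : ℝ := ((ω' n : ℕ) : ℝ) - ((ω n : ℕ) : ℝ) with hd
    have hlt' : (ω n : ℕ) < (ω' n : ℕ) := hlt
    have hd1 : 1 ≤ d := by
      have h6 : ((ω n : ℕ) : ℝ) + 1 ≤ ((ω' n : ℕ) : ℝ) := by exact_mod_cast hlt'
      linarith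
    have hdT : d ≤ TT M n := by
      have h6 : ((ω' n : ℕ) : ℝ) ≤ TT M n := by exact_mod_cast (ω' n).2.le
      have h7 : (0 : ℝ) ≤ ((ω n : ℕ) : ℝ) := Nat.cast_nonneg _
      linarith
    have hsum : ∑ v ∈ Finset.Icc (ω n) (ω' n), 1 / (TT M n : ℝ) = (d + 1) / TT M n := by
      rw [Finset.sum_const, Fin.card_Icc, nsmul_eq_mul]
      have : (((ω' n : ℕ) + 1 - (ω n : ℕ) : ℕ) : ℝ) = d + 1 := by
        rw [Nat.cast_sub (by omega)]
        push_cast
        rw [hd]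
        ring
      rw [this]
      ring
    rw [hsum]
    have h1 : (d + 1) / TT M n ≤ 2 * (d / TT M n) ^ (s : ℝ) := by
      have h2 : (d + 1) / TT M n ≤ 2 * (d / TT M n) := by
        rw [← mul_div_assoc]
        apply div_le_div_of_nonneg_right _ hT.le
        linarith
      refine h2.trans ?_
      apply mul_le_mul_of_nonneg_left _ (by norm_num)
      have h3 : d / TT M n ≤ 1 := by
        rw [div_le_one hT]
        exact hdT
      calc d / TT M n = (d / TT M n) ^ (1 : ℝ) := (Real.rpow_one _).symm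
        _ ≤ (d / TT M n) ^ (s : ℝ) :=
            Real.rpow_le_rpow_of_exponent_ge (by positivity) h3 (by linarith)
    have h4 : (d * dl M n / 2) = (d / TT M n) * (1 / 2 : ℝ) ^ (2 * ex M n + 5) := by
      have h5 := TT_dl M n hM
      rw [show 2 * ex M n + 5 = 2 * ex M n + 4 + 1 by ring, pow_succ, ← h5]
      field_simp
    have h6 : (d / TT M n) ^ (s : ℝ) * ((1 / 2 : ℝ) ^ (2 * ex M n + 5)) ^ (s : ℝ) ≤
        |(gm ω) ^ 2 - (gm ω') ^ 2| ^ (s : ℝ) := by
      rw [← Real.mul_rpow (by positivity) (by positivity), ← h4]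
      exact Real.rpow_le_rpow (by have := dl_pos M n; positivity) hsep hs'.le
    calc (∏ i ∈ Finset.range n, 1 / (TT M i : ℝ)) * ((d + 1) / TT M n)
        ≤ (2 ^ (11 : ℕ) * ((1 / 2 : ℝ) ^ (2 * ex M n + 5)) ^ (s : ℝ)) *
          (2 * (d / TT M n) ^ (s : ℝ)) :=
          mul_le_mul hpr h1 (by positivity) (by positivity)
      _ = 2 ^ (12 : ℕ) * ((d / TT M n) ^ (s : ℝ) *
          ((1 / 2 : ℝ) ^ (2 * ex M n + 5)) ^ (s : ℝ)) := by ring
      _ ≤ 2 ^ (12 : ℕ) * |(gm ω) ^ 2 - (gm ω') ^ 2| ^ (s : ℝ) :=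
          mul_le_mul_of_nonneg_left h6 (by positivity)
  · refine ⟨by have := gm_ge ω; positivity, ?_⟩
    rw [frequently_atTop]
    intro a
    refine ⟨ex M a, ?_, gm_square hM ω a⟩
    have := ex_add M 0 a hM
    rw [zero_add] at this
    omega

/-- the dimension is at least `1 / 2` -/
theorem dim_squares :
    (1 / 2 : ℝ≥0∞) ≤ dimH {α : ℝ | 0 < α ∧ ∃ᶠ k : ℕ in atTop, IsSquare ⌊α * 4 ^ k⌋₊} := by
  apply le_of_forall_lt
  intro c hc
  obtain ⟨r, hr1, hr2⟩ := exists_between hc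
  have hrt : r ≠ ∞ := (hr2.trans_le (by simp)).ne
  lift r to ℝ≥0 using hrt
  have hr0 : 0 < r := by
    have := lt_of_le_of_lt zero_le hr1
    exact_mod_cast this
  have h2 : (r : ℝ) < 1 / 2 := by
    have h3 : (r : ℝ≥0∞) < ((1 / 2 : ℝ≥0) : ℝ≥0∞) := by
      refine hr2.trans_le (le_of_eq ?_)
      rw [ENNReal.coe_div (by norm_num)]
      norm_num
    have h4 : r < 1 / 2 := by exact_mod_cast h3
    have h5 : (r : ℝ) < ((1 / 2 : ℝ≥0) : ℝ) := by exact_mod_cast h4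
    simpa using h5
  exact hr1.trans_le (dim_squares_aux hr0 h2)

end Pool.Agent.Q138.Met
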