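import Pool.Agent.Q138.Met.FloorC
import Pool.Agent.Q138.Met.Exc

set_option autoImplicit false

/-!
Metric theorems for integer parts `⌊α u_k⌋`, from bounds for the number of exceptional integers.
-/

namespace Pool.Agent.Q138.Met

open Finset Filter Topology MeasureTheory
open scoped ENNReal NNReal

noncomputable section

theorem card_small (s : Finset ℕ) {T : ℝ} (hT : 0 ≤ T) (hs : ∀ n ∈ s, 0 < n ∧ (n : ℝ) ≤ T) :
    (s.card : ℝ) ≤ T := by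
  have h : s ⊆ Ioc 0 ⌊T⌋₊ := by
    intro n hn
    obtain ⟨h1, h2⟩ := hs n hn
    exact Finset.mem_Ioc.2 ⟨h1, Nat.le_floor h2⟩
  have h1 := Finset.card_le_card h
  rw [Nat.card_Ioc, Nat.sub_zero] at h1
  calc (s.card : ℝ) ≤ (⌊T⌋₊ : ℝ) := by exact_mod_cast h1
    _ ≤ T := Nat.floor_le hT

/-- almost every multiple, for an exceptional set whose size decays exponentially in the
parameter `R` -/
theorem ae_gen {Bad : ℝ → ℕ → Prop} {C a R0 : ℝ} (hC : 0 ≤ C) (ha : 0 < a) {Y0 : ℕ}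
    (hcount : ∀ Y K : ℕ, Y0 ≤ Y → 1 ≤ K → K ^ 16 ≤ Y → ∀ R : ℝ, R0 ≤ R →
      16 * a * R ≤ Real.log Y → ∀ s : Finset ℕ, (∀ n ∈ s, 0 < n ∧ n ≤ Y ∧ Bad R n) →
      (s.card : ℝ) ≤ Y / K + (Y : ℝ) ^ (3 / 4 : ℝ) + C * Y * Real.exp (-(a * R)))
    (u : ℕ → ℝ) (hu : ∀ k, 0 < u k) (hgrow : ∀ᶠ k : ℕ in atTop, (k : ℝ) ^ 40 ≤ u k) :
    ∀ᵐ α : ℝ, 0 < α → ∀ᶠ k : ℕ in atTop, ¬ Bad (2 / a * Real.log k) ⌊α * u k⌋₊ := by
  classical
  have hut : Tendsto u atTop atTop := by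
    apply tendsto_atTop_mono' atTop (f₁ := fun k : ℕ => (k : ℝ)) _ tendsto_natCast_atTop_atTop
    filter_upwards [hgrow, eventually_ge_atTop 1] with k hk hk1
    have h1 : (1 : ℝ) ≤ k := by exact_mod_cast hk1
    exact (le_self_pow₀ h1 (by norm_num)).trans hk
  have key : ∀ m : ℕ, 1 ≤ m → ∀ᵐ α : ℝ, 0 < α → ∀ᶠ k : ℕ in atTop,
      ⌊α * u k⌋₊ ∉ (Finset.Ioc 0 ⌊(m : ℝ) * u k⌋₊).filter
        (fun n => Bad (2 / a * Real.log k) n) := by
    intro m hm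
    have hm1 : (1 : ℝ) ≤ m := by exact_mod_cast hm
    have hg : Summable fun k : ℕ => (2 + C) * m * ((k : ℝ) ^ 2)⁻¹ := by
      apply Summable.mul_left
      exact Real.summable_nat_pow_inv.2 (by norm_num)
    refine floor_ae u hu _ hg ?_
    have hR : ∀ᶠ k : ℕ in atTop, R0 ≤ 2 / a * Real.log k := by
      have h1 : Tendsto (fun k : ℕ => 2 / a * Real.log k) atTop atTop :=
        (Real.tendsto_log_atTop.comp tendsto_natCast_atTop_atTop).const_mul_atTop (by positivity)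
      exact h1.eventually_ge_atTop R0
    filter_upwards [hgrow, eventually_ge_atTop 2, hR, eventually_ge_atTop Y0] with k hk hk2 hkR hkY
    have huk := hu k
    have hk2' : (2 : ℝ) ≤ k := by exact_mod_cast hk2
    have hk1' : (1 : ℝ) ≤ k := by linarith
    set Y : ℕ := ⌊(m : ℝ) * u k⌋₊ with hY
    have hY1 : (Y : ℝ) ≤ m * u k := Nat.floor_le (by positivity)
    have hYk : k ^ 32 ≤ Y := by
      apply Nat.le_floor
      push_cast
      calc (k : ℝ) ^ 32 ≤ (k : ℝ) ^ 40 := pow_le_pow_right₀ hk1' (by norm_num)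
        _ ≤ u k := hk
        _ ≤ m * u k := by nlinarith
    have hYk' : (k : ℝ) ^ 32 ≤ Y := by exact_mod_cast hYk
    have hkRY : 16 * a * (2 / a * Real.log k) ≤ Real.log Y := by
      have h1 : 16 * a * (2 / a * Real.log k) = Real.log ((k : ℝ) ^ 32) := by
        rw [Real.log_pow]
        push_cast
        field_simp
        ring
      rw [h1]
      exact Real.log_le_log (by positivity) hYk'
    have hYY : Y0 ≤ Y := by
      have h1 : k ≤ k ^ 32 := Nat.le_self_pow (by norm_num) k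
      omega
    have h1 := hcount Y (k ^ 2) hYY (Nat.one_le_pow _ _ (by omega)) (by
      rw [← pow_mul]; exact hYk) (2 / a * Real.log k) hkR hkRY
      ((Finset.Ioc 0 Y).filter (fun n => Bad (2 / a * Real.log k) n)) (by
        intro n hn
        rw [Finset.mem_filter, Finset.mem_Ioc] at hn
        exact ⟨hn.1.1, hn.1.2, hn.2⟩)
    have hk0 : (0 : ℝ) < k := by linarith
    have e1 : Real.exp (-(a * (2 / a * Real.log k))) = ((k : ℝ) ^ 2)⁻¹ := by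
      have e2 : a * (2 / a * Real.log k) = Real.log ((k : ℝ) ^ 2) := by
        rw [Real.log_pow]
        push_cast
        field_simp
      rw [e2, Real.exp_neg, Real.exp_log (by positivity)]
    have h2 : (Y : ℝ) ^ (3 / 4 : ℝ) ≤ Y * ((k : ℝ) ^ 2)⁻¹ := by
      rw [← div_eq_mul_inv, le_div_iff₀ (by positivity)]
      have hY0 : (0 : ℝ) < Y := lt_of_lt_of_le (by positivity) hYk'
      have h3 : (k : ℝ) ^ 2 ≤ (Y : ℝ) ^ (1 / 4 : ℝ) := by
        calc (k : ℝ) ^ 2 ≤ (k : ℝ) ^ 8 := pow_le_pow_right₀ hk1' (by norm_num)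
          _ = ((k : ℝ) ^ 32) ^ (1 / 4 : ℝ) := by
              rw [← Real.rpow_natCast, ← Real.rpow_natCast, ← Real.rpow_mul hk0.le]
              norm_num
          _ ≤ _ := Real.rpow_le_rpow (by positivity) hYk' (by norm_num)
      calc (Y : ℝ) ^ (3 / 4 : ℝ) * (k : ℝ) ^ 2 ≤ (Y : ℝ) ^ (3 / 4 : ℝ) * (Y : ℝ) ^ (1 / 4 : ℝ) := by
            gcongr
        _ = Y := by
            rw [← Real.rpow_add hY0]
            norm_num
    rw [e1] at h1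
    push_cast at h1
    rw [div_le_iff₀ huk]
    have h4 : (0 : ℝ) ≤ ((k : ℝ) ^ 2)⁻¹ := by positivity
    calc (((Finset.Ioc 0 Y).filter (fun n => Bad (2 / a * Real.log k) n)).card : ℝ)
        ≤ Y / (k : ℝ) ^ 2 + (Y : ℝ) ^ (3 / 4 : ℝ) + C * Y * ((k : ℝ) ^ 2)⁻¹ := h1
      _ ≤ Y * ((k : ℝ) ^ 2)⁻¹ + Y * ((k : ℝ) ^ 2)⁻¹ + C * Y * ((k : ℝ) ^ 2)⁻¹ := by
          rw [div_eq_mul_inv]
          linarith
      _ = (2 + C) * ((k : ℝ) ^ 2)⁻¹ * Y := by ring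
      _ ≤ (2 + C) * ((k : ℝ) ^ 2)⁻¹ * (m * u k) := by
          apply mul_le_mul_of_nonneg_left hY1
          positivity
      _ = _ := by ring
  have hall : ∀ᵐ α : ℝ, ∀ m : ℕ, 1 ≤ m → 0 < α → ∀ᶠ k : ℕ in atTop,
      ⌊α * u k⌋₊ ∉ (Finset.Ioc 0 ⌊(m : ℝ) * u k⌋₊).filter
        (fun n => Bad (2 / a * Real.log k) n) := by
    rw [ae_all_iff]
    intro m
    by_cases hm : 1 ≤ m
    · filter_upwards [key m hm] with α hα _ using hα
    · exact Filter.Eventually.of_forall fun α h => absurd h hm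
  filter_upwards [hall] with α hα hα0
  have h1 := hα (⌈α⌉₊ + 1) (by omega) hα0
  have h2 : Tendsto (fun k => α * u k) atTop atTop := hut.const_mul_atTop hα0
  filter_upwards [h1, h2.eventually_ge_atTop 1] with k hk hk1 hbad
  apply hk
  rw [Finset.mem_filter, Finset.mem_Ioc]
  refine ⟨⟨?_, ?_⟩, hbad⟩
  · exact Nat.floor_pos.2 hk1
  · apply Nat.floor_le_floor
    apply mul_le_mul_of_nonneg_right _ (hu k).le
    have := Nat.le_ceil α
    push_cast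
    linarith

/-- the exceptional integers for `R = ε log n` -/
theorem eps_gen {Bad : ℝ → ℕ → Prop} {C a R0 : ℝ} (hC : 0 ≤ C) (ha : 0 < a) {Y0 : ℕ}
    (hmono : ∀ R R' : ℝ, ∀ n, R ≤ R' → Bad R' n → Bad R n)
    (hcount : ∀ Y K : ℕ, Y0 ≤ Y → 1 ≤ K → K ^ 16 ≤ Y → ∀ R : ℝ, R0 ≤ R → ∀ s : Finset ℕ,
      (∀ n ∈ s, 0 < n ∧ n ≤ Y ∧ Bad R n) →
      (s.card : ℝ) ≤ Y / K + (Y : ℝ) ^ (3 / 4 : ℝ) + C * Y * Real.exp (-(a * R)))
    {c : ℝ} (hc : 0 < c) (hc8 : c ≤ 1 / 8) (hca : c ≤ 3 / 4 * a) {ε : ℝ} (hε : 0 < ε)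
    (hε1 : ε ≤ 1 / 2) :
    ∃ Y1 : ℕ, ∀ Y : ℕ, Y1 ≤ Y → ∀ s : Finset ℕ,
      (∀ n ∈ s, 0 < n ∧ n ≤ Y ∧ Bad (ε * Real.log n) n) →
      (s.card : ℝ) ≤ (4 + C) * (Y : ℝ) ^ (1 - c * ε) := by
  classical
  have hR : ∀ᶠ Y : ℕ in atTop, R0 ≤ ε * (3 / 4) * Real.log Y := by
    have h1 : Tendsto (fun Y : ℕ => ε * (3 / 4) * Real.log Y) atTop atTop :=
      (Real.tendsto_log_atTop.comp tendsto_natCast_atTop_atTop).const_mul_atTop (by positivity)
    exact h1.eventually_ge_atTop R0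
  obtain ⟨Y2, hY2⟩ := eventually_atTop.1 hR
  refine ⟨max (max Y0 Y2) 1, fun Y hY s hs => ?_⟩
  have hY0 : Y0 ≤ Y := (le_max_left _ _).trans ((le_max_left _ _).trans hY)
  have hYR := hY2 Y ((le_max_right _ _).trans ((le_max_left _ _).trans hY))
  have hY1 : 1 ≤ Y := (le_max_right _ _).trans hY
  have hY1' : (1 : ℝ) ≤ Y := by exact_mod_cast hY1
  have hYp : (0 : ℝ) < Y := by linarith
  set t : ℝ := (Y : ℝ) ^ (1 / 16 : ℝ) with ht
  have ht1 : 1 ≤ t := Real.one_le_rpow hY1' (by norm_num)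
  have ht16 : t ^ 16 = Y := by
    rw [ht, ← Real.rpow_natCast, ← Real.rpow_mul hYp.le]
    norm_num
  set K : ℕ := ⌊t⌋₊ with hK
  have hK1 : 1 ≤ K := Nat.le_floor (by exact_mod_cast ht1)
  have hKt : (K : ℝ) ≤ t := Nat.floor_le (by linarith)
  have hKY : K ^ 16 ≤ Y := by
    have h1 : (K : ℝ) ^ 16 ≤ t ^ 16 := pow_le_pow_left₀ (Nat.cast_nonneg _) hKt 16
    rw [ht16] at h1
    exact_mod_cast h1
  have hKt2 : t ≤ 2 * K := by
    have h1 := Nat.lt_floor_add_one t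
    have h2 : (1 : ℝ) ≤ K := by exact_mod_cast hK1
    rw [← hK] at h1
    linarith
  set B := s.filter (fun n : ℕ => (n : ℝ) ≤ (Y : ℝ) ^ (3 / 4 : ℝ)) with hB
  set G := s.filter (fun n : ℕ => ¬ (n : ℝ) ≤ (Y : ℝ) ^ (3 / 4 : ℝ)) with hG
  have hcard : s.card = B.card + G.card := by
    rw [hB, hG, ← Finset.card_filter_add_card_filter_not (s := s)
      (fun n : ℕ => (n : ℝ) ≤ (Y : ℝ) ^ (3 / 4 : ℝ))]
  have hcB : (B.card : ℝ) ≤ (Y : ℝ) ^ (3 / 4 : ℝ) := card_small B (by positivity) fun n hn => by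
    rw [hB, Finset.mem_filter] at hn
    exact ⟨(hs n hn.1).1, hn.2⟩
  have hcG := hcount Y K hY0 hK1 hKY (ε * (3 / 4) * Real.log Y) hYR G (by
    intro n hn
    rw [hG, Finset.mem_filter, not_le] at hn
    obtain ⟨h1, h2, h3⟩ := hs n hn.1
    refine ⟨h1, h2, hmono _ _ n ?_ h3⟩
    have h4 : Real.log ((Y : ℝ) ^ (3 / 4 : ℝ)) ≤ Real.log n :=
      Real.log_le_log (by positivity) hn.2.le
    rw [Real.log_rpow hYp] at h4
    nlinarith)
  have hθ : (15 / 16 : ℝ) ≤ 1 - c * ε := by nlinarith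
  have hp1 : (Y : ℝ) ^ (3 / 4 : ℝ) ≤ (Y : ℝ) ^ (1 - c * ε) :=
    Real.rpow_le_rpow_of_exponent_le hY1' (by linarith)
  have hp2 : (Y : ℝ) / K ≤ 2 * (Y : ℝ) ^ (1 - c * ε) := by
    have hK0 : (0 : ℝ) < K := by exact_mod_cast hK1
    rw [div_le_iff₀ hK0]
    have h1 : (Y : ℝ) = (Y : ℝ) ^ (15 / 16 : ℝ) * t := by
      rw [ht, ← Real.rpow_add hYp]
      norm_num
    have h2 : (Y : ℝ) ^ (15 / 16 : ℝ) ≤ (Y : ℝ) ^ (1 - c * ε) :=
      Real.rpow_le_rpow_of_exponent_le hY1' hθ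
    calc (Y : ℝ) = (Y : ℝ) ^ (15 / 16 : ℝ) * t := h1
      _ ≤ (Y : ℝ) ^ (1 - c * ε) * (2 * K) := by gcongr
      _ = _ := by ring
  have hp3 : (Y : ℝ) * Real.exp (-(a * (ε * (3 / 4) * Real.log Y))) ≤ (Y : ℝ) ^ (1 - c * ε) := by
    have e1 : Real.exp (-(a * (ε * (3 / 4) * Real.log Y))) =
        (Y : ℝ) ^ (-(a * (ε * (3 / 4)))) := by
      rw [Real.rpow_def_of_pos hYp]
      congr 1
      ring
    rw [e1]
    calc (Y : ℝ) * (Y : ℝ) ^ (-(a * (ε * (3 / 4)))) =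
        (Y : ℝ) ^ (1 + -(a * (ε * (3 / 4)))) := by
          rw [Real.rpow_add hYp, Real.rpow_one]
      _ ≤ _ := by
          apply Real.rpow_le_rpow_of_exponent_le hY1'
          nlinarith
  have hcard' : (s.card : ℝ) = B.card + G.card := by exact_mod_cast hcard
  have h5 : C * Y * Real.exp (-(a * (ε * (3 / 4) * Real.log Y))) ≤
      C * (Y : ℝ) ^ (1 - c * ε) := by
    rw [mul_assoc]
    exact mul_le_mul_of_nonneg_left hp3 hC
  linarith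

/-- Hausdorff measures of the exceptional set -/
theorem null_gen {Bd : ℕ → Prop} {C θ s : ℝ} (hC : 0 ≤ C) (hθ : 0 ≤ θ) (hθs : θ < s) {Y1 : ℕ}
    (hcount : ∀ Y : ℕ, Y1 ≤ Y → ∀ s : Finset ℕ, (∀ n ∈ s, 0 < n ∧ n ≤ Y ∧ Bd n) →
      (s.card : ℝ) ≤ C * (Y : ℝ) ^ θ)
    (u : ℕ → ℝ) (hu : ∀ k, 0 < u k) (hsum : Summable fun k => (u k) ^ (θ - s)) :
    μH[s] {α : ℝ | 0 < α ∧ ∃ᶠ k : ℕ in atTop, Bd ⌊α * u k⌋₊} = 0 := by
  classical
  have hs0 : 0 < s := lt_of_le_of_lt hθ hθs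
  have hut : Tendsto u atTop atTop := by
    apply tendsto_of_summable (a := s - θ) (by linarith) u hu
    refine hsum.congr fun k => ?_
    congr 1
    ring
  have key : ∀ m : ℕ, μH[s] {α : ℝ | 0 < α ∧ ∃ᶠ k in atTop,
      ⌊α * u k⌋₊ ∈ (Finset.Ioc 0 ⌊((m : ℝ) + 1) * u k⌋₊).filter (fun n => Bd n)} = 0 := by
    intro m
    refine floor_null' (C := C * ((m : ℝ) + 1) ^ θ) hs0 u hu hsum _ ?_
    filter_upwards [hut.eventually_ge_atTop ((Y1 : ℝ) + 1)] with k hk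
    have huk := hu k
    have hm0 : (0 : ℝ) ≤ m := Nat.cast_nonneg m
    have h1 : Y1 ≤ ⌊((m : ℝ) + 1) * u k⌋₊ := by
      apply Nat.le_floor
      nlinarith
    have h2 := hcount ⌊((m : ℝ) + 1) * u k⌋₊ h1
      ((Finset.Ioc 0 ⌊((m : ℝ) + 1) * u k⌋₊).filter (fun n => Bd n)) (by
        intro n hn
        rw [Finset.mem_filter, Finset.mem_Ioc] at hn
        exact ⟨hn.1.1, hn.1.2, hn.2⟩)
    refine h2.trans ?_
    rw [mul_assoc, ← Real.mul_rpow (by positivity) huk.le]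
    apply mul_le_mul_of_nonneg_left _ hC
    apply Real.rpow_le_rpow (Nat.cast_nonneg _) _ hθ
    exact Nat.floor_le (by positivity)
  refine measure_mono_null (t := ⋃ m : ℕ, {α : ℝ | 0 < α ∧ ∃ᶠ k in atTop,
      ⌊α * u k⌋₊ ∈ (Finset.Ioc 0 ⌊((m : ℝ) + 1) * u k⌋₊).filter (fun n => Bd n)}) ?_
    (measure_iUnion_null key)
  rintro α ⟨hα0, hfr⟩
  rw [Set.mem_iUnion]
  refine ⟨⌈α⌉₊, hα0, ?_⟩
  have h2 : Tendsto (fun k => α * u k) atTop atTop := hut.const_mul_atTop hα0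
  refine (hfr.and_eventually (h2.eventually_ge_atTop 1)).mono ?_
  rintro k ⟨hk, hk1⟩
  rw [Finset.mem_filter, Finset.mem_Ioc]
  refine ⟨⟨Nat.floor_pos.2 hk1, ?_⟩, hk⟩
  apply Nat.floor_le_floor
  apply mul_le_mul_of_nonneg_right _ (hu k).le
  have := Nat.le_ceil α
  linarith

end

end Pool.Agent.Q138.Met
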