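import Pool.Agent.Q138.Met.AeAvg

set_option autoImplicit false

/-! # Mean squares of Weyl sums over separated sequences -/

namespace Pool.Agent.Q138.Met

open Filter Topology MeasureTheory Finset
open scoped ENNReal NNReal Real

theorem int_cos {μ ψ a b : ℝ} (hμ : μ ≠ 0) : |∫ t in a..b, Real.cos (μ * t - ψ)| ≤ 2 / |μ| := by
  rw [intervalIntegral.integral_comp_mul_sub (fun x => Real.cos x) hμ ψ, integral_cos,
    smul_eq_mul, abs_mul, abs_inv, mul_comm, div_eq_mul_inv]
  apply mul_le_mul_of_nonneg_right _ (by positivity)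
  have h1 := Real.abs_sin_le_one (μ * b - ψ)
  have h2 := Real.abs_sin_le_one (μ * a - ψ)
  have h3 := abs_sub (Real.sin (μ * b - ψ)) (Real.sin (μ * a - ψ))
  linarith

theorem harm_le (n : ℕ) : ∑ i ∈ range n, 1 / ((i : ℝ) + 1) ≤ 1 + Real.log n := by
  have h := harmonic_le_one_add_log n
  unfold harmonic at h
  refine le_trans (le_of_eq ?_) h
  push_cast
  exact Finset.sum_congr rfl fun i _ => by rw [one_div]

theorem sum_inv_dist {k K : ℕ} (hk : k < K) :
    ∑ l ∈ range K, (if l = k then 0 else 1 / |(k : ℝ) - l|) ≤ 2 * (1 + Real.log K) := by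
  have hK0 : (0 : ℝ) < K := by exact_mod_cast (by omega : 0 < K)
  have hK1 : (1 : ℝ) ≤ K := by exact_mod_cast (by omega : 1 ≤ K)
  have hlogK : 0 ≤ Real.log K := Real.log_nonneg hK1
  have hlog : ∀ n : ℕ, n ≤ K → 1 + Real.log n ≤ 1 + Real.log K := by
    intro n hn
    rcases Nat.eq_zero_or_pos n with rfl | hn0
    · simp [hlogK]
    · have : Real.log n ≤ Real.log K :=
        Real.log_le_log (by exact_mod_cast hn0) (by exact_mod_cast hn)
      linarith
  have h1 : ∑ l ∈ range K, (if l = k then 0 else 1 / |(k : ℝ) - l|) =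
      ∑ l ∈ range k, (if l = k then 0 else 1 / |(k : ℝ) - l|) +
        ∑ l ∈ Ico k K, (if l = k then 0 else 1 / |(k : ℝ) - l|) :=
    (Finset.sum_range_add_sum_Ico _ hk.le).symm
  have h2 : ∑ l ∈ range k, (if l = k then 0 else 1 / |(k : ℝ) - l|) ≤ 1 + Real.log K := by
    refine le_trans (le_of_eq ?_) ((harm_le k).trans (hlog k hk.le))
    rw [← Finset.sum_range_reflect (fun i : ℕ => 1 / ((i : ℝ) + 1)) k]
    refine Finset.sum_congr rfl fun l hl => ?_
    rw [mem_range] at hl
    rw [if_neg hl.ne]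
    have h3 : ((k - 1 - l : ℕ) : ℝ) = (k : ℝ) - 1 - l := by
      rw [Nat.cast_sub (by omega), Nat.cast_sub (by omega), Nat.cast_one]
    rw [h3, abs_of_pos (by
      have : (l : ℝ) < k := by exact_mod_cast hl
      linarith)]
    congr 1
    ring
  have h4 : ∑ l ∈ Ico k K, (if l = k then 0 else 1 / |(k : ℝ) - l|) ≤ 1 + Real.log K := by
    rw [← Finset.sum_Ioo_add_eq_sum_Ico hk, if_pos rfl, add_zero]
    have h5 : Ioo k K = Ico (k + 1) K := by
      ext x
      simp only [Finset.mem_Ioo, Finset.mem_Ico]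
      omega
    rw [h5, Finset.sum_Ico_eq_sum_range]
    refine le_trans (le_of_eq ?_) ((harm_le (K - (k + 1))).trans (hlog _ (by omega)))
    refine Finset.sum_congr rfl fun l hl => ?_
    rw [if_neg (by omega)]
    push_cast
    have h6 : (k : ℝ) - (k + 1 + l) = -((l : ℝ) + 1) := by ring
    rw [h6, abs_neg, abs_of_pos (by positivity)]
  rw [h1]
  linarith

theorem one_add_log_le {K : ℕ} (hK : 1 ≤ K) : 1 + Real.log K ≤ 5 * (K : ℝ) ^ (1 / 4 : ℝ) := by
  have hK1 : (1 : ℝ) ≤ K := by exact_mod_cast hK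
  have h1 := Real.log_le_rpow_div (by linarith : (0 : ℝ) ≤ K) (by norm_num : (0 : ℝ) < 1 / 4)
  have h2 : (1 : ℝ) ≤ (K : ℝ) ^ (1 / 4 : ℝ) := Real.one_le_rpow hK1 (by norm_num)
  linarith

theorem sep_le {R : ℕ → ℝ} {δ : ℝ} (hR : ∀ k, R k + δ ≤ R (k + 1)) (k n : ℕ) :
    R k + n * δ ≤ R (k + n) := by
  induction n with
  | zero => simp
  | succ n ih =>
    have := hR (k + n)
    rw [← add_assoc]
    push_cast
    linarith

theorem sep_abs {R : ℕ → ℝ} {δ : ℝ} (hR : ∀ k, R k + δ ≤ R (k + 1)) (k l : ℕ) :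
    |(k : ℝ) - l| * δ ≤ |R k - R l| := by
  rcases le_total k l with h | h
  · obtain ⟨n, rfl⟩ := Nat.exists_eq_add_of_le h
    have h1 := sep_le hR k n
    have h2 : (k : ℝ) - ((k + n : ℕ) : ℝ) = -(n : ℝ) := by push_cast; ring
    rw [h2, abs_neg, abs_of_nonneg (Nat.cast_nonneg n), abs_sub_comm]
    refine le_trans ?_ (le_abs_self _)
    linarith
  · obtain ⟨n, rfl⟩ := Nat.exists_eq_add_of_le h
    have h1 := sep_le hR l n
    have h2 : ((l + n : ℕ) : ℝ) - (l : ℝ) = (n : ℝ) := by push_cast; ring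
    rw [h2, abs_of_nonneg (Nat.cast_nonneg n)]
    refine le_trans ?_ (le_abs_self _)
    linarith

theorem sep_pos {R : ℕ → ℝ} {δ : ℝ} (hδ : 0 < δ) (hR0 : 0 < R 0)
    (hR : ∀ k, R k + δ ≤ R (k + 1)) (k : ℕ) : 0 < R k := by
  have := sep_le hR 0 k
  rw [Nat.zero_add] at this
  have h2 : 0 ≤ (k : ℝ) * δ := by positivity
  linarith

/-- the mean square of a Weyl sum over a separated sequence -/
theorem weyl_sq {R : ℕ → ℝ} {δ : ℝ} (hδ : 0 < δ) (hR0 : 0 < R 0)
    (hR : ∀ k, R k + δ ≤ R (k + 1)) {a b : ℝ} (hab : a ≤ b) :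
    ∃ C : ℝ, 0 ≤ C ∧ ∀ lam ψ : ℝ, lam ≠ 0 → ∀ K : ℕ, ∀ s ⊆ range K,
      ∫ t in a..b, (∑ k ∈ s, Real.cos (2 * π * (t * R k * lam) - ψ)) ^ 2 ≤
        C * (1 + 1 / |lam|) * (K : ℝ) ^ (5 / 4 : ℝ) := by
  refine ⟨(b - a) + 10 / δ, by
    have : 0 ≤ b - a := by linarith
    positivity, ?_⟩
  intro lam ψ hlam K s hs
  have hlam0 : 0 < |lam| := abs_pos.2 hlam
  rcases Nat.eq_zero_or_pos K with rfl | hK
  · have : s = ∅ := by
      rw [range_zero] at hs
      exact Finset.subset_empty.1 hs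
    subst this
    simp only [sum_empty]
    norm_num
  have hK0 : (0 : ℝ) < K := by exact_mod_cast hK
  have hK1 : (1 : ℝ) ≤ K := by exact_mod_cast hK
  set c : ℕ → ℝ → ℝ := fun k t => Real.cos (2 * π * (t * R k * lam) - ψ) with hc
  have hcc : ∀ k, Continuous (c k) := fun k => by
    simp only [hc]
    fun_prop
  have h1 : ∫ t in a..b, (∑ k ∈ s, c k t) ^ 2 = ∑ k ∈ s, ∑ l ∈ s, ∫ t in a..b, c k t * c l t := by
    have e : ∀ t, (∑ k ∈ s, c k t) ^ 2 = ∑ k ∈ s, ∑ l ∈ s, c k t * c l t := by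
      intro t
      rw [sq, Finset.sum_mul_sum]
    simp only [e]
    rw [intervalIntegral.integral_finset_sum]
    · refine Finset.sum_congr rfl fun k _ => ?_
      rw [intervalIntegral.integral_finset_sum]
      intro l _
      exact ((hcc k).mul (hcc l)).intervalIntegrable _ _
    · intro k _
      refine Continuous.intervalIntegrable ?_ _ _
      exact continuous_finset_sum _ fun l _ => (hcc k).mul (hcc l)
  have hdiag : ∀ k l, ∫ t in a..b, c k t * c l t ≤ b - a := by
    intro k l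
    have h2 : ∫ t in a..b, c k t * c l t ≤ ∫ _t in a..b, (1 : ℝ) := by
      apply intervalIntegral.integral_mono_on hab
      · exact ((hcc k).mul (hcc l)).intervalIntegrable _ _
      · exact continuous_const.intervalIntegrable _ _
      · intro t _
        have h3 := Real.abs_cos_le_one (2 * π * (t * R k * lam) - ψ)
        have h4 := Real.abs_cos_le_one (2 * π * (t * R l * lam) - ψ)
        calc c k t * c l t ≤ |c k t * c l t| := le_abs_self _
          _ = |c k t| * |c l t| := abs_mul _ _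
          _ ≤ 1 * 1 := mul_le_mul h3 h4 (abs_nonneg _) zero_le_one
          _ = 1 := one_mul 1
    rwa [intervalIntegral.integral_const, smul_eq_mul, mul_one] at h2
  have hoff : ∀ k l, k ≠ l → ∫ t in a..b, c k t * c l t ≤ 1 / (|lam| * δ) * (1 / |(k : ℝ) - l|) := by
    intro k l hkl
    have hd : 0 < |(k : ℝ) - l| := abs_pos.2 (sub_ne_zero.2 (by exact_mod_cast hkl))
    have hRk := sep_pos hδ hR0 hR k
    have hRl := sep_pos hδ hR0 hR l
    have hs1 := sep_abs hR k l
    have hs2 : |(k : ℝ) - l| * δ ≤ |R k + R l| := by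
      refine hs1.trans ?_
      rw [abs_of_pos (by linarith : 0 < R k + R l)]
      exact abs_le.2 ⟨by linarith, by linarith⟩
    have hdδ : 0 < |(k : ℝ) - l| * δ := by positivity
    have e : ∀ t, c k t * c l t = (1 / 2) * (Real.cos ((2 * π * lam * (R k - R l)) * t - 0) +
        Real.cos ((2 * π * lam * (R k + R l)) * t - 2 * ψ)) := by
      intro t
      have h5 := Real.two_mul_cos_mul_cos (2 * π * (t * R k * lam) - ψ) (2 * π * (t * R l * lam) - ψ)
      have h6 : (2 * π * (t * R k * lam) - ψ) - (2 * π * (t * R l * lam) - ψ) =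
        (2 * π * lam * (R k - R l)) * t - 0 := by ring
      have h7 : (2 * π * (t * R k * lam) - ψ) + (2 * π * (t * R l * lam) - ψ) =
        (2 * π * lam * (R k + R l)) * t - 2 * ψ := by ring
      rw [h6, h7] at h5
      simp only [hc]
      linarith
    simp only [e]
    rw [intervalIntegral.integral_const_mul, intervalIntegral.integral_add
      (Continuous.intervalIntegrable (by fun_prop) _ _)
      (Continuous.intervalIntegrable (by fun_prop) _ _)]
    have key : ∀ x : ℝ, |(k : ℝ) - l| * δ ≤ |x| → ∀ ψ' : ℝ,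
        ∫ t in a..b, Real.cos ((2 * π * lam * x) * t - ψ') ≤
          1 / (|lam| * δ) * (1 / |(k : ℝ) - l|) := by
      intro x hx ψ'
      have hx0 : 0 < |x| := lt_of_lt_of_le hdδ hx
      have hne : 2 * π * lam * x ≠ 0 := by
        have : x ≠ 0 := abs_pos.1 hx0
        have := Real.pi_ne_zero
        positivity
      refine (le_abs_self _).trans ((int_cos hne).trans ?_)
      rw [abs_mul, abs_mul, abs_of_pos (by positivity : (0 : ℝ) < 2 * π)]
      have h8 : |lam| * (|(k : ℝ) - l| * δ) ≤ π * |lam| * |x| := by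
        have h9 : |lam| * (|(k : ℝ) - l| * δ) ≤ |lam| * |x| :=
          mul_le_mul_of_nonneg_left hx hlam0.le
        have h10 : 0 ≤ |lam| * |x| := by positivity
        have := Real.pi_gt_three
        nlinarith
      rw [div_le_iff₀ (by positivity)]
      have h11 : 1 / (|lam| * δ) * (1 / |(k : ℝ) - l|) * (2 * π * |lam| * |x|) =
          2 * ((π * |lam| * |x|) / (|lam| * (|(k : ℝ) - l| * δ))) := by
        field_simp
      rw [h11]
      have h12 : 1 ≤ (π * |lam| * |x|) / (|lam| * (|(k : ℝ) - l| * δ)) := by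
        rw [le_div_iff₀ (by positivity), one_mul]
        exact h8
      linarith
    have k1 := key _ hs1 0
    have k2 := key _ hs2 (2 * ψ)
    linarith
  have hrow : ∀ k ∈ s, ∑ l ∈ s, ∫ t in a..b, c k t * c l t ≤
      (b - a) + 1 / (|lam| * δ) * (2 * (1 + Real.log K)) := by
    intro k hk
    have hkK : k < K := mem_range.1 (hs hk)
    have h13 : ∀ l ∈ s, ∫ t in a..b, c k t * c l t ≤
        (if l = k then (b - a) else 0) +
          1 / (|lam| * δ) * (if l = k then 0 else 1 / |(k : ℝ) - l|) := by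
      intro l _
      by_cases hlk : l = k
      · rw [if_pos hlk, if_pos hlk, mul_zero, add_zero]
        exact hdiag k l
      · rw [if_neg hlk, if_neg hlk, zero_add]
        exact hoff k l (Ne.symm hlk)
    refine (Finset.sum_le_sum h13).trans ?_
    rw [Finset.sum_add_distrib, ← Finset.mul_sum]
    have hba : 0 ≤ b - a := by linarith
    have h14 : ∑ l ∈ s, (if l = k then (b - a) else 0) ≤ b - a := by
      rw [Finset.sum_ite_eq' s k fun _ => b - a]
      split_ifs <;> linarith
    have h15 : ∑ l ∈ s, (if l = k then 0 else 1 / |(k : ℝ) - l|) ≤ 2 * (1 + Real.log K) := by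
      refine le_trans (Finset.sum_le_sum_of_subset_of_nonneg hs fun l _ _ => ?_)
        (sum_inv_dist hkK)
      split_ifs
      · exact le_refl _
      · positivity
    have h16 : 1 / (|lam| * δ) * ∑ l ∈ s, (if l = k then 0 else 1 / |(k : ℝ) - l|) ≤
        1 / (|lam| * δ) * (2 * (1 + Real.log K)) :=
      mul_le_mul_of_nonneg_left h15 (by positivity)
    linarith
  have htot : ∑ k ∈ s, ∑ l ∈ s, ∫ t in a..b, c k t * c l t ≤
      K * ((b - a) + 1 / (|lam| * δ) * (2 * (1 + Real.log K))) := by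
    refine (Finset.sum_le_sum hrow).trans ?_
    rw [Finset.sum_const, nsmul_eq_mul]
    apply mul_le_mul_of_nonneg_right
    · have h17 := Finset.card_le_card hs
      rw [card_range] at h17
      exact_mod_cast h17
    · have hba : 0 ≤ b - a := by linarith
      have := Real.log_nonneg hK1
      positivity
  rw [h1]
  refine htot.trans ?_
  have hlogb := one_add_log_le hK
  have hp1 : (K : ℝ) ≤ (K : ℝ) ^ (5 / 4 : ℝ) := by
    nth_rewrite 1 [← Real.rpow_one (K : ℝ)]
    exact Real.rpow_le_rpow_of_exponent_le hK1 (by norm_num)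
  have hp2 : (K : ℝ) * (K : ℝ) ^ (1 / 4 : ℝ) = (K : ℝ) ^ (5 / 4 : ℝ) := by
    nth_rewrite 1 [← Real.rpow_one (K : ℝ)]
    rw [← Real.rpow_add hK0]
    norm_num
  have hba : 0 ≤ b - a := by linarith
  set P := (K : ℝ) ^ (5 / 4 : ℝ) with hP
  have hP0 : 0 ≤ P := by positivity
  have t1 : K * (b - a) ≤ (b - a) * P := by
    rw [mul_comm]
    exact mul_le_mul_of_nonneg_left hp1 hba
  have t2 : K * (1 / (|lam| * δ) * (2 * (1 + Real.log K))) ≤ 10 / δ * (1 / |lam|) * P := by
    calc K * (1 / (|lam| * δ) * (2 * (1 + Real.log K))) ≤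
        K * (1 / (|lam| * δ) * (2 * (5 * (K : ℝ) ^ (1 / 4 : ℝ)))) := by gcongr
      _ = 10 / δ * (1 / |lam|) * (K * (K : ℝ) ^ (1 / 4 : ℝ)) := by
        field_simp
        ring
      _ = _ := by rw [hp2]
  calc K * ((b - a) + 1 / (|lam| * δ) * (2 * (1 + Real.log K))) =
      K * (b - a) + K * (1 / (|lam| * δ) * (2 * (1 + Real.log K))) := by ring
    _ ≤ (b - a) * P + 10 / δ * (1 / |lam|) * P := add_le_add t1 t2
    _ ≤ ((b - a) + 10 / δ) * (1 + 1 / |lam|) * P := by
      rw [← add_mul]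
      apply mul_le_mul_of_nonneg_right _ hP0
      have u1 : 0 ≤ 10 / δ := by positivity
      have u2 : 0 ≤ 1 / |lam| := by positivity
      nlinarith

/-- the same with the Lebesgue integral -/
theorem lint_of_int {F : ℝ → ℝ} (hF : Continuous F) (h0 : ∀ t, 0 ≤ F t) {a b B : ℝ} (hab : a ≤ b)
    (h : ∫ t in a..b, F t ≤ B) :
    ∫⁻ t in Set.Icc a b, ENNReal.ofReal (F t) ≤ ENNReal.ofReal B := by
  rw [← ofReal_integral_eq_lintegral_ofReal]
  · apply ENNReal.ofReal_le_ofReal
    rwa [intervalIntegral.integral_of_le hab, ← integral_Icc_eq_integral_Ioc] at h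
  · exact hF.integrableOn_Icc
  · exact Eventually.of_forall h0

end Pool.Agent.Q138.Met
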